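import Mathlib

open Polynomial Module

namespace W534.FS

theorem not_integral {p a : ℕ} (hp : p.Prime) {K : Type*} [Field K] [CharZero K] {P : ℤ[X]}
    (hw : ∀ z : ℂ, aeval z P = 0 → ‖z‖ = (p : ℝ) ^ a) {z : K} (hz : aeval z P = 0)
    (hn : ∀ m, 0 < m → z ^ m ≠ ((p : K) ^ a) ^ m) : ¬ IsIntegral ℤ (z / (p : K) ^ a) := by
  intro hi
  have hq : ((p : K) ^ a) ≠ 0 := pow_ne_zero _ (by exact_mod_cast hp.ne_zero)
  have hqR : (0 : ℝ) < (p : ℝ) ^ a := pow_pos (by exact_mod_cast hp.pos) _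
  set β : K := z / (p : K) ^ a with hβ
  have hiQ : IsIntegral ℚ β := hi.tower_top
  have : FiniteDimensional ℚ (IntermediateField.adjoin ℚ {β}) :=
    IntermediateField.adjoin.finiteDimensional hiQ
  have : NumberField (IntermediateField.adjoin ℚ {β}) := { }
  set x : IntermediateField.adjoin ℚ {β} := IntermediateField.AdjoinSimple.gen ℚ β with hx
  have hxK : algebraMap (IntermediateField.adjoin ℚ {β}) K x = β :=
    IntermediateField.AdjoinSimple.algebraMap_gen ℚ β
  have hinj : Function.Injective (algebraMap (IntermediateField.adjoin ℚ {β}) K) :=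
    (algebraMap (IntermediateField.adjoin ℚ {β}) K).injective
  have hxi : IsIntegral ℤ x := by
    have : IsIntegral ℤ (algebraMap (IntermediateField.adjoin ℚ {β}) K x) := by rw [hxK]; exact hi
    exact (isIntegral_algebraMap_iff hinj).1 this
  have hroot : aeval (((p : IntermediateField.adjoin ℚ {β}) ^ a) * x) P = 0 := by
    apply hinj
    rw [map_zero, ← aeval_algebraMap_apply, map_mul, hxK, map_pow, map_natCast, hβ,
      mul_div_cancel₀ _ hq]
    exact hz
  obtain ⟨n, hn0, hn1⟩ := NumberField.Embeddings.pow_eq_one_of_norm_eq_one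
    (IntermediateField.adjoin ℚ {β}) ℂ hxi (by
      intro φ
      have h1 : aeval (φ (((p : IntermediateField.adjoin ℚ {β}) ^ a) * x)) P = 0 := by
        have := congrArg φ hroot
        rw [map_zero] at this
        rw [← this]
        have e := (Polynomial.hom_eval₂ P (algebraMap ℤ (IntermediateField.adjoin ℚ {β})) φ
          (((p : IntermediateField.adjoin ℚ {β}) ^ a) * x))
        rw [aeval_def, aeval_def, e]
        congr 1
        exact RingHom.ext_int _ _
      have h2 := hw _ h1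
      rw [map_mul, map_pow, map_natCast, norm_mul, norm_pow, Complex.norm_natCast] at h2
      have h3 : (p : ℝ) ^ a * ‖φ x‖ = (p : ℝ) ^ a * 1 := by rw [h2, mul_one]
      exact mul_left_cancel₀ hqR.ne' h3)
  apply hn n hn0
  have h4 : β ^ n = 1 := by rw [← hxK, ← map_pow, hn1, map_one]
  rw [hβ, div_pow, div_eq_one_iff_eq (pow_ne_zero _ hq)] at h4
  exact h4

/-- `H(q x)` -/
noncomputable def sc (q : ℤ) (H : ℤ[X]) : ℤ[X] := H.comp (C q * X)

theorem sc_coeff (q : ℤ) (H : ℤ[X]) (n : ℕ) : (sc q H).coeff n = H.coeff n * q ^ n := by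
  unfold sc; rw [comp_C_mul_X_coeff]

theorem sc_mul (q : ℤ) (H H' : ℤ[X]) : sc q (H * H') = sc q H * sc q H' := by
  unfold sc; rw [mul_comp]

theorem sc_pow (q : ℤ) (H : ℤ[X]) (k : ℕ) : sc q (H ^ k) = sc q H ^ k := by
  unfold sc; rw [pow_comp]

theorem sc_aeval {K : Type*} [CommRing K] (q : ℤ) (H : ℤ[X]) (z : K) :
    aeval z (sc q H) = aeval ((q : K) * z) H := by
  unfold sc
  rw [aeval_comp]
  simp

theorem content_pow' (H : ℤ[X]) (k : ℕ) : (H ^ k).content = H.content ^ k := by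
  induction k with
  | zero => simp
  | succ k ih => rw [pow_succ, content_mul, ih, pow_succ]

theorem sc_content {p a : ℕ} (hp : p.Prime) {H : ℤ[X]} (hH : H.Monic) :
    ∃ t, t ≤ a * H.natDegree ∧ (sc ((p : ℤ) ^ a) H).content.natAbs = p ^ t := by
  have h1 : (sc ((p : ℤ) ^ a) H).content ∣ ((p : ℤ) ^ a) ^ H.natDegree := by
    have := content_dvd_coeff (p := sc ((p : ℤ) ^ a) H) H.natDegree
    rwa [sc_coeff, hH.coeff_natDegree, one_mul] at this
  have h2 := Int.natAbs_dvd_natAbs.2 h1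
  rw [← pow_mul, Int.natAbs_pow, Int.natAbs_natCast] at h2
  exact (Nat.dvd_prime_pow hp).1 h2

/-- if `q^d` divides `E(qx)` then `z / q` is integral -/
theorem integral_of_content {p a : ℕ} (hp : p.Prime) {K : Type*} [Field K] [CharZero K]
    {E : ℤ[X]} (hE : E.Monic) {z : K} (hz : aeval z E = 0)
    (hc : (((p : ℤ) ^ a) ^ E.natDegree) ∣ (sc ((p : ℤ) ^ a) E).content) :
    IsIntegral ℤ (z / (p : K) ^ a) := by
  have hq : ((p : K) ^ a) ≠ 0 := pow_ne_zero _ (by exact_mod_cast hp.ne_zero)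
  have hqZ : (((p : ℤ) ^ a) ^ E.natDegree) ≠ 0 :=
    pow_ne_zero _ (pow_ne_zero _ (by exact_mod_cast hp.ne_zero))
  rw [dvd_content_iff_C_dvd] at hc
  obtain ⟨E', hE'⟩ := hc
  have hcoef : ∀ n, (((p : ℤ) ^ a) ^ E.natDegree) * E'.coeff n = E.coeff n * ((p : ℤ) ^ a) ^ n := by
    intro n
    rw [← sc_coeff, hE', coeff_C_mul]
  have hmon : E'.Monic := by
    apply monic_of_natDegree_le_of_coeff_eq_one E.natDegree
    · rw [natDegree_le_iff_coeff_eq_zero]
      intro N hN
      have := hcoef N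
      rw [coeff_eq_zero_of_natDegree_lt hN, zero_mul] at this
      exact (mul_eq_zero.1 this).resolve_left hqZ
    · have := hcoef E.natDegree
      rw [hE.coeff_natDegree, one_mul] at this
      exact mul_left_cancel₀ hqZ (by rw [this, mul_one])
  refine ⟨E', hmon, ?_⟩
  have h1 : aeval (z / (p : K) ^ a) (sc ((p : ℤ) ^ a) E) = 0 := by
    rw [sc_aeval]
    push_cast
    rw [mul_div_cancel₀ _ hq]
    exact hz
  rw [hE', map_mul, aeval_C] at h1
  have h2 : (algebraMap ℤ K) (((p : ℤ) ^ a) ^ E.natDegree) ≠ 0 := by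
    rw [eq_intCast]; exact_mod_cast hqZ
  have := (mul_eq_zero.1 h1).resolve_left h2
  rwa [aeval_def] at this


/-- factorisation with respect to the minimal polynomial of a root -/
theorem factor {K : Type*} [Field K] [CharZero K] {P : ℤ[X]} (hP : P.Monic) {z : K}
    (hz : aeval z P = 0) :
    ∃ (k : ℕ) (G : ℤ[X]), G.Monic ∧ (minpoly ℤ z).Monic ∧ P = (minpoly ℤ z) ^ k * G ∧ 0 < k ∧
      0 < (minpoly ℤ z).natDegree ∧
      rootMultiplicity z (P.map (Int.castRingHom K)) = k := by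
  classical
  have hint : IsIntegral ℤ z := ⟨P, hP, by rwa [aeval_def] at hz⟩
  set E := minpoly ℤ z with hEdef
  have hEm : E.Monic := minpoly.monic hint
  have hdeg : 0 < E.natDegree := minpoly.natDegree_pos hint
  have hEP : E ∣ P := minpoly.isIntegrallyClosed_dvd hint hz
  have hnu : ¬ IsUnit E := by
    intro h
    have := hEm.isUnit_iff.1 h
    rw [this] at hdeg
    simp at hdeg
  have hfin : FiniteMultiplicity E P := FiniteMultiplicity.of_not_isUnit hnu hP.ne_zero
  obtain ⟨G, hG, hnd⟩ := hfin.exists_eq_pow_mul_and_not_dvd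
  set k := multiplicity E P with hk
  have hk0 : 0 < k := by
    rcases Nat.eq_zero_or_pos k with h | h
    · rw [h, pow_zero, one_mul] at hG
      exact absurd (hG ▸ hEP) hnd
    · exact h
  have hGm : G.Monic := by
    have h1 : (E ^ k).Monic := hEm.pow k
    rw [hG] at hP
    exact h1.of_mul_monic_left hP
  have hGz : aeval z G ≠ 0 := fun h => hnd (minpoly.isIntegrallyClosed_dvd hint h)
  refine ⟨k, G, hGm, hEm, hG, hk0, hdeg, ?_⟩
  have hEK : (E.map (Int.castRingHom K)).Separable := by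
    have h1 : minpoly ℚ z = E.map (algebraMap ℤ ℚ) :=
      minpoly.isIntegrallyClosed_eq_field_fractions' ℚ hint
    have h2 : (minpoly ℚ z).Separable := (minpoly.irreducible hint.tower_top).separable
    have h3 := (Polynomial.Separable.map h2 (f := algebraMap ℚ K))
    rw [h1, Polynomial.map_map] at h3
    have : (algebraMap ℚ K).comp (algebraMap ℤ ℚ) = Int.castRingHom K := RingHom.ext_int _ _
    rwa [this] at h3
  have hE1 : rootMultiplicity z (E.map (Int.castRingHom K)) = 1 := by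
    apply le_antisymm (rootMultiplicity_le_one_of_separable hEK z)
    rw [Nat.one_le_iff_ne_zero]
    have hr : (E.map (Int.castRingHom K)).IsRoot z := by
      have := minpoly.aeval ℤ z
      rw [aeval_def, ← eval_map] at this
      exact this
    have h0 : E.map (Int.castRingHom K) ≠ 0 := (hEm.map _).ne_zero
    exact ((rootMultiplicity_pos h0).2 hr).ne'
  have hG0 : rootMultiplicity z (G.map (Int.castRingHom K)) = 0 := by
    apply rootMultiplicity_eq_zero
    intro h
    apply hGz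
    rw [IsRoot, eval_map] at h
    rw [aeval_def]
    exact h
  rw [hG, Polynomial.map_mul, Polynomial.map_pow, rootMultiplicity_mul (by
    exact mul_ne_zero (pow_ne_zero _ (hEm.map _).ne_zero) (hGm.map _).ne_zero), hG0, add_zero,
    ← count_roots, roots_pow, Multiset.count_nsmul, count_roots, hE1, mul_one]

/-- the exponent of `p` in the content of `H(qx)` -/
noncomputable def cv (p a : ℕ) (H : ℤ[X]) : ℕ := padicValNat p (sc ((p : ℤ) ^ a) H).content.natAbs

theorem cv_spec {p a : ℕ} (hp : p.Prime) {H : ℤ[X]} (hH : H.Monic) :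
    cv p a H ≤ a * H.natDegree ∧ (sc ((p : ℤ) ^ a) H).content.natAbs = p ^ cv p a H := by
  obtain ⟨t, ht, h⟩ := sc_content (a := a) hp hH
  have : Fact p.Prime := ⟨hp⟩
  have h1 : cv p a H = t := by unfold cv; rw [h, padicValNat.prime_pow]
  rw [h1]; exact ⟨ht, h⟩

theorem cv_mul {p a : ℕ} (hp : p.Prime) {H H' : ℤ[X]} (hH : H.Monic) (hH' : H'.Monic) :
    cv p a (H * H') = cv p a H + cv p a H' := by
  apply Nat.pow_right_injective hp.two_le
  show p ^ _ = p ^ _
  rw [← (cv_spec hp (hH.mul hH')).2, pow_add, ← (cv_spec hp hH).2, ← (cv_spec hp hH').2,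
    sc_mul, content_mul, Int.natAbs_mul]

theorem cv_one {p a : ℕ} (hp : p.Prime) : cv p a 1 = 0 := by
  have := (cv_spec (a := a) hp (H := 1) monic_one).1
  simpa using this

theorem cv_pow {p a : ℕ} (hp : p.Prime) {H : ℤ[X]} (hH : H.Monic) (k : ℕ) :
    cv p a (H ^ k) = k * cv p a H := by
  induction k with
  | zero => rw [pow_zero, cv_one hp, zero_mul]
  | succ k ih => rw [pow_succ, cv_mul hp (hH.pow k) hH, ih]; ring

theorem cv_lt {p a : ℕ} (hp : p.Prime) {K : Type*} [Field K] [CharZero K] {z : K}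
    (hi : IsIntegral ℤ z) (hni : ¬ IsIntegral ℤ (z / (p : K) ^ a)) :
    cv p a (minpoly ℤ z) + 1 ≤ a * (minpoly ℤ z).natDegree := by
  have hEm := minpoly.monic hi
  obtain ⟨h1, h2⟩ := cv_spec (a := a) hp hEm
  rcases lt_or_eq_of_le h1 with h | h
  · exact h
  · exfalso
    apply hni
    apply integral_of_content hp hEm (minpoly.aeval ℤ z)
    rw [← Int.natAbs_dvd_natAbs, h2, h, ← pow_mul, Int.natAbs_pow, Int.natAbs_natCast]

theorem cv_ge {p a pg : ℕ} (hp : p.Prime) {P : ℤ[X]} (hP : P.Monic)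
    (hnh : ∀ j, pg ≤ j → j ≤ P.natDegree →
      ((p : ℤ) ^ a) ^ (j - pg) ∣ P.coeff (P.natDegree - j)) :
    a * (P.natDegree - pg) ≤ cv p a P := by
  have hdvd : ((p : ℤ) ^ a) ^ (P.natDegree - pg) ∣ (sc ((p : ℤ) ^ a) P).content := by
    rw [dvd_content_iff_C_dvd, C_dvd_iff_dvd_coeff]
    intro i
    rw [sc_coeff]
    by_cases hi : P.natDegree < i
    · rw [coeff_eq_zero_of_natDegree_lt hi, zero_mul]; exact dvd_zero _
    push Not at hi
    by_cases hj : pg ≤ P.natDegree - i
    · have h1 := hnh (P.natDegree - i) hj (Nat.sub_le _ _)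
      have h2 : P.natDegree - (P.natDegree - i) = i := Nat.sub_sub_self hi
      rw [h2] at h1
      have h3 : P.natDegree - pg = (P.natDegree - i - pg) + i := by omega
      rw [h3, pow_add]
      exact mul_dvd_mul h1 dvd_rfl
    · have h3 : P.natDegree - pg ≤ i := by omega
      exact Dvd.dvd.mul_left (pow_dvd_pow _ h3) _
  have h4 := Int.natAbs_dvd_natAbs.2 hdvd
  rw [(cv_spec hp hP).2, ← pow_mul, Int.natAbs_pow, Int.natAbs_natCast,
    Nat.pow_dvd_pow_iff_le_right hp.one_lt] at h4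
  exact h4

theorem integral_of_root {K : Type*} [Field K] {P : ℤ[X]} (hP : P.Monic) {z : K}
    (hz : aeval z P = 0) : IsIntegral ℤ z := ⟨P, hP, by rwa [aeval_def] at hz⟩

/-- the multiplicity of `z` as a root of `P` -/
noncomputable def mu {K : Type*} [Field K] (P : ℤ[X]) (z : K) : ℕ :=
  rootMultiplicity z (P.map (Int.castRingHom K))

theorem factor_set {K : Type*} [Field K] [CharZero K] {P : ℤ[X]} (hP : P.Monic) (Z : Finset K)
    (hZ : ∀ z ∈ Z, aeval z P = 0)
    (hd : ∀ z ∈ Z, ∀ z' ∈ Z, minpoly ℤ z = minpoly ℤ z' → z = z') :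
    ∃ G : ℤ[X], G.Monic ∧ P = (∏ z ∈ Z, (minpoly ℤ z) ^ (mu P z)) * G := by
  classical
  induction Z using Finset.induction_on with
  | empty => exact ⟨P, hP, by simp⟩
  | insert z Z hzZ ih =>
    obtain ⟨G, hGm, hG⟩ := ih (fun w hw => hZ w (Finset.mem_insert_of_mem hw))
      (fun w hw w' hw' h => hd w (Finset.mem_insert_of_mem hw) w' (Finset.mem_insert_of_mem hw') h)
    have hz : aeval z P = 0 := hZ z (Finset.mem_insert_self _ _)
    have hzi := integral_of_root hP hz
    have hne : ∀ w ∈ Z, aeval z (minpoly ℤ w) ≠ 0 := by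
      intro w hw h
      have hwi := integral_of_root hP (hZ w (Finset.mem_insert_of_mem hw))
      have h1 : minpoly ℤ z ∣ minpoly ℤ w := minpoly.isIntegrallyClosed_dvd hzi h
      have h2 : Irreducible (minpoly ℤ w) := minpoly.irreducible hwi
      have h3 : ¬ IsUnit (minpoly ℤ z) := (minpoly.irreducible hzi).not_isUnit
      have h4 : Associated (minpoly ℤ z) (minpoly ℤ w) :=
        ((h2.dvd_iff.1 h1).resolve_left h3).symm
      have h5 : minpoly ℤ z = minpoly ℤ w :=
        eq_of_monic_of_associated (minpoly.monic hzi) (minpoly.monic hwi) h4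
      have h6 := hd z (Finset.mem_insert_self _ _) w (Finset.mem_insert_of_mem hw) h5
      rw [h6] at hzZ
      exact hzZ hw
    have hprod : aeval z (∏ w ∈ Z, (minpoly ℤ w) ^ (mu P w)) ≠ 0 := by
      rw [map_prod, Finset.prod_ne_zero_iff]
      intro w hw
      rw [map_pow]
      exact pow_ne_zero _ (hne w hw)
    have hGz : aeval z G = 0 := by
      have := hz
      rw [hG, map_mul] at this
      exact (mul_eq_zero.1 this).resolve_left hprod
    obtain ⟨k, G', hG'm, hEm, hGE, -, -, hk⟩ := factor hGm hGz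
    have hmu : mu P z = k := by
      unfold mu
      have hmon : (∏ w ∈ Z, (minpoly ℤ w) ^ (mu P w)).Monic := by
        apply monic_prod_of_monic
        intro w hw
        exact (minpoly.monic (integral_of_root hP (hZ w (Finset.mem_insert_of_mem hw)))).pow _
      conv_lhs => rw [hG]
      rw [Polynomial.map_mul, rootMultiplicity_mul (mul_ne_zero (hmon.map _).ne_zero
        (hGm.map _).ne_zero), hk, Nat.add_eq_right]
      apply rootMultiplicity_eq_zero
      intro h
      apply hprod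
      rw [IsRoot, eval_map] at h
      rw [aeval_def]
      exact h
    refine ⟨G', hG'm, ?_⟩
    rw [Finset.prod_insert hzZ, hmu]
    conv_lhs => rw [hG, hGE]
    ring

/-- the multiplicities of non-conjugate eigenvalues `z`, `z/q` not integral, add up to at most
`a p_g` -/
theorem sum_le {p a pg : ℕ} (hp : p.Prime) {K : Type*} [Field K] [CharZero K] {P : ℤ[X]}
    (hP : P.Monic) (Z : Finset K)
    (hZ : ∀ z ∈ Z, aeval z P = 0)
    (hd : ∀ z ∈ Z, ∀ z' ∈ Z, minpoly ℤ z = minpoly ℤ z' → z = z')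
    (hni : ∀ z ∈ Z, ¬ IsIntegral ℤ (z / (p : K) ^ a))
    (hnh : ∀ j, pg ≤ j → j ≤ P.natDegree →
      ((p : ℤ) ^ a) ^ (j - pg) ∣ P.coeff (P.natDegree - j)) :
    ∑ z ∈ Z, mu P z ≤ a * pg := by
  classical
  obtain ⟨G, hGm, hG⟩ := factor_set hP Z hZ hd
  have hmonE : ∀ z ∈ Z, (minpoly ℤ z).Monic := fun z hz =>
    minpoly.monic (integral_of_root hP (hZ z hz))
  have hmon : (∏ w ∈ Z, (minpoly ℤ w) ^ (mu P w)).Monic :=
    monic_prod_of_monic _ _ fun w hw => (hmonE w hw).pow _
  have key : ∀ S ⊆ Z, (∏ w ∈ S, (minpoly ℤ w) ^ (mu P w)).Monic ∧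
      cv p a (∏ w ∈ S, (minpoly ℤ w) ^ (mu P w)) + ∑ w ∈ S, mu P w ≤
        a * (∏ w ∈ S, (minpoly ℤ w) ^ (mu P w)).natDegree := by
    intro S
    induction S using Finset.induction_on with
    | empty => intro _; simp [cv_one hp]
    | insert w S hw ih =>
      intro hS
      obtain ⟨h1, h2⟩ := ih (fun x hx => hS (Finset.mem_insert_of_mem hx))
      have hwZ : w ∈ Z := hS (Finset.mem_insert_self _ _)
      have h3 := cv_lt (a := a) hp (integral_of_root hP (hZ w hwZ)) (hni w hwZ)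
      rw [Finset.prod_insert hw, Finset.sum_insert hw]
      refine ⟨((hmonE w hwZ).pow _).mul h1, ?_⟩
      rw [cv_mul hp ((hmonE w hwZ).pow _) h1, cv_pow hp (hmonE w hwZ),
        ((hmonE w hwZ).pow _).natDegree_mul h1, (hmonE w hwZ).natDegree_pow]
      have h4 := Nat.mul_le_mul_left (mu P w) h3
      have h5 : mu P w * (a * (minpoly ℤ w).natDegree) =
        a * (mu P w * (minpoly ℤ w).natDegree) := by ring
      rw [mul_add, mul_one, h5] at h4
      rw [mul_add]
      omega
  obtain ⟨-, h2⟩ := key Z subset_rfl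
  have h3 := cv_ge hp hP hnh
  have h4 := (cv_spec (a := a) hp hGm).1
  have h5 : cv p a P = cv p a (∏ w ∈ Z, (minpoly ℤ w) ^ (mu P w)) + cv p a G := by
    conv_lhs => rw [hG]
    exact cv_mul hp hmon hGm
  have h6 : P.natDegree = (∏ w ∈ Z, (minpoly ℤ w) ^ (mu P w)).natDegree + G.natDegree := by
    conv_lhs => rw [hG]
    exact hmon.natDegree_mul hGm
  have h7 : a * P.natDegree = a * (∏ w ∈ Z, (minpoly ℤ w) ^ (mu P w)).natDegree
      + a * G.natDegree := by rw [h6]; ring
  have h8 : a * (P.natDegree - pg) + a * pg ≥ a * P.natDegree := by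
    rw [← mul_add]; apply Nat.mul_le_mul_left; omega
  omega

/-- trailing degree modulo `p` -/
noncomputable def td (p : ℕ) (H : ℤ[X]) : ℕ :=
  (H.map (Int.castRingHom (ZMod p))).natTrailingDegree

theorem td_le {p : ℕ} (hp : p.Prime) {H : ℤ[X]} (hH : H.Monic) : td p H ≤ H.natDegree := by
  have : Fact p.Prime := ⟨hp⟩
  unfold td
  apply natTrailingDegree_le_of_ne_zero
  rw [coeff_map, hH.coeff_natDegree, map_one]
  exact one_ne_zero

theorem td_mul {p : ℕ} (hp : p.Prime) {H H' : ℤ[X]} (hH : H.Monic) (hH' : H'.Monic) :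
    td p (H * H') = td p H + td p H' := by
  have : Fact p.Prime := ⟨hp⟩
  unfold td
  rw [Polynomial.map_mul, natTrailingDegree_mul (hH.map _).ne_zero (hH'.map _).ne_zero]

theorem td_one {p : ℕ} (hp : p.Prime) : td p 1 = 0 := by
  have := td_le hp (H := 1) monic_one
  simpa using this

theorem td_pow {p : ℕ} (hp : p.Prime) {H : ℤ[X]} (hH : H.Monic) (k : ℕ) :
    td p (H ^ k) = k * td p H := by
  induction k with
  | zero => rw [pow_zero, td_one hp, zero_mul]
  | succ k ih => rw [pow_succ, td_mul hp (hH.pow k) hH, ih]; ring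

theorem td_ge {p a pg : ℕ} (hp : p.Prime) (ha : 0 < a) {P : ℤ[X]} (hP : P.Monic)
    (hnh : ∀ j, pg ≤ j → j ≤ P.natDegree →
      ((p : ℤ) ^ a) ^ (j - pg) ∣ P.coeff (P.natDegree - j)) :
    P.natDegree - pg ≤ td p P := by
  have : Fact p.Prime := ⟨hp⟩
  apply le_natTrailingDegree (hP.map _).ne_zero
  intro i hi
  rw [coeff_map, Int.coe_castRingHom, ZMod.intCast_zmod_eq_zero_iff_dvd]
  have h1 := hnh (P.natDegree - i) (by omega) (Nat.sub_le _ _)
  rw [Nat.sub_sub_self (by omega : i ≤ P.natDegree)] at h1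
  refine dvd_trans ?_ h1
  rw [← pow_mul]
  apply dvd_pow_self
  have : 0 < P.natDegree - i - pg := by omega
  positivity

theorem td_ord {p pg : ℕ} (hp : p.Prime) {P : ℤ[X]}
    (hord : ¬ (p : ℤ) ∣ P.coeff (P.natDegree - pg)) : td p P ≤ P.natDegree - pg := by
  have : Fact p.Prime := ⟨hp⟩
  apply natTrailingDegree_le_of_ne_zero
  rw [coeff_map, Int.coe_castRingHom]
  intro h
  exact hord ((ZMod.intCast_zmod_eq_zero_iff_dvd _ _).1 h)

/-- `cv ≤ a · td` -/
theorem cv_le_td {p a : ℕ} (hp : p.Prime) {H : ℤ[X]} (hH : H.Monic) :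
    cv p a H ≤ a * td p H := by
  have : Fact p.Prime := ⟨hp⟩
  have hHr : H.map (Int.castRingHom (ZMod p)) ≠ 0 := (hH.map _).ne_zero
  have hτc : ¬ (p : ℤ) ∣ H.coeff (td p H) := by
    intro h
    have h1 : (H.map (Int.castRingHom (ZMod p))).coeff (td p H) = 0 := by
      rw [coeff_map, Int.coe_castRingHom, ZMod.intCast_zmod_eq_zero_iff_dvd]
      exact h
    exact mt trailingCoeff_eq_zero.1 hHr h1
  have h1 := content_dvd_coeff (p := sc ((p : ℤ) ^ a) H) (td p H)
  rw [sc_coeff] at h1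
  have h2 := Int.natAbs_dvd_natAbs.2 h1
  rw [(cv_spec hp hH).2, Int.natAbs_mul, ← pow_mul, Int.natAbs_pow, Int.natAbs_natCast] at h2
  have hcop : Nat.Coprime (p ^ (cv p a H)) (H.coeff (td p H)).natAbs := by
    apply Nat.Coprime.pow_left
    rw [hp.coprime_iff_not_dvd]
    intro h
    exact hτc (Int.natCast_dvd.2 h)
  have h3 := hcop.dvd_of_dvd_mul_left h2
  exact (Nat.pow_dvd_pow_iff_le_right hp.one_lt).1 h3

/-- in the ordinary case a factor with a non-integral `z/q` has a unit root -/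
theorem td_lt {p a pg : ℕ} (hp : p.Prime) {K : Type*} [Field K] [CharZero K]
    {P : ℤ[X]} (hP : P.Monic) {z : K} (hz : aeval z P = 0)
    (hni : ¬ IsIntegral ℤ (z / (p : K) ^ a))
    (hnh : ∀ j, pg ≤ j → j ≤ P.natDegree →
      ((p : ℤ) ^ a) ^ (j - pg) ∣ P.coeff (P.natDegree - j))
    (hord : ¬ (p : ℤ) ∣ P.coeff (P.natDegree - pg)) :
    td p (minpoly ℤ z) + 1 ≤ (minpoly ℤ z).natDegree := by
  have hzi := integral_of_root hP hz
  have hEm := minpoly.monic hzi
  rcases lt_or_eq_of_le (td_le hp hEm) with h | h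
  · exact h
  exfalso
  obtain ⟨G, hG⟩ := minpoly.isIntegrallyClosed_dvd hzi hz
  have hGm : G.Monic := by
    rw [hG] at hP
    exact hEm.of_mul_monic_left hP
  have h1 := cv_ge hp hP hnh
  have h2 := cv_lt (a := a) hp hzi hni
  have h3 := cv_le_td (a := a) hp hGm
  have h4 := td_ord hp hord
  have h5 : td p P = td p (minpoly ℤ z) + td p G := by
    conv_lhs => rw [hG]
    exact td_mul hp hEm hGm
  have h6 : cv p a P = cv p a (minpoly ℤ z) + cv p a G := by
    conv_lhs => rw [hG]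
    exact cv_mul hp hEm hGm
  have h7 : a * td p P ≤ a * (P.natDegree - pg) := Nat.mul_le_mul_left _ h4
  rw [h5, h, mul_add] at h7
  omega

/-- the ordinary case -/
theorem sum_le_ord {p a pg : ℕ} (hp : p.Prime) (ha : 0 < a) {K : Type*} [Field K] [CharZero K]
    {P : ℤ[X]} (hP : P.Monic) (Z : Finset K)
    (hZ : ∀ z ∈ Z, aeval z P = 0)
    (hd : ∀ z ∈ Z, ∀ z' ∈ Z, minpoly ℤ z = minpoly ℤ z' → z = z')
    (hni : ∀ z ∈ Z, ¬ IsIntegral ℤ (z / (p : K) ^ a))
    (hnh : ∀ j, pg ≤ j → j ≤ P.natDegree →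
      ((p : ℤ) ^ a) ^ (j - pg) ∣ P.coeff (P.natDegree - j))
    (hord : ¬ (p : ℤ) ∣ P.coeff (P.natDegree - pg)) :
    ∑ z ∈ Z, mu P z ≤ pg := by
  classical
  obtain ⟨G, hGm, hG⟩ := factor_set hP Z hZ hd
  have hmonE : ∀ z ∈ Z, (minpoly ℤ z).Monic := fun z hz =>
    minpoly.monic (integral_of_root hP (hZ z hz))
  have hmon : (∏ w ∈ Z, (minpoly ℤ w) ^ (mu P w)).Monic :=
    monic_prod_of_monic _ _ fun w hw => (hmonE w hw).pow _
  have key : ∀ S ⊆ Z, (∏ w ∈ S, (minpoly ℤ w) ^ (mu P w)).Monic ∧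
      td p (∏ w ∈ S, (minpoly ℤ w) ^ (mu P w)) + ∑ w ∈ S, mu P w ≤
        (∏ w ∈ S, (minpoly ℤ w) ^ (mu P w)).natDegree := by
    intro S
    induction S using Finset.induction_on with
    | empty => intro _; simp [td_one hp]
    | insert w S hw ih =>
      intro hS
      obtain ⟨h1, h2⟩ := ih (fun x hx => hS (Finset.mem_insert_of_mem hx))
      have hwZ : w ∈ Z := hS (Finset.mem_insert_self _ _)
      have h3 := td_lt hp hP (hZ w hwZ) (hni w hwZ) hnh hord
      rw [Finset.prod_insert hw, Finset.sum_insert hw]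
      refine ⟨((hmonE w hwZ).pow _).mul h1, ?_⟩
      rw [td_mul hp ((hmonE w hwZ).pow _) h1, td_pow hp (hmonE w hwZ),
        ((hmonE w hwZ).pow _).natDegree_mul h1, (hmonE w hwZ).natDegree_pow]
      have h4 := Nat.mul_le_mul_left (mu P w) h3
      rw [mul_add, mul_one] at h4
      omega
  obtain ⟨-, h2⟩ := key Z subset_rfl
  have h3 := td_ge hp ha hP hnh
  have h4 := td_le hp hGm
  have h5 : td p P = td p (∏ w ∈ Z, (minpoly ℤ w) ^ (mu P w)) + td p G := by
    conv_lhs => rw [hG]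
    exact td_mul hp hmon hGm
  have h6 : P.natDegree = (∏ w ∈ Z, (minpoly ℤ w) ^ (mu P w)).natDegree + G.natDegree := by
    conv_lhs => rw [hG]
    exact hmon.natDegree_mul hGm
  omega

end W534.FS
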