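import Mathlib

open Polynomial Module

namespace W534.FS

variable {K V : Type*} [Field K] [AddCommGroup V] [Module K V]

/-- the orthogonal lemma -/
theorem noJordan [CharZero K] [Module.Finite K V] (G : Module.End K V)
    (B : LinearMap.BilinForm K V) (N : Submodule K V) {c : K} (hc : c ≠ 0)
    (hBs : ∀ x y, B x y = B y x) (hBn : ∀ x, (∀ y, B x y = 0) → x = 0)
    (hBG : ∀ x y, B (G x) (G y) = c ^ 2 * B x y)
    (hNn : ∀ x ∈ N, (∀ y ∈ N, B x y = 0) → x = 0) (hNG : ∀ x ∈ N, G x = c • x)
    (hdim : finrank K (G.maxGenEigenspace c) ≤ finrank K N + 2)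
    {y v : V} (hy : G y = c • y + v) (hv : G v = c • v) : v = 0 := by
  by_contra hv0
  -- split off the `N`-component
  have hrefl : B.IsRefl := fun x y h => by rw [hBs]; exact h
  have hdisj : Disjoint N (B.orthogonal N) := by
    rw [Submodule.disjoint_def]
    intro x hx hx'
    apply hNn x hx
    intro z hz
    rw [hBs]
    exact hx' z hz
  have hcompl : IsCompl N (B.orthogonal N) :=
    (LinearMap.BilinForm.isCompl_orthogonal_iff_disjoint hrefl).2 hdisj
  obtain ⟨n, hn, w, hw, hnw⟩ : ∃ n ∈ N, ∃ w ∈ B.orthogonal N, n + w = y := by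
    have : y ∈ N ⊔ B.orthogonal N := by rw [hcompl.sup_eq_top]; trivial
    exact Submodule.mem_sup.1 this
  have hGw : G w = c • w + v := by
    have h1 : w = y - n := by rw [← hnw]; abel
    rw [h1, map_sub, hy, hNG n hn, smul_sub]; abel
  have hBwN : ∀ x ∈ N, B x w = 0 := fun x hx => hw x hx
  have hc2 : c ^ 2 ≠ 0 := pow_ne_zero _ hc
  have hBvN : ∀ x ∈ N, B x v = 0 := by
    intro x hx
    have h1 := hBG x w
    rw [hNG x hx, hGw, hBwN x hx, mul_zero, map_smul, LinearMap.smul_apply, map_add, map_smul,
      hBwN x hx, smul_zero, zero_add, smul_eq_mul] at h1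
    exact (mul_eq_zero.1 h1).resolve_left hc
  have hvv : B v v = 0 := by
    have h1 := hBG w v
    rw [hGw, hv] at h1
    simp only [map_add, map_smul, LinearMap.add_apply, LinearMap.smul_apply, smul_eq_mul] at h1
    have h2 : c * B v v = 0 := by linear_combination h1
    exact (mul_eq_zero.1 h2).resolve_left hc
  have hwv : B w v = 0 := by
    have h1 := hBG w w
    rw [hGw] at h1
    simp only [map_add, map_smul, LinearMap.add_apply, LinearMap.smul_apply, smul_eq_mul] at h1
    rw [hvv, hBs v w] at h1
    have h2 : (2 * c) * B w v = 0 := by linear_combination h1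
    exact (mul_eq_zero.1 h2).resolve_left (mul_ne_zero two_ne_zero hc)
  -- the span of `w`, `v`
  set D : Submodule K V := Submodule.span K (Set.range ![w, v]) with hD
  have hli : LinearIndependent K ![w, v] := by
    rw [LinearIndependent.pair_iff]
    intro s t hst
    have h1 := congrArg G hst
    rw [map_add, map_smul, map_smul, hGw, hv, map_zero] at h1
    have h2 : s • v = 0 := by
      have h3 : s • (c • w + v) + t • c • v - c • (s • w + t • v) = 0 := by
        rw [h1, hst, smul_zero, sub_zero]
      have h4 : s • (c • w + v) + t • c • v - c • (s • w + t • v) = s • v := by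
        module
      rw [← h4]; exact h3
    have hs : s = 0 := (smul_eq_zero.1 h2).resolve_right hv0
    rw [hs, zero_smul, zero_add] at hst
    exact ⟨hs, (smul_eq_zero.1 hst).resolve_right hv0⟩
  have hDfin : finrank K D = 2 := by
    rw [hD, finrank_span_eq_card hli]; simp
  have hDle : D ≤ B.orthogonal N := by
    rw [hD, Submodule.span_le]
    rintro _ ⟨i, rfl⟩
    fin_cases i
    · exact hw
    · exact fun x hx => hBvN x hx
  have hDdisj : Disjoint N D := hcompl.disjoint.mono_right hDle
  set U := G.maxGenEigenspace c with hU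
  have hNU : N ≤ U := by
    intro x hx
    rw [hU, Module.End.mem_maxGenEigenspace]
    refine ⟨1, ?_⟩
    rw [pow_one, LinearMap.sub_apply, hNG x hx]
    simp
  have hDU : D ≤ U := by
    rw [hD, Submodule.span_le]
    rintro _ ⟨i, rfl⟩
    have hv1 : (G - c • (1 : Module.End K V)) v = 0 := by
      rw [LinearMap.sub_apply, hv]; simp
    have hw1 : (G - c • (1 : Module.End K V)) w = v := by
      rw [LinearMap.sub_apply, hGw]; simp
    fin_cases i
    · refine Module.End.mem_maxGenEigenspace _ _ _ |>.2 ⟨2, ?_⟩
      rw [pow_two]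
      change (G - c • (1 : Module.End K V)) ((G - c • (1 : Module.End K V)) w) = 0
      rw [hw1, hv1]
    · refine Module.End.mem_maxGenEigenspace _ _ _ |>.2 ⟨1, ?_⟩
      rw [pow_one]
      exact hv1
  have hsup : N ⊔ D = U := by
    apply Submodule.eq_of_le_of_finrank_le (sup_le hNU hDU)
    have h1 := Submodule.finrank_sup_add_finrank_inf_eq N D
    rw [hDdisj.eq_bot, finrank_bot, add_zero, hDfin] at h1
    rw [h1]
    exact hdim
  have hvU : ∀ x ∈ U, B v x = 0 := by
    intro x hx
    rw [← hsup] at hx
    obtain ⟨n', hn', d, hd, rfl⟩ := Submodule.mem_sup.1 hx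
    rw [map_add, hBs v n', hBvN n' hn', zero_add]
    have : D ≤ LinearMap.ker (B v) := by
      rw [hD, Submodule.span_le]
      rintro _ ⟨i, rfl⟩
      fin_cases i
      · change B v w = 0
        rw [hBs]; exact hwv
      · exact hvv
    exact this hd
  -- `v` is orthogonal to the range
  have hvR : ∀ x, B v ((G - c • (1 : Module.End K V)) x) = 0 := by
    intro x
    have h1 := hBG v x
    rw [hv, map_smul, LinearMap.smul_apply, smul_eq_mul] at h1
    have h2 : B v (G x) = c * B v x := by
      apply mul_left_cancel₀ hc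
      rw [h1]; ring
    rw [LinearMap.sub_apply, map_sub, h2]
    simp
  obtain ⟨b, hb1, hb2⟩ := (((LinearMap.eventually_isCompl_ker_pow_range_pow
    (G - c • (1 : Module.End K V))).and (Filter.eventually_ge_atTop 1))).exists
  apply hv0
  apply hBn
  intro x
  have hx : x ∈ LinearMap.ker ((G - c • (1 : Module.End K V)) ^ b) ⊔
      LinearMap.range ((G - c • (1 : Module.End K V)) ^ b) := by
    rw [hb1.sup_eq_top]; trivial
  obtain ⟨x1, hx1, x2, hx2, rfl⟩ := Submodule.mem_sup.1 hx
  rw [map_add]
  have h1 : B v x1 = 0 := by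
    apply hvU
    rw [hU, Module.End.mem_maxGenEigenspace]
    exact ⟨b, hx1⟩
  have h2 : B v x2 = 0 := by
    obtain ⟨x3, rfl⟩ := hx2
    obtain ⟨b', rfl⟩ : ∃ b', b = b' + 1 := ⟨b - 1, by omega⟩
    rw [pow_succ']
    exact hvR _
  rw [h1, h2, add_zero]

/-- powers of `F` on a Jordan block -/
theorem pow_jordan (F : Module.End K V) {α : K} {y v : V} (hy : F y = α • y + v)
    (hv : F v = α • v) (M : ℕ) :
    (F ^ M) y = α ^ M • y + ((M : K) * α ^ (M - 1)) • v ∧ (F ^ M) v = α ^ M • v := by
  induction M with
  | zero => simp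
  | succ M ih =>
    obtain ⟨h1, h2⟩ := ih
    constructor
    · rw [pow_succ', Module.End.mul_apply, h1, map_add, map_smul, map_smul, hy, hv]
      rcases Nat.eq_zero_or_pos M with h | h
      · subst h; simp
      · have : α ^ M = α ^ (M - 1) * α := by
          rw [← pow_succ, Nat.sub_add_cancel h]
        rw [Nat.add_sub_cancel]
        push_cast
        rw [pow_succ, smul_add, smul_smul, smul_smul, add_mul, add_smul]
        rw [this]
        module
    · rw [pow_succ', Module.End.mul_apply, h2, map_smul, hv, smul_smul, pow_succ]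

theorem pow_form (F : Module.End K V) (B : LinearMap.BilinForm K V) {q : K}
    (hB : ∀ x y, B (F x) (F y) = q ^ 2 * B x y) (M : ℕ) (x y : V) :
    B ((F ^ M) x) ((F ^ M) y) = (q ^ M) ^ 2 * B x y := by
  induction M with
  | zero => simp
  | succ M ih =>
    rw [pow_succ', Module.End.mul_apply, Module.End.mul_apply, hB, ih]
    ring

/-- semisimplicity at `α` from the absence of Jordan blocks -/
theorem eig_eq (F : Module.End K V) (α : K)
    (h : ∀ y v : V, F y = α • y + v → F v = α • v → v = 0) :
    F.maxGenEigenspace α = F.eigenspace α := by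
  apply le_antisymm
  · intro x hx
    rw [Module.End.mem_maxGenEigenspace] at hx
    obtain ⟨k, hk⟩ := hx
    rw [Module.End.mem_eigenspace_iff]
    have key : ∀ (k : ℕ) (x : V), ((F - α • (1 : Module.End K V)) ^ (k + 1)) x = 0 →
        (F - α • (1 : Module.End K V)) x = 0 := by
      intro k
      induction k with
      | zero => intro x hx; rwa [zero_add, pow_one] at hx
      | succ k ih =>
        intro x hx
        rw [pow_succ, Module.End.mul_apply] at hx
        have h1 := ih _ hx
        refine h x _ ?_ ?_
        · rw [LinearMap.sub_apply]; simp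
        · rw [LinearMap.sub_apply] at h1
          simp only [LinearMap.smul_apply, Module.End.one_apply] at h1
          exact sub_eq_zero.1 h1
    have h2 : (F - α • (1 : Module.End K V)) x = 0 := by
      apply key k
      rw [pow_succ', Module.End.mul_apply, hk, map_zero]
    rw [LinearMap.sub_apply] at h2
    simp only [LinearMap.smul_apply, Module.End.one_apply] at h2
    exact sub_eq_zero.1 h2
  · intro x hx
    rw [Module.End.mem_eigenspace_iff] at hx
    rw [Module.End.mem_maxGenEigenspace]
    refine ⟨1, ?_⟩
    rw [pow_one, LinearMap.sub_apply, hx]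
    simp

/-- a Jordan block needs multiplicity two -/
theorem two_le_of_jordan [Module.Finite K V] (F : Module.End K V) {α : K} {y v : V}
    (hy : F y = α • y + v) (hv : F v = α • v) (hv0 : v ≠ 0) :
    2 ≤ finrank K (F.maxGenEigenspace α) := by
  have hli : LinearIndependent K ![y, v] := by
    rw [LinearIndependent.pair_iff]
    intro s t hst
    have h1 := congrArg F hst
    rw [map_add, map_smul, map_smul, hy, hv, map_zero] at h1
    have h2 : s • v = 0 := by
      have h3 : s • (α • y + v) + t • α • v - α • (s • y + t • v) = 0 := by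
        rw [h1, hst, smul_zero, sub_zero]
      have h4 : s • (α • y + v) + t • α • v - α • (s • y + t • v) = s • v := by
        module
      rw [← h4]; exact h3
    have hs : s = 0 := (smul_eq_zero.1 h2).resolve_right hv0
    rw [hs, zero_smul, zero_add] at hst
    exact ⟨hs, (smul_eq_zero.1 hst).resolve_right hv0⟩
  have hfin : finrank K (Submodule.span K (Set.range ![y, v])) = 2 := by
    rw [finrank_span_eq_card hli]; simp
  rw [← hfin]
  apply Submodule.finrank_mono
  rw [Submodule.span_le]
  rintro _ ⟨i, rfl⟩
  have hv1 : (F - α • (1 : Module.End K V)) v = 0 := by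
    rw [LinearMap.sub_apply, hv]; simp
  have hw1 : (F - α • (1 : Module.End K V)) y = v := by
    rw [LinearMap.sub_apply, hy]; simp
  fin_cases i
  · refine Module.End.mem_maxGenEigenspace _ _ _ |>.2 ⟨2, ?_⟩
    rw [pow_two]
    change (F - α • (1 : Module.End K V)) ((F - α • (1 : Module.End K V)) y) = 0
    rw [hw1, hv1]
  · refine Module.End.mem_maxGenEigenspace _ _ _ |>.2 ⟨1, ?_⟩
    rw [pow_one]
    exact hv1

end W534.FS
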