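import Mathlib
import Pool.Agent.W534.FS1
import Pool.Agent.W534.FS2

open Polynomial Module

namespace W534.FS

/-- a root of `P` all of whose complex conjugates have absolute value `q` and which is not `q`
times a root of unity is not an integer; its minimal polynomial has degree at least two -/
theorem two_le_degree {p a : ℕ} {K : Type*} [Field K] [CharZero K] {P : ℤ[X]}
    (hw : ∀ z : ℂ, aeval z P = 0 → ‖z‖ = (p : ℝ) ^ a) (hP : P.Monic) {z : K}
    (hz : aeval z P = 0)
    (hn : ∀ m, 0 < m → z ^ m ≠ ((p : K) ^ a) ^ m) : 2 ≤ (minpoly ℤ z).natDegree := by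
  have hi := integral_of_root hP hz
  have h1 := minpoly.natDegree_pos hi
  by_contra hlt
  have h2 : (minpoly ℤ z).natDegree = 1 := by omega
  have h3 := (minpoly.monic hi).eq_X_add_C h2
  set c := (minpoly ℤ z).coeff 0
  have h4 := minpoly.aeval ℤ z
  rw [h3, map_add, aeval_X, aeval_C] at h4
  have h5 : z = ((-c : ℤ) : K) := by
    rw [eq_intCast] at h4
    push_cast
    linear_combination h4
  have h6 : P.eval (-c) = 0 := by
    have h7 : ((P.eval (-c) : ℤ) : K) = 0 := by
      rw [h5] at hz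
      rw [← hz, aeval_def, eval₂_at_intCast]
      simp
    exact_mod_cast h7
  have h8 : ‖((-c : ℤ) : ℂ)‖ = (p : ℝ) ^ a := by
    apply hw
    rw [aeval_def, eval₂_at_intCast, Int.cast_id, h6]
    simp
  rw [Complex.norm_intCast] at h8
  have h9 : ((-c : ℤ) : ℝ) ^ 2 = ((p : ℝ) ^ a) ^ 2 := by rw [← h8, sq_abs]
  have h10 : (-c : ℤ) ^ 2 = ((p : ℤ) ^ a) ^ 2 := by exact_mod_cast h9
  apply hn 2 (by norm_num)
  rw [h5]
  exact_mod_cast h10

/-- a second eigenvalue, conjugate to the first one -/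
theorem exists_conj {p a : ℕ} {K : Type*} [Field K] [CharZero K] [IsAlgClosed K] {P : ℤ[X]}
    (hw : ∀ z : ℂ, aeval z P = 0 → ‖z‖ = (p : ℝ) ^ a) (hP : P.Monic) {z : K}
    (hz : aeval z P = 0)
    (hn : ∀ m, 0 < m → z ^ m ≠ ((p : K) ^ a) ^ m) :
    ∃ z' : K, z' ≠ z ∧ (∀ m, 0 < m → z' ^ m ≠ ((p : K) ^ a) ^ m) ∧ mu P z ≤ mu P z' := by
  classical
  have hi := integral_of_root hP hz
  obtain ⟨k, G, hGm, hEm, hPG, hk0, hd, hk⟩ := factor hP hz
  have h2 := two_le_degree hw hP hz hn
  set E := minpoly ℤ z with hE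
  have hEK : (E.map (Int.castRingHom K)).Separable := by
    have h1 : minpoly ℚ z = E.map (algebraMap ℤ ℚ) :=
      minpoly.isIntegrallyClosed_eq_field_fractions' ℚ hi
    have h2 : (minpoly ℚ z).Separable := (minpoly.irreducible hi.tower_top).separable
    have h3 := (Polynomial.Separable.map h2 (f := algebraMap ℚ K))
    rw [h1, Polynomial.map_map] at h3
    have : (algebraMap ℚ K).comp (algebraMap ℤ ℚ) = Int.castRingHom K := RingHom.ext_int _ _
    rwa [this] at h3
  have hcard : (E.map (Int.castRingHom K)).roots.card = E.natDegree := by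
    have h1 := (IsAlgClosed.splits (E.map (Int.castRingHom K)))
    rw [← (splits_iff_card_roots.1 h1).symm, hEm.natDegree_map]
  have hnod := nodup_roots hEK
  have hcard2 : 1 < (E.map (Int.castRingHom K)).roots.toFinset.card := by
    rw [Multiset.toFinset_card_of_nodup hnod, hcard]; omega
  obtain ⟨z', hz', hne⟩ := Finset.exists_mem_ne hcard2 z
  rw [Multiset.mem_toFinset, mem_roots (hEm.map _).ne_zero] at hz'
  have hz'E : aeval z' E = 0 := by
    rw [IsRoot, eval_map] at hz'
    rw [aeval_def]; exact hz'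
  refine ⟨z', hne, ?_, ?_⟩
  · intro m hm h
    have hi' : IsIntegral ℤ z' := integral_of_root hEm hz'E
    have h3 : minpoly ℤ z' ∣ E := minpoly.isIntegrallyClosed_dvd hi' hz'E
    have h4 : Irreducible E := minpoly.irreducible hi
    have h5 : Associated (minpoly ℤ z') E :=
      ((h4.dvd_iff.1 h3).resolve_left (minpoly.irreducible hi').not_isUnit).symm
    have h6 : minpoly ℤ z' = E := eq_of_monic_of_associated (minpoly.monic hi') hEm h5
    have h7 : aeval z' (X ^ m - C (((p : ℤ) ^ a) ^ m)) = 0 := by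
      rw [map_sub, map_pow, aeval_X, aeval_C, h]
      simp
    have h8 := minpoly.isIntegrallyClosed_dvd hi' h7
    rw [h6] at h8
    obtain ⟨H, hH⟩ := h8
    apply hn m hm
    have h9 : aeval z (X ^ m - C (((p : ℤ) ^ a) ^ m)) = 0 := by
      rw [hH, map_mul, minpoly.aeval, zero_mul]
    rw [map_sub, map_pow, aeval_X, aeval_C, sub_eq_zero] at h9
    rw [h9]
    simp
  · have h3 : mu P z = k := hk
    rw [h3]
    unfold mu
    rw [le_rootMultiplicity_iff (hP.map _).ne_zero, hPG, Polynomial.map_mul, Polynomial.map_pow]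
    exact Dvd.dvd.mul_right (pow_dvd_pow_of_dvd (dvd_iff_isRoot.2 hz') _) _

variable {K V : Type*} [Field K] [AddCommGroup V] [Module K V] [Module.Finite K V]

theorem dim_ineq (F : Module.End K V) {q α α' : K} {M : ℕ} (hne : α' ≠ α)
    (hα : α ^ M ≠ q ^ M) (hα' : α' ^ M ≠ q ^ M) :
    finrank K ((F ^ M).maxGenEigenspace (q ^ M)) + (finrank K (F.maxGenEigenspace α) +
      finrank K (F.maxGenEigenspace α')) ≤ finrank K V := by
  have hd12 : Disjoint (F.maxGenEigenspace α) (F.maxGenEigenspace α') :=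
    Module.End.disjoint_genEigenspace F hne.symm ⊤ ⊤
  have h12 : finrank K (F.maxGenEigenspace α ⊔ F.maxGenEigenspace α' : Submodule K V) =
      finrank K (F.maxGenEigenspace α) + finrank K (F.maxGenEigenspace α') := by
    have := Submodule.finrank_sup_add_finrank_inf_eq (F.maxGenEigenspace α) (F.maxGenEigenspace α')
    rwa [hd12.eq_bot, finrank_bot, add_zero] at this
  rw [← h12]
  apply Submodule.finrank_add_finrank_le_of_disjoint
  rw [Submodule.disjoint_def]
  intro x hx hx'
  rw [Module.End.mem_maxGenEigenspace] at hx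
  obtain ⟨k, hk⟩ := hx
  obtain ⟨x1, hx1, x2, hx2, rfl⟩ := Submodule.mem_sup.1 hx'
  rw [Module.End.mem_maxGenEigenspace] at hx1 hx2
  obtain ⟨l1, hl1⟩ := hx1
  obtain ⟨l2, hl2⟩ := hx2
  have hcop : ∀ β : K, β ^ M ≠ q ^ M → ∀ l : ℕ,
      IsCoprime ((X ^ M - C (q ^ M) : K[X]) ^ k) ((X - C β) ^ l) := by
    intro β hβ l
    apply IsCoprime.pow
    rw [isCoprime_comm, (irreducible_X_sub_C β).coprime_iff_not_dvd, dvd_iff_isRoot, IsRoot,
      eval_sub, eval_pow, eval_X, eval_C, sub_eq_zero]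
    exact hβ
  obtain ⟨u, v, huv⟩ := (hcop α hα l1).mul_right (hcop α' hα' l2)
  have hS : aeval F ((X ^ M - C (q ^ M) : K[X]) ^ k) (x1 + x2) = 0 := by
    rw [map_pow, map_sub, map_pow, aeval_X, aeval_C, Algebra.algebraMap_eq_smul_one]
    exact hk
  have hT1 : aeval F ((X - C α : K[X]) ^ l1) x1 = 0 := by
    rw [map_pow, map_sub, aeval_X, aeval_C, Algebra.algebraMap_eq_smul_one]
    exact hl1
  have hT2 : aeval F ((X - C α' : K[X]) ^ l2) x2 = 0 := by
    rw [map_pow, map_sub, aeval_X, aeval_C, Algebra.algebraMap_eq_smul_one]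
    exact hl2
  have hT : aeval F (((X - C α : K[X]) ^ l1) * ((X - C α' : K[X]) ^ l2)) (x1 + x2) = 0 := by
    rw [map_add]
    have e1 : aeval F (((X - C α : K[X]) ^ l1) * ((X - C α' : K[X]) ^ l2)) x1 = 0 := by
      rw [mul_comm, map_mul, Module.End.mul_apply, hT1, map_zero]
    have e2 : aeval F (((X - C α : K[X]) ^ l1) * ((X - C α' : K[X]) ^ l2)) x2 = 0 := by
      rw [map_mul, Module.End.mul_apply, hT2, map_zero]
    rw [e1, e2, add_zero]
  have h1 : ∀ x : V, aeval F ((X ^ M - C (q ^ M) : K[X]) ^ k) x = 0 →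
      aeval F (((X - C α : K[X]) ^ l1) * ((X - C α' : K[X]) ^ l2)) x = 0 → x = 0 := by
    intro x h h'
    have h1 : aeval F (1 : K[X]) x = x := by simp
    rw [← huv, map_add, LinearMap.add_apply, map_mul, Module.End.mul_apply, h, map_zero,
      zero_add, map_mul, Module.End.mul_apply, h', map_zero] at h1
    exact h1.symm
  exact h1 _ hS hT

end W534.FS
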