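import Mathlib
import Pool.Agent.W534.FS3

open Polynomial Module

namespace W534.FS

/-- The second `ℓ`-adic cohomology `V = H²(X̄, K)`, `K = Q̄_ℓ`, of a smooth projective surface `X`
over the field with `q = p ^ a` elements (`ℓ ≠ p`), with its known properties. -/
structure SurfaceH2 (p a : ℕ) (K V : Type*) [Field K] [AddCommGroup V] [Module K V]
    [Module.Finite K V] where
  /-- the Frobenius -/
  F : Module.End K V
  /-- the cup product `H² × H² → H⁴ = K` -/
  B : LinearMap.BilinForm K V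
  /-- the span of the classes of the divisors on `X̄` -/
  N : Submodule K V
  /-- the characteristic polynomial of the Frobenius -/
  P : ℤ[X]
  /-- the dimension of `H²(X, 𝓞)` -/
  pg : ℕ
  /-- the cup product is symmetric -/
  B_symm : ∀ x y, B x y = B y x
  /-- Poincaré duality -/
  B_nondeg : ∀ x, (∀ y, B x y = 0) → x = 0
  /-- the Frobenius acts on `H⁴` as `q²` -/
  B_F : ∀ x y, B (F x) (F y) = ((p : K) ^ a) ^ 2 * B x y
  /-- the intersection form of divisors modulo homological equivalence is nondegenerate -/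
  N_nondeg : ∀ x ∈ N, (∀ y ∈ N, B x y = 0) → x = 0
  /-- the Frobenius permutes the lines of divisor classes -/
  N_stable : ∀ x ∈ N, F x ∈ N
  /-- the Néron–Severi group is finitely generated, so its classes are defined over a finite
  field -/
  N_F : ∃ m, 0 < m ∧ ∀ x ∈ N, (F ^ m) x = ((p : K) ^ a) ^ m • x
  /-- the characteristic polynomial has integral coefficients (Deligne) -/
  charpoly_F : F.charpoly = P.map (Int.castRingHom K)
  /-- the Riemann hypothesis (Deligne) -/
  weight : ∀ z : ℂ, Polynomial.aeval z P = 0 → ‖z‖ = (p : ℝ) ^ a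
  /-- the Newton polygon lies above the Hodge polygon (Mazur, Ogus): only `p_g` slopes are less
  than one -/
  newton_hodge : ∀ j, pg ≤ j → j ≤ P.natDegree →
    ((p : ℤ) ^ a) ^ (j - pg) ∣ P.coeff (P.natDegree - j)

variable {p a : ℕ} {K V : Type*} [Field K] [AddCommGroup V] [Module K V] [Module.Finite K V]

/-- `α` is `q` times a root of unity -/
def IsTate (p a : ℕ) {K : Type*} [Field K] (α : K) : Prop :=
  ∃ m, 0 < m ∧ α ^ m = ((p : K) ^ a) ^ m

/-- `X` is ordinary: the Newton and Hodge polygons meet at the abscissa `p_g` -/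
def SurfaceH2.Ordinary (S : SurfaceH2 p a K V) : Prop :=
  ¬ (p : ℤ) ∣ S.P.coeff (S.P.natDegree - S.pg)

/-- the Frobenius is semisimple at `α` -/
def SurfaceH2.SemisimpleAt (S : SurfaceH2 p a K V) (α : K) : Prop :=
  S.F.maxGenEigenspace α = S.F.eigenspace α

/-- the Frobenius is semisimple -/
def SurfaceH2.Semisimple (S : SurfaceH2 p a K V) : Prop := ∀ α, S.SemisimpleAt α

/-- the multiplicity of the eigenvalue `α` -/
noncomputable def SurfaceH2.mult (S : SurfaceH2 p a K V) (α : K) : ℕ :=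
  finrank K (S.F.maxGenEigenspace α)

/-- at most `ρ(X̄) + 2` eigenvalues are `q` times a root of unity (with multiplicities) -/
def SurfaceH2.FewTate (S : SurfaceH2 p a K V) : Prop :=
  ∀ m, 0 < m → finrank K ((S.F ^ m).maxGenEigenspace (((p : K) ^ a) ^ m)) ≤ finrank K S.N + 2

/-- the span of the divisor classes in the eigenspace of `α`; for `α = q` it is spanned by the
divisors of `X` -/
def SurfaceH2.NS (S : SurfaceH2 p a K V) (α : K) : Submodule K V := S.N ⊓ S.F.eigenspace α

/-- at each Tate eigenvalue `α` the multiplicity exceeds the rank of the divisor classes by at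
most one, or by at most two if `α = ± q` -/
def SurfaceH2.SmallDefect (S : SurfaceH2 p a K V) : Prop :=
  ∀ α, IsTate p a α → finrank K (S.F.maxGenEigenspace α) ≤ finrank K (S.NS α) + 1 ∨
    (α ^ 2 = ((p : K) ^ a) ^ 2 ∧
      finrank K (S.F.maxGenEigenspace α) ≤ finrank K (S.NS α) + 2)

/-- the bound `a p_g`, or `p_g` for ordinary surfaces -/
def SurfaceH2.Bound (S : SurfaceH2 p a K V) (g : ℕ) : Prop :=
  g = a * S.pg ∨ (S.Ordinary ∧ g = S.pg)

namespace SurfaceH2

variable (S : SurfaceH2 p a K V)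

theorem monic [CharZero K] : S.P.Monic := by
  apply monic_of_injective (f := Int.castRingHom K) (RingHom.injective_int _)
  rw [← S.charpoly_F]
  exact LinearMap.charpoly_monic _

theorem mult_eq (α : K) : S.mult α = mu S.P α := by
  unfold mult mu
  rw [LinearMap.finrank_maxGenEigenspace_eq, S.charpoly_F]

theorem root {α : K} (h : S.F.HasEigenvalue α) : aeval α S.P = 0 := by
  rw [Module.End.hasEigenvalue_iff_isRoot_charpoly, S.charpoly_F, IsRoot, eval_map] at h
  rw [aeval_def]; exact h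

theorem eigenvalue_of_mult {α : K} (h : 0 < S.mult α) : S.F.HasEigenvalue α := by
  rw [Module.End.hasEigenvalue_iff_isRoot_charpoly]
  have h1 : 0 < rootMultiplicity α S.F.charpoly := by
    rw [← LinearMap.finrank_maxGenEigenspace_eq]; exact h
  exact ((rootMultiplicity_pos (LinearMap.charpoly_monic _).ne_zero).1 h1)

theorem mult_pos {α : K} (h : S.F.HasEigenvalue α) : 0 < S.mult α := by
  unfold mult
  rw [LinearMap.finrank_maxGenEigenspace_eq]
  exact (rootMultiplicity_pos (LinearMap.charpoly_monic _).ne_zero).2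
    ((Module.End.hasEigenvalue_iff_isRoot_charpoly _ _).1 h)

theorem notInt [CharZero K] (hp : p.Prime) {α : K} (h : S.F.HasEigenvalue α)
    (hT : ¬ IsTate p a α) : ¬ IsIntegral ℤ (α / (p : K) ^ a) :=
  not_integral hp S.weight (S.root h) fun m hm hm' => hT ⟨m, hm, hm'⟩

theorem sum_mult [CharZero K] (hp : p.Prime) (ha : 0 < a) {g : ℕ} (hg : S.Bound g)
    (Z : Finset K) (hZ : ∀ z ∈ Z, S.F.HasEigenvalue z ∧ ¬ IsTate p a z)
    (hd : ∀ z ∈ Z, ∀ z' ∈ Z, minpoly ℤ z = minpoly ℤ z' → z = z') :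
    ∑ z ∈ Z, S.mult z ≤ g := by
  have h1 : ∑ z ∈ Z, S.mult z = ∑ z ∈ Z, mu S.P z := Finset.sum_congr rfl fun z _ => S.mult_eq z
  rw [h1]
  rcases hg with rfl | ⟨hord, rfl⟩
  · exact sum_le hp S.monic Z (fun z hz => S.root (hZ z hz).1) hd
      (fun z hz => S.notInt hp (hZ z hz).1 (hZ z hz).2) S.newton_hodge
  · exact sum_le_ord hp ha S.monic Z (fun z hz => S.root (hZ z hz).1) hd
      (fun z hz => S.notInt hp (hZ z hz).1 (hZ z hz).2) S.newton_hodge hord

theorem ss_of_mult {α : K} (h : S.mult α ≤ 1) : S.SemisimpleAt α := by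
  apply eig_eq
  intro y v hy hv
  by_contra hv0
  have := two_le_of_jordan S.F hy hv hv0
  unfold mult at h
  omega

theorem N_pow {m : ℕ} (hm : ∀ x ∈ S.N, (S.F ^ m) x = ((p : K) ^ a) ^ m • x) (k : ℕ) :
    ∀ x ∈ S.N, (S.F ^ (m * k)) x = ((p : K) ^ a) ^ (m * k) • x := by
  intro x hx
  induction k with
  | zero => simp
  | succ k ih =>
    rw [Nat.mul_succ, pow_add, Module.End.mul_apply, hm x hx, map_smul, ih, smul_smul, ← pow_add,
      add_comm m]

/-- semisimplicity at the eigenvalues which are `q` times a root of unity -/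
theorem ss_tate [CharZero K] (hp : p.Prime) (hF : S.FewTate) {α : K} (hα : IsTate p a α) :
    S.SemisimpleAt α := by
  obtain ⟨m1, hm1, h1⟩ := hα
  obtain ⟨m, hm, hN⟩ := S.N_F
  have hq : ((p : K) ^ a) ≠ 0 := pow_ne_zero _ (by exact_mod_cast hp.ne_zero)
  set M := m * m1 with hM
  have hM0 : 0 < M := Nat.mul_pos hm hm1
  have hαM : α ^ M = ((p : K) ^ a) ^ M := by
    rw [hM, mul_comm, pow_mul, h1, ← pow_mul]
  have hα0 : α ≠ 0 := by
    intro h
    rw [h, zero_pow hM0.ne'] at hαM
    exact pow_ne_zero _ hq hαM.symm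
  apply eig_eq
  intro y v hy hv
  obtain ⟨h2, h3⟩ := pow_jordan S.F hy hv M
  have h4 : ((M : K) * α ^ (M - 1)) • v = 0 := by
    apply noJordan (S.F ^ M) S.B S.N (c := ((p : K) ^ a) ^ M) (pow_ne_zero _ hq) S.B_symm
      S.B_nondeg (pow_form S.F S.B S.B_F M) S.N_nondeg (S.N_pow hN m1) (hF M hM0) (y := y)
    · rw [h2, hαM]
    · rw [map_smul, h3, hαM, smul_comm]
  have h5 : (M : K) * α ^ (M - 1) ≠ 0 :=
    mul_ne_zero (by exact_mod_cast hM0.ne') (pow_ne_zero _ hα0)
  exact (smul_eq_zero.1 h4).resolve_left h5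

theorem N_diag [CharZero K] (hp : p.Prime) {α : K} (hα : IsTate p a α) {n v : V} (hn : n ∈ S.N)
    (hy : S.F n = α • n + v) (hv : S.F v = α • v) : v = 0 := by
  obtain ⟨m1, hm1, h1⟩ := hα
  obtain ⟨m, hm, hN⟩ := S.N_F
  have hq : ((p : K) ^ a) ≠ 0 := pow_ne_zero _ (by exact_mod_cast hp.ne_zero)
  set M := m * m1 with hM
  have hM0 : 0 < M := Nat.mul_pos hm hm1
  have hαM : α ^ M = ((p : K) ^ a) ^ M := by
    rw [hM, mul_comm, pow_mul, h1, ← pow_mul]
  have hα0 : α ≠ 0 := by
    intro h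
    rw [h, zero_pow hM0.ne'] at hαM
    exact pow_ne_zero _ hq hαM.symm
  obtain ⟨h2, -⟩ := pow_jordan S.F hy hv M
  rw [S.N_pow hN m1 n hn, hαM] at h2
  have h4 : ((M : K) * α ^ (M - 1)) • v = 0 := by
    have := h2
    rwa [left_eq_add] at this
  have h5 : (M : K) * α ^ (M - 1) ≠ 0 :=
    mul_ne_zero (by exact_mod_cast hM0.ne') (pow_ne_zero _ hα0)
  exact (smul_eq_zero.1 h4).resolve_left h5

theorem compl : IsCompl S.N (S.B.orthogonal S.N) := by
  have hrefl : S.B.IsRefl := fun x y h => by rw [S.B_symm]; exact h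
  have hdisj : Disjoint S.N (S.B.orthogonal S.N) := by
    rw [Submodule.disjoint_def]
    intro x hx hx'
    apply S.N_nondeg x hx
    intro z hz
    rw [S.B_symm]
    exact hx' z hz
  exact (LinearMap.BilinForm.isCompl_orthogonal_iff_disjoint hrefl).2 hdisj

theorem orth_stable [CharZero K] (hp : p.Prime) {w : V} (hw : w ∈ S.B.orthogonal S.N) :
    S.F w ∈ S.B.orthogonal S.N := by
  obtain ⟨m, hm, hN⟩ := S.N_F
  have hq : ((p : K) ^ a) ≠ 0 := pow_ne_zero _ (by exact_mod_cast hp.ne_zero)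
  obtain ⟨m', rfl⟩ : ∃ m', m = m' + 1 := ⟨m - 1, by omega⟩
  have hst : ∀ (k : ℕ) (x : V), x ∈ S.N → (S.F ^ k) x ∈ S.N := by
    intro k
    induction k with
    | zero => intro x hx; simpa using hx
    | succ k ih =>
      intro x hx
      rw [pow_succ', Module.End.mul_apply]
      exact S.N_stable _ (ih x hx)
  intro x hx
  change S.B x (S.F w) = 0
  have h1 := hN x hx
  rw [pow_succ', Module.End.mul_apply] at h1
  have h2 : S.B (S.F ((S.F ^ m') x)) (S.F w) = 0 := by
    rw [S.B_F]
    have : S.B ((S.F ^ m') x) w = 0 := hw _ (hst m' x hx)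
    rw [this, mul_zero]
  rw [h1, map_smul, LinearMap.smul_apply, smul_eq_mul] at h2
  exact (mul_eq_zero.1 h2).resolve_left (pow_ne_zero _ hq)

/-- a Jordan block lives in the orthogonal complement of `N` -/
theorem block_orth [CharZero K] (hp : p.Prime) {α : K} (hα : IsTate p a α) {y v : V}
    (hy : S.F y = α • y + v) (hv : S.F v = α • v) :
    v ∈ S.B.orthogonal S.N ∧ ∃ w ∈ S.B.orthogonal S.N, S.F w = α • w + v := by
  obtain ⟨n, hn, w, hw, hnw⟩ : ∃ n ∈ S.N, ∃ w ∈ S.B.orthogonal S.N, n + w = y := by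
    have : y ∈ S.N ⊔ S.B.orthogonal S.N := by rw [S.compl.sup_eq_top]; trivial
    exact Submodule.mem_sup.1 this
  set vn := S.F n - α • n with hvn
  set vw := S.F w - α • w with hvw
  have h1 : vn ∈ S.N := S.N.sub_mem (S.N_stable n hn) (S.N.smul_mem _ hn)
  have h2 : vw ∈ S.B.orthogonal S.N :=
    Submodule.sub_mem _ (S.orth_stable hp hw) (Submodule.smul_mem _ _ hw)
  have h3 : v = vn + vw := by
    have : v = S.F y - α • y := by rw [hy]; abel
    rw [this, ← hnw, map_add, smul_add, hvn, hvw]; abel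
  have h4 : S.F vn - α • vn = 0 := by
    have h5 : (S.F vn - α • vn) + (S.F vw - α • vw) = 0 := by
      have : (S.F vn - α • vn) + (S.F vw - α • vw) = S.F v - α • v := by
        rw [h3, map_add, smul_add]; abel
      rw [this, hv, sub_self]
    have h6 : S.F vn - α • vn ∈ S.N := S.N.sub_mem (S.N_stable _ h1) (S.N.smul_mem _ h1)
    have h7 : S.F vn - α • vn ∈ S.B.orthogonal S.N := by
      have h8 : S.F vn - α • vn = -(S.F vw - α • vw) := eq_neg_of_add_eq_zero_left h5
      rw [h8]
      exact Submodule.neg_mem _ (Submodule.sub_mem _ (S.orth_stable hp h2)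
        (Submodule.smul_mem _ _ h2))
    exact (Submodule.disjoint_def.1 S.compl.disjoint) _ h6 h7
  have h5 : vn = 0 := by
    apply S.N_diag hp hα hn (v := vn)
    · rw [hvn]; abel
    · exact sub_eq_zero.1 h4
  rw [h5, zero_add] at h3
  refine ⟨by rw [h3]; exact h2, w, hw, ?_⟩
  rw [h3, hvw]; abel

/-- local criterion: `mult α ≤ dim NS α + 1` -/
theorem ss_local [CharZero K] (hp : p.Prime) {α : K} (hα : IsTate p a α)
    (hd : S.mult α ≤ finrank K (S.NS α) + 1) : S.SemisimpleAt α := by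
  apply eig_eq
  intro y v hy hv
  by_contra hv0
  obtain ⟨hvo, w, hwo, hw⟩ := S.block_orth hp hα hy hv
  have hli : LinearIndependent K ![w, v] := by
    rw [LinearIndependent.pair_iff]
    intro s t hst
    have h1 := congrArg S.F hst
    rw [map_add, map_smul, map_smul, hw, hv, map_zero] at h1
    have h2 : s • v = 0 := by
      have h3 : s • (α • w + v) + t • α • v - α • (s • w + t • v) = 0 := by
        rw [h1, hst, smul_zero, sub_zero]
      have h4 : s • (α • w + v) + t • α • v - α • (s • w + t • v) = s • v := by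
        module
      rw [← h4]; exact h3
    have hs : s = 0 := (smul_eq_zero.1 h2).resolve_right hv0
    rw [hs, zero_smul, zero_add] at hst
    exact ⟨hs, (smul_eq_zero.1 hst).resolve_right hv0⟩
  set D : Submodule K V := Submodule.span K (Set.range ![w, v]) with hD
  have hDfin : finrank K D = 2 := by
    rw [hD, finrank_span_eq_card hli]; simp
  have hDle : D ≤ S.B.orthogonal S.N := by
    rw [hD, Submodule.span_le]
    rintro _ ⟨i, rfl⟩
    fin_cases i
    · exact hwo
    · exact hvo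
  have hdisj : Disjoint (S.NS α) D := S.compl.disjoint.mono inf_le_left hDle
  have hle : S.NS α ⊔ D ≤ S.F.maxGenEigenspace α := by
    apply sup_le
    · intro x hx
      have := Module.End.mem_eigenspace_iff.1 hx.2
      rw [Module.End.mem_maxGenEigenspace]
      refine ⟨1, ?_⟩
      rw [pow_one, LinearMap.sub_apply, this]
      simp
    · rw [hD, Submodule.span_le]
      rintro _ ⟨i, rfl⟩
      have hv1 : (S.F - α • (1 : Module.End K V)) v = 0 := by
        rw [LinearMap.sub_apply, hv]; simp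
      have hw1 : (S.F - α • (1 : Module.End K V)) w = v := by
        rw [LinearMap.sub_apply, hw]; simp
      fin_cases i
      · refine Module.End.mem_maxGenEigenspace _ _ _ |>.2 ⟨2, ?_⟩
        rw [pow_two]
        change (S.F - α • (1 : Module.End K V)) ((S.F - α • (1 : Module.End K V)) w) = 0
        rw [hw1, hv1]
      · refine Module.End.mem_maxGenEigenspace _ _ _ |>.2 ⟨1, ?_⟩
        rw [pow_one]
        exact hv1
  have h1 := Submodule.finrank_mono hle
  have h2 := Submodule.finrank_sup_add_finrank_inf_eq (S.NS α) D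
  rw [hdisj.eq_bot, finrank_bot, add_zero, hDfin] at h2
  unfold mult at hd
  omega

theorem form_pow {α : K} (hα0 : α ≠ 0) (hα2 : α ^ 2 = ((p : K) ^ a) ^ 2) {x : V}
    (hx : S.F x = α • x) (i : ℕ) (y : V) : S.B x ((S.F ^ i) y) = α ^ i * S.B x y := by
  induction i with
  | zero => simp
  | succ i ih =>
    rw [pow_succ', Module.End.mul_apply]
    have h1 := S.B_F x ((S.F ^ i) y)
    rw [hx, map_smul, LinearMap.smul_apply, smul_eq_mul, ← hα2, ih] at h1
    apply mul_left_cancel₀ hα0
    rw [h1]; ring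

/-- the form is nondegenerate on `NS α` for `α = ± q` -/
theorem NS_nondeg [CharZero K] (hp : p.Prime) {α : K} (hα2 : α ^ 2 = ((p : K) ^ a) ^ 2) :
    ∀ x ∈ S.NS α, (∀ y ∈ S.NS α, S.B x y = 0) → x = 0 := by
  intro x hx hxy
  have hq : ((p : K) ^ a) ≠ 0 := pow_ne_zero _ (by exact_mod_cast hp.ne_zero)
  have hα0 : α ≠ 0 := by
    intro h
    rw [h, zero_pow two_ne_zero] at hα2
    exact pow_ne_zero _ hq hα2.symm
  have hxF : S.F x = α • x := Module.End.mem_eigenspace_iff.1 hx.2
  obtain ⟨m, hm, hN⟩ := S.N_F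
  set M := m * 2 with hM
  have hM0 : 0 < M := by omega
  have hαM : α ^ M = ((p : K) ^ a) ^ M := by
    rw [hM, mul_comm, pow_mul, hα2, ← pow_mul]
  have hst : ∀ (k : ℕ) (x : V), x ∈ S.N → (S.F ^ k) x ∈ S.N := by
    intro k
    induction k with
    | zero => intro x hx; simpa using hx
    | succ k ih =>
      intro x hx
      rw [pow_succ', Module.End.mul_apply]
      exact S.N_stable _ (ih x hx)
  apply S.N_nondeg x hx.1
  intro y hy
  set z : V := ∑ i ∈ Finset.range M, (α⁻¹) ^ i • (S.F ^ i) y with hz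
  have hzN : z ∈ S.N := Submodule.sum_mem _ fun i _ => S.N.smul_mem _ (hst i y hy)
  have hzF : S.F z = α • z := by
    have h1 : α⁻¹ • S.F z = z := by
      rw [hz, map_sum, Finset.smul_sum]
      have h2 : ∀ i ∈ Finset.range M, α⁻¹ • S.F ((α⁻¹) ^ i • (S.F ^ i) y) =
          (α⁻¹) ^ (i + 1) • (S.F ^ (i + 1)) y := by
        intro i _
        rw [map_smul, smul_smul, ← pow_succ', pow_succ' S.F, Module.End.mul_apply]
      rw [Finset.sum_congr rfl h2]
      have h3 := Finset.sum_range_succ (fun i => (α⁻¹) ^ i • (S.F ^ i) y) M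
      have h4 := Finset.sum_range_succ' (fun i => (α⁻¹) ^ i • (S.F ^ i) y) M
      have h5 : (α⁻¹) ^ M • (S.F ^ M) y = y := by
        rw [S.N_pow hN 2 y hy, ← hM, ← hαM, smul_smul, ← mul_pow, inv_mul_cancel₀ hα0, one_pow,
          one_smul]
      rw [h5] at h3
      simp only [pow_zero, Module.End.one_apply, one_smul] at h4
      rw [h3] at h4
      exact (add_right_cancel h4).symm
    calc S.F z = α • (α⁻¹ • S.F z) := by rw [smul_smul, mul_inv_cancel₀ hα0, one_smul]
      _ = α • z := by rw [h1]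
  have h1 : S.B x z = 0 := hxy z ⟨hzN, Module.End.mem_eigenspace_iff.2 hzF⟩
  have h2 : S.B x z = (M : K) * S.B x y := by
    rw [hz, map_sum]
    have h3 : ∀ i ∈ Finset.range M, S.B x ((α⁻¹) ^ i • (S.F ^ i) y) = S.B x y := by
      intro i _
      rw [map_smul, S.form_pow hα0 hα2 hxF, smul_eq_mul, ← mul_assoc, ← mul_pow,
        inv_mul_cancel₀ hα0, one_pow, one_mul]
    rw [Finset.sum_congr rfl h3, Finset.sum_const, Finset.card_range, nsmul_eq_mul]
  rw [h2] at h1
  exact (mul_eq_zero.1 h1).resolve_left (by exact_mod_cast hM0.ne')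

/-- local criterion at `± q`: `mult α ≤ dim NS α + 2` -/
theorem ss_local_two [CharZero K] (hp : p.Prime) {α : K} (hα2 : α ^ 2 = ((p : K) ^ a) ^ 2)
    (hd : S.mult α ≤ finrank K (S.NS α) + 2) : S.SemisimpleAt α := by
  have hq : ((p : K) ^ a) ≠ 0 := pow_ne_zero _ (by exact_mod_cast hp.ne_zero)
  have hα0 : α ≠ 0 := by
    intro h
    rw [h, zero_pow two_ne_zero] at hα2
    exact pow_ne_zero _ hq hα2.symm
  apply eig_eq
  intro y v hy hv
  exact noJordan S.F S.B (S.NS α) hα0 S.B_symm S.B_nondeg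
    (by intro x y; rw [S.B_F, hα2]) (S.NS_nondeg hp hα2)
    (fun x hx => Module.End.mem_eigenspace_iff.1 hx.2) hd hy hv

/-- a non-Tate eigenvalue of multiplicity `e` takes `2 e` dimensions -/
theorem dim_le [CharZero K] [IsAlgClosed K] {α : K} (h : S.F.HasEigenvalue α)
    (hT : ¬ IsTate p a α) {M : ℕ} (hM : 0 < M) :
    finrank K ((S.F ^ M).maxGenEigenspace (((p : K) ^ a) ^ M)) + 2 * S.mult α ≤
      finrank K V := by
  have hn : ∀ m, 0 < m → α ^ m ≠ ((p : K) ^ a) ^ m := fun m hm h' => hT ⟨m, hm, h'⟩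
  obtain ⟨α', h1, h2, h3⟩ := exists_conj S.weight S.monic (S.root h) hn
  have h4 := dim_ineq S.F h1 (hn M hM) (h2 M hM)
  have h5 : S.mult α ≤ S.mult α' := by rw [S.mult_eq, S.mult_eq]; exact h3
  unfold mult at h5 ⊢
  omega

theorem N_le {m : ℕ} (hm : ∀ x ∈ S.N, (S.F ^ m) x = ((p : K) ^ a) ^ m • x) :
    finrank K S.N ≤ finrank K ((S.F ^ m).maxGenEigenspace (((p : K) ^ a) ^ m)) := by
  apply Submodule.finrank_mono
  intro x hx
  rw [Module.End.mem_maxGenEigenspace]
  refine ⟨1, ?_⟩
  rw [pow_one, LinearMap.sub_apply, hm x hx]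
  simp

theorem mult_le_of_dim [CharZero K] [IsAlgClosed K] (hb : finrank K V ≤ finrank K S.N + 3)
    {α : K} (hT : ¬ IsTate p a α) : S.mult α ≤ 1 := by
  by_contra hlt
  have h := S.eigenvalue_of_mult (α := α) (by omega)
  obtain ⟨m, hm, hN⟩ := S.N_F
  have h1 := S.dim_le h hT hm
  have h2 := S.N_le hN
  omega

end SurfaceH2

end W534.FS
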