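import Mathlib
import Pool.Agent.W534.FS4

open Polynomial Module

namespace W534.FS

/-- degree of the primitive part of `H(qx)` modulo `p` -/
noncomputable def dg (p a : ℕ) (H : ℤ[X]) : ℕ :=
  ((sc ((p : ℤ) ^ a) H).primPart.map (Int.castRingHom (ZMod p))).natDegree

theorem sc_ne {p a : ℕ} (hp : p.Prime) {H : ℤ[X]} (hH : H.Monic) : sc ((p : ℤ) ^ a) H ≠ 0 := by
  intro h
  have h1 := congrArg (fun f => coeff f H.natDegree) h
  simp only [sc_coeff, hH.coeff_natDegree, one_mul, coeff_zero] at h1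
  exact pow_ne_zero _ (pow_ne_zero _ (by exact_mod_cast hp.ne_zero)) h1

theorem pp_ne {p : ℕ} (hp : p.Prime) (f : ℤ[X]) :
    f.primPart.map (Int.castRingHom (ZMod p)) ≠ 0 := by
  intro h
  have h1 : C (p : ℤ) ∣ f.primPart := by
    rw [C_dvd_iff_dvd_coeff]
    intro i
    have h2 : (f.primPart.map (Int.castRingHom (ZMod p))).coeff i = 0 := by rw [h, coeff_zero]
    rw [coeff_map, Int.coe_castRingHom, ZMod.intCast_zmod_eq_zero_iff_dvd] at h2
    exact h2
  have h3 := (isPrimitive_primPart f) (p : ℤ) h1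
  rw [Int.isUnit_iff_natAbs_eq, Int.natAbs_natCast] at h3
  exact hp.one_lt.ne' h3

theorem dg_mul {p a : ℕ} (hp : p.Prime) {H H' : ℤ[X]} (hH : H.Monic) (hH' : H'.Monic) :
    dg p a (H * H') = dg p a H + dg p a H' := by
  have : Fact p.Prime := ⟨hp⟩
  unfold dg
  rw [sc_mul, primPart_mul (mul_ne_zero (sc_ne hp hH) (sc_ne hp hH')), Polynomial.map_mul,
    natDegree_mul (pp_ne hp _) (pp_ne hp _)]

theorem dg_le {p a : ℕ} (H : ℤ[X]) : dg p a H ≤ H.natDegree := by
  unfold dg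
  refine (natDegree_map_le).trans ?_
  rw [natDegree_primPart, natDegree_le_iff_coeff_eq_zero]
  intro N hN
  rw [sc_coeff, coeff_eq_zero_of_natDegree_lt hN, zero_mul]

theorem dg_one {p a : ℕ} : dg p a 1 = 0 := by
  have := dg_le (p := p) (a := a) (1 : ℤ[X])
  simpa using this

theorem dg_pow {p a : ℕ} (hp : p.Prime) {H : ℤ[X]} (hH : H.Monic) (k : ℕ) :
    dg p a (H ^ k) = k * dg p a H := by
  induction k with
  | zero => rw [pow_zero, dg_one, zero_mul]
  | succ k ih => rw [pow_succ, dg_mul hp (hH.pow k) hH, ih]; ring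

/-- the coefficient of `H(qx)` at `dg` has valuation exactly `cv` -/
theorem coeff_dg {p a : ℕ} (hp : p.Prime) {H : ℤ[X]} (hH : H.Monic) :
    ∃ m : ℕ, ¬ p ∣ m ∧
      (H.coeff (dg p a H)).natAbs * p ^ (a * dg p a H) = p ^ cv p a H * m := by
  set i := dg p a H with hi
  refine ⟨((sc ((p : ℤ) ^ a) H).primPart.coeff i).natAbs, ?_, ?_⟩
  · intro h
    have h1 : ((sc ((p : ℤ) ^ a) H).primPart.map (Int.castRingHom (ZMod p))).coeff i = 0 := by
      rw [coeff_map, Int.coe_castRingHom, ZMod.intCast_zmod_eq_zero_iff_dvd]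
      exact Int.natCast_dvd.2 h
    rw [hi, dg, coeff_natDegree] at h1
    exact pp_ne hp _ (leadingCoeff_eq_zero.1 h1)
  · have h1 := congrArg (fun f => coeff f i) (eq_C_content_mul_primPart (sc ((p : ℤ) ^ a) H))
    simp only [coeff_C_mul, sc_coeff] at h1
    have h2 := congrArg Int.natAbs h1
    rw [Int.natAbs_mul, Int.natAbs_mul, (cv_spec hp hH).2, ← pow_mul, Int.natAbs_pow,
      Int.natAbs_natCast] at h2
    exact h2

/-- an upper bound for `cv` and a lower bound for `dg` from a coefficient -/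
theorem cv_le_coeff {p a : ℕ} (hp : p.Prime) {H : ℤ[X]} (hH : H.Monic) {i v : ℕ}
    (hv : ¬ (p : ℤ) ^ (v + 1) ∣ H.coeff i) : cv p a H ≤ v + a * i ∧
      (cv p a H = v + a * i → i ≤ dg p a H) := by
  have hdvd : (p : ℤ) ^ cv p a H ∣ (p : ℤ) ^ (a * i) * H.coeff i := by
    have h1 := content_dvd_coeff (p := sc ((p : ℤ) ^ a) H) i
    rw [sc_coeff, ← pow_mul, mul_comm] at h1
    refine dvd_trans ?_ h1
    rw [← Int.natAbs_dvd_natAbs, (cv_spec hp hH).2, Int.natAbs_pow, Int.natAbs_natCast]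
  have hpz : (p : ℤ) ≠ 0 := by exact_mod_cast hp.ne_zero
  have key : cv p a H ≤ v + a * i := by
    by_contra hlt
    push Not at hlt
    apply hv
    have h1 : (p : ℤ) ^ (a * i + (v + 1)) ∣ (p : ℤ) ^ (a * i) * H.coeff i :=
      dvd_trans (pow_dvd_pow _ (by omega)) hdvd
    rw [pow_add] at h1
    exact (mul_dvd_mul_iff_left (pow_ne_zero _ hpz)).1 h1
  refine ⟨key, fun heq => ?_⟩
  by_contra hlt
  push Not at hlt
  -- the coefficient of the primitive part vanishes modulo `p`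
  have h0 : ((sc ((p : ℤ) ^ a) H).primPart.map (Int.castRingHom (ZMod p))).coeff i = 0 :=
    coeff_eq_zero_of_natDegree_lt hlt
  rw [coeff_map, Int.coe_castRingHom, ZMod.intCast_zmod_eq_zero_iff_dvd] at h0
  have h1 := congrArg (fun f => coeff f i) (eq_C_content_mul_primPart (sc ((p : ℤ) ^ a) H))
  simp only [coeff_C_mul, sc_coeff] at h1
  have h2 : (p : ℤ) ^ (cv p a H + 1) ∣ H.coeff i * ((p : ℤ) ^ a) ^ i := by
    rw [h1, pow_succ]
    apply mul_dvd_mul _ h0
    rw [← Int.natAbs_dvd_natAbs, (cv_spec hp hH).2, Int.natAbs_pow, Int.natAbs_natCast]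
  apply hv
  rw [heq, ← pow_mul, mul_comm (H.coeff i), add_comm v, add_assoc, pow_add] at h2
  exact (mul_dvd_mul_iff_left (pow_ne_zero _ hpz)).1 h2

/-- a rational number which is integral in `K` is an integer -/
theorem dvd_of_integral {K : Type*} [Field K] [CharZero K] {m n : ℤ} (hn : n ≠ 0)
    (h : IsIntegral ℤ ((m : K) / (n : K))) : n ∣ m := by
  have h1 : (m : K) / (n : K) = algebraMap ℚ K ((m : ℚ) / (n : ℚ)) := by
    rw [map_div₀, map_intCast, map_intCast]
  rw [h1, isIntegral_algebraMap_iff (algebraMap ℚ K).injective] at h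
  obtain ⟨k, hk⟩ := IsIntegrallyClosed.isIntegral_iff.1 h
  refine ⟨k, ?_⟩
  have hnq : (n : ℚ) ≠ 0 := by exact_mod_cast hn
  have h2 : (k : ℚ) = (m : ℚ) / (n : ℚ) := by rw [← hk]; simp
  rw [eq_div_iff hnq] at h2
  have h3 : k * n = m := by exact_mod_cast h2
  rw [← h3, mul_comm]

/-- the coefficients of a factor whose roots have slope at least `u / h` -/
theorem coeff_slope {p u h : ℕ} (hp : p.Prime) (hh : 0 < h) {K : Type*} [Field K] [CharZero K]
    [IsAlgClosed K] {H : ℤ[X]} (hH : H.Monic)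
    (hr : ∀ z : K, aeval z H = 0 → IsIntegral ℤ (z ^ h / (p : K) ^ u)) (i : ℕ) :
    (p : ℤ) ^ (u * (H.natDegree - i)) ∣ (H.coeff i) ^ h := by
  have hpK : (p : K) ≠ 0 := by exact_mod_cast hp.ne_zero
  obtain ⟨ϖ, hϖ⟩ := IsAlgClosed.exists_pow_nat_eq (p : K) hh
  have hϖ0 : ϖ ≠ 0 := by
    rintro rfl
    rw [zero_pow hh.ne'] at hϖ
    exact hpK hϖ.symm
  set s : K := (ϖ ^ u)⁻¹ with hs
  have hs0 : s ≠ 0 := inv_ne_zero (pow_ne_zero _ hϖ0)
  set HK : K[X] := H.map (Int.castRingHom K) with hHK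
  have hHKm : HK.Monic := hH.map _
  have hmon : (scaleRoots HK s).Monic := (monic_scaleRoots_iff s).2 hHKm
  have hroot : ∀ r, (scaleRoots HK s).IsRoot r → IsIntegral ℤ r := by
    intro r hr'
    rw [IsRoot] at hr'
    have h1 : eval (r / s) HK = 0 := by
      have h2 := scaleRoots_eval₂_mul (p := HK) (RingHom.id K) (r / s) s
      simp only [RingHom.id_apply, eval₂_id] at h2
      rw [mul_div_cancel₀ _ hs0, hr'] at h2
      exact (mul_eq_zero.1 h2.symm).resolve_left (pow_ne_zero _ hs0)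
    have h2 : aeval (r / s) H = 0 := by
      rw [aeval_def, ← eval_map]
      exact h1
    have h3 := hr _ h2
    have h4 : (r / s) ^ h / (p : K) ^ u = r ^ h := by
      rw [hs, div_inv_eq_mul, mul_pow, ← hϖ, ← pow_mul, ← pow_mul, mul_comm u h,
        mul_div_assoc, div_self (pow_ne_zero _ hϖ0), mul_one]
    rw [h4] at h3
    exact IsIntegral.of_pow hh h3
  have hcoef : IsIntegral ℤ ((scaleRoots HK s).coeff i) := by
    apply Polynomial.isIntegral_coeff_of_factors _ _ _ hroot i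
    · rw [hmon.leadingCoeff]; exact isIntegral_one
    · exact IsAlgClosed.splits _
  have h5 := hcoef.pow h
  rw [coeff_scaleRoots] at h5
  have h6 : (HK.coeff i * s ^ (HK.natDegree - i)) ^ h =
      (((H.coeff i) ^ h : ℤ) : K) / (((p : ℤ) ^ (u * (H.natDegree - i)) : ℤ) : K) := by
    rw [hHK, coeff_map, hH.natDegree_map, hs, mul_pow, ← pow_mul, inv_pow, ← pow_mul,
      div_eq_mul_inv]
    push_cast
    congr 1
    · rw [← hϖ, ← pow_mul]
      congr 2
      ring
  rw [h6] at h5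
  exact dvd_of_integral (pow_ne_zero _ (by exact_mod_cast hp.ne_zero)) h5

end W534.FS
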