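import Mathlib
import Pool.Agent.W534.FS7

open Polynomial Module

namespace W534.FS

/-- `h δ ≤ a n` for a factor whose roots have slope at least `(h-1)/h` -/
theorem slope_ineq {p a h : ℕ} (hp : p.Prime) (hh : 0 < h) {K : Type*} [Field K] [CharZero K]
    [IsAlgClosed K] {H : ℤ[X]} (hH : H.Monic)
    (hr : ∀ z : K, aeval z H = 0 → IsIntegral ℤ (z ^ h / (p : K) ^ (a * (h - 1)))) :
    h * (a * H.natDegree) ≤ h * cv p a H + a * (H.natDegree - dg p a H) := by
  obtain ⟨m, hm, hcm⟩ := coeff_dg (a := a) hp hH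
  set i := dg p a H with hi
  have hid : i ≤ H.natDegree := dg_le H
  have h1 : p ^ (a * i) ∣ p ^ cv p a H * m := ⟨_, by rw [← hcm, mul_comm]⟩
  have h2 : a * i ≤ cv p a H := by
    have hcop : Nat.Coprime (p ^ (a * i)) m :=
      Nat.Coprime.pow_left _ ((hp.coprime_iff_not_dvd).2 hm)
    exact (Nat.pow_dvd_pow_iff_le_right hp.one_lt).1 (hcop.dvd_of_dvd_mul_right h1)
  obtain ⟨v, hv⟩ := Nat.exists_eq_add_of_le h2
  have h3 : (H.coeff i).natAbs = p ^ v * m := by
    apply Nat.eq_of_mul_eq_mul_right (pow_pos hp.pos (a * i))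
    rw [hcm, hv, pow_add]; ring
  have h4 := coeff_slope hp hh hH hr i
  have h5 := Int.natAbs_dvd_natAbs.2 h4
  rw [Int.natAbs_pow, Int.natAbs_pow, Int.natAbs_natCast, h3, mul_pow, ← pow_mul] at h5
  have hcop : Nat.Coprime (p ^ (a * (h - 1) * (H.natDegree - i))) (m ^ h) :=
    Nat.Coprime.pow _ _ ((hp.coprime_iff_not_dvd).2 hm)
  have h6 := (Nat.pow_dvd_pow_iff_le_right hp.one_lt).1 (hcop.dvd_of_dvd_mul_right h5)
  obtain ⟨n, hn⟩ := Nat.exists_eq_add_of_le hid
  obtain ⟨h', rfl⟩ : ∃ h', h = h' + 1 := ⟨h - 1, by omega⟩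
  rw [hn, Nat.add_sub_cancel_left] at h6 ⊢
  rw [Nat.add_sub_cancel] at h6
  rw [hv]
  have e1 : (h' + 1) * (a * (i + n)) = (h' + 1) * (a * i) + (a * h' * n + a * n) := by ring
  have e2 : (h' + 1) * (a * i + v) + a * n = (h' + 1) * (a * i) + (v * (h' + 1) + a * n) := by
    ring
  rw [e1, e2]
  omega

/-- the weighted form of `sum_le` -/
theorem sum_le_w {p a pg w : ℕ} (hp : p.Prime) {K : Type*} [Field K] [CharZero K] {P : ℤ[X]}
    (hP : P.Monic) (Z : Finset K)
    (hZ : ∀ z ∈ Z, aeval z P = 0)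
    (hd : ∀ z ∈ Z, ∀ z' ∈ Z, minpoly ℤ z = minpoly ℤ z' → z = z')
    (hw : ∀ z ∈ Z, cv p a (minpoly ℤ z) + w ≤ a * (minpoly ℤ z).natDegree)
    (hnh : ∀ j, pg ≤ j → j ≤ P.natDegree →
      ((p : ℤ) ^ a) ^ (j - pg) ∣ P.coeff (P.natDegree - j)) :
    w * ∑ z ∈ Z, mu P z ≤ a * pg := by
  classical
  obtain ⟨G, hGm, hG⟩ := factor_set hP Z hZ hd
  have hmonE : ∀ z ∈ Z, (minpoly ℤ z).Monic := fun z hz =>
    minpoly.monic (integral_of_root hP (hZ z hz))
  have hmon : (∏ w ∈ Z, (minpoly ℤ w) ^ (mu P w)).Monic :=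
    monic_prod_of_monic _ _ fun w hw => (hmonE w hw).pow _
  have key : ∀ S ⊆ Z, (∏ w ∈ S, (minpoly ℤ w) ^ (mu P w)).Monic ∧
      cv p a (∏ w ∈ S, (minpoly ℤ w) ^ (mu P w)) + w * ∑ w ∈ S, mu P w ≤
        a * (∏ w ∈ S, (minpoly ℤ w) ^ (mu P w)).natDegree := by
    intro S
    induction S using Finset.induction_on with
    | empty => intro _; simp [cv_one hp]
    | insert y S hy ih =>
      intro hS
      obtain ⟨h1, h2⟩ := ih (fun x hx => hS (Finset.mem_insert_of_mem hx))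
      have hyZ : y ∈ Z := hS (Finset.mem_insert_self _ _)
      have h3 := hw y hyZ
      rw [Finset.prod_insert hy, Finset.sum_insert hy]
      refine ⟨((hmonE y hyZ).pow _).mul h1, ?_⟩
      rw [cv_mul hp ((hmonE y hyZ).pow _) h1, cv_pow hp (hmonE y hyZ),
        ((hmonE y hyZ).pow _).natDegree_mul h1, (hmonE y hyZ).natDegree_pow]
      have h4 := Nat.mul_le_mul_left (mu P y) h3
      have h5 : mu P y * (a * (minpoly ℤ y).natDegree) =
        a * (mu P y * (minpoly ℤ y).natDegree) := by ring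
      have h6 : mu P y * w = w * mu P y := mul_comm _ _
      rw [mul_add, h5, h6] at h4
      rw [mul_add, mul_add]
      omega
  obtain ⟨-, h2⟩ := key Z subset_rfl
  have h3 := cv_ge hp hP hnh
  have h4 := (cv_spec (a := a) hp hGm).1
  have h5 : cv p a P = cv p a (∏ w ∈ Z, (minpoly ℤ w) ^ (mu P w)) + cv p a G := by
    conv_lhs => rw [hG]
    exact cv_mul hp hmon hGm
  have h6 : P.natDegree = (∏ w ∈ Z, (minpoly ℤ w) ^ (mu P w)).natDegree + G.natDegree := by
    conv_lhs => rw [hG]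
    exact hmon.natDegree_mul hGm
  have h7 : a * P.natDegree = a * (∏ w ∈ Z, (minpoly ℤ w) ^ (mu P w)).natDegree
      + a * G.natDegree := by rw [h6]; ring
  have h8 : a * (P.natDegree - pg) + a * pg ≥ a * P.natDegree := by
    rw [← mul_add]; apply Nat.mul_le_mul_left; omega
  omega

/-- in height `h`, for each factor: `h δ = a n`, so `a / gcd a h` divides `δ` -/
theorem delta_dvd {p a h : ℕ} (hp : p.Prime) (ha : 0 < a) (hh : 0 < h) {K : Type*} [Field K]
    [CharZero K] [IsAlgClosed K] {P : ℤ[X]} (hP : P.Monic) {z : K} (hz : aeval z P = 0)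
    (hni : ¬ IsIntegral ℤ (z / (p : K) ^ a))
    (hnh : ∀ j, 1 ≤ j → j ≤ P.natDegree →
      ((p : ℤ) ^ a) ^ (j - 1) ∣ P.coeff (P.natDegree - j))
    (hhb : h ≤ P.natDegree)
    (hv : ¬ (p : ℤ) ^ (a * (h - 1) + 1) ∣ P.coeff (P.natDegree - h))
    (hr : ∀ z : K, aeval z P = 0 → IsIntegral ℤ (z ^ h / (p : K) ^ (a * (h - 1)))) :
    cv p a (minpoly ℤ z) + a / Nat.gcd a h ≤ a * (minpoly ℤ z).natDegree := by
  obtain ⟨k, G, hGm, hEm, hPEG, hk0, hd, hroot⟩ := factor hP hz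
  have hzi := integral_of_root hP hz
  have hlt := cv_lt (a := a) hp hzi hni
  set E := minpoly ℤ z with hE
  have hrE : ∀ y : K, aeval y E = 0 → IsIntegral ℤ (y ^ h / (p : K) ^ (a * (h - 1))) := by
    intro y hy
    apply hr
    rw [hPEG, map_mul, map_pow, hy, zero_pow hk0.ne', zero_mul]
  have hrG : ∀ y : K, aeval y G = 0 → IsIntegral ℤ (y ^ h / (p : K) ^ (a * (h - 1))) := by
    intro y hy
    apply hr
    rw [hPEG, map_mul, hy, mul_zero]
  have iE := slope_ineq hp hh hEm hrE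
  have iG := slope_ineq hp hh hGm hrG
  have hdP : P.natDegree = k * E.natDegree + G.natDegree := by
    rw [hPEG, (hEm.pow k).natDegree_mul hGm, hEm.natDegree_pow]
  have hcP : cv p a P = k * cv p a E + cv p a G := by
    conv_lhs => rw [hPEG]
    rw [cv_mul hp (hEm.pow k) hGm, cv_pow hp hEm]
  have hgP : dg p a P = k * dg p a E + dg p a G := by
    conv_lhs => rw [hPEG]
    rw [dg_mul hp (hEm.pow k) hGm, dg_pow hp hEm]
  have h1 := cv_ge hp hP hnh
  obtain ⟨h2, h3⟩ := cv_le_coeff (a := a) hp hP (i := P.natDegree - h) (v := a * (h - 1)) hv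
  have h4 : a * (h - 1) + a * (P.natDegree - h) = a * (P.natDegree - 1) := by
    rw [← mul_add]; congr 1; omega
  rw [h4] at h2 h3
  have h5 : cv p a P = a * (P.natDegree - 1) := le_antisymm h2 h1
  have h6 := h3 h5
  obtain ⟨b', hb'⟩ : ∃ b', P.natDegree = b' + 1 := ⟨P.natDegree - 1, by omega⟩
  rw [hb', Nat.add_sub_cancel] at h5
  have dE : dg p a E ≤ E.natDegree := dg_le E
  have dG : dg p a G ≤ G.natDegree := dg_le G
  obtain ⟨nE, hnE⟩ := Nat.exists_eq_add_of_le dE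
  obtain ⟨nG, hnG⟩ := Nat.exists_eq_add_of_le dG
  obtain ⟨δE, hδE⟩ := Nat.exists_eq_add_of_le (cv_spec (a := a) hp hEm).1
  obtain ⟨δG, hδG⟩ := Nat.exists_eq_add_of_le (cv_spec (a := a) hp hGm).1
  -- in terms of `n` and `δ`
  have jE : h * δE ≤ a * nE := by
    have : E.natDegree - dg p a E = nE := by omega
    rw [this, hδE, mul_add] at iE
    omega
  have jG : h * δG ≤ a * nG := by
    have : G.natDegree - dg p a G = nG := by omega
    rw [this, hδG, mul_add] at iG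
    omega
  have hsumδ : k * δE + δG = a := by
    have e1 : a * P.natDegree = k * (a * E.natDegree) + a * G.natDegree := by rw [hdP]; ring
    rw [hδE, hδG, mul_add] at e1
    have e2 : a * P.natDegree = a * b' + a := by rw [hb']; ring
    omega
  have hsumn : k * nE + nG ≤ h := by
    have e1 : P.natDegree = dg p a P + (k * nE + nG) := by
      rw [hdP, hgP, hnE, hnG]; ring
    omega
  have heq : a * nE ≤ h * δE := by
    by_contra hcon
    push Not at hcon
    have e1 : k * (h * δE) + h * δG < k * (a * nE) + a * nG :=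
      add_lt_add_of_lt_of_le (Nat.mul_lt_mul_of_pos_left hcon hk0) jG
    have e2 : k * (h * δE) + h * δG = h * a := by rw [← hsumδ]; ring
    have e3 : k * (a * nE) + a * nG = a * (k * nE + nG) := by ring
    have e4 : a * (k * nE + nG) ≤ a * h := Nat.mul_le_mul_left _ hsumn
    rw [e2, e3, mul_comm h a] at e1
    omega
  have hEq : h * δE = a * nE := le_antisymm jE heq
  -- divisibility
  have hg : 0 < Nat.gcd a h := Nat.gcd_pos_of_pos_left _ ha
  have hdvd : a / Nat.gcd a h ∣ δE := by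
    have c1 : Nat.Coprime (a / Nat.gcd a h) (h / Nat.gcd a h) := Nat.coprime_div_gcd_div_gcd hg
    apply c1.dvd_of_dvd_mul_left
    refine ⟨nE, ?_⟩
    apply Nat.eq_of_mul_eq_mul_left hg
    have d1 : Nat.gcd a h * (h / Nat.gcd a h) = h := Nat.mul_div_cancel' (Nat.gcd_dvd_right a h)
    have d2 : Nat.gcd a h * (a / Nat.gcd a h) = a := Nat.mul_div_cancel' (Nat.gcd_dvd_left a h)
    rw [← mul_assoc, ← mul_assoc, d1, d2, hEq]
  have hδpos : 0 < δE := by omega
  have hle := Nat.le_of_dvd hδpos hdvd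
  omega

/-- in height `h`, for `p_g = 1`: the multiplicities add up to at most `gcd a h` -/
theorem sum_le_height {p a h : ℕ} (hp : p.Prime) (ha : 0 < a) (hh : 0 < h) {K : Type*} [Field K]
    [CharZero K] [IsAlgClosed K] {P : ℤ[X]} (hP : P.Monic) (Z : Finset K)
    (hZ : ∀ z ∈ Z, aeval z P = 0)
    (hd : ∀ z ∈ Z, ∀ z' ∈ Z, minpoly ℤ z = minpoly ℤ z' → z = z')
    (hni : ∀ z ∈ Z, ¬ IsIntegral ℤ (z / (p : K) ^ a))
    (hnh : ∀ j, 1 ≤ j → j ≤ P.natDegree →
      ((p : ℤ) ^ a) ^ (j - 1) ∣ P.coeff (P.natDegree - j))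
    (hhb : h ≤ P.natDegree)
    (hv : ¬ (p : ℤ) ^ (a * (h - 1) + 1) ∣ P.coeff (P.natDegree - h))
    (hr : ∀ z : K, aeval z P = 0 → IsIntegral ℤ (z ^ h / (p : K) ^ (a * (h - 1)))) :
    ∑ z ∈ Z, mu P z ≤ Nat.gcd a h := by
  have h1 := sum_le_w (w := a / Nat.gcd a h) hp hP Z hZ hd
    (fun z hz => delta_dvd hp ha hh hP (hZ z hz) (hni z hz) hnh hhb hv hr) hnh
  have hg : 0 < Nat.gcd a h := Nat.gcd_pos_of_pos_left _ ha
  have d2 : a / Nat.gcd a h * Nat.gcd a h = a := Nat.div_mul_cancel (Nat.gcd_dvd_left a h)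
  have hpos : 0 < a / Nat.gcd a h := Nat.div_pos (Nat.gcd_le_left _ ha) hg
  rw [mul_one] at h1
  exact Nat.le_of_mul_le_mul_left (h1.trans_eq d2.symm) hpos

end W534.FS
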