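import Mathlib
import Pool.Agent.W534.FS8

open Polynomial Module

namespace W534.FS

variable {p a : ℕ} {K V : Type*} [Field K] [AddCommGroup V] [Module K V] [Module.Finite K V]

/-- `p_g = 1` and the formal Brauer group has finite height `h`: exactly `h` eigenvalues have slope
less than one, and their slope is `1 - 1/h` (Artin–Mazur). That is: `z ^ h / q ^ (h-1)` is integral
for all eigenvalues `z`, and the coefficient of `x ^ (b - h)` in the characteristic polynomial is
not divisible by `p q ^ (h-1)`. -/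
def SurfaceH2.Height (S : SurfaceH2 p a K V) (h : ℕ) : Prop :=
  S.pg = 1 ∧ 0 < h ∧ h ≤ S.P.natDegree ∧
    ¬ (p : ℤ) ^ (a * (h - 1) + 1) ∣ S.P.coeff (S.P.natDegree - h) ∧
    ∀ z : K, S.F.HasEigenvalue z → IsIntegral ℤ (z ^ h / (p : K) ^ (a * (h - 1)))

theorem SurfaceH2.sum_mult_height [CharZero K] [IsAlgClosed K] (S : SurfaceH2 p a K V)
    (hp : p.Prime) (ha : 0 < a) {h : ℕ} (hH : S.Height h)
    (Z : Finset K) (hZ : ∀ z ∈ Z, S.F.HasEigenvalue z ∧ ¬ IsTate p a z)
    (hd : ∀ z ∈ Z, ∀ z' ∈ Z, minpoly ℤ z = minpoly ℤ z' → z = z') :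
    ∑ z ∈ Z, S.mult z ≤ Nat.gcd a h := by
  obtain ⟨h1, h2, h3, h4, h5⟩ := hH
  have e1 : ∑ z ∈ Z, S.mult z = ∑ z ∈ Z, mu S.P z := Finset.sum_congr rfl fun z _ => S.mult_eq z
  rw [e1]
  refine sum_le_height hp ha h2 S.monic Z (fun z hz => S.root (hZ z hz).1) hd
    (fun z hz => S.notInt hp (hZ z hz).1 (hZ z hz).2) ?_ h3 h4 ?_
  · have := S.newton_hodge
    rw [h1] at this
    exact this
  · intro z hz
    apply h5
    rw [Module.End.hasEigenvalue_iff_isRoot_charpoly, S.charpoly_F, IsRoot, eval_map]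
    rw [aeval_def] at hz
    exact hz

end W534.FS
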