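import Mathlib
import Pool.Agent.W534.FS4

open Polynomial Module

namespace W534.FS

variable {p a : ℕ} {K V : Type*} [Field K] [AddCommGroup V] [Module K V] [Module.Finite K V]

/-- the Tate conjecture for divisors on `X` over all finite extensions: each class `x` with
`F ^ m x = q ^ m x` is a combination of classes of divisors on `X̄` -/
def SurfaceH2.TateDivisors (S : SurfaceH2 p a K V) : Prop :=
  ∀ m, 0 < m → ∀ x, (S.F ^ m) x = ((p : K) ^ a) ^ m • x → x ∈ S.N

/-- the span of the endomorphisms of `V = H²(X̄)` given by the graphs of the powers of the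
Frobenius and by the products `D × D'` of divisors on `X̄` (which act by `x ↦ (D · x) D'`) -/
def SurfaceH2.Alg (S : SurfaceH2 p a K V) : Submodule K (Module.End K V) :=
  Submodule.span K ({g | ∃ i : ℕ, g = S.F ^ i} ∪
    {g | ∃ n ∈ S.N, ∃ n' ∈ S.N, g = (S.B n).smulRight n'})

namespace SurfaceH2

variable (S : SurfaceH2 p a K V)

theorem frob_mem (f : K[X]) : aeval S.F f ∈ S.Alg := by
  rw [aeval_eq_sum_range]
  apply Submodule.sum_mem
  intro i _
  apply Submodule.smul_mem
  exact Submodule.subset_span (Or.inl ⟨i, rfl⟩)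

/-- an endomorphism with values in `N` which kills the orthogonal complement of `N` is a
combination of products of divisors -/
theorem prod_mem (k : Module.End K V) (h1 : ∀ x, k x ∈ S.N)
    (h2 : ∀ x ∈ S.B.orthogonal S.N, k x = 0) : k ∈ S.Alg := by
  classical
  set b := Module.finBasis K S.N with hb
  -- the form identifies `N` with its dual
  set Φ : S.N →ₗ[K] Module.Dual K S.N :=
    { toFun := fun n => (S.B (n : V)).comp S.N.subtype
      map_add' := by intro x y; ext z; simp
      map_smul' := by intro c x; ext z; simp } with hΦ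
  have hinj : Function.Injective Φ := by
    rw [← LinearMap.ker_eq_bot, LinearMap.ker_eq_bot']
    intro n hn
    have : (n : V) = 0 := by
      apply S.N_nondeg n n.2
      intro y hy
      have := LinearMap.congr_fun hn ⟨y, hy⟩
      exact this
    exact Subtype.ext this
  have hsurj : Function.Surjective Φ :=
    (LinearMap.injective_iff_surjective_of_finrank_eq_finrank
      (Subspace.dual_finrank_eq (K := K) (V := S.N)).symm).1 hinj
  choose ν hν using fun i => hsurj (b.coord i)
  have hkey : k = ∑ i, (S.B (ν i : V)).smulRight (k (b i : V)) := by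
    ext x
    rw [LinearMap.sum_apply]
    simp only [LinearMap.smulRight_apply]
    obtain ⟨n, hn, w, hw, rfl⟩ : ∃ n ∈ S.N, ∃ w ∈ S.B.orthogonal S.N, n + w = x := by
      have : x ∈ S.N ⊔ S.B.orthogonal S.N := by rw [S.compl.sup_eq_top]; trivial
      exact Submodule.mem_sup.1 this
    have e1 : ∀ i, S.B (ν i : V) (n + w) = b.coord i ⟨n, hn⟩ := by
      intro i
      rw [map_add, hw (ν i : V) (ν i).2, add_zero]
      have := LinearMap.congr_fun (hν i) ⟨n, hn⟩
      exact this
    simp only [e1]
    rw [map_add, h2 w hw, add_zero]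
    have e2 : (n : V) = ∑ i, b.coord i ⟨n, hn⟩ • (b i : V) := by
      have := congrArg (fun z : S.N => (z : V)) (b.sum_repr ⟨n, hn⟩)
      simp only [Submodule.coe_sum, Submodule.coe_smul] at this
      exact this.symm
    conv_lhs => rw [e2]
    rw [map_sum]
    exact Finset.sum_congr rfl fun i _ => map_smul _ _ _
  rw [hkey]
  apply Submodule.sum_mem
  intro i _
  exact Submodule.subset_span (Or.inr ⟨_, (ν i).2, _, h1 _, rfl⟩)

theorem pow_eig {α : K} {x : V} (hx : S.F x = α • x) (m : ℕ) : (S.F ^ m) x = α ^ m • x := by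
  induction m with
  | zero => simp
  | succ m ih => rw [pow_succ', Module.End.mul_apply, ih, map_smul, hx, smul_smul, pow_succ]

theorem tate_mem (hT : S.TateDivisors) {α : K} (hα : IsTate p a α) {x : V}
    (hx : S.F x = α • x) : x ∈ S.N := by
  obtain ⟨m, hm, h⟩ := hα
  apply hT m hm
  rw [S.pow_eig hx, h]

theorem nonTate_orth [CharZero K] (hp : p.Prime) {α : K} (hα : ¬ IsTate p a α) {x : V}
    (hx : S.F x = α • x) : x ∈ S.B.orthogonal S.N := by
  obtain ⟨m, hm, hN⟩ := S.N_F
  have hq : ((p : K) ^ a) ≠ 0 := pow_ne_zero _ (by exact_mod_cast hp.ne_zero)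
  intro n hn
  change S.B n x = 0
  have h1 := pow_form S.F S.B S.B_F m n x
  rw [hN n hn, S.pow_eig hx] at h1
  simp only [map_smul, LinearMap.smul_apply, smul_eq_mul] at h1
  have h2 : (((p : K) ^ a) ^ m) * ((α ^ m - ((p : K) ^ a) ^ m) * S.B n x) = 0 := by
    linear_combination h1
  have h3 := (mul_eq_zero.1 h2).resolve_left (pow_ne_zero _ hq)
  refine (mul_eq_zero.1 h3).resolve_left ?_
  intro h
  exact hα ⟨m, hm, sub_eq_zero.1 h⟩

theorem ss_of_tate [CharZero K] (hp : p.Prime) (hT : S.TateDivisors)
    (hs : ∀ α, ¬ IsTate p a α → S.mult α ≤ 1) : S.Semisimple := by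
  intro α
  by_cases hα : IsTate p a α
  · apply eig_eq
    intro y v hy hv
    exact (Submodule.disjoint_def.1 S.compl.disjoint) v (S.tate_mem hT hα hv)
      (S.block_orth hp hα hy hv).1
  · exact S.ss_of_mult (hs α hα)

/-- an endomorphism which commutes with the Frobenius is algebraic -/
theorem commutant [CharZero K] [IsAlgClosed K] (hp : p.Prime) (hT : S.TateDivisors)
    (hs : ∀ α, ¬ IsTate p a α → S.mult α ≤ 1) (h : Module.End K V)
    (hc : h * S.F = S.F * h) : h ∈ S.Alg := by
  classical
  have hss := S.ss_of_tate hp hT hs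
  have htop : ⨆ α, S.F.eigenspace α = ⊤ := by
    rw [← Module.End.iSup_maxGenEigenspace_eq_top S.F]
    exact iSup_congr fun α => (hss α).symm
  have hcx : ∀ x, h (S.F x) = S.F (h x) := fun x => LinearMap.congr_fun hc x
  -- the scalars on the lines
  have hline : ∀ α : K, ∃ c : K, ¬ IsTate p a α → ∀ x : V, S.F x = α • x → h x = c • x := by
    intro α
    by_cases hα : IsTate p a α
    · exact ⟨0, fun h => absurd hα h⟩
    by_cases hbot : S.F.eigenspace α = ⊥
    · refine ⟨0, fun _ x hx => ?_⟩
      have : x ∈ S.F.eigenspace α := Module.End.mem_eigenspace_iff.2 hx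
      rw [hbot, Submodule.mem_bot] at this
      rw [this]; simp
    obtain ⟨e, he, he0⟩ := Submodule.exists_mem_ne_zero_of_ne_bot hbot
    have hfin : finrank K (S.F.eigenspace α) ≤ 1 := by
      have h1 := hs α hα
      unfold mult at h1
      rw [hss α] at h1
      exact h1
    have hgen : ∀ x ∈ S.F.eigenspace α, ∃ c : K, c • e = x := by
      intro x hx
      have h1 := finrank_le_one_iff.1 hfin
      obtain ⟨v, hv⟩ := h1
      obtain ⟨c1, hc1⟩ := hv ⟨e, he⟩
      obtain ⟨c2, hc2⟩ := hv ⟨x, hx⟩
      have h3 : c1 ≠ 0 := by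
        rintro rfl
        rw [zero_smul] at hc1
        exact he0 (congrArg Subtype.val hc1).symm
      refine ⟨c2 * c1⁻¹, ?_⟩
      have e1 : e = c1 • (v : V) := (congrArg Subtype.val hc1).symm
      have e2 : x = c2 • (v : V) := (congrArg Subtype.val hc2).symm
      rw [e1, e2, smul_smul, mul_assoc, inv_mul_cancel₀ h3, mul_one]
    have heF : S.F e = α • e := Module.End.mem_eigenspace_iff.1 he
    obtain ⟨c, hc'⟩ := hgen (h e) (Module.End.mem_eigenspace_iff.2 (by
      rw [← hcx, heF, map_smul]))
    refine ⟨c, fun _ x hx => ?_⟩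
    obtain ⟨d, rfl⟩ := hgen x (Module.End.mem_eigenspace_iff.2 hx)
    rw [map_smul, ← hc', smul_comm]
  choose c hcc using hline
  set s : Finset K := S.F.charpoly.roots.toFinset with hs'
  set f : K[X] := Lagrange.interpolate s id (fun α => if IsTate p a α then 0 else c α) with hf
  have hfe : ∀ (α : K) (x : V), S.F x = α • x → x ≠ 0 →
      aeval S.F f x = (if IsTate p a α then (0 : K) else c α) • x := by
    intro α x hx hx0
    have he : S.F.HasEigenvalue α :=
      Module.End.hasEigenvalue_of_hasEigenvector ⟨Module.End.mem_eigenspace_iff.2 hx, hx0⟩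
    have hmem : α ∈ s := by
      rw [hs', Multiset.mem_toFinset, mem_roots (LinearMap.charpoly_monic _).ne_zero]
      exact (Module.End.hasEigenvalue_iff_isRoot_charpoly _ _).1 he
    have h1 : aeval S.F f x = f.eval α • x :=
      Module.End.aeval_apply_of_hasEigenvector ⟨Module.End.mem_eigenspace_iff.2 hx, hx0⟩
    rw [h1, hf]
    have h2 := Lagrange.eval_interpolate_at_node (s := s) (v := (id : K → K))
      (fun α => if IsTate p a α then (0 : K) else c α) (Set.injOn_id _) hmem
    simp only [id] at h2
    rw [h2]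
  set k : Module.End K V := h - aeval S.F f with hk
  have hkT : ∀ α : K, IsTate p a α → ∀ x : V, S.F x = α • x → k x ∈ S.N := by
    intro α hα x hx
    by_cases hx0 : x = 0
    · rw [hx0, map_zero]; exact S.N.zero_mem
    rw [hk, LinearMap.sub_apply, hfe α x hx hx0, if_pos hα, zero_smul, sub_zero]
    exact S.tate_mem hT hα (by rw [← hcx, hx, map_smul])
  have hkn : ∀ α : K, ¬ IsTate p a α → ∀ x : V, S.F x = α • x → k x = 0 := by
    intro α hα x hx
    by_cases hx0 : x = 0
    · rw [hx0, map_zero]
    rw [hk, LinearMap.sub_apply, hfe α x hx hx0, if_neg hα, hcc α hα x hx, sub_self]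
  have hdec : ∀ x, x ∈ S.N ⊔ (LinearMap.ker k ⊓ S.B.orthogonal S.N) := by
    intro x
    have hx : x ∈ ⨆ α, S.F.eigenspace α := by rw [htop]; trivial
    refine (iSup_le ?_ : (⨆ α, S.F.eigenspace α) ≤ _) hx
    intro α y hy
    rw [Module.End.mem_eigenspace_iff] at hy
    by_cases hα : IsTate p a α
    · exact Submodule.mem_sup_left (S.tate_mem hT hα hy)
    · exact Submodule.mem_sup_right ⟨hkn α hα y hy, S.nonTate_orth hp hα hy⟩
  have hrange : ∀ x, k x ∈ S.N := by
    intro x
    have hx : x ∈ ⨆ α, S.F.eigenspace α := by rw [htop]; trivial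
    have : (⨆ α, S.F.eigenspace α) ≤ S.N.comap k := by
      apply iSup_le
      intro α y hy
      rw [Module.End.mem_eigenspace_iff] at hy
      by_cases hα : IsTate p a α
      · exact hkT α hα y hy
      · rw [Submodule.mem_comap, hkn α hα y hy]; exact S.N.zero_mem
    exact this hx
  have hkill : ∀ w ∈ S.B.orthogonal S.N, k w = 0 := by
    intro w hw
    obtain ⟨t, ht, u, hu, htu⟩ := Submodule.mem_sup.1 (hdec w)
    have h1 : t ∈ S.B.orthogonal S.N := by
      have : t = w - u := by rw [← htu]; abel
      rw [this]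
      exact Submodule.sub_mem _ hw hu.2
    have h2 : t = 0 := (Submodule.disjoint_def.1 S.compl.disjoint) t ht h1
    rw [← htu, h2, zero_add]
    exact hu.1
  have h1 := S.prod_mem k hrange hkill
  have h2 : h = k + aeval S.F f := by rw [hk]; abel
  rw [h2]
  exact Submodule.add_mem _ h1 (S.frob_mem f)

end SurfaceH2

end W534.FS
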