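import Mathlib
import Pool.Agent.W534.FS4

open Polynomial Module

namespace W534.FS

theorem cv_ge' {p A g : ℕ} (hp : p.Prime) {P : ℤ[X]} (hP : P.Monic)
    (hnh : ∀ j, j ≤ P.natDegree → (p : ℤ) ^ (A * j - g) ∣ P.coeff (P.natDegree - j)) :
    A * P.natDegree ≤ cv p A P + g := by
  have hdvd : (p : ℤ) ^ (A * P.natDegree - g) ∣ (sc ((p : ℤ) ^ A) P).content := by
    rw [dvd_content_iff_C_dvd, C_dvd_iff_dvd_coeff]
    intro i
    rw [sc_coeff]
    by_cases hi : P.natDegree < i
    · rw [coeff_eq_zero_of_natDegree_lt hi, zero_mul]; exact dvd_zero _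
    push Not at hi
    have h1 := hnh (P.natDegree - i) (Nat.sub_le _ _)
    rw [Nat.sub_sub_self hi] at h1
    rw [← pow_mul]
    refine dvd_trans ?_ (mul_dvd_mul h1 dvd_rfl)
    rw [← pow_add]
    apply pow_dvd_pow
    have h2 : A * P.natDegree = A * (P.natDegree - i) + A * i := by
      rw [← mul_add, Nat.sub_add_cancel hi]
    omega
  have h4 := Int.natAbs_dvd_natAbs.2 hdvd
  rw [(cv_spec hp hP).2, Int.natAbs_pow, Int.natAbs_natCast,
    Nat.pow_dvd_pow_iff_le_right hp.one_lt] at h4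
  omega

theorem sum_le' {p A g : ℕ} (hp : p.Prime) {K : Type*} [Field K] [CharZero K] {P : ℤ[X]}
    (hP : P.Monic) (Z : Finset K)
    (hZ : ∀ z ∈ Z, aeval z P = 0)
    (hd : ∀ z ∈ Z, ∀ z' ∈ Z, minpoly ℤ z = minpoly ℤ z' → z = z')
    (hni : ∀ z ∈ Z, ¬ IsIntegral ℤ (z / (p : K) ^ A))
    (hnh : ∀ j, j ≤ P.natDegree → (p : ℤ) ^ (A * j - g) ∣ P.coeff (P.natDegree - j)) :
    ∑ z ∈ Z, mu P z ≤ g := by
  classical
  obtain ⟨G, hGm, hG⟩ := factor_set hP Z hZ hd
  have hmonE : ∀ z ∈ Z, (minpoly ℤ z).Monic := fun z hz =>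
    minpoly.monic (integral_of_root hP (hZ z hz))
  have hmon : (∏ w ∈ Z, (minpoly ℤ w) ^ (mu P w)).Monic :=
    monic_prod_of_monic _ _ fun w hw => (hmonE w hw).pow _
  have key : ∀ S ⊆ Z, (∏ w ∈ S, (minpoly ℤ w) ^ (mu P w)).Monic ∧
      cv p A (∏ w ∈ S, (minpoly ℤ w) ^ (mu P w)) + ∑ w ∈ S, mu P w ≤
        A * (∏ w ∈ S, (minpoly ℤ w) ^ (mu P w)).natDegree := by
    intro S
    induction S using Finset.induction_on with
    | empty => intro _; simp [cv_one hp]
    | insert w S hw ih =>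
      intro hS
      obtain ⟨h1, h2⟩ := ih (fun x hx => hS (Finset.mem_insert_of_mem hx))
      have hwZ : w ∈ Z := hS (Finset.mem_insert_self _ _)
      have h3 := cv_lt (a := A) hp (integral_of_root hP (hZ w hwZ)) (hni w hwZ)
      rw [Finset.prod_insert hw, Finset.sum_insert hw]
      refine ⟨((hmonE w hwZ).pow _).mul h1, ?_⟩
      rw [cv_mul hp ((hmonE w hwZ).pow _) h1, cv_pow hp (hmonE w hwZ),
        ((hmonE w hwZ).pow _).natDegree_mul h1, (hmonE w hwZ).natDegree_pow]
      have h4 := Nat.mul_le_mul_left (mu P w) h3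
      have h5 : mu P w * (A * (minpoly ℤ w).natDegree) =
        A * (mu P w * (minpoly ℤ w).natDegree) := by ring
      rw [mul_add, mul_one, h5] at h4
      rw [mul_add]
      omega
  obtain ⟨-, h2⟩ := key Z subset_rfl
  have h3 := cv_ge' hp hP hnh
  have h4 := (cv_spec (a := A) hp hGm).1
  have h5 : cv p A P = cv p A (∏ w ∈ Z, (minpoly ℤ w) ^ (mu P w)) + cv p A G := by
    conv_lhs => rw [hG]
    exact cv_mul hp hmon hGm
  have h6 : P.natDegree = (∏ w ∈ Z, (minpoly ℤ w) ^ (mu P w)).natDegree + G.natDegree := by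
    conv_lhs => rw [hG]
    exact hmon.natDegree_mul hGm
  have h7 : A * P.natDegree = A * (∏ w ∈ Z, (minpoly ℤ w) ^ (mu P w)).natDegree
      + A * G.natDegree := by rw [h6]; ring
  omega

/-- The `ℓ`-adic cohomology `V = H^{2r}(X̄, K)`, `K = Q̄_ℓ`, of a smooth projective variety `X`
of dimension `n` over the field with `q = p ^ a` elements (`ℓ ≠ p`), with its known properties;
`Q = p ^ (a * r)` is `q ^ r`. -/
structure EvenH (p a r : ℕ) (K V : Type*) [Field K] [AddCommGroup V] [Module K V]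
    [Module.Finite K V] where
  /-- the Frobenius -/
  F : Module.End K V
  /-- the form `tr (x y L^{n-2r})`, `L` the class of an ample divisor on `X` -/
  B : LinearMap.BilinForm K V
  /-- a subspace spanned by classes of algebraic cycles of codimension `r` on `X̄` -/
  N : Submodule K V
  /-- the characteristic polynomial of the Frobenius -/
  P : ℤ[X]
  /-- the Hodge numbers `h i = dim H^{2r-i}(X, Ω^i)` -/
  h : ℕ → ℕ
  /-- the degree is even -/
  B_symm : ∀ x y, B x y = B y x
  /-- Poincaré duality and the hard Lefschetz theorem (Deligne) -/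
  B_nondeg : ∀ x, (∀ y, B x y = 0) → x = 0
  /-- the Frobenius acts on `H^{2n}` as `q ^ n` and on `L` as `q` -/
  B_F : ∀ x y, B (F x) (F y) = ((p : K) ^ (a * r)) ^ 2 * B x y
  /-- the form is nondegenerate on `N` -/
  N_nondeg : ∀ x ∈ N, (∀ y ∈ N, B x y = 0) → x = 0
  /-- `N` is stable under the Frobenius -/
  N_stable : ∀ x ∈ N, F x ∈ N
  /-- the cycles are defined over a finite field -/
  N_F : ∃ m, 0 < m ∧ ∀ x ∈ N, (F ^ m) x = ((p : K) ^ (a * r)) ^ m • x
  /-- the characteristic polynomial has integral coefficients (Deligne) -/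
  charpoly_F : F.charpoly = P.map (Int.castRingHom K)
  /-- the Riemann hypothesis (Deligne) -/
  weight : ∀ z : ℂ, Polynomial.aeval z P = 0 → ‖z‖ = (p : ℝ) ^ (a * r)
  /-- the Newton polygon lies above the Hodge polygon, whose height at `j` is at least
  `r j - ∑_{i < r} (r - i) h i` (Mazur, Ogus) -/
  newton_hodge : ∀ j, j ≤ P.natDegree →
    (p : ℤ) ^ (a * (r * j - ∑ i ∈ Finset.range r, (r - i) * h i)) ∣ P.coeff (P.natDegree - j)

variable {p a r : ℕ} {K V : Type*} [Field K] [AddCommGroup V] [Module K V] [Module.Finite K V]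

/-- the same data, as for a surface over the field with `p ^ (a r)` elements, with a trivial
Newton–Hodge condition -/
def EvenH.toSurfaceH2 (S : EvenH p a r K V) : SurfaceH2 p (a * r) K V where
  F := S.F
  B := S.B
  N := S.N
  P := S.P
  pg := S.P.natDegree
  B_symm := S.B_symm
  B_nondeg := S.B_nondeg
  B_F := S.B_F
  N_nondeg := S.N_nondeg
  N_stable := S.N_stable
  N_F := S.N_F
  charpoly_F := S.charpoly_F
  weight := S.weight
  newton_hodge := by
    intro j h1 h2
    have : j - S.P.natDegree = 0 := by omega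
    rw [this, pow_zero]
    exact one_dvd _

/-- the Frobenius is semisimple at `α` -/
def EvenH.SemisimpleAt (S : EvenH p a r K V) (α : K) : Prop :=
  S.F.maxGenEigenspace α = S.F.eigenspace α

/-- the Frobenius is semisimple on `H^{2r}` -/
def EvenH.Semisimple (S : EvenH p a r K V) : Prop := ∀ α, S.SemisimpleAt α

/-- the multiplicity of the eigenvalue `α` -/
noncomputable def EvenH.mult (S : EvenH p a r K V) (α : K) : ℕ :=
  finrank K (S.F.maxGenEigenspace α)

/-- at most `dim N + 2` eigenvalues are `q ^ r` times a root of unity (with multiplicities) -/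
def EvenH.FewTate (S : EvenH p a r K V) : Prop :=
  ∀ m, 0 < m →
    finrank K ((S.F ^ m).maxGenEigenspace (((p : K) ^ (a * r)) ^ m)) ≤ finrank K S.N + 2

/-- the part of `N` in the eigenspace of `α` -/
def EvenH.NS (S : EvenH p a r K V) (α : K) : Submodule K V := S.N ⊓ S.F.eigenspace α

/-- at each Tate eigenvalue `α` the multiplicity exceeds the dimension of `NS α` by at most one,
or by at most two if `α = ± q ^ r` -/
def EvenH.SmallDefect (S : EvenH p a r K V) : Prop :=
  ∀ α, IsTate p (a * r) α → finrank K (S.F.maxGenEigenspace α) ≤ finrank K (S.NS α) + 1 ∨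
    (α ^ 2 = ((p : K) ^ (a * r)) ^ 2 ∧
      finrank K (S.F.maxGenEigenspace α) ≤ finrank K (S.NS α) + 2)

/-- the bound `a ∑_{i < r} (r - i) h^{i, 2r-i}` -/
def EvenH.bound (S : EvenH p a r K V) : ℕ := a * ∑ i ∈ Finset.range r, (r - i) * S.h i

theorem EvenH.sum_mult [CharZero K] (S : EvenH p a r K V) (hp : p.Prime)
    (Z : Finset K) (hZ : ∀ z ∈ Z, S.F.HasEigenvalue z ∧ ¬ IsTate p (a * r) z)
    (hd : ∀ z ∈ Z, ∀ z' ∈ Z, minpoly ℤ z = minpoly ℤ z' → z = z') :
    ∑ z ∈ Z, S.mult z ≤ S.bound := by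
  have h1 : ∑ z ∈ Z, S.mult z = ∑ z ∈ Z, mu S.P z :=
    Finset.sum_congr rfl fun z _ => S.toSurfaceH2.mult_eq z
  rw [h1]
  refine sum_le' (A := a * r) hp S.toSurfaceH2.monic Z
    (fun z hz => S.toSurfaceH2.root (hZ z hz).1) hd
    (fun z hz => S.toSurfaceH2.notInt hp (hZ z hz).1 (hZ z hz).2) ?_
  intro j hj
  have h2 := S.newton_hodge j hj
  rw [Nat.mul_sub, ← mul_assoc] at h2
  exact h2

end W534.FS
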