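import Pool.Agent.W534.PoleC

/-!
# Orders of poles for the product with a hyperplane section
-/

open CategoryTheory AlgebraicGeometry Finset

universe u v

namespace Pool.Agent.W534

open Pool.Agent.H914 Pool.Agent.H447 VarClass Obj WeilCohomology

section Lin

variable {K V : Type*} [Field K] [AddCommGroup V] [Module K V]

lemma ker_of_sq' {f : Module.End K V} {S : Submodule K V} (hS : ∀ x ∈ S, f x ∈ S)
    (h : ∀ x ∈ S, f (f x) = 0 → f x = 0) {n : ℕ} {x : V} (hx : x ∈ S)
    (hn : (f ^ n) x = 0) : f x = 0 := by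
  have hpow : ∀ m : ℕ, (f ^ m) x ∈ S := by
    intro m
    induction m with
    | zero => exact hx
    | succ m ih =>
      rw [pow_succ', Module.End.mul_apply]
      exact hS _ ih
  induction n with
  | zero =>
    rw [pow_zero, Module.End.one_apply] at hn
    rw [hn, map_zero]
  | succ n ih =>
    rcases n with _ | n
    · rwa [zero_add, pow_one] at hn
    · apply ih
      rw [pow_succ', Module.End.mul_apply]
      apply h _ (hpow n)
      rw [pow_succ', pow_succ', Module.End.mul_apply, Module.End.mul_apply] at hn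
      exact hn

end Lin

variable {k : Type u} [Field k] {𝒱 : VarClass k} {ops : CycleOps 𝒱}
  {W : WeilCohomology.{u, v} ops} {X Y Z : 𝒱.Obj} {p : ℕ} {Φ : FrobSystem W p} {σ : W.K →+* ℂ}

lemma pair_injective {j l : ℕ} (hjl : j + l = Z.dim) (h : HomEqNumIn W Z j) :
    Function.Injective (pair W Z j l) := by
  rw [injective_iff_map_eq_zero]
  rintro ⟨a, ha⟩ h0
  apply Subtype.ext
  apply h.span hjl ha
  intro w hw
  rw [W.even_comm (W.cl_mem hw)]
  exact congrArg (fun F => F ⟨_, mem_span_cl hw⟩) h0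

lemma homEqNumIn_of_pair {j l : ℕ} (hjl : j + l = Z.dim)
    (h : Function.Injective (pair W Z j l)) : HomEqNumIn W Z j := by
  intro z hz h1
  obtain rfl : Z.dim - j = l := by omega
  have h2 : (⟨_, mem_span_cl hz⟩ : spanCycles W Z j) = 0 := by
    apply h
    rw [map_zero]
    apply dual_ext
    intro w
    rw [pair_apply, LinearMap.zero_apply]
    exact (tr_mul_cl hz w.2 hjl).trans (by rw [h1 _ w.2, Rat.cast_zero])
  exact congrArg Subtype.val h2

lemma finrank_pair_le {j l : ℕ} (h : Module.finrank W.K (spanCycles W Z j) ≤ kRank W Z j l) :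
    Function.Injective (pair W Z j l) := by
  have h1 := LinearMap.finrank_range_add_finrank_ker (pair W Z j l)
  rw [← LinearMap.ker_eq_bot, ← Submodule.finrank_eq_zero]
  rw [kRank] at h
  omega

/-- The pole formula implies semisimplicity and the Tate conjecture. -/
theorem semisimple_of_pole (hp : 1 < p) (hRH : RiemannHyp Φ σ Z) {j l : ℕ} (hjl : j + l = Z.dim)
    (h : PoleFormula Φ σ Z j) :
    SemisimpleTateIn Φ Z j ∧ Function.Injective (pair W Z j l) := by
  rw [poleFormula_iff Φ hp σ hRH (by omega), show Z.dim - j = l by omega] at h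
  obtain ⟨t₁, ht₁, h1⟩ := exists_span_eig Φ Z j
  obtain ⟨t, ht, h⟩ := h
  obtain ⟨t₃, ht₃, h3⟩ := exists_stable Φ Z j
  set s := t * t₃ * t₁ with hs
  have hs0 : 0 < s := Nat.mul_pos (Nat.mul_pos ht ht₃) ht₁
  have hG : genTate Φ Z s j = genTate Φ Z t₃ j :=
    eq_of_stable Φ h3 hs0 ⟨t * t₁, by rw [hs]; ring⟩
  have hle : spanCycles W Z j ≤ genTate Φ Z s j := fun c hc =>
    mem_genTate_of_eig Φ (span_gr hc) (span_eig_mul' Φ (h1 c hc) _)
  have hr := h s hs0 ⟨t₃ * t₁, by rw [hs]; ring⟩
  have hr2 := kRank_le (W := W) (Z := Z) j l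
  have hr3 := Submodule.finrank_mono hle
  have hE := Submodule.eq_of_le_of_finrank_le hle (by omega)
  constructor
  · intro s' hs' c hc
    rw [hE, hG]
    exact h3 _ hs' hc
  · exact finrank_pair_le (by omega)

/-- **Tate's theorem**: the pole formula is equivalent to the Tate conjecture together with the
conjecture D. -/
theorem pole_iff_tate (hp : 1 < p) (hRH : RiemannHyp Φ σ Z) {j : ℕ} (hj : j ≤ Z.dim) :
    PoleFormula Φ σ Z j ↔ TateIn Φ Z j ∧ HomEqNumIn W Z j := by
  obtain ⟨l, hl⟩ := Nat.exists_eq_add_of_le hj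
  have hl' : Z.dim - j = l := by omega
  constructor
  · intro h
    obtain ⟨h1, h2⟩ := semisimple_of_pole hp hRH hl.symm h
    constructor
    · intro c hc
      obtain ⟨s', hs', h4⟩ := IsTate.mem Φ hc
      exact h1 s' hs' h4
    · exact homEqNumIn_of_pair hl.symm h2
  rw [poleFormula_iff Φ hp σ hRH hj, hl']
  obtain ⟨t₁, ht₁, h1⟩ := exists_span_eig Φ Z j
  obtain ⟨t₂, ht₂, h2⟩ := exists_span_eig Φ Z l
  · rintro ⟨hT, hD⟩
    refine ⟨t₁ * t₂, Nat.mul_pos ht₁ ht₂, fun s hs hts => ?_⟩
    have hrank : kRank W Z j l = Module.finrank W.K (spanCycles W Z j) :=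
      LinearMap.finrank_range_of_inj (pair_injective hl.symm hD)
    rw [hrank]
    have hs1 : ∀ c ∈ spanCycles W Z j, frob Φ Z s c = ((card Φ Z s : W.K) ^ j) • c := by
      obtain ⟨r, rfl⟩ := hts
      intro c hc
      have := span_eig_mul Φ (h1 c hc) (t₂ * r)
      rwa [← mul_assoc] at this
    have hs2 : ∀ c ∈ spanCycles W Z l, frob Φ Z s c = ((card Φ Z s : W.K) ^ l) • c := by
      obtain ⟨r, rfl⟩ := hts
      intro c hc
      have := span_eig_mul Φ (h2 c hc) (t₁ * r)
      rwa [← mul_assoc, mul_comm t₂ t₁] at this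
    have hSG : spanCycles W Z j = genTate Φ Z s j := ?_
    · rw [hSG]
    apply le_antisymm
    · exact fun c hc => mem_genTate_of_eig Φ (span_gr hc) (hs1 c hc)
    · intro x hx
      obtain ⟨⟨n, hn⟩, hxg⟩ := (mem_genTate Φ).1 hx
      set A := frob Φ Z s - ((card Φ Z s : W.K) ^ j) • (1 : Module.End W.K (W.H Z)) with hA
      have hAx : ∀ y, A y = 0 → frob Φ Z s y = ((card Φ Z s : W.K) ^ j) • y := by
        intro y hy
        rw [hA, LinearMap.sub_apply, LinearMap.smul_apply, Module.End.one_apply, sub_eq_zero] at hy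
        exact hy
      have hAg : ∀ y ∈ W.gr Z (2 * j), A y ∈ W.gr Z (2 * j) := by
        intro y hy
        rw [hA, LinearMap.sub_apply, LinearMap.smul_apply, Module.End.one_apply]
        exact Submodule.sub_mem _ (W.map_mem _ hy) (Submodule.smul_mem _ _ hy)
      have htate : ∀ y ∈ W.gr Z (2 * j), A y = 0 → y ∈ spanCycles W Z j := by
        intro y hy h0
        apply hT
        refine ⟨hy, s, hs, ?_⟩
        have := hAx y h0
        rwa [card_pow, frob_apply] at this
      apply htate x hxg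
      refine ker_of_sq' hAg ?_ hxg hn
      intro y hy h0
      apply hD.span hl.symm (htate _ (hAg y hy) h0)
      intro w hw
      rw [W.even_comm (W.cl_mem hw)]
      have h5 := tr_adj Φ (Z := Z) (s := s) (μ := (card Φ Z s : W.K) ^ j)
        (μ' := (card Φ Z s : W.K) ^ l) (by rw [← pow_add, hl]) y (W.cl Z w)
      rw [← hA, LinearMap.sub_apply, LinearMap.smul_apply, Module.End.one_apply,
        hs2 _ (mem_span_cl hw), sub_self, mul_zero, map_zero] at h5
      rcases mul_eq_zero.1 h5.symm with h6 | h6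
      · exact absurd (neg_eq_zero.1 h6) (pow_ne_zero _ (card_ne Φ s))
      · exact h6

theorem pole_symm (hp : 1 < p) (hRH : RiemannHyp Φ σ Z) {j l : ℕ} (hjl : j + l = Z.dim) :
    PoleFormula Φ σ Z j ↔ PoleFormula Φ σ Z l := by
  rw [poleFormula_iff Φ hp σ hRH (by omega), poleFormula_iff Φ hp σ hRH (by omega),
    show Z.dim - j = l by omega, show Z.dim - l = j by omega, kRank_symm j l]
  simp only [finrank_genTate_symm Φ hjl]

variable {i : Y ⟶ X} {D : X.Cycles}

/-- Multiplication by the class of `mixSum` on generalised Tate classes. -/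
lemma mixSum_genTate (hdim : X.dim = Y.dim + 1) {s : ℕ}
    (hE : frob Φ (X.prod Y) s (W.cl _ (mixSum ops i D)) =
      (card Φ (X.prod Y) s : W.K) • W.cl _ (mixSum ops i D))
    (hcyc : (X.prod Y).IsCyc 1 (mixSum ops i D)) {v : W.H (X.prod Y)}
    (hv : v ∈ genTate Φ (X.prod Y) s Y.dim) :
    W.cl _ (mixSum ops i D) * v ∈ genTate Φ (X.prod Y) s X.dim := by
  obtain ⟨⟨n, hn⟩, hvg⟩ := (mem_genTate Φ).1 hv
  refine (mem_genTate Φ).2 ⟨⟨n, ?_⟩, ?_⟩
  · have key : ∀ (n : ℕ) (x : W.H (X.prod Y)),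
        ((frob Φ (X.prod Y) s - ((card Φ (X.prod Y) s : W.K) ^ X.dim) •
          (1 : Module.End W.K (W.H (X.prod Y)))) ^ n) (W.cl _ (mixSum ops i D) * x) =
        ((card Φ (X.prod Y) s : W.K) ^ n) • (W.cl _ (mixSum ops i D) *
          ((frob Φ (X.prod Y) s - ((card Φ (X.prod Y) s : W.K) ^ Y.dim) •
            (1 : Module.End W.K (W.H (X.prod Y)))) ^ n) x) := by
      intro n
      induction n with
      | zero => intro x; simp
      | succ n ih =>
        intro x
        rw [pow_succ', Module.End.mul_apply, ih, map_smul, LinearMap.sub_apply, frob_apply,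
          map_mul, ← frob_apply, ← frob_apply, hE, LinearMap.smul_apply, Module.End.one_apply,
          hdim, pow_succ (card Φ (X.prod Y) s : W.K) Y.dim, pow_succ' _ n, pow_succ' _ n,
          Module.End.mul_apply, LinearMap.sub_apply, LinearMap.smul_apply, Module.End.one_apply,
          mul_sub, smul_sub, smul_sub, smul_mul_assoc, mul_smul_comm, smul_smul, smul_smul,
          smul_smul]
        congr 2
        · ring
        · ring
    rw [key, hn, mul_zero, smul_zero]
  · have := W.mul_mem (W.cl_mem hcyc) hvg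
    rwa [show 2 * 1 + 2 * Y.dim = 2 * X.dim by omega] at this

theorem homEqNumIn_of_semisimple (hdim : X.dim = Y.dim + 1) (hD : X.IsCyc 1 D)
    (hY : W.cl X (ops.push i Y.V.fundCycle) = W.cl X D) (hHL : HardLefschetz W X D)
    (hWL : WeakLefschetz W i) (h : SemisimpleTateIn Φ (X.prod Y) Y.dim) :
    HomEqNumIn W (X.prod Y) Y.dim := by
  have hcyc := isCyc_mixSum (Y := Y) (i := i) (ops := ops) hD
  obtain ⟨t, ht, h1⟩ := Φ.cyc hcyc
  obtain ⟨t', ht', h2⟩ := exists_span_eig Φ (X.prod Y) Y.dim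
  set s := t * t' with hs
  have hs0 : 0 < s := Nat.mul_pos ht ht'
  have hE : frob Φ (X.prod Y) s (W.cl _ (mixSum ops i D)) =
      (card Φ (X.prod Y) s : W.K) • W.cl _ (mixSum ops i D) := by
    have h3 := frob_mul Φ h1 t'
    rw [← card_pow, ← frob_apply, ← hs, pow_one] at h3
    exact h3
  have hdimZ : Y.dim + X.dim = (X.prod Y).dim := by rw [dim_prod, add_comm]
  -- multiplication by the class of `mixSum` is bijective
  have hinj : Function.Injective ((LinearMap.mulLeft W.K (W.cl _ (mixSum ops i D))).restrict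
      (p := genTate Φ (X.prod Y) s Y.dim) (q := genTate Φ (X.prod Y) s X.dim)
      (fun v hv => mixSum_genTate hdim hE hcyc hv)) := by
    rw [injective_iff_map_eq_zero]
    rintro ⟨v, hv⟩ h0
    apply Subtype.ext
    exact mixSum_inj hdim hD hY hHL hWL hv.2 (congrArg Subtype.val h0)
  have hsurj := (LinearMap.injective_iff_surjective_of_finrank_eq_finrank
    (finrank_genTate_symm Φ hdimZ)).1 hinj
  have hle : genTate Φ (X.prod Y) s X.dim ≤ spanCycles W (X.prod Y) X.dim := by
    intro w hw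
    obtain ⟨⟨v, hv⟩, hvw⟩ := hsurj ⟨w, hw⟩
    have h4 : W.cl _ (mixSum ops i D) * v = w := congrArg Subtype.val hvw
    rw [← h4]
    have h5 := (spanFam W).cl_mul hcyc (h s hs0 hv)
    rw [add_comm 1 Y.dim, ← hdim] at h5
    exact h5
  intro z hz h5
  have horth : ∀ y ∈ spanCycles W (X.prod Y) X.dim, W.tr (X.prod Y) (W.cl _ z * y) = 0 := by
    intro y hy
    induction hy using Submodule.span_induction with
    | mem y hy =>
      obtain ⟨r, hr, w, hw, rfl⟩ := hy
      obtain rfl : r = X.dim := by exact_mod_cast hr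
      rw [tr_mul_cl hz hw hdimZ, h5 w (by
        rwa [show (X.prod Y).dim - Y.dim = X.dim by rw [dim_prod]; omega]), Rat.cast_zero]
    | zero => rw [mul_zero, map_zero]
    | add a b _ _ ha hb => rw [mul_add, map_add, ha, hb, add_zero]
    | smul a b _ hb => rw [mul_smul_comm, map_smul, hb, smul_zero]
  exact genTate_nondeg Φ (s := s) hdimZ (mem_genTate_of_eig Φ (W.cl_mem hz)
    (span_eig_mul' Φ (h2 _ (mem_span_cl hz)) t)) (fun y hy => horth y (hle hy))

/-- **Orders of poles of the zeta function of the product of a variety and a hyperplane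
section.** -/
theorem pole_hyperplane (hp : 1 < p) (hRH : ∀ Z, RiemannHyp Φ σ Z) (hdim : X.dim = Y.dim + 1)
    (hD : X.IsCyc 1 D)
    (hY : W.cl X (ops.push i Y.V.fundCycle) = W.cl X D) (hHL : HardLefschetz W X D)
    (hWL : WeakLefschetz W i) :
    List.TFAE [
      PoleFormula Φ σ (X.prod Y) Y.dim,
      PoleFormula Φ σ (X.prod Y) X.dim,
      ∀ j ≤ (X.prod Y).dim, PoleFormula Φ σ (X.prod Y) j,
      SemisimpleTateIn Φ (X.prod Y) Y.dim] := by
  have hdimZ : Y.dim + X.dim = (X.prod Y).dim := by rw [dim_prod, add_comm]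
  tfae_have 1 ↔ 2 := pole_symm hp (hRH _) hdimZ
  tfae_have 2 → 3 := by
    intro h j hj
    have h1 := (pole_iff_tate hp (hRH _) (by omega)).1 h
    have h2 := (pole_iff_tate hp (hRH _) (by omega)).1 ((pole_symm hp (hRH _) hdimZ).2 h)
    have h3 : ∀ j, TateIn Φ (X.prod Y) j := ((tate_hyperplane hdim hD hY hHL hWL).out 0 1).1 h2.1
    have h4 : ∀ j, HomEqNumIn W (X.prod Y) j :=
      ((d_hyperplane hdim hD hY hHL hWL).out 0 1).1 h1.2
    exact (pole_iff_tate hp (hRH _) hj).2 ⟨h3 j, h4 j⟩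
  tfae_have 3 → 1 := fun h => h _ (by omega)
  tfae_have 1 → 4 := fun h => (semisimple_of_pole hp (hRH _) hdimZ h).1
  tfae_have 4 → 1 := by
    intro h
    refine (pole_iff_tate hp (hRH _) (by omega)).2 ⟨?_,
      homEqNumIn_of_semisimple hdim hD hY hHL hWL h⟩
    intro c hc
    obtain ⟨s, hs, h1⟩ := IsTate.mem Φ hc
    exact h s hs h1
  tfae_finish

/-- The consequences for the factors. -/
theorem pole_factors (hp : 1 < p) (hRH : ∀ Z, RiemannHyp Φ σ Z) (hdim : X.dim = Y.dim + 1)
    (hD : X.IsCyc 1 D)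
    (hY : W.cl X (ops.push i Y.V.fundCycle) = W.cl X D) (hHL : HardLefschetz W X D)
    (hWL : WeakLefschetz W i) (h : PoleFormula Φ σ (X.prod Y) Y.dim) :
    LefschetzB W X D ∧ (∀ j ≤ X.dim, PoleFormula Φ σ X j) ∧ ∀ j ≤ Y.dim, PoleFormula Φ σ Y j := by
  have hdimZ : Y.dim + X.dim = (X.prod Y).dim := by rw [dim_prod, add_comm]
  have h1 := (pole_iff_tate hp (hRH _) (by omega)).1 h
  have h2 := (pole_iff_tate hp (hRH _) (by omega)).1 ((pole_symm hp (hRH _) hdimZ).1 h)
  have h3 := tate_factors hdim hD hY hHL hWL h1.1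
  have h4 := homEqNum_factors hdim hD hY hHL hWL h2.2
  exact ⟨lefschetzB_of_tate hdim hD hY hHL hWL h1.1,
    fun j hj => (pole_iff_tate hp (hRH _) hj).2 ⟨(h3 j).1, (h4 j).1⟩,
    fun j hj => (pole_iff_tate hp (hRH _) hj).2 ⟨(h3 j).2, (h4 j).2⟩⟩

end Pool.Agent.W534
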