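import Pool.Agent.W534.PoleA

/-!
# Generalised Tate classes
-/

open CategoryTheory AlgebraicGeometry Finset

universe u v

namespace Pool.Agent.W534

open Pool.Agent.H914 Pool.Agent.H447 VarClass Obj WeilCohomology

section Lin

variable {K V : Type*} [Field K] [AddCommGroup V] [Module K V]

lemma gen_mono (f : Module.End K V) (μ : K) (r : ℕ) :
    f.maxGenEigenspace μ ≤ (f ^ r).maxGenEigenspace (μ ^ r) := by
  intro x hx
  rw [Module.End.mem_maxGenEigenspace] at hx ⊢
  obtain ⟨n, hn⟩ := hx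
  refine ⟨n, ?_⟩
  have hc : Commute f (μ • (1 : Module.End K V)) := (Commute.one_right f).smul_right μ
  have h1 := hc.geom_sum₂_mul r
  have h2 : (μ • (1 : Module.End K V)) ^ r = μ ^ r • (1 : Module.End K V) := by
    rw [smul_pow, one_pow]
  rw [h2] at h1
  have hc2 : Commute (∑ i ∈ range r, f ^ i * (μ • (1 : Module.End K V)) ^ (r - 1 - i))
      (f - μ • 1) := by
    apply Commute.sum_left
    intro i _
    apply Commute.sub_right
    · exact ((Commute.refl f).pow_left _).mul_left (hc.symm.pow_left _)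
    · exact (hc.pow_left _).mul_left ((Commute.refl _).pow_left _)
  rw [← h1, hc2.mul_pow, Module.End.mul_apply, hn, map_zero]

/-- If the kernel of the square is the kernel, then the generalised kernel is the kernel. -/
lemma ker_of_sq {f : Module.End K V} (h : ∀ x, f (f x) = 0 → f x = 0) {n : ℕ} {x : V}
    (hn : (f ^ n) x = 0) : f x = 0 := by
  induction n with
  | zero =>
    rw [pow_zero, Module.End.one_apply] at hn
    rw [hn, map_zero]
  | succ n ih =>
    rcases n with _ | n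
    · rwa [zero_add, pow_one] at hn
    · apply ih
      rw [pow_succ', Module.End.mul_apply]
      apply h
      rw [pow_succ', pow_succ', Module.End.mul_apply, Module.End.mul_apply] at hn
      exact hn

end Lin

variable {k : Type u} [Field k] {𝒱 : VarClass k} {ops : CycleOps 𝒱}
  {W : WeilCohomology.{u, v} ops} {X Y Z : 𝒱.Obj} {p : ℕ} (Φ : FrobSystem W p)

/-- The Frobenius endomorphism on the cohomology. -/
noncomputable def frob (Z : 𝒱.Obj) (s : ℕ) : Module.End W.K (W.H Z) :=
  (W.map (iter (Φ.Fr Z) s)).toLinearMap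

lemma frob_apply (s : ℕ) (x : W.H Z) : frob Φ Z s x = W.map (iter (Φ.Fr Z) s) x := rfl

lemma frob_mul_eq (s r : ℕ) : frob Φ Z (s * r) = frob Φ Z s ^ r := by
  apply LinearMap.ext
  intro x
  rw [Module.End.pow_apply, frob_apply, map_iter_mul]
  rfl

lemma card_mul_eq (s r : ℕ) : card Φ Z (s * r) = card Φ Z s ^ r := by
  rw [card, card, ← pow_mul, mul_assoc]

lemma card_pos (s : ℕ) : 0 < card Φ Z s := pow_pos Φ.p_pos _

lemma card_ne (s : ℕ) : (card Φ Z s : W.K) ≠ 0 := Nat.cast_ne_zero.2 (card_pos Φ s).ne'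

lemma card_pow (s j : ℕ) : (card Φ Z s : W.K) ^ j = (p : W.K) ^ (Φ.e Z * s * j) := by
  rw [card, Nat.cast_pow, ← pow_mul]

lemma mem_genTate {s j : ℕ} {x : W.H Z} : x ∈ genTate Φ Z s j ↔
    (∃ n : ℕ, ((frob Φ Z s - ((card Φ Z s : W.K) ^ j) • (1 : Module.End W.K (W.H Z))) ^ n) x = 0) ∧
      x ∈ W.gr Z (2 * j) := by
  rw [genTate, Submodule.mem_inf, Module.End.mem_maxGenEigenspace]
  rfl

lemma genTate_mono (s r j : ℕ) : genTate Φ Z s j ≤ genTate Φ Z (s * r) j := by
  rintro x ⟨h1, h2⟩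
  refine ⟨?_, h2⟩
  have h3 := gen_mono _ _ r h1
  change x ∈ (frob Φ Z (s * r)).maxGenEigenspace _
  rw [frob_mul_eq, card_mul_eq, Nat.cast_pow, pow_right_comm]
  exact h3

lemma genTate_mono' (s r j : ℕ) : genTate Φ Z s j ≤ genTate Φ Z (r * s) j := by
  rw [mul_comm]
  exact genTate_mono Φ s r j

/-- The generalised eigenspaces are constant for large finite fields. -/
lemma exists_stable (Z : 𝒱.Obj) (j : ℕ) : ∃ t, 0 < t ∧ ∀ s, 0 < s →
    genTate Φ Z s j ≤ genTate Φ Z t j := by
  obtain ⟨t, ht, hmax⟩ : ∃ t, 0 < t ∧ ∀ s, 0 < s → Module.finrank W.K (genTate Φ Z s j) ≤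
      Module.finrank W.K (genTate Φ Z t j) := by
    by_contra hcon
    push Not at hcon
    have h1 : ∀ n : ℕ, ∃ t, 0 < t ∧ n ≤ Module.finrank W.K (genTate Φ Z t j) := by
      intro n
      induction n with
      | zero => exact ⟨1, one_pos, Nat.zero_le _⟩
      | succ n ih =>
        obtain ⟨t, ht, h⟩ := ih
        obtain ⟨s, hs, h2⟩ := hcon t ht
        exact ⟨s, hs, by omega⟩
    obtain ⟨t, -, h⟩ := h1 (Module.finrank W.K (W.H Z) + 1)
    have := Submodule.finrank_le (genTate Φ Z t j)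
    omega
  refine ⟨t, ht, fun s hs => ?_⟩
  have h1 := genTate_mono Φ (Z := Z) t s j
  have h2 := Submodule.eq_of_le_of_finrank_le h1 (hmax _ (Nat.mul_pos ht hs))
  rw [h2]
  exact genTate_mono' Φ s t j

lemma eq_of_stable {t j : ℕ} (ht : ∀ s, 0 < s → genTate Φ Z s j ≤ genTate Φ Z t j) {s : ℕ}
    (hs : 0 < s) (hts : t ∣ s) : genTate Φ Z s j = genTate Φ Z t j := by
  obtain ⟨r, rfl⟩ := hts
  exact le_antisymm (ht _ hs) (genTate_mono Φ t r j)

/-- Tate classes are generalised Tate classes. -/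
lemma IsTate.mem {j : ℕ} {c : W.H Z} (h : IsTate Φ Z j c) : ∃ s, 0 < s ∧ c ∈ genTate Φ Z s j := by
  obtain ⟨h1, s, hs, h2⟩ := h
  refine ⟨s, hs, (mem_genTate Φ).2 ⟨⟨1, ?_⟩, h1⟩⟩
  rw [pow_one, LinearMap.sub_apply, frob_apply, h2, LinearMap.smul_apply, Module.End.one_apply,
    card_pow, sub_self]

/-- The spans of the algebraic classes are contained in the eigenspaces. -/
lemma exists_span_eig (Z : 𝒱.Obj) (j : ℕ) : ∃ t, 0 < t ∧ ∀ c ∈ spanCycles W Z j,
    frob Φ Z t c = ((card Φ Z t : W.K) ^ j) • c := by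
  obtain ⟨S, hS⟩ := (IsNoetherian.noetherian (spanCycles W Z j) : (spanCycles W Z j).FG)
  have h1 : ∀ S' : Finset (W.H Z), (S' : Set (W.H Z)) ⊆ spanCycles W Z j → ∃ t, 0 < t ∧
      ∀ c ∈ S', frob Φ Z t c = ((card Φ Z t : W.K) ^ j) • c := by
    classical
    intro S'
    induction S' using Finset.induction with
    | empty => exact fun _ => ⟨1, one_pos, fun c hc => absurd hc (by simp)⟩
    | insert a S' _ ih =>
      intro h
      rw [Finset.coe_insert, Set.insert_subset_iff] at h
      obtain ⟨t, ht, h2⟩ := ih h.2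
      obtain ⟨-, s, hs, h3⟩ := span_le_tate Φ Z j h.1
      refine ⟨s * t, Nat.mul_pos hs ht, fun c hc => ?_⟩
      rw [card_pow, frob_apply]
      rcases Finset.mem_insert.1 hc with rfl | hc
      · exact frob_mul Φ h3 t
      · have h4 := h2 c hc
        rw [card_pow, frob_apply] at h4
        exact frob_mul' Φ h4 s
  obtain ⟨t, ht, h2⟩ := h1 S (by rw [← hS]; exact Submodule.subset_span)
  refine ⟨t, ht, fun c hc => ?_⟩
  rw [← hS] at hc
  induction hc using Submodule.span_induction with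
  | mem x hx => exact h2 x hx
  | zero => rw [map_zero, smul_zero]
  | add x y _ _ hx hy => rw [map_add, hx, hy, smul_add]
  | smul a x _ hx => rw [map_smul, hx, smul_comm]

lemma span_eig_mul {t j : ℕ} {c : W.H Z}
    (h : frob Φ Z t c = ((card Φ Z t : W.K) ^ j) • c) (s : ℕ) :
    frob Φ Z (t * s) c = ((card Φ Z (t * s) : W.K) ^ j) • c := by
  rw [card_pow, frob_apply] at h ⊢
  exact frob_mul Φ h s

lemma span_eig_mul' {t j : ℕ} {c : W.H Z}
    (h : frob Φ Z t c = ((card Φ Z t : W.K) ^ j) • c) (s : ℕ) :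
    frob Φ Z (s * t) c = ((card Φ Z (s * t) : W.K) ^ j) • c := by
  rw [mul_comm s t]
  exact span_eig_mul Φ h s

lemma mem_genTate_of_eig {t j : ℕ} {c : W.H Z} (hc : c ∈ W.gr Z (2 * j))
    (h : frob Φ Z t c = ((card Φ Z t : W.K) ^ j) • c) : c ∈ genTate Φ Z t j := by
  refine (mem_genTate Φ).2 ⟨⟨1, ?_⟩, hc⟩
  rw [pow_one, LinearMap.sub_apply, h, LinearMap.smul_apply, Module.End.one_apply, sub_self]

/-- The trace form and the Frobenius endomorphism. -/
lemma tr_adj {s : ℕ} {μ μ' : W.K} (hμ : μ * μ' = (card Φ Z s : W.K) ^ Z.dim) (x y : W.H Z) :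
    W.tr Z (frob Φ Z s x * (frob Φ Z s - μ' • 1) y) =
      -μ' * W.tr Z ((frob Φ Z s - μ • 1) x * y) := by
  have h1 := tr_iter Φ s (x * y)
  rw [map_mul, ← card_pow, ← hμ] at h1
  rw [LinearMap.sub_apply, LinearMap.sub_apply, LinearMap.smul_apply, LinearMap.smul_apply,
    Module.End.one_apply, Module.End.one_apply, mul_sub, sub_mul, map_sub, map_sub,
    mul_smul_comm, smul_mul_assoc, map_smul, map_smul, smul_eq_mul, smul_eq_mul,
    frob_apply, frob_apply, h1]
  ring

lemma tr_adj_pow {s : ℕ} {μ μ' : W.K} (hμ : μ * μ' = (card Φ Z s : W.K) ^ Z.dim) (n : ℕ)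
    (x y : W.H Z) :
    W.tr Z ((frob Φ Z s ^ n) x * ((frob Φ Z s - μ' • 1) ^ n) y) =
      (-μ') ^ n * W.tr Z (((frob Φ Z s - μ • 1) ^ n) x * y) := by
  induction n generalizing x y with
  | zero => simp
  | succ n ih =>
    have hc : Commute (frob Φ Z s) (frob Φ Z s - μ • 1) :=
      (Commute.refl _).sub_right ((Commute.one_right _).smul_right μ)
    rw [pow_succ' (frob Φ Z s), Module.End.mul_apply, pow_succ' (frob Φ Z s - μ' • 1),
      Module.End.mul_apply, tr_adj Φ hμ, ← Module.End.mul_apply (frob Φ Z s - μ • 1),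
      (hc.symm.pow_right n).eq, Module.End.mul_apply, ih, ← Module.End.mul_apply, ← pow_succ,
      ← mul_assoc, ← pow_succ']

lemma frob_pow_injective (s n : ℕ) : Function.Injective (frob Φ Z s ^ n) := by
  rw [← frob_mul_eq]
  exact map_iter_injective Φ _

lemma frob_pow_surjective (s n : ℕ) : Function.Surjective (frob Φ Z s ^ n) := by
  rw [← frob_mul_eq]
  exact map_iter_surjective Φ _

/-- The trace form is nondegenerate on the generalised Tate classes. -/
lemma genTate_nondeg {s j l : ℕ} (hjl : j + l = Z.dim) {x : W.H Z} (hx : x ∈ genTate Φ Z s j)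
    (h : ∀ y ∈ genTate Φ Z s l, W.tr Z (x * y) = 0) : x = 0 := by
  have hμ : (card Φ Z s : W.K) ^ j * (card Φ Z s : W.K) ^ l = (card Φ Z s : W.K) ^ Z.dim := by
    rw [← pow_add, hjl]
  obtain ⟨⟨n, hn⟩, hxg⟩ := (mem_genTate Φ).1 hx
  obtain ⟨x', hx'⟩ := frob_pow_surjective Φ s n x
  set A := frob Φ Z s - ((card Φ Z s : W.K) ^ j) • 1 with hA
  set B := frob Φ Z s - ((card Φ Z s : W.K) ^ l) • 1 with hB
  have hx0 : (A ^ n) x' = 0 := by
    apply frob_pow_injective Φ s n
    have hc : Commute (frob Φ Z s) A :=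
      (Commute.refl _).sub_right ((Commute.one_right _).smul_right _)
    rw [map_zero, ← Module.End.mul_apply, (hc.pow_pow n n).eq, Module.End.mul_apply, hx', hn]
  -- the orthogonality on the image
  have himg : ∀ u, W.tr Z (x * (B ^ n) u) = 0 := by
    intro u
    rw [← hx', tr_adj_pow Φ hμ, ← hA, hx0, zero_mul, map_zero, mul_zero]
  have hgr : ∀ b ∈ W.gr Z (2 * l), W.tr Z (x * b) = 0 := by
    intro b hb
    have hBgr : ∀ y ∈ W.gr Z (2 * l), B y ∈ W.gr Z (2 * l) := by
      intro y hy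
      rw [hB, LinearMap.sub_apply, LinearMap.smul_apply, Module.End.one_apply]
      exact Submodule.sub_mem _ (W.map_mem _ hy) (Submodule.smul_mem _ _ hy)
    set g : Module.End W.K (W.gr Z (2 * l)) := B.restrict hBgr with hg
    have hgp : ∀ (m : ℕ) (y : W.gr Z (2 * l)), (((g ^ m) y : W.gr Z (2 * l)) : W.H Z) =
        (B ^ m) (y : W.H Z) := by
      intro m
      induction m with
      | zero => intro y; rfl
      | succ m ih =>
        intro y
        rw [pow_succ', pow_succ', Module.End.mul_apply, Module.End.mul_apply, ← ih]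
        rfl
    have hcompl := LinearMap.isCompl_iSup_ker_pow_iInf_range_pow g
    have hmem : (⟨b, hb⟩ : W.gr Z (2 * l)) ∈ (⨆ m, LinearMap.ker (g ^ m)) ⊔
        ⨅ m, LinearMap.range (g ^ m) := by
      rw [hcompl.sup_eq_top]
      trivial
    obtain ⟨b0, hb0, b1, hb1, hbb⟩ := Submodule.mem_sup.1 hmem
    have hdir : Directed (· ≤ ·) (fun m => LinearMap.ker (g ^ m)) := by
      apply Monotone.directed_le
      intro m m' hmm y hy
      rw [LinearMap.mem_ker] at hy ⊢
      obtain ⟨r, rfl⟩ := Nat.exists_eq_add_of_le hmm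
      rw [add_comm, pow_add, Module.End.mul_apply, hy, map_zero]
    obtain ⟨m, hm⟩ := (Submodule.mem_iSup_of_directed _ hdir).1 hb0
    rw [LinearMap.mem_ker] at hm
    obtain ⟨u, hu⟩ := (Submodule.mem_iInf _).1 hb1 n
    have e1 : W.tr Z (x * (b0 : W.H Z)) = 0 := by
      apply h
      refine (mem_genTate Φ).2 ⟨⟨m, ?_⟩, b0.2⟩
      rw [← hB, ← hgp, hm]
      rfl
    have e2 : W.tr Z (x * (b1 : W.H Z)) = 0 := by
      rw [← hu, hgp]
      exact himg _
    have e3 : b = (b0 : W.H Z) + (b1 : W.H Z) := congrArg Subtype.val hbb.symm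
    rw [e3, mul_add, map_add, e1, e2, add_zero]
  apply W.nondeg
  intro b
  refine gr_induction (W.isInternal Z) (p := fun b => W.tr Z (x * b) = 0) ?_ ?_ b
  · intro i b hb
    by_cases hi : i = 2 * l
    · subst hi
      exact hgr b hb
    · exact W.tr_eq_zero (W.mul_mem hxg hb) (by omega)
  · intro a b ha hb
    rw [mul_add, map_add, ha, hb, add_zero]

lemma finrank_genTate_le {s j l : ℕ} (hjl : j + l = Z.dim) :
    Module.finrank W.K (genTate Φ Z s j) ≤ Module.finrank W.K (genTate Φ Z s l) := by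
  set φ : genTate Φ Z s j →ₗ[W.K] Module.Dual W.K (genTate Φ Z s l) :=
    { toFun := fun a => W.tr Z ∘ₗ LinearMap.mulLeft W.K (a : W.H Z) ∘ₗ
        (genTate Φ Z s l).subtype
      map_add' := by
        intro a b
        ext c
        simp [add_mul]
      map_smul' := by
        intro a b
        ext c
        simp } with hφ
  have hinj : Function.Injective φ := by
    rw [← LinearMap.ker_eq_bot, LinearMap.ker_eq_bot']
    rintro ⟨a, ha⟩ h0
    apply Subtype.ext
    apply genTate_nondeg Φ hjl ha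
    intro w hw
    exact congrArg (fun F => F ⟨w, hw⟩) h0
  have h1 := LinearMap.finrank_le_finrank_of_injective hinj
  rwa [Subspace.dual_finrank_eq] at h1

lemma finrank_genTate_symm {s j l : ℕ} (hjl : j + l = Z.dim) :
    Module.finrank W.K (genTate Φ Z s j) = Module.finrank W.K (genTate Φ Z s l) :=
  le_antisymm (finrank_genTate_le Φ hjl) (finrank_genTate_le Φ (by omega))

end Pool.Agent.W534
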