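import Pool.Agent.W534.UDefs

/-!
# Products with a hyperplane section: definitions
-/

open CategoryTheory AlgebraicGeometry

universe u v

namespace Pool.Agent.W534

open Pool.Agent.H914 VarClass Obj WeilCohomology

variable {k : Type u} [Field k] {𝒱 : VarClass k} {ops : CycleOps 𝒱}

/-- Weak Lefschetz for the morphism `i` from `Y` to `X`: the pull-back `H^j(X) → H^j(Y)` is
surjective for `j < dim Y`. (The injectivity for `j ≤ dim Y`, which is the other half of the weak
Lefschetz theorem for a hyperplane section, follows from hard Lefschetz for `X`.) -/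
def WeakLefschetz (W : WeilCohomology.{u, v} ops) {X Y : 𝒱.Obj} (i : Y ⟶ X) : Prop :=
  ∀ j < Y.dim, ∀ b ∈ W.gr Y j, ∃ a ∈ W.gr X j, W.map i a = b

/-- The divisor `D × Y + X × i^* D` on `X × Y`. -/
noncomputable def mixSum (ops : CycleOps 𝒱) {X Y : 𝒱.Obj} (i : Y ⟶ X) (D : X.Cycles) :
    (X.prod Y).Cycles :=
  ops.pull (fst X Y) D + ops.pull (snd X Y) (ops.pull i D)

/-- The divisor `D × Y - X × i^* D` on `X × Y`. -/
noncomputable def mixDiff (ops : CycleOps 𝒱) {X Y : 𝒱.Obj} (i : Y ⟶ X) (D : X.Cycles) :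
    (X.prod Y).Cycles :=
  ops.pull (fst X Y) D - ops.pull (snd X Y) (ops.pull i D)

/-- The class of the (transposed) graph of `i` on `X × Y`, the image of `Y` under `(i, id)`, is the
product of `D × Y - X × i^* D` with an algebraic class of codimension `dim Y`. -/
def GraphDivisible (W : WeilCohomology.{u, v} ops) {X Y : 𝒱.Obj} (i : Y ⟶ X) (D : X.Cycles) :
    Prop :=
  ∃ z, (X.prod Y).IsCyc Y.dim z ∧
    W.cl (X.prod Y) (ops.mul (mixDiff ops i D) z) =
      W.cl (X.prod Y) (ops.push (Obj.lift i (𝟙 Y)) Y.V.fundCycle)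

end Pool.Agent.W534
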