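import Pool.Agent.H914R2.KDefs2
import Pool.Agent.H914R2.HodgeDefs
import Pool.Agent.H447R3.AoDefs

/-!
# Uniform solutions of the conjecture A: definitions
-/

open CategoryTheory AlgebraicGeometry

universe u v

namespace Pool.Agent.W534

open Pool.Agent.H914 VarClass Obj WeilCohomology

variable {k : Type u} [Field k] {𝒱 : VarClass k} {ops : CycleOps 𝒱}

/-- The dimension, over the coefficient field `K` of the Weil cohomology theory, of the `K`-span
in `H(X)` of the classes of the algebraic cycles of codimension `q`. -/
noncomputable def cycleRank (W : WeilCohomology.{u, v} ops) (X : 𝒱.Obj) (q : ℤ) : ℕ :=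
  Module.finrank W.K (spanCycles W X q)

/-- The Weil cohomology theories in which `X` has the same Betti numbers as in `W`. -/
def sameBetti (W : WeilCohomology.{u, v} ops) (X : 𝒱.Obj) : Set (WeilCohomology.{u, v} ops) :=
  {W' | ∀ i, W'.betti X i = W.betti X i}

/-- The conjecture A for `Y` and the divisor `E`, uniformly for the Weil cohomology theories in
the set `S`: for `2 j ≤ dim Y` and every cycle `z` of codimension `dim Y - j` there is one cycle
`z'` of codimension `j` such that the class of `E ^ (dim Y - 2 j) z'` is the class of `z` in all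
the theories in `S`. -/
def UniformA (S : Set (WeilCohomology.{u, v} ops)) (Y : 𝒱.Obj) (E : Y.Cycles) : Prop :=
  ∀ j, 2 * j ≤ Y.dim → ∀ z, Y.IsCyc (Y.dim - j) z → ∃ z', Y.IsCyc j z' ∧
    ∀ W' ∈ S, W'.cl Y (divPow ops E (Y.dim - 2 * j) z') = W'.cl Y z

end Pool.Agent.W534
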