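import Pool.Agent.W534.Low
import Pool.Agent.W534.UDefs

/-!
# One codimension, one theory: the conjecture A for all theories
-/

open CategoryTheory AlgebraicGeometry Finset

universe u v

namespace Pool.Agent.W534

open Pool.Agent.H914 Pool.Agent.H447 VarClass Obj WeilCohomology

variable {k : Type u} [Field k] {𝒱 : VarClass k} {ops : CycleOps 𝒱}
  {W : WeilCohomology.{u, v} ops} {X Y Z : 𝒱.Obj}

/-- The square of the Lefschetz operator on the operators of degree `-1`. -/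
lemma dbl_sq_mem {D : X.Cycles} (hD : X.IsCyc 1 D) {x : Module.End W.K (W.H X)}
    (hx : x ∈ KOp W X X (-1)) : (dbl (LinearMap.mulLeft W.K (W.cl X D)) ^ 2) x ∈ KOp W X X 1 := by
  have hK := (rop_opAlg (W := W) (X := X)).kspan
  rw [← mem_KS_iff] at hx ⊢
  have hL : LinearMap.mulLeft W.K (W.cl X D) ∈ KS (ROp W X) 1 :=
    Submodule.subset_span (rop_mulLeft hD)
  have h1 : ∀ {d : ℤ} {y : Module.End W.K (W.H X)}, y ∈ KS (ROp W X) d →
      dbl (LinearMap.mulLeft W.K (W.cl X D)) y ∈ KS (ROp W X) (d + 1) := by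
    intro d y hy
    rw [dbl_apply]
    exact hK.add (hK.cast (hK.mul hL hy) (by ring)) (hK.mul hy hL)
  rw [pow_two, Module.End.mul_apply]
  exact hK.cast (h1 (h1 hx)) (by ring)

/-- Equality of the two ranks implies the conjecture B. -/
theorem lefschetzB_of_rank {D : X.Cycles} (hD : X.IsCyc 1 D) (hHL : HardLefschetz W X D)
    (hr : cycleRank W (X.prod X) ((X.dim : ℤ) - 1) = cycleRank W (X.prod X) ((X.dim : ℤ) + 1)) :
    LefschetzB W X D := by
  have hLR := rop_mulLeft (W := W) hD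
  have hLh : IsHom (W.gr X) 2 (LinearMap.mulLeft W.K (W.cl X D)) := by
    simpa using rop_opAlg.hom hLR
  have hOA := (rop_opAlg (W := W) (X := X)).kspan
  obtain ⟨f, t, hf, -⟩ := exists_sl2 (W.isInternal X) hLh W_hbd hHL
  have hfK : f ∈ KS (ROp W X) (-1) := by
    apply lower_mem_of_surj hOA (W.isInternal X) W_hbd (Submodule.subset_span hLR) hHL t hf
    intro y hy
    rw [mem_KS_iff] at hy
    obtain ⟨z, hz, hzy⟩ := surj_of_finrank_eq (A := KOp W X X (-1)) (B := KOp W X X 1)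
      (T := dbl (LinearMap.mulLeft W.K (W.cl X D)) ^ 2) (fun x hx => dbl_sq_mem hD hx)
      (fun x hx h0 => dbl_inj (W.isInternal X) t (by
        have h1 := hOA.hom (mem_KS_iff.2 hx)
        simpa using h1) h0)
      (by rw [finrank_KOp, finrank_KOp]; exact hr) y hy
    exact ⟨z, mem_KS_iff.2 hz, hzy⟩
  apply lefschetzB_of_inj hD hHL
  intro c _
  refine ⟨f ^ c, ?_, ?_⟩
  · rw [← mem_KS_iff]
    exact hOA.cast (hOA.pow hfK c) (by ring)
  · intro a ha h0
    apply f_pow_inj t _ h0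
    rw [wt, scal_apply _ _ ha]
    congr 1
    rw [node]
    push_cast; ring

/-- The conjecture A in the codimension `n - 1` on the square implies the equality of the two
ranks. -/
theorem rank_of_lefschetzAIn (hn : 1 ≤ X.dim) {D : X.Cycles} (hD : X.IsCyc 1 D)
    (hHL : HardLefschetz W X D) (hA : LefschetzAIn W (X.prod X) (boxSum ops D) (X.dim - 1)) :
    cycleRank W (X.prod X) ((X.dim : ℤ) - 1) = cycleRank W (X.prod X) ((X.dim : ℤ) + 1) := by
  have hLR := rop_mulLeft (W := W) hD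
  have hLh : IsHom (W.gr X) 2 (LinearMap.mulLeft W.K (W.cl X D)) := by
    simpa using rop_opAlg.hom hLR
  have hOA := (rop_opAlg (W := W) (X := X)).kspan
  obtain ⟨f, t, hf, -⟩ := exists_sl2 (W.isInternal X) hLh W_hbd hHL
  have h1 := finrank_eq_of_surj (A := KOp W X X (-1)) (B := KOp W X X 1)
    (T := dbl (LinearMap.mulLeft W.K (W.cl X D)) ^ 2) (fun x hx => dbl_sq_mem hD hx)
    (fun x hx h0 => dbl_inj (W.isInternal X) t (by
      have h1 := hOA.hom (mem_KS_iff.2 hx)
      simpa using h1) h0) ?_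
  · rw [finrank_KOp, finrank_KOp] at h1
    exact h1
  · intro y hy
    induction hy using Submodule.span_induction with
    | mem x hx =>
      obtain ⟨p, hp, z, hz, rfl⟩ := hx
      obtain rfl : p = X.dim + 1 := by omega
      obtain ⟨z', hz', h2⟩ := hA z (by
        rwa [dim_prod, show X.dim + X.dim - (X.dim - 1) = X.dim + 1 by omega])
      refine ⟨_, KOp.gen (p := X.dim - 1) (by omega) hz', ?_⟩
      rw [← h2, cl_divPow, corr_boxSum_pow hD, dim_prod,
        show X.dim + X.dim - 2 * (X.dim - 1) = 2 by omega]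
    | zero => exact ⟨0, Submodule.zero_mem _, map_zero _⟩
    | add x y _ _ hx hy =>
      obtain ⟨a, ha, rfl⟩ := hx
      obtain ⟨b, hb, rfl⟩ := hy
      exact ⟨a + b, Submodule.add_mem _ ha hb, map_add _ _ _⟩
    | smul c x _ hx =>
      obtain ⟨a, ha, rfl⟩ := hx
      exact ⟨c • a, Submodule.smul_mem _ _ ha, map_smul _ _ _⟩

/-- The conjecture B does not depend on the divisor. -/
lemma lefschetzB_indep {D E : X.Cycles} (hD : X.IsCyc 1 D) (hHL : HardLefschetz W X D)
    (hE : X.IsCyc 1 E) (hHLE : HardLefschetz W X E) (hB : LefschetzB W X D) :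
    LefschetzB W X E :=
  ((lefschetzB_tfae hE hHLE).out 0 2).2 (((lefschetzB_tfae hD hHL).out 0 2).1 hB)

/-- Uniform solutions on the square. -/
theorem uniform_square (hn : 1 ≤ X.dim) {D : X.Cycles} (hD : X.IsCyc 1 D)
    (hHL : HardLefschetz W X D) (hB : LefschetzB W X D) :
    UniformA (sameBetti W X) (X.prod X) (boxSum ops D) := by
  obtain ⟨Z, hZ, hZW⟩ := indep_weil hn D hD W hHL hB
  have hLam : ∀ W' ∈ sameBetti W X, HardLefschetz W' X D ∧ InducesLambda W' X D Z := by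
    intro W' hW'
    exact ((hZW W').out 1 2).2 hW'
  intro j hj z hz
  rw [dim_prod] at hj hz
  obtain ⟨m, hm⟩ : ∃ m, X.dim = j + m := ⟨X.dim - j, by omega⟩
  obtain ⟨c, hc⟩ := exists_coeffs.{v} (2 * m) (X.dim + 1)
  have hL := realized_L.{u, v} (ops := ops) hD
  have hF := realized_lowOp hD (realized_corr.{u, v} (ops := ops) hn hZ) X.dim
  have hy : Realized.{u, v} ops X m (fun W => W.corr (W.cl _ z)) :=
    Or.inl ⟨X.dim + X.dim - j, by omega, z, hz, fun _ => rfl⟩
  have hsol : Realized.{u, v} ops X (-m) (fun W' => ∑ s ∈ range (X.dim + 1), (c s : W'.K) •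
      (dbl (lowOp X.dim (LinearMap.mulLeft W'.K (W'.cl X D)) (W'.corr (W'.cl _ Z))) ^
        (2 * m + s)) ((dbl (LinearMap.mulLeft W'.K (W'.cl X D)) ^ s) (W'.corr (W'.cl _ z)))) := by
    apply Realized.sum
    intro s _
    exact ((realized_dbl_pow hF (realized_dbl_pow hL hy s) (2 * m + s)).cast
      (by push_cast; ring)).smul (c s)
  obtain ⟨z', hz', hz'W⟩ : ∃ z', (X.prod X).IsCyc j z' ∧ ∀ W' : WeilCohomology.{u, v} ops,
      ∑ s ∈ range (X.dim + 1), (c s : W'.K) •
      (dbl (lowOp X.dim (LinearMap.mulLeft W'.K (W'.cl X D)) (W'.corr (W'.cl _ Z))) ^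
        (2 * m + s)) ((dbl (LinearMap.mulLeft W'.K (W'.cl X D)) ^ s) (W'.corr (W'.cl _ z))) =
      W'.corr (W'.cl _ z') := by
    rcases hsol with ⟨q, hq, z', hz', hY⟩ | ⟨h1, _⟩
    · obtain rfl : q = j := by omega
      exact ⟨z', hz', hY⟩
    · omega
  refine ⟨z', hz', fun W' hW' => ?_⟩
  obtain ⟨hHL', hLam'⟩ := hLam W' hW'
  have hLh : IsHom (W'.gr X) 2 (LinearMap.mulLeft W'.K (W'.cl X D)) := isHom_mulLeft W' hD
  obtain ⟨f, t, hf, hfv⟩ := exists_sl2 (W'.isInternal X) hLh W_hbd hHL'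
  have hfe : lowOp X.dim (LinearMap.mulLeft W'.K (W'.cl X D)) (W'.corr (W'.cl _ Z)) = f :=
    lowOp_eq (W'.isInternal X) hLh W_hbd hHL' hLam' hfv
  have hyh : IsHom (W'.gr X) (2 * m) (W'.corr (W'.cl _ z)) := hy.isHom W'
  have key := hc W'.K (Module.End W'.K (W'.H X)) _ _ _ (sl2_dbl t) (W'.corr (W'.cl _ z))
    (by rw [weight_dbl (W'.isInternal X) hyh]; push_cast; rfl)
    (by
      apply eq_zero_of_isHom_pos (W'.isInternal X) W_hbd (d := 2 * (((X.dim + 1 : ℕ) : ℤ) * 1 + m))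
        (by push_cast; omega)
      exact (realized_dbl_pow hL hy (X.dim + 1)).isHom W')
  rw [← hfe, hz'W W'] at key
  rw [← sub_eq_zero]
  apply corr_inj
  rw [corr_sub', cl_divPow, corr_boxSum_pow hD, dim_prod,
    show X.dim + X.dim - 2 * j = 2 * m by omega, key, sub_self]

/-- Uniform solutions on the variety itself. -/
theorem uniform_self (hn : 1 ≤ X.dim) {D : X.Cycles} (hD : X.IsCyc 1 D)
    (hHL : HardLefschetz W X D) (hB : LefschetzB W X D) :
    UniformA (sameBetti W X) X D := by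
  obtain ⟨Z, hZ, hZW⟩ := indep_weil hn D hD W hHL hB
  have hLam : ∀ W' ∈ sameBetti W X, HardLefschetz W' X D ∧ InducesLambda W' X D Z := by
    intro W' hW'
    exact ((hZW W').out 1 2).2 hW'
  intro j hj z hz
  obtain ⟨c, hcj⟩ : ∃ c, X.dim = 2 * j + c := ⟨X.dim - 2 * j, by omega⟩
  have hR := (realized_corr.{u, v} (ops := ops) hn hZ).pow c
  obtain ⟨Zc, hZc, hZcW⟩ : ∃ Zc, (X.prod X).IsCyc (2 * j) Zc ∧
      ∀ W' : WeilCohomology.{u, v} ops, W'.corr (W'.cl _ Z) ^ c = W'.corr (W'.cl _ Zc) := by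
    rcases hR with ⟨q, hq, z', hz', hY⟩ | ⟨h1, _⟩
    · obtain rfl : q = 2 * j := by omega
      exact ⟨z', hz', hY⟩
    · omega
  refine ⟨ops.push (snd X X) (ops.mul Zc (ops.pull (fst X X) z)),
    ops.push_mem _ (ops.mul_mem hZc (ops.pull_mem _ hz)) (by rw [dim_prod]; omega), ?_⟩
  intro W' hW'
  obtain ⟨hHL', hLam'⟩ := hLam W' hW'
  have hLh : IsHom (W'.gr X) 2 (LinearMap.mulLeft W'.K (W'.cl X D)) := isHom_mulLeft W' hD
  have e1 : W'.cl X (ops.push (snd X X) (ops.mul Zc (ops.pull (fst X X) z))) =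
      (W'.corr (W'.cl _ Z) ^ c) (W'.cl X z) := by
    rw [hZcW, W'.cl_push, W'.cl_mul, W'.cl_pull, corr_apply]
  rw [cl_divPow, e1, show X.dim - 2 * j = c by omega]
  obtain ⟨b, hb, hb'⟩ := (hHL' (X.dim - c) (by omega)).2 (W'.cl X z) (by
    have := W'.cl_mem hz
    rwa [show 2 * (X.dim - j) = 2 * X.dim - (X.dim - c) by omega] at this)
  rw [show X.dim - (X.dim - c) = c by omega] at hb'
  rw [← hb', lam_pow_L_pow hLh W_hbd hHL' hLam' (by omega) hb]

/-- **One codimension and one theory suffice.** -/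
theorem middle_tfae (hn : 1 ≤ X.dim) {D : X.Cycles} (hD : X.IsCyc 1 D)
    (hHL : HardLefschetz W X D) :
    List.TFAE [
      cycleRank W (X.prod X) ((X.dim : ℤ) - 1) = cycleRank W (X.prod X) ((X.dim : ℤ) + 1),
      LefschetzAIn W (X.prod X) (boxSum ops D) (X.dim - 1),
      LefschetzB W X D,
      ∀ E, X.IsCyc 1 E → HardLefschetz W X E →
        UniformA (sameBetti W X) X E ∧ UniformA (sameBetti W X) (X.prod X) (boxSum ops E)] := by
  have hW : W ∈ sameBetti W X := fun _ => rfl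
  tfae_have 1 → 3 := lefschetzB_of_rank hD hHL
  tfae_have 2 → 1 := rank_of_lefschetzAIn hn hD hHL
  tfae_have 3 → 4 := by
    intro hB E hE hHLE
    have hBE := lefschetzB_indep hD hHL hE hHLE hB
    exact ⟨uniform_self hn hE hHLE hBE, uniform_square hn hE hHLE hBE⟩
  tfae_have 4 → 2 := by
    intro h z hz
    obtain ⟨z', hz', h2⟩ := (h D hD hHL).2 (X.dim - 1) (by rw [dim_prod]; omega) z hz
    exact ⟨z', hz', h2 W hW⟩
  tfae_finish

end Pool.Agent.W534
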