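import Pool.Agent.W534.HypA
import Pool.Agent.W534.QOp
import Pool.Agent.W534.Uni
import Pool.Agent.W534.HDefs

/-!
# The conjecture A for the product of a variety and a hyperplane section
-/

open CategoryTheory AlgebraicGeometry Finset

universe u v

namespace Pool.Agent.W534

open Pool.Agent.H914 Pool.Agent.H447 VarClass Obj WeilCohomology

variable {k : Type u} [Field k] {𝒱 : VarClass k} {ops : CycleOps 𝒱}
  {W : WeilCohomology.{u, v} ops} {X Y Z : 𝒱.Obj}

/-- The projection formula on the other side. -/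
lemma tr_mul_push (i : Y ⟶ X) (a : W.H X) (b : W.H Y) :
    W.tr X (a * W.push i b) = W.tr Y (W.map i a * b) := by
  refine gr_induction (W.isInternal X) (p := fun a =>
    W.tr X (a * W.push i b) = W.tr Y (W.map i a * b)) ?_ ?_ a
  swap
  · intro a a' ha ha'
    rw [add_mul, map_add (W.map i), add_mul, map_add, map_add, ha, ha']
  intro p a ha
  refine gr_induction (W.isInternal Y) (p := fun b =>
    W.tr X (a * W.push i b) = W.tr Y (W.map i a * b)) ?_ ?_ b
  swap
  · intro b b' hb hb'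
    rw [map_add, mul_add, mul_add, map_add, map_add, hb, hb']
  intro q b hb
  have h1 := W.push_mem i hb
  rw [W.comm (W.map_mem i ha) hb, map_smul, ← W.tr_push, smul_eq_mul]
  by_cases hm : ∃ r : ℕ, (r : ℤ) = (q : ℤ) + 2 * ((X.dim : ℤ) - Y.dim)
  · obtain ⟨r, hr⟩ := hm
    rw [← hr, grZ_natCast] at h1
    rw [W.comm ha h1, map_smul, smul_eq_mul]
    congr 1
    have h2 : Even (p * r + p * q) := by
      rw [← mul_add]
      apply Even.mul_left
      have : ((r + q : ℕ) : ℤ) = 2 * (q + ((X.dim : ℤ) - Y.dim)) := by push_cast; omega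
      have h3 : Even ((r + q : ℕ) : ℤ) := ⟨q + ((X.dim : ℤ) - Y.dim), by rw [this]; ring⟩
      exact_mod_cast h3
    have h4 : (-1 : W.K) ^ (p * r) * (-1) ^ (p * q) = 1 := by rw [← pow_add, h2.neg_one_pow]
    have h5 : (-1 : W.K) ^ (p * q) * (-1) ^ (p * q) = 1 := by
      rw [← pow_add, ← two_mul, pow_mul]; simp
    calc (-1 : W.K) ^ (p * r) = (-1 : W.K) ^ (p * r) * ((-1 : W.K) ^ (p * q) * (-1) ^ (p * q)) := by
          rw [h5, mul_one]
      _ = (-1 : W.K) ^ (p * q) := by rw [← mul_assoc, h4, one_mul]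
  · push Not at hm
    by_cases hneg : (q : ℤ) + 2 * ((X.dim : ℤ) - Y.dim) < 0
    · rw [grZ_of_neg hneg] at h1
      rw [(Submodule.mem_bot _).1 h1]
      simp
    · exact absurd (Int.toNat_of_nonneg (by omega)) (hm _)

section

variable {i : Y ⟶ X} {D : X.Cycles}

lemma pull_mem_one (hD : X.IsCyc 1 D) : Y.IsCyc 1 (ops.pull i D) := ops.pull_mem i hD

/-- The linear algebra of the hyperplane section. -/
lemma hsec (hdim : X.dim = Y.dim + 1) (hD : X.IsCyc 1 D)
    (hY : W.cl X (ops.push i Y.V.fundCycle) = W.cl X D) (hHL : HardLefschetz W X D)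
    (hWL : WeakLefschetz W i) :
    HSec (W.gr X) (W.gr Y) Y.dim (LinearMap.mulLeft W.K (W.cl X D))
      (LinearMap.mulLeft W.K (W.cl Y (ops.pull i D))) (W.map i).toLinearMap (W.push i) where
  int := W.isInternal X
  int' := W.isInternal Y
  bd j hj := W.gr_eq_bot X j (by omega)
  bd' j hj := W.gr_eq_bot Y j (by omega)
  hL := isHom_mulLeft W hD
  hM := isHom_mulLeft W (pull_mem_one hD)
  hι j a ha := W.map_mem i ha
  hγ j b hb := by
    have := W.push_mem i hb
    rwa [show (j : ℤ) + 2 * ((X.dim : ℤ) - Y.dim) = ((j + 2 : ℕ) : ℤ) by rw [hdim]; push_cast; ring,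
      grZ_natCast] at this
  γι a := by
    have h1 := W.push_mul i 1 a
    rw [one_mul, ← W.cl_fund Y, ← W.cl_push, hY] at h1
    exact h1
  ιL a := by
    simp only [LinearMap.mulLeft_apply, AlgHom.toLinearMap_apply]
    rw [map_mul (W.map i), ← W.cl_pull]
  Lγ b := by
    rw [LinearMap.mulLeft_apply, LinearMap.mulLeft_apply, W.mul_push i (W.cl_mem hD), ← W.cl_pull]
  hl := by
    have := hHL
    rw [HardLefschetz, hdim] at this
    exact this
  surj := hWL
  inj j hj b hb h0 := by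
    apply W.nondeg
    intro c
    refine gr_induction (W.isInternal Y) (p := fun c => W.tr Y (b * c) = 0) ?_ ?_ c
    · intro r c hc
      by_cases hr : j + r = 2 * Y.dim
      · obtain ⟨a, _, rfl⟩ := hWL r (by omega) c hc
        rw [← W.tr_push, h0, zero_mul, map_zero]
      · exact W.tr_eq_zero (W.mul_mem hb hc) hr
    · intro c c' hc hc'
      rw [mul_add, map_add, hc, hc', add_zero]

lemma corr_mixSum (hD : X.IsCyc 1 D) (c : W.H (X.prod Y)) :
    W.corr (W.cl _ (mixSum ops i D) * c) =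
      W.corr c ∘ₗ LinearMap.mulLeft W.K (W.cl X D) +
        LinearMap.mulLeft W.K (W.cl Y (ops.pull i D)) ∘ₗ W.corr c := by
  rw [mixSum, map_add, W.cl_pull, W.cl_pull, add_mul, corr_add, corr_fst' _ _ (W.cl_mem hD),
    corr_snd' _ _ (W.cl_mem (pull_mem_one hD))]

lemma corr_mixDiff (hD : X.IsCyc 1 D) (c : W.H (X.prod Y)) :
    W.corr (W.cl _ (mixDiff ops i D) * c) =
      W.corr c ∘ₗ LinearMap.mulLeft W.K (W.cl X D) -
        LinearMap.mulLeft W.K (W.cl Y (ops.pull i D)) ∘ₗ W.corr c := by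
  rw [mixDiff, map_sub, W.cl_pull, W.cl_pull, sub_mul, corr_sub'', corr_fst' _ _ (W.cl_mem hD),
    corr_snd' _ _ (W.cl_mem (pull_mem_one hD))]

/-- The operator `φ ↦ φ L + ε M φ`. -/
noncomputable def mixOp {K V U : Type*} [Field K] [AddCommGroup V] [Module K V] [AddCommGroup U]
    [Module K U] (L : Module.End K V) (M : Module.End K U) (ε : K) :
    Module.End K (V →ₗ[K] U) :=
  LinearMap.lcomp K U L + ε • M.compRight K

lemma mixOp_apply {K V U : Type*} [Field K] [AddCommGroup V] [Module K V] [AddCommGroup U]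
    [Module K U] (L : Module.End K V) (M : Module.End K U) (ε : K) (φ : V →ₗ[K] U) :
    mixOp L M ε φ = φ ∘ₗ L + ε • (M ∘ₗ φ) := rfl

lemma kop_L (hD : X.IsCyc 1 D) : LinearMap.mulLeft W.K (W.cl X D) ∈ KOp W X X 1 :=
  (rop_iff.1 (rop_mulLeft hD)).kop

lemma mixOp_mem (hD : X.IsCyc 1 D) (ε : W.K) {d : ℤ} {φ : W.H X →ₗ[W.K] W.H Y}
    (hφ : φ ∈ KOp W X Y d) :
    mixOp (LinearMap.mulLeft W.K (W.cl X D)) (LinearMap.mulLeft W.K (W.cl Y (ops.pull i D))) ε φ ∈
      KOp W X Y (d + 1) := by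
  rw [mixOp_apply]
  apply Submodule.add_mem
  · exact KOp.cast (KOp.comp hφ (kop_L hD)) (by ring)
  · exact Submodule.smul_mem _ _ (KOp.comp (kop_L (pull_mem_one hD)) hφ)

end

end Pool.Agent.W534
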