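import Pool.Agent.W534.Hyp2

/-!
# From the conjecture B for `X` to the conjecture A for `X × Y`
-/

open CategoryTheory AlgebraicGeometry Finset

universe u v

namespace Pool.Agent.W534

open Pool.Agent.H914 Pool.Agent.H447 VarClass Obj WeilCohomology

section Abs

variable {K V U : Type*} [Field K] [AddCommGroup V] [Module K V] [AddCommGroup U] [Module K U]

lemma sl2_ef_apply {h e f : Module.End K V} (t : Sl2 h e f) (a : V) :
    e (f a) - f (e a) = h a := by
  have := congrArg (fun F => F a) t.ef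
  simpa using this

lemma sl2_he_apply {h e f : Module.End K V} (t : Sl2 h e f) (a : V) :
    h (e a) - e (h a) = e a + e a := by
  have h1 : h * e - e * h = e + e := by rw [t.he, two_mul]
  have := congrArg (fun F => F a) h1
  simpa using this

lemma sl2_hf_apply {h e f : Module.End K V} (t : Sl2 h e f) (a : V) :
    h (f a) - f (h a) = -(f a + f a) := by
  have h1 : h * f - f * h = -(f + f) := by rw [t.hf, two_mul]
  have := congrArg (fun F => F a) h1
  simpa using this

/-- The representation of `sl(2)` on the space of maps. -/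
lemma sl2_mix {h e f : Module.End K V} {h' e' f' : Module.End K U} (t : Sl2 h e f)
    (t' : Sl2 h' e' f') : Sl2 (mixOp (-h) h' 1) (mixOp e e' 1) (mixOp f f' 1) := by
  have ef := sl2_ef_apply t
  have he := sl2_he_apply t
  have hf := sl2_hf_apply t
  have ef' := sl2_ef_apply t'
  have he' := sl2_he_apply t'
  have hf' := sl2_hf_apply t'
  constructor
  · apply LinearMap.ext
    intro φ
    apply LinearMap.ext
    intro a
    simp only [LinearMap.sub_apply, Module.End.mul_apply, mixOp_apply, LinearMap.add_apply,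
      LinearMap.comp_apply, one_smul, LinearMap.neg_apply, map_add, map_neg, ← ef, ← ef', map_sub]
    abel
  · apply LinearMap.ext
    intro φ
    have h2 : (2 * mixOp e e' 1) φ = mixOp e e' 1 φ + mixOp e e' 1 φ := by
      rw [two_mul, LinearMap.add_apply]
    rw [h2]
    apply LinearMap.ext
    intro a
    have e1 : φ (h (e a)) - φ (e (h a)) = φ (e a) + φ (e a) := by
      rw [← map_sub, he, map_add]
    have e2 := he' (φ a)
    simp only [LinearMap.sub_apply, Module.End.mul_apply, mixOp_apply, LinearMap.add_apply,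
      LinearMap.comp_apply, one_smul, LinearMap.neg_apply, map_add, map_neg]
    have e3 : φ (h (e a)) = φ (e a) + φ (e a) + φ (e (h a)) := by rw [← e1]; abel
    have e4 : h' (e' (φ a)) = e' (φ a) + e' (φ a) + e' (h' (φ a)) := by rw [← e2]; abel
    rw [e3, e4]
    abel
  · apply LinearMap.ext
    intro φ
    have h2 : (-(2 * mixOp f f' 1)) φ = -(mixOp f f' 1 φ + mixOp f f' 1 φ) := by
      rw [LinearMap.neg_apply, two_mul, LinearMap.add_apply]
    rw [h2]
    apply LinearMap.ext
    intro a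
    have e1 : φ (h (f a)) - φ (f (h a)) = -(φ (f a) + φ (f a)) := by
      rw [← map_sub, hf, map_neg, map_add]
    have e2 := hf' (φ a)
    simp only [LinearMap.sub_apply, Module.End.mul_apply, mixOp_apply, LinearMap.add_apply,
      LinearMap.comp_apply, one_smul, LinearMap.neg_apply, map_add, map_neg]
    have e3 : φ (h (f a)) = -(φ (f a) + φ (f a)) + φ (f (h a)) := by rw [← e1]; abel
    have e4 : h' (f' (φ a)) = -(f' (φ a) + f' (φ a)) + f' (h' (φ a)) := by rw [← e2]; abel
    rw [e3, e4]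
    abel

end Abs

variable {k : Type u} [Field k] {𝒱 : VarClass k} {ops : CycleOps 𝒱}
  {W : WeilCohomology.{u, v} ops} {X Y Z : 𝒱.Obj} {i : Y ⟶ X} {D : X.Cycles}

/-- The lowering operator is algebraic if the conjecture B holds. -/
lemma rop_lower {E : X.Cycles} (hE : X.IsCyc 1 E) (hHL : HardLefschetz W X E)
    (hB : LefschetzB W X E) {f : Module.End W.K (W.H X)}
    (hfv : ∀ i ≤ X.dim, ∀ a ∈ W.gr X i,
      (LinearMap.mulLeft W.K (W.cl X E) ^ (X.dim - i + 1)) a = 0 → ∀ j ≤ X.dim - i,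
      f ((LinearMap.mulLeft W.K (W.cl X E) ^ j) a) =
        ((j : W.K) * (((X.dim - i : ℕ) : W.K) - j + 1)) •
          (LinearMap.mulLeft W.K (W.cl X E) ^ (j - 1)) a) : ROp W X (-1) f := by
  obtain ⟨Φ, hΦ, hLam⟩ := lefschetzB_iff_rop.1 hB
  exact lower_of_lam rop_opAlg (W.isInternal X) W_hbd (rop_mulLeft hE) hHL hΦ hLam hfv

/-- The conjecture B for a hyperplane section. -/
theorem lefschetzB_section (hdim : X.dim = Y.dim + 1) (hD : X.IsCyc 1 D)
    (hY : W.cl X (ops.push i Y.V.fundCycle) = W.cl X D) (hHL : HardLefschetz W X D)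
    (hWL : WeakLefschetz W i) (hB : LefschetzB W X D) : LefschetzB W Y (ops.pull i D) := by
  have hs := hsec hdim hD hY hHL hWL
  have hLh : IsHom (W.gr X) 2 (LinearMap.mulLeft W.K (W.cl X D)) := isHom_mulLeft W hD
  obtain ⟨f, t, hf, hfv⟩ := exists_sl2 (W.isInternal X) hLh W_hbd hHL
  have hfR := rop_lower hD hHL hB hfv
  apply lefschetzB_of_inj (pull_mem_one hD) hs.hl'
  intro c hc
  rcases Nat.eq_zero_or_pos c with rfl | hc0
  · exact ⟨LinearMap.id, KOp.cast (KOp.id Y) (by simp), fun a _ h0 => h0⟩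
  · have h1 : f ^ (c + 1) ∈ KOp W X X (-((c + 1 : ℕ) : ℤ)) := by
      rw [← mem_KS_iff]
      exact Submodule.subset_span (rop_opAlg.cast (rop_opAlg.pow hfR (c + 1)) (by ring))
    have h2 : W.push i ∈ KOp W Y X 1 := KOp.cast (qop_push i).kop (by rw [hdim]; push_cast; ring)
    refine ⟨(W.map i).toLinearMap ∘ₗ ((f ^ (c + 1)) ∘ₗ W.push i),
      KOp.cast (KOp.comp (qop_pull i).kop (KOp.comp h1 h2)) (by push_cast; ring), ?_⟩
    intro b hb h0
    apply hs.inj (Y.dim + c) (by omega) b hb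
    have h3 := hs.hγ _ b hb
    have h4 : (f ^ (c + 1)) (W.push i b) ∈ W.gr X (Y.dim - c) := by
      have h5 := (hf.pow (c + 1)) _ _ (by rw [grZ_natCast]; exact h3)
      rwa [show ((Y.dim + c + 2 : ℕ) : ℤ) + ((c + 1 : ℕ) : ℤ) * (-2) = ((Y.dim - c : ℕ) : ℤ) by
        push_cast; omega, grZ_natCast] at h5
    have h6 : (f ^ (c + 1)) (W.push i b) = 0 := hs.ι_inj (by omega) h4 h0
    apply f_pow_inj t _ h6
    rw [wt, scal_apply _ _ h3]
    congr 1
    rw [node, hdim]
    push_cast; ring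

/-- The weights of the correspondences. -/
lemma weight_mix (hdim : X.dim = Y.dim + 1) {d : ℤ} {φ : W.H X →ₗ[W.K] W.H Y}
    (hφ : φ ∈ KOp W X Y d) :
    mixOp (-(wt (W.isInternal X) X.dim)) (wt (W.isInternal Y) Y.dim) 1 φ =
      ((2 * d + 1 : ℤ) : W.K) • φ := by
  apply gr_ext (W.isInternal X)
  intro j a ha
  have h1 := KOp.isHom hφ j a (by rw [grZ_natCast]; exact ha)
  simp only [mixOp_apply, LinearMap.add_apply, LinearMap.comp_apply, one_smul,
    LinearMap.neg_apply, LinearMap.smul_apply, map_neg]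
  rw [wt, scal_apply _ _ ha, map_smul]
  by_cases hj : 0 ≤ (j : ℤ) + 2 * d
  · obtain ⟨r, hr⟩ := Int.eq_ofNat_of_zero_le hj
    rw [hr, grZ_natCast] at h1
    rw [wt, scal_apply _ _ h1, ← neg_smul, ← add_smul]
    congr 1
    have h2 : (r : W.K) = (j : W.K) + 2 * (d : W.K) := by
      have := congrArg (fun x : ℤ => (x : W.K)) hr
      push_cast at this
      exact this.symm
    rw [node, node, hdim]
    push_cast
    rw [h2]
    ring
  · rw [grZ_of_neg (by omega)] at h1
    rw [(Submodule.mem_bot _).1 h1]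
    simp

/-- The conjecture A for the product with a hyperplane section. -/
theorem lefschetzA_mix (hdim : X.dim = Y.dim + 1) (hD : X.IsCyc 1 D)
    (hY : W.cl X (ops.push i Y.V.fundCycle) = W.cl X D) (hHL : HardLefschetz W X D)
    (hWL : WeakLefschetz W i) (hB : LefschetzB W X D) :
    LefschetzA W (X.prod Y) (mixSum ops i D) := by
  have hs := hsec hdim hD hY hHL hWL
  have hB' := lefschetzB_section hdim hD hY hHL hWL hB
  have hE := pull_mem_one (i := i) (ops := ops) hD
  obtain ⟨f, t, hf, hfv⟩ := exists_sl2 (W.isInternal X) (isHom_mulLeft W hD) W_hbd hHL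
  obtain ⟨f', t', hf', hfv'⟩ := exists_sl2 (W.isInternal Y) (isHom_mulLeft W hE) W_hbd hs.hl'
  have hfR := rop_iff.1 (rop_lower hD hHL hB hfv)
  have hfR' := rop_iff.1 (rop_lower hE hs.hl' hB' hfv')
  have hLR : QOp W X X 1 (LinearMap.mulLeft W.K (W.cl X D)) := rop_iff.1 (rop_mulLeft hD)
  have hMR : QOp W Y Y 1 (LinearMap.mulLeft W.K (W.cl Y (ops.pull i D))) :=
    rop_iff.1 (rop_mulLeft hE)
  have hmix : ∀ {a d : ℤ} {A : Module.End W.K (W.H X)} {B : Module.End W.K (W.H Y)}
      {φ : W.H X →ₗ[W.K] W.H Y}, QOp W X X a A → QOp W Y Y a B → QOp W X Y d φ →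
      ∀ r : ℕ, QOp W X Y (d + r * a) ((mixOp A B 1 ^ r) φ) := by
    intro a d A B φ hA hB hφ r
    induction r with
    | zero => exact hφ.cast (by simp)
    | succ r ih =>
      rw [pow_succ', Module.End.mul_apply, mixOp_apply, one_smul]
      exact ((ih.comp hA).cast (by push_cast; ring)).add ((hB.comp ih).cast (by push_cast; ring))
  intro j hj z hz
  rw [dim_prod] at hj hz
  obtain ⟨m, hm⟩ : ∃ m, Y.dim = j + m := ⟨Y.dim - j, by omega⟩
  obtain ⟨c, hc⟩ := exists_coeffs.{v} (2 * m + 1) (Y.dim + 1)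
  have hφ : QOp W X Y m (W.corr (W.cl _ z)) := QOp.gen (p := X.dim + Y.dim - j) (by omega) hz
  have h0 : (mixOp (LinearMap.mulLeft W.K (W.cl X D))
      (LinearMap.mulLeft W.K (W.cl Y (ops.pull i D))) 1 ^ (Y.dim + 1)) (W.corr (W.cl _ z)) = 0 := by
    have h1 := (hmix hLR hMR hφ (Y.dim + 1)).kop
    apply gr_ext (W.isInternal X)
    intro r a ha
    have h2 := KOp.isHom h1 r a (by rw [grZ_natCast]; exact ha)
    rw [LinearMap.zero_apply]
    rw [show (r : ℤ) + 2 * (↑m + ((Y.dim + 1 : ℕ) : ℤ) * 1) =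
      ((r + 2 * (m + (Y.dim + 1)) : ℕ) : ℤ) by push_cast; ring, grZ_natCast,
      W.gr_eq_bot Y _ (by omega)] at h2
    exact (Submodule.mem_bot _).1 h2
  have key := hc W.K (W.H X →ₗ[W.K] W.H Y) _ _ _ (sl2_mix t t') (W.corr (W.cl _ z))
    (by rw [weight_mix hdim hφ.kop]; push_cast; rfl) h0
  obtain ⟨z', hz', hz'W⟩ : ∃ z', (X.prod Y).IsCyc j z' ∧ W.corr (W.cl _ z') =
      ∑ s ∈ range (Y.dim + 1), (c s : W.K) • ((mixOp f f' 1) ^ (2 * m + 1 + s))
        (((mixOp (LinearMap.mulLeft W.K (W.cl X D))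
          (LinearMap.mulLeft W.K (W.cl Y (ops.pull i D))) 1) ^ s) (W.corr (W.cl _ z))) := by
    apply QOp.exists_cyc (d := -(m + 1))
    · apply QOp.sum
      intro s _
      exact ((hmix hfR hfR' (hmix hLR hMR hφ s) (2 * m + 1 + s)).cast
        (by push_cast; ring)).smul (c s)
    · omega
  refine ⟨z', hz', ?_⟩
  rw [← sub_eq_zero]
  apply corr_inj
  rw [corr_sub'', cl_divPow, mixOp_one_pow hD, hz'W, dim_prod,
    show X.dim + Y.dim - 2 * j = 2 * m + 1 by omega, key, sub_self]

/-- **The conjecture A for the product of a variety and a hyperplane section.** -/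
theorem hyperplane_tfae (hdim : X.dim = Y.dim + 1) (hD : X.IsCyc 1 D)
    (hY : W.cl X (ops.push i Y.V.fundCycle) = W.cl X D) (hHL : HardLefschetz W X D)
    (hWL : WeakLefschetz W i) :
    List.TFAE [
      LefschetzB W X D,
      LefschetzA W (X.prod Y) (mixSum ops i D),
      LefschetzAIn W (X.prod Y) (mixSum ops i D) Y.dim,
      cycleRank W (X.prod Y) Y.dim = cycleRank W (X.prod Y) X.dim,
      GraphDivisible W i D] := by
  tfae_have 1 → 2 := lefschetzA_mix hdim hD hY hHL hWL
  tfae_have 2 → 3 := fun hA => hA _ (by rw [dim_prod]; omega)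
  tfae_have 3 → 4 := rank_of_middle hdim hD hY hHL hWL
  tfae_have 4 → 1 := lefschetzB_of_rankXY hdim hD hY hHL hWL
  tfae_have 1 → 5 := graph_of_lefschetzB hdim hD hY hHL hWL
  tfae_have 5 → 1 := lefschetzB_of_graph hdim hD hY hHL
  tfae_finish

end Pool.Agent.W534
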