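import Pool.Agent.W534.FamDefs
import Pool.Agent.W534.Hyp3
import Pool.Agent.H447R3.DegB

/-!
# Systems of classes stable under algebraic correspondences
-/

open CategoryTheory AlgebraicGeometry Finset

universe u v

namespace Pool.Agent.W534

open Pool.Agent.H914 Pool.Agent.H447 VarClass Obj WeilCohomology

variable {k : Type u} [Field k] {𝒱 : VarClass k} {ops : CycleOps 𝒱}
  {W : WeilCohomology.{u, v} ops} {X Y Z : 𝒱.Obj} {d e : ℤ}

/-- Degrees of the operator given by a homogeneous class. -/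
lemma corr_deg {p : ℕ} (hp : (p : ℤ) = X.dim + d) {c : W.H (X.prod Y)}
    (hc : c ∈ W.gr (X.prod Y) (2 * p)) :
    ∀ i : ℤ, ∀ a ∈ grZ (W.gr X) i, W.corr c a ∈ grZ (W.gr Y) (i + 2 * d) := by
  intro i a ha
  by_cases hi : 0 ≤ i
  · lift i to ℕ using hi
    rw [grZ_natCast] at ha
    have h1 := W.push_mem (snd X Y) (W.mul_mem hc (W.map_mem (fst X Y) ha))
    rw [corr_apply]
    have e : ((2 * p + i : ℕ) : ℤ) + 2 * ((Y.dim : ℤ) - (X.prod Y).dim) =
        (i : ℤ) + 2 * d := by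
      rw [dim_prod]; push_cast; rw [hp]; ring
    rwa [e] at h1
  · rw [grZ_of_neg (by omega)] at ha
    rw [(Submodule.mem_bot _).1 ha, map_zero]
    exact Submodule.zero_mem _

lemma neg_one_smul' (φ : W.H X →ₗ[W.K] W.H Y) : (-1 : W.K) • φ = -φ := by
  apply LinearMap.ext
  intro a
  rw [LinearMap.smul_apply, LinearMap.neg_apply, neg_smul, one_smul]

lemma neg_smul' (q : W.K) (φ : W.H X →ₗ[W.K] W.H Y) : (-q) • φ = -(q • φ) := by
  apply LinearMap.ext
  intro a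
  rw [LinearMap.smul_apply, LinearMap.neg_apply, neg_smul, LinearMap.smul_apply]

/-- Operators of very large or very small degree vanish. -/
lemma eq_zero_of_deg {φ : W.H X →ₗ[W.K] W.H Y}
    (hφ : ∀ i : ℤ, ∀ a ∈ grZ (W.gr X) i, φ a ∈ grZ (W.gr Y) (i + 2 * d))
    (hd : (Y.dim : ℤ) < d ∨ (X.dim : ℤ) + d < 0) : φ = 0 := by
  apply gr_ext (W.isInternal X)
  intro i a ha
  rw [LinearMap.zero_apply]
  have h1 := hφ i a (by rw [grZ_natCast]; exact ha)
  rcases hd with hd | hd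
  · rw [show (i : ℤ) + 2 * d = ((i + 2 * d.toNat : ℕ) : ℤ) by omega, grZ_natCast,
      W.gr_eq_bot Y _ (by omega)] at h1
    exact (Submodule.mem_bot _).1 h1
  · by_cases hi : 2 * X.dim < i
    · rw [W.gr_eq_bot X i hi] at ha
      rw [(Submodule.mem_bot _).1 ha, map_zero]
    · rw [grZ_of_neg (by omega)] at h1
      exact (Submodule.mem_bot _).1 h1

namespace Fam

variable {F G : Fam W}

lemma Op.deg {φ : W.H X →ₗ[W.K] W.H Y} (h : F.Op X Y d φ) :
    ∀ i : ℤ, ∀ a ∈ grZ (W.gr X) i, φ a ∈ grZ (W.gr Y) (i + 2 * d) := by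
  rcases h with ⟨p, hp, c, hc, rfl⟩ | ⟨_, rfl⟩
  · exact corr_deg hp (F.mem_gr hc)
  · intro i a _
    exact Submodule.zero_mem _

lemma Op.cast {φ : W.H X →ₗ[W.K] W.H Y} (h : F.Op X Y d φ) (hde : d = e) : F.Op X Y e φ :=
  hde ▸ h

lemma Op.gen {p : ℕ} (hp : (p : ℤ) = X.dim + d) {c : W.H (X.prod Y)}
    (hc : c ∈ F.T (X.prod Y) p) : F.Op X Y d (W.corr c) := Or.inl ⟨p, hp, c, hc, rfl⟩

lemma Op.exists_class {φ : W.H X →ₗ[W.K] W.H Y} (h : F.Op X Y d φ) {p : ℕ}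
    (hp : (p : ℤ) = X.dim + d) : ∃ c ∈ F.T (X.prod Y) p, W.corr c = φ := by
  rcases h with ⟨q, hq, c, hc, h⟩ | ⟨h, _⟩
  · obtain rfl : q = p := by omega
    exact ⟨c, hc, h⟩
  · omega

lemma Op.mem {c : W.H (X.prod Y)} (h : F.Op X Y d (W.corr c)) {p : ℕ}
    (hp : (p : ℤ) = X.dim + d) : c ∈ F.T (X.prod Y) p := by
  obtain ⟨c', hc', h'⟩ := h.exists_class hp
  have : c' - c = 0 := by
    apply corr_inj
    rw [corr_sub'', h', sub_self]
  rwa [← sub_eq_zero.1 this]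

lemma Op.zero (F : Fam W) (X Y : 𝒱.Obj) (d : ℤ) : F.Op X Y d 0 := by
  by_cases hd : (X.dim : ℤ) + d < 0
  · exact Or.inr ⟨hd, rfl⟩
  · refine Or.inl ⟨(X.dim + d).toNat, by omega, 0, F.zero _ _, ?_⟩
    rw [corr_zero]

lemma Op.add {φ ψ : W.H X →ₗ[W.K] W.H Y} (h : F.Op X Y d φ) (h' : F.Op X Y d ψ) :
    F.Op X Y d (φ + ψ) := by
  by_cases hd : (X.dim : ℤ) + d < 0
  · rcases h with ⟨p, hp, -⟩ | ⟨-, rfl⟩
    · omega
    rcases h' with ⟨p, hp, -⟩ | ⟨-, rfl⟩
    · omega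
    exact Or.inr ⟨hd, add_zero _⟩
  · obtain ⟨c, hc, rfl⟩ := h.exists_class (p := (X.dim + d).toNat) (by omega)
    obtain ⟨c', hc', rfl⟩ := h'.exists_class (p := (X.dim + d).toNat) (by omega)
    refine Or.inl ⟨_, by omega, c + c', F.add hc hc', ?_⟩
    rw [corr_add]

lemma Op.smul (q : ℚ) {φ : W.H X →ₗ[W.K] W.H Y} (h : F.Op X Y d φ) :
    F.Op X Y d ((q : W.K) • φ) := by
  rcases h with ⟨p, hp, c, hc, rfl⟩ | ⟨hd, rfl⟩
  · refine Or.inl ⟨p, hp, (q : W.K) • c, F.smul q hc, ?_⟩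
    rw [corr_smul]
  · exact Or.inr ⟨hd, smul_zero _⟩

lemma Op.neg {φ : W.H X →ₗ[W.K] W.H Y} (h : F.Op X Y d φ) : F.Op X Y d (-φ) := by
  have := h.smul (-1)
  rwa [Rat.cast_neg, Rat.cast_one, neg_one_smul' φ] at this

lemma Op.sub {φ ψ : W.H X →ₗ[W.K] W.H Y} (h : F.Op X Y d φ) (h' : F.Op X Y d ψ) :
    F.Op X Y d (φ - ψ) := by
  rw [sub_eq_add_neg]
  exact h.add h'.neg

lemma Op.sum {ι : Type*} {s : Finset ι} {Φ : ι → (W.H X →ₗ[W.K] W.H Y)}
    (h : ∀ i ∈ s, F.Op X Y d (Φ i)) : F.Op X Y d (∑ i ∈ s, Φ i) := by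
  classical
  induction s using Finset.induction_on with
  | empty => rw [Finset.sum_empty]; exact Op.zero F X Y d
  | insert a s ha ih =>
    rw [Finset.sum_insert ha]
    exact (h a (by simp)).add (ih (fun i hi => h i (by simp [hi])))

lemma Op.comp_left {φ : W.H X →ₗ[W.K] W.H Y} {ψ : W.H Y →ₗ[W.K] W.H Z}
    (hψ : QOp W Y Z e ψ) (hφ : F.Op X Y d φ) : F.Op X Z (d + e) (ψ ∘ₗ φ) := by
  by_cases hde : (X.dim : ℤ) + (d + e) < 0
  · refine Or.inr ⟨hde, ?_⟩
    apply eq_zero_of_deg (d := d + e) _ (Or.inr hde)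
    intro i a ha
    have h1 := hφ.deg i a ha
    have h2 := KOp.isHom hψ.kop _ _ h1
    rwa [show i + 2 * d + 2 * e = i + 2 * (d + e) by ring] at h2
  · rcases hψ with ⟨q, hq, w, hw, rfl⟩ | ⟨_, rfl⟩
    · rcases hφ with ⟨p, hp, c, hc, rfl⟩ | ⟨_, rfl⟩
      · rw [← corr_comp W c (W.cl_mem hw)]
        refine Op.gen (p := (X.dim + (d + e)).toNat) (by omega) (F.push _ (p := q + p) ?_ ?_)
        · rw [← W.even_comm (W.map_mem (p23 X Y Z) (W.cl_mem hw)), ← W.cl_pull]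
          exact F.cl_mul (ops.pull_mem _ hw) (F.map _ hc)
        · rw [dim_prod, dim_prod, dim_prod]
          omega
      · rw [LinearMap.comp_zero]; exact Op.zero _ _ _ _
    · rw [LinearMap.zero_comp]; exact Op.zero _ _ _ _

lemma Op.comp_right {φ : W.H X →ₗ[W.K] W.H Y} {ψ : W.H Y →ₗ[W.K] W.H Z}
    (hψ : F.Op Y Z e ψ) (hφ : QOp W X Y d φ) : F.Op X Z (d + e) (ψ ∘ₗ φ) := by
  by_cases hde : (X.dim : ℤ) + (d + e) < 0
  · refine Or.inr ⟨hde, ?_⟩
    apply eq_zero_of_deg (d := d + e) _ (Or.inr hde)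
    intro i a ha
    have h1 := KOp.isHom hφ.kop i a ha
    have h2 := hψ.deg _ _ h1
    rwa [show i + 2 * d + 2 * e = i + 2 * (d + e) by ring] at h2
  · rcases hψ with ⟨q, hq, c, hc, rfl⟩ | ⟨_, rfl⟩
    · rcases hφ with ⟨p, hp, w, hw, rfl⟩ | ⟨_, rfl⟩
      · rw [← corr_comp W _ (F.mem_gr hc)]
        refine Op.gen (p := (X.dim + (d + e)).toNat) (by omega) (F.push _ (p := p + q) ?_ ?_)
        · rw [← W.cl_pull]
          exact F.cl_mul (ops.pull_mem _ hw) (F.map _ hc)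
        · rw [dim_prod, dim_prod, dim_prod]
          omega
      · rw [LinearMap.comp_zero]; exact Op.zero _ _ _ _
    · rw [LinearMap.zero_comp]; exact Op.zero _ _ _ _

lemma Op.mix {a : ℤ} {A : Module.End W.K (W.H X)} {B : Module.End W.K (W.H Y)}
    {φ : W.H X →ₗ[W.K] W.H Y} (hA : QOp W X X a A) (hB : QOp W Y Y a B) (hφ : F.Op X Y d φ)
    (r : ℕ) : F.Op X Y (d + r * a) ((mixOp A B 1 ^ r) φ) := by
  induction r with
  | zero => exact hφ.cast (by simp)
  | succ r ih =>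
    rw [pow_succ', Module.End.mul_apply, mixOp_apply, one_smul]
    exact ((ih.comp_right hA).cast (by push_cast; ring)).add
      ((ih.comp_left hB).cast (by push_cast; ring))

end Fam

lemma QOp.neg {φ : W.H X →ₗ[W.K] W.H Y} (h : QOp W X Y d φ) : QOp W X Y d (-φ) := by
  have := h.smul (-1)
  rwa [Rat.cast_neg, Rat.cast_one, neg_one_smul' φ] at this

lemma QOp.sub {φ ψ : W.H X →ₗ[W.K] W.H Y} (h : QOp W X Y d φ) (h' : QOp W X Y d ψ) :
    QOp W X Y d (φ - ψ) := by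
  rw [sub_eq_add_neg]
  exact h.add h'.neg

/-- The weights of the correspondences. -/
lemma weight_mix' (hdim : X.dim = Y.dim + 1) {φ : W.H X →ₗ[W.K] W.H Y}
    (hφ : ∀ i : ℤ, ∀ a ∈ grZ (W.gr X) i, φ a ∈ grZ (W.gr Y) (i + 2 * d)) :
    mixOp (-(wt (W.isInternal X) X.dim)) (wt (W.isInternal Y) Y.dim) 1 φ =
      ((2 * d + 1 : ℤ) : W.K) • φ := by
  apply gr_ext (W.isInternal X)
  intro j a ha
  have h1 := hφ j a (by rw [grZ_natCast]; exact ha)
  simp only [mixOp_apply, LinearMap.add_apply, LinearMap.comp_apply, one_smul,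
    LinearMap.neg_apply, LinearMap.smul_apply, map_neg]
  rw [wt, scal_apply _ _ ha, map_smul]
  by_cases hj : 0 ≤ (j : ℤ) + 2 * d
  · obtain ⟨r, hr⟩ := Int.eq_ofNat_of_zero_le hj
    rw [hr, grZ_natCast] at h1
    rw [wt, scal_apply _ _ h1, ← neg_smul, ← add_smul]
    congr 1
    have h2 : (r : W.K) = (j : W.K) + 2 * (d : W.K) := by
      have := congrArg (fun x : ℤ => (x : W.K)) hr
      push_cast at this
      exact this.symm
    rw [node, node, hdim]
    push_cast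
    rw [h2]
    ring
  · rw [grZ_of_neg (by omega)] at h1
    rw [(Submodule.mem_bot _).1 h1]
    simp

lemma mixOp_neg {K V U : Type*} [Field K] [AddCommGroup V] [Module K V] [AddCommGroup U]
    [Module K U] (L : Module.End K V) (M : Module.End K U) :
    mixOp (-L) (-M) 1 = -mixOp L M 1 := by
  apply LinearMap.ext
  intro φ
  apply LinearMap.ext
  intro a
  simp only [mixOp_apply, LinearMap.neg_apply, LinearMap.add_apply, LinearMap.comp_apply,
    one_smul, map_neg]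
  abel

/-- **Transfer of inclusions from weight one to all weights.** -/
theorem Fam.transfer {F G : Fam W} {i : Y ⟶ X} {D : X.Cycles} (hdim : X.dim = Y.dim + 1)
    (hD : X.IsCyc 1 D) (hY : W.cl X (ops.push i Y.V.fundCycle) = W.cl X D)
    (hHL : HardLefschetz W X D) (hWL : WeakLefschetz W i) (hB : LefschetzB W X D)
    (h0 : ∀ φ, F.Op X Y 0 φ → G.Op X Y 0 φ) {φ : W.H X →ₗ[W.K] W.H Y} (hφ : F.Op X Y d φ) :
    G.Op X Y d φ := by
  have hs := hsec hdim hD hY hHL hWL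
  have hB' := lefschetzB_section hdim hD hY hHL hWL hB
  have hE := pull_mem_one (i := i) (ops := ops) hD
  obtain ⟨f, t, hf, hfv⟩ := exists_sl2 (W.isInternal X) (isHom_mulLeft W hD) W_hbd hHL
  obtain ⟨f', t', hf', hfv'⟩ := exists_sl2 (W.isInternal Y) (isHom_mulLeft W hE) W_hbd hs.hl'
  have hfR := rop_iff.1 (rop_lower hD hHL hB hfv)
  have hfR' := rop_iff.1 (rop_lower hE hs.hl' hB' hfv')
  have hLR : QOp W X X 1 (LinearMap.mulLeft W.K (W.cl X D)) := rop_iff.1 (rop_mulLeft hD)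
  have hMR : QOp W Y Y 1 (LinearMap.mulLeft W.K (W.cl Y (ops.pull i D))) :=
    rop_iff.1 (rop_mulLeft hE)
  by_cases hd0 : 0 ≤ d
  · obtain ⟨m, rfl⟩ := Int.eq_ofNat_of_zero_le hd0
    obtain ⟨c, hc⟩ := exists_coeffs.{v} (2 * m + 1) (Y.dim + 1)
    have hz := eq_zero_of_deg (hφ.mix hLR hMR (Y.dim + 1)).deg (Or.inl (by push_cast; omega))
    have key := hc W.K (W.H X →ₗ[W.K] W.H Y) _ _ _ (sl2_mix t t') φ
      (by rw [weight_mix' hdim hφ.deg]; push_cast; rfl) hz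
    have h1 : F.Op X Y (-(m + 1)) (∑ s ∈ range (Y.dim + 1), (c s : W.K) •
        ((mixOp f f' 1) ^ (2 * m + 1 + s)) (((mixOp (LinearMap.mulLeft W.K (W.cl X D))
          (LinearMap.mulLeft W.K (W.cl Y (ops.pull i D))) 1) ^ s) φ)) := by
      apply Fam.Op.sum
      intro s _
      exact (((hφ.mix hLR hMR s).mix hfR hfR' (2 * m + 1 + s)).cast (by push_cast; ring)).smul _
    have h2 := h0 _ ((h1.mix hLR hMR (m + 1)).cast (by push_cast; ring))
    have h3 := (h2.mix hLR hMR m).cast (e := (m : ℤ)) (by ring)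
    rw [← Module.End.mul_apply, ← pow_add, show m + (m + 1) = 2 * m + 1 by ring, key] at h3
    exact h3
  · obtain ⟨m, hm⟩ : ∃ m : ℕ, d = -1 - (m : ℤ) := ⟨(-1 - d).toNat, by omega⟩
    obtain ⟨c, hc⟩ := exists_coeffs.{v} (2 * m + 1) (X.dim + 1)
    have hnf := hfR.neg
    have hnf' := hfR'.neg
    have hnL := hLR.neg
    have hnM := hMR.neg
    have hz := eq_zero_of_deg (hφ.mix hnf hnf' (X.dim + 1)).deg (Or.inr (by push_cast; omega))
    have key := hc W.K (W.H X →ₗ[W.K] W.H Y) _ _ _ (sl2_mix t.neg_swap t'.neg_swap) φ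
      (by
        rw [mixOp_neg, LinearMap.neg_apply, weight_mix' hdim hφ.deg, ← neg_smul', hm]
        congr 1
        push_cast; ring) hz
    have h1 : F.Op X Y m (∑ s ∈ range (X.dim + 1), (c s : W.K) •
        ((mixOp (-LinearMap.mulLeft W.K (W.cl X D))
          (-LinearMap.mulLeft W.K (W.cl Y (ops.pull i D))) 1) ^ (2 * m + 1 + s))
          (((mixOp (-f) (-f') 1) ^ s) φ)) := by
      apply Fam.Op.sum
      intro s _
      exact (((hφ.mix hnf hnf' s).mix hnL hnM (2 * m + 1 + s)).cast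
        (by rw [hm]; push_cast; ring)).smul _
    have h2 := h0 _ ((h1.mix hnf hnf' m).cast (by push_cast; ring))
    have h3 := (h2.mix hnf hnf' (m + 1)).cast (e := d) (by rw [hm]; push_cast; ring)
    rw [← Module.End.mul_apply, ← pow_add, show m + 1 + m = 2 * m + 1 by ring, key] at h3
    exact h3

/-- Transfer from weight minus one. -/
theorem Fam.transfer' {F G : Fam W} {i : Y ⟶ X} {D : X.Cycles} (hdim : X.dim = Y.dim + 1)
    (hD : X.IsCyc 1 D) (hY : W.cl X (ops.push i Y.V.fundCycle) = W.cl X D)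
    (hHL : HardLefschetz W X D) (hWL : WeakLefschetz W i) (hB : LefschetzB W X D)
    (h0 : ∀ φ, F.Op X Y (-1) φ → G.Op X Y (-1) φ) {φ : W.H X →ₗ[W.K] W.H Y}
    (hφ : F.Op X Y d φ) : G.Op X Y d φ := by
  refine Fam.transfer hdim hD hY hHL hWL hB (fun φ hφ => ?_) hφ
  have hs := hsec hdim hD hY hHL hWL
  have hB' := lefschetzB_section hdim hD hY hHL hWL hB
  have hE := pull_mem_one (i := i) (ops := ops) hD
  obtain ⟨f, t, hf, hfv⟩ := exists_sl2 (W.isInternal X) (isHom_mulLeft W hD) W_hbd hHL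
  obtain ⟨f', t', hf', hfv'⟩ := exists_sl2 (W.isInternal Y) (isHom_mulLeft W hE) W_hbd hs.hl'
  have hfR := rop_iff.1 (rop_lower hD hHL hB hfv)
  have hfR' := rop_iff.1 (rop_lower hE hs.hl' hB' hfv')
  have hLR : QOp W X X 1 (LinearMap.mulLeft W.K (W.cl X D)) := rop_iff.1 (rop_mulLeft hD)
  have hMR : QOp W Y Y 1 (LinearMap.mulLeft W.K (W.cl Y (ops.pull i D))) :=
    rop_iff.1 (rop_mulLeft hE)
  obtain ⟨c, hc⟩ := exists_coeffs.{v} 1 (Y.dim + 1)
  have hz := eq_zero_of_deg (hφ.mix hLR hMR (Y.dim + 1)).deg (Or.inl (by push_cast; omega))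
  have key := hc W.K (W.H X →ₗ[W.K] W.H Y) _ _ _ (sl2_mix t t') φ
    (by rw [weight_mix' hdim hφ.deg]; push_cast; norm_num) hz
  have h1 : F.Op X Y (-1) (∑ s ∈ range (Y.dim + 1), (c s : W.K) •
      ((mixOp f f' 1) ^ (1 + s)) (((mixOp (LinearMap.mulLeft W.K (W.cl X D))
        (LinearMap.mulLeft W.K (W.cl Y (ops.pull i D))) 1) ^ s) φ)) := by
    apply Fam.Op.sum
    intro s _
    exact (((hφ.mix hLR hMR s).mix hfR hfR' (1 + s)).cast (by push_cast; ring)).smul _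
  have h2 := h0 _ h1
  have h3 := (h2.mix hLR hMR 1).cast (e := 0) (by norm_num)
  rw [key] at h3
  exact h3

end Pool.Agent.W534
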