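import Pool.Agent.W534.FamD

/-!
# Systems of classes containing the algebraic classes
-/

open CategoryTheory AlgebraicGeometry Finset

universe u v

namespace Pool.Agent.W534

open Pool.Agent.H914 Pool.Agent.H447 VarClass Obj WeilCohomology

variable {k : Type u} [Field k] {𝒱 : VarClass k} {ops : CycleOps 𝒱}
  {W : WeilCohomology.{u, v} ops} {X Y Z : 𝒱.Obj} {d e : ℤ} {F G : Fam W}

/-- The system of the linear combinations of classes of cycles. -/
noncomputable def spanFam (W : WeilCohomology.{u, v} ops) : Fam W where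
  T Z p := (spanCycles W Z p : Submodule W.K (W.H Z))
  mem_gr := fun hc => span_gr hc
  zero Z p := Submodule.zero_mem _
  add := fun hc hd => Submodule.add_mem _ hc hd
  smul := by
    intro Z p q c hc
    exact Submodule.smul_mem _ _ hc
  cl_mul := by
    intro Z p q z c hz hc
    induction hc using Submodule.span_induction with
    | mem x hx =>
      obtain ⟨r, hr, w, hw, rfl⟩ := hx
      obtain rfl : r = p := by exact_mod_cast hr
      rw [← W.cl_mul]
      exact mem_span_cl (ops.mul_mem hz hw)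
    | zero => rw [mul_zero]; exact Submodule.zero_mem _
    | add x y _ _ hx hy => rw [mul_add]; exact Submodule.add_mem _ hx hy
    | smul a x _ hx => rw [mul_smul_comm]; exact Submodule.smul_mem _ _ hx
  map := by
    intro Z Z' f p c hc
    induction hc using Submodule.span_induction with
    | mem x hx =>
      obtain ⟨r, hr, w, hw, rfl⟩ := hx
      obtain rfl : r = p := by exact_mod_cast hr
      rw [← W.cl_pull]
      exact mem_span_cl (ops.pull_mem f hw)
    | zero => rw [map_zero]; exact Submodule.zero_mem _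
    | add x y _ _ hx hy => rw [map_add]; exact Submodule.add_mem _ hx hy
    | smul a x _ hx => rw [map_smul]; exact Submodule.smul_mem _ _ hx
  push := by
    intro Z Z' f p q c hc hpq
    induction hc using Submodule.span_induction with
    | mem x hx =>
      obtain ⟨r, hr, w, hw, rfl⟩ := hx
      obtain rfl : r = p := by exact_mod_cast hr
      rw [← W.cl_push]
      exact mem_span_cl (ops.push_mem f hw hpq)
    | zero => rw [map_zero]; exact Submodule.zero_mem _
    | add x y _ _ hx hy => rw [map_add]; exact Submodule.add_mem _ hx hy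
    | smul a x _ hx => rw [map_smul]; exact Submodule.smul_mem _ _ hx

variable {i : Y ⟶ X} {D : X.Cycles}

/-- Hard Lefschetz in the middle of the product: injectivity. -/
lemma mixSum_inj (hdim : X.dim = Y.dim + 1) (hD : X.IsCyc 1 D)
    (hY : W.cl X (ops.push i Y.V.fundCycle) = W.cl X D) (hHL : HardLefschetz W X D)
    (hWL : WeakLefschetz W i) {c : W.H (X.prod Y)} (hc : c ∈ W.gr (X.prod Y) (2 * Y.dim))
    (h0 : W.cl _ (mixSum ops i D) * c = 0) : c = 0 := by
  have hs := hsec hdim hD hY hHL hWL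
  apply corr_inj
  apply hs.eq_zero_of_comm (ε := -1) (by norm_num) (corr_deg (p := Y.dim) (by omega) hc)
  intro a
  have h1 := corr_mixSum (i := i) hD c
  rw [h0, corr_zero] at h1
  have h2 := congrArg (fun F => F a) h1
  simp only [LinearMap.add_apply, LinearMap.comp_apply, LinearMap.zero_apply] at h2
  rw [neg_smul, one_smul]
  exact eq_neg_of_add_eq_zero_left h2.symm

lemma isCyc_mixSum (hD : X.IsCyc 1 D) : (X.prod Y).IsCyc 1 (mixSum ops i D) :=
  (ops.pull_mem _ hD).add (ops.pull_mem _ (ops.pull_mem _ hD))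

/-- Hard Lefschetz in the middle of the product: surjectivity. -/
lemma mixSum_surj (hdim : X.dim = Y.dim + 1) (hD : X.IsCyc 1 D)
    (hY : W.cl X (ops.push i Y.V.fundCycle) = W.cl X D) (hHL : HardLefschetz W X D)
    (hWL : WeakLefschetz W i) {b : W.H (X.prod Y)} (hb : b ∈ W.gr (X.prod Y) (2 * X.dim)) :
    ∃ c ∈ W.gr (X.prod Y) (2 * Y.dim), W.cl _ (mixSum ops i D) * c = b := by
  have hE := isCyc_mixSum (Y := Y) (i := i) (ops := ops) hD
  have hle : Module.finrank W.K (W.gr (X.prod Y) (2 * X.dim)) ≤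
      Module.finrank W.K (W.gr (X.prod Y) (2 * Y.dim)) := by
    set φ : W.gr (X.prod Y) (2 * X.dim) →ₗ[W.K] Module.Dual W.K (W.gr (X.prod Y) (2 * Y.dim)) :=
      { toFun := fun a => W.tr (X.prod Y) ∘ₗ LinearMap.mulLeft W.K (a : W.H (X.prod Y)) ∘ₗ
          (W.gr (X.prod Y) (2 * Y.dim)).subtype
        map_add' := by
          intro a b
          ext c
          simp [add_mul]
        map_smul' := by
          intro a b
          ext c
          simp } with hφ
    have hinj : Function.Injective φ := by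
      rw [injective_iff_map_eq_zero]
      rintro ⟨a, ha⟩ h0
      apply Subtype.ext
      apply W.nondeg
      intro c
      refine gr_induction (W.isInternal (X.prod Y)) (p := fun c => W.tr (X.prod Y) (a * c) = 0)
        ?_ ?_ c
      · intro m c hc
        by_cases hm : m = 2 * Y.dim
        · subst hm
          exact congrArg (fun F => F ⟨c, hc⟩) h0
        · exact W.tr_eq_zero (W.mul_mem ha hc) (by rw [dim_prod]; omega)
      · intro c c' hc hc'
        rw [mul_add, map_add, hc, hc', add_zero]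
    have h1 := LinearMap.finrank_le_finrank_of_injective hinj
    rwa [Subspace.dual_finrank_eq] at h1
  have hmem : ∀ x ∈ W.gr (X.prod Y) (2 * Y.dim),
      LinearMap.mulLeft W.K (W.cl _ (mixSum ops i D)) x ∈ W.gr (X.prod Y) (2 * X.dim) := by
    intro x hx
    have := W.mul_mem (W.cl_mem hE) hx
    rwa [show 2 * 1 + 2 * Y.dim = 2 * X.dim by omega] at this
  have hinj : ∀ x ∈ W.gr (X.prod Y) (2 * Y.dim),
      LinearMap.mulLeft W.K (W.cl _ (mixSum ops i D)) x = 0 → x = 0 := fun x hx h0 =>
    mixSum_inj hdim hD hY hHL hWL hx h0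
  have hge : Module.finrank W.K (W.gr (X.prod Y) (2 * Y.dim)) ≤
      Module.finrank W.K (W.gr (X.prod Y) (2 * X.dim)) := by
    set T := (LinearMap.mulLeft W.K (W.cl _ (mixSum ops i D))).restrict
      (p := W.gr (X.prod Y) (2 * Y.dim)) (q := W.gr (X.prod Y) (2 * X.dim)) hmem with hT
    apply LinearMap.finrank_le_finrank_of_injective (f := T)
    rw [injective_iff_map_eq_zero]
    rintro ⟨a, ha⟩ h0
    apply Subtype.ext
    exact hinj a ha (congrArg Subtype.val h0)
  obtain ⟨c, hc, h⟩ := surj_of_finrank_eq hmem hinj (le_antisymm hge hle) b hb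
  exact ⟨c, hc, h⟩

/-- The conjecture B from a saturated system of classes. -/
theorem lefschetzB_of_fam (hdim : X.dim = Y.dim + 1) (hD : X.IsCyc 1 D)
    (hY : W.cl X (ops.push i Y.V.fundCycle) = W.cl X D) (hHL : HardLefschetz W X D)
    (hWL : WeakLefschetz W i)
    (hsat : ∀ c ∈ W.gr (X.prod Y) (2 * Y.dim),
      W.cl _ (mixSum ops i D) * c ∈ spanCycles W (X.prod Y) X.dim → c ∈ F.T (X.prod Y) Y.dim)
    (h : F.T (X.prod Y) Y.dim ⊆ (spanFam W).T (X.prod Y) Y.dim) : LefschetzB W X D := by
  apply lefschetzB_of_rankXY hdim hD hY hHL hWL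
  have hE := isCyc_mixSum (Y := Y) (i := i) (ops := ops) hD
  refine finrank_eq_of_surj (T := LinearMap.mulLeft W.K (W.cl _ (mixSum ops i D))) ?_ ?_ ?_
  · intro x hx
    have := (spanFam W).cl_mul hE hx
    rwa [show 1 + Y.dim = X.dim by omega] at this
  · intro x hx h0
    exact mixSum_inj hdim hD hY hHL hWL (span_gr hx) h0
  · intro y hy
    obtain ⟨c, hc, hcy⟩ := mixSum_surj hdim hD hY hHL hWL (span_gr hy)
    refine ⟨c, h (hsat c hc ?_), hcy⟩
    rw [hcy]
    exact hy

/-- The string operator `Λ` and the hyperplane section. -/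
lemma HSec.ι_lam {K : Type*} [Field K] {V U : Type*} [AddCommGroup V] [Module K V]
    [AddCommGroup U] [Module K U] {gr : ℕ → Submodule K V} {gr' : ℕ → Submodule K U} {m : ℕ}
    {L : Module.End K V} {M : Module.End K U} {ι : V →ₗ[K] U} {γ : U →ₗ[K] V}
    (h : HSec gr gr' m L M ι γ) {Lam : Module.End K V} (hLam : IsLam gr (m + 1) L Lam) (x : V) :
    ι (Lam (L x)) = ι x ∧ L (Lam (L x)) = L x := by
  refine lef_induction' h.int h.hL h.bd h.hl (p := fun x =>
    ι (Lam (L x)) = ι x ∧ L (Lam (L x)) = L x) ?_ ?_ x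
  · intro a b ha hb
    simp only [map_add, ha.1, hb.1, ha.2, hb.2, and_self]
  · intro i hi a ha hp j
    by_cases hj : j < m + 1 - i
    · have h1 : Lam (L ((L ^ j) a)) = (L ^ j) a := by
        rw [← Module.End.mul_apply L, ← pow_succ']
        have := lam_pow hLam hi ha hp (j := j + 1) (by omega) 1 (by omega)
        rwa [pow_one, Nat.add_sub_cancel] at this
      rw [h1]
      exact ⟨rfl, rfl⟩
    · have h2 : L ((L ^ j) a) = 0 := by
        rw [← Module.End.mul_apply L, ← pow_succ']
        exact L_pow_gt hp (by omega)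
      rw [h2, map_zero, map_zero, map_zero]
      refine ⟨?_, rfl⟩
      symm
      by_cases hj' : j ≤ m + 1 - i
      · apply h.inj (i + 2 * j) (by omega) _ (h.hι _ _ (pow_L_mem h.hL ha j))
        rw [h.γι, h2]
      · rw [L_pow_gt hp (by omega), map_zero]

/-- The push-forward takes its values in the image of `L`. -/
lemma HSec.γ_mem {K : Type*} [Field K] {V U : Type*} [AddCommGroup V] [Module K V]
    [AddCommGroup U] [Module K U] {gr : ℕ → Submodule K V} {gr' : ℕ → Submodule K U} {m : ℕ}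
    {L : Module.End K V} {M : Module.End K U} {ι : V →ₗ[K] U} {γ : U →ₗ[K] V}
    (h : HSec gr gr' m L M ι γ) (b : U) : ∃ a, L a = γ b := by
  refine gr_induction h.int' (p := fun b => ∃ a, L a = γ b) ?_ ?_ b
  · intro j b hb
    by_cases hj : j < m
    · obtain ⟨a, _, rfl⟩ := h.surj j hj b hb
      exact ⟨a, (h.γι a).symm⟩
    · by_cases hj2 : j ≤ 2 * m
      · obtain ⟨a, ha, hab⟩ := (h.hl (2 * m - j) (by omega)).2 (γ b) (by
          have := h.hγ _ b hb
          rwa [show j + 2 = 2 * (m + 1) - (2 * m - j) by omega] at this)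
        refine ⟨(L ^ (m - (2 * m - j))) a, ?_⟩
        rw [← Module.End.mul_apply, ← pow_succ',
          show m - (2 * m - j) + 1 = m + 1 - (2 * m - j) by omega, hab]
      · rw [h.bd' j (by omega)] at hb
        rw [(Submodule.mem_bot _).1 hb, map_zero]
        exact ⟨0, map_zero _⟩
  · rintro b b' ⟨a, ha⟩ ⟨a', ha'⟩
    exact ⟨a + a', by rw [map_add, map_add, ha, ha']⟩

/-- **Systems of classes on the square of the hyperplane section.** -/
theorem Fam.squareY (hdim : X.dim = Y.dim + 1)
    (hD : X.IsCyc 1 D) (hY : W.cl X (ops.push i Y.V.fundCycle) = W.cl X D)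
    (hHL : HardLefschetz W X D) (hWL : WeakLefschetz W i) (hB : LefschetzB W X D)
    (h : ∀ (e : ℤ) (φ : W.H X →ₗ[W.K] W.H Y), F.Op X Y e φ → G.Op X Y e φ)
    {φ : W.H Y →ₗ[W.K] W.H Y} (hφ : F.Op Y Y d φ) :
    ∃ ψ, G.Op Y Y d ψ ∧ (∀ a, (φ - ψ) (W.map i a) = 0) ∧ ∀ b, W.push i ((φ - ψ) b) = 0 := by
  have hs := hsec hdim hD hY hHL hWL
  obtain ⟨Lam, hLamR, hLam⟩ := lefschetzB_iff_rop.1 hB
  have hLamQ : QOp W X X (-1) Lam := rop_iff.1 hLamR
  rw [hdim] at hLam
  have hι : QOp W X Y 0 (W.map i).toLinearMap := qop_pull i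
  have hγ : QOp W Y X 1 (W.push i) := (qop_push i).cast (by rw [hdim]; push_cast; ring)
  have hιγ : QOp W Y Y 0 ((W.map i).toLinearMap ∘ₗ (Lam ∘ₗ W.push i)) :=
    (hι.comp (hLamQ.comp hγ)).cast (by ring)
  set π : W.H Y →ₗ[W.K] W.H Y := (W.map i).toLinearMap ∘ₗ (Lam ∘ₗ W.push i) with hπ
  -- the two compositions with the class in the product
  have h1 : G.Op Y Y d (π ∘ₗ φ) := by
    have e1 : π ∘ₗ φ = (W.map i).toLinearMap ∘ₗ (Lam ∘ₗ (W.push i ∘ₗ φ)) := rfl
    rw [e1]
    exact (((Fam.op_swap h _ _ (hφ.comp_left hγ)).comp_left hLamQ).comp_left hι).cast (by ring)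
  have h2 : ∀ {φ : W.H Y →ₗ[W.K] W.H Y}, F.Op Y Y d φ → G.Op Y Y d (φ ∘ₗ π) := by
    intro φ hφ
    have e1 : φ ∘ₗ π = ((φ ∘ₗ (W.map i).toLinearMap) ∘ₗ Lam) ∘ₗ W.push i := rfl
    rw [e1]
    exact (((h _ _ (hφ.comp_right hι)).comp_right hLamQ).comp_right hγ).cast (by ring)
  refine ⟨π ∘ₗ φ + (φ - π ∘ₗ φ) ∘ₗ π, h1.add (h2 (hφ.sub ((hφ.comp_left hιγ).cast (by ring)))),
    ?_, ?_⟩
  · intro a
    have e1 : π (W.map i a) = W.map i a := by
      have := (hs.ι_lam hLam a).1
      rw [← hs.γι] at this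
      exact this
    simp only [LinearMap.sub_apply, LinearMap.add_apply, LinearMap.comp_apply, e1]
    abel
  · intro b
    have e1 : ∀ b, W.push i (π b) = W.push i b := by
      intro b
      obtain ⟨a, ha⟩ := hs.γ_mem b
      have e2 : W.push i (π b) = LinearMap.mulLeft W.K (W.cl X D) (Lam (W.push i b)) := hs.γι _
      rw [e2, ← ha]
      exact (hs.ι_lam hLam a).2
    simp only [LinearMap.sub_apply, LinearMap.add_apply, LinearMap.comp_apply, map_sub, map_add, e1]
    abel

end Pool.Agent.W534
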