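import Pool.Agent.W534.Top

/-!
# Homological and numerical equivalence on the product with a hyperplane section
-/

open CategoryTheory AlgebraicGeometry Finset

universe u v

namespace Pool.Agent.W534

open Pool.Agent.H914 Pool.Agent.H447 VarClass Obj WeilCohomology

variable {k : Type u} [Field k] {𝒱 : VarClass k} {ops : CycleOps 𝒱}
  {W : WeilCohomology.{u, v} ops} {X Y Z : 𝒱.Obj} {d e : ℤ}

lemma eq_zero_of_gr_large {p : ℕ} (hp : Z.dim < p) {c : W.H Z} (hc : c ∈ W.gr Z (2 * p)) :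
    c = 0 := by
  rw [W.gr_eq_bot Z _ (by omega)] at hc
  exact (Submodule.mem_bot _).1 hc

/-- The classes of numerically trivial cycles. -/
noncomputable def numFam (W : WeilCohomology.{u, v} ops) : Fam W where
  T Z p := {c | ∃ z, Z.IsCyc p z ∧ W.cl Z z = c ∧
    ∀ w, Z.IsCyc (Z.dim - p) w → W.tr Z (c * W.cl Z w) = 0}
  mem_gr := by
    rintro Z p _ ⟨z, hz, rfl, -⟩
    exact W.cl_mem hz
  zero Z p := ⟨0, SmVar.IsCyc.zero _ _, map_zero _, fun w _ => by rw [zero_mul, map_zero]⟩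
  add := by
    rintro Z p _ _ ⟨z, hz, rfl, h1⟩ ⟨z', hz', rfl, h2⟩
    refine ⟨z + z', hz.add hz', map_add _ _ _, fun w hw => ?_⟩
    rw [add_mul, map_add, h1 w hw, h2 w hw, add_zero]
  smul := by
    rintro Z p q _ ⟨z, hz, rfl, h1⟩
    refine ⟨q • z, hz.smul q, cl_smul W q z, fun w hw => ?_⟩
    rw [smul_mul_assoc, map_smul, h1 w hw, smul_zero]
  cl_mul := by
    rintro Z p q z₀ _ hz₀ ⟨z, hz, rfl, h1⟩
    refine ⟨ops.mul z₀ z, ops.mul_mem hz₀ hz, W.cl_mul _ _, fun w hw => ?_⟩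
    by_cases hpq : q + p ≤ Z.dim
    · rw [W.even_comm (W.cl_mem hz₀), mul_assoc, ← W.cl_mul]
      apply h1
      have := ops.mul_mem hz₀ hw
      rwa [show q + (Z.dim - (q + p)) = Z.dim - p by omega] at this
    · have h2 := W.mul_mem (W.cl_mem hz₀) (W.cl_mem hz)
      rw [show 2 * q + 2 * p = 2 * (q + p) by ring] at h2
      rw [eq_zero_of_gr_large (by omega) h2, zero_mul, map_zero]
  map := by
    rintro Z Z' f p _ ⟨z, hz, rfl, h1⟩
    refine ⟨ops.pull f z, ops.pull_mem f hz, W.cl_pull f z, fun w hw => ?_⟩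
    by_cases hp : p ≤ Z.dim
    · by_cases hp' : p ≤ Z'.dim
      · rw [W.even_comm (W.map_mem f (W.cl_mem hz)), ← W.tr_push, ← W.even_comm (W.cl_mem hz),
          ← W.cl_push]
        exact h1 _ (ops.push_mem f hw (by omega))
      · rw [eq_zero_of_gr_large (by omega) (W.cl_mem hz), map_zero, zero_mul, map_zero]
    · rw [eq_zero_of_gr_large (by omega) (W.map_mem f (W.cl_mem hz)), zero_mul, map_zero]
  push := by
    rintro Z Z' f p q _ ⟨z, hz, rfl, h1⟩ hpq
    refine ⟨ops.push f z, ops.push_mem f hz hpq, W.cl_push f z, fun w hw => ?_⟩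
    by_cases hq : q ≤ Z'.dim
    · rw [W.tr_push, ← W.cl_pull]
      apply h1
      have := ops.pull_mem f hw
      rwa [show Z'.dim - q = Z.dim - p by omega] at this
    · rw [← W.cl_push, eq_zero_of_gr_large (by omega) (W.cl_mem (ops.push_mem f hz hpq)),
        zero_mul, map_zero]

/-- The zero system. -/
noncomputable def zeroFam (W : WeilCohomology.{u, v} ops) : Fam W where
  T _ _ := {0}
  mem_gr := by
    rintro Z p _ rfl
    exact Submodule.zero_mem _
  zero _ _ := rfl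
  add := by
    rintro Z p _ _ rfl rfl
    exact add_zero _
  smul := by
    rintro Z p q _ rfl
    exact smul_zero _
  cl_mul := by
    rintro Z p q z₀ _ _ rfl
    exact mul_zero _
  map := by
    rintro Z Z' f p _ rfl
    exact map_zero _
  push := by
    rintro Z Z' f p q _ rfl _
    exact map_zero _

lemma homEqNumIn_iff (Z : 𝒱.Obj) (q : ℕ) :
    HomEqNumIn W Z q ↔ (numFam W).T Z q ⊆ (zeroFam W).T Z q := by
  constructor
  · rintro h _ ⟨z, hz, rfl, h1⟩
    by_cases hq : q ≤ Z.dim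
    · apply h z hz
      intro w hw
      have h2 := h1 w hw
      rw [tr_mul_cl hz hw (by omega)] at h2
      exact_mod_cast h2
    · exact eq_zero_of_gr_large (by omega) (W.cl_mem hz)
  · intro h z hz h1
    by_cases hq : q ≤ Z.dim
    · apply h ⟨z, hz, rfl, fun w hw => ?_⟩
      rw [tr_mul_cl hz hw (by omega), h1 w hw, Rat.cast_zero]
    · exact eq_zero_of_gr_large (by omega) (W.cl_mem hz)

/-- The conjecture D in one codimension bounds the rank. -/
lemma rank_le_of_homEqNumIn {q p : ℕ} (hpq : q + p = Z.dim) (h : HomEqNumIn W Z q) :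
    cycleRank W Z q ≤ cycleRank W Z p := by
  set φ : spanCycles W Z q →ₗ[W.K] Module.Dual W.K (spanCycles W Z p) :=
    { toFun := fun a => W.tr Z ∘ₗ LinearMap.mulRight W.K (a : W.H Z) ∘ₗ
        (spanCycles W Z p).subtype
      map_add' := by
        intro a b
        ext c
        simp [mul_add]
      map_smul' := by
        intro a b
        ext c
        simp } with hφ
  have hinj : Function.Injective φ := by
    rw [← LinearMap.ker_eq_bot, LinearMap.ker_eq_bot']
    rintro ⟨a, ha⟩ h0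
    apply Subtype.ext
    apply h.span hpq ha
    intro w hw
    exact congrArg (fun F => F ⟨_, mem_span_cl hw⟩) h0
  have h1 := LinearMap.finrank_le_finrank_of_injective hinj
  rwa [Subspace.dual_finrank_eq] at h1

variable {i : Y ⟶ X} {D : X.Cycles}

/-- The rank of the algebraic classes does not decrease from codimension `n - 1` to `n`. -/
lemma rank_le_XY (hdim : X.dim = Y.dim + 1) (hD : X.IsCyc 1 D)
    (hY : W.cl X (ops.push i Y.V.fundCycle) = W.cl X D) (hHL : HardLefschetz W X D)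
    (hWL : WeakLefschetz W i) :
    cycleRank W (X.prod Y) Y.dim ≤ cycleRank W (X.prod Y) X.dim := by
  have hs := hsec hdim hD hY hHL hWL
  have h1 : Module.finrank W.K (KOp W X Y (-1)) ≤ Module.finrank W.K (KOp W X Y 0) := by
    set T := (mixOp (LinearMap.mulLeft W.K (W.cl X D))
      (LinearMap.mulLeft W.K (W.cl Y (ops.pull i D))) (-1)).restrict
      (p := KOp W X Y (-1)) (q := KOp W X Y 0)
      (fun x hx => KOp.cast (mixOp_mem hD _ hx) (by ring)) with hT
    apply LinearMap.finrank_le_finrank_of_injective (f := T)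
    rw [injective_iff_map_eq_zero]
    rintro ⟨a, ha⟩ h0
    apply Subtype.ext
    apply kop_inj hs (ε := -1) (by norm_num) ha
    exact congrArg Subtype.val h0
  rw [finrank_KOp, finrank_KOp, add_zero, show (X.dim : ℤ) + -1 = Y.dim by omega] at h1
  exact h1

/-- The conjecture D in one codimension on the product implies the conjecture B. -/
theorem lefschetzB_of_homEqNumXY (hdim : X.dim = Y.dim + 1) (hD : X.IsCyc 1 D)
    (hY : W.cl X (ops.push i Y.V.fundCycle) = W.cl X D) (hHL : HardLefschetz W X D)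
    (hWL : WeakLefschetz W i) (h : HomEqNumIn W (X.prod Y) X.dim) : LefschetzB W X D :=
  lefschetzB_of_rankXY hdim hD hY hHL hWL (le_antisymm (rank_le_XY hdim hD hY hHL hWL)
    (rank_le_of_homEqNumIn (by rw [dim_prod]) h))

lemma Fam.op_iff {F G : Fam W} :
    (∀ (e : ℤ) (φ : W.H X →ₗ[W.K] W.H Y), F.Op X Y e φ → G.Op X Y e φ) ↔
      ∀ p, F.T (X.prod Y) p ⊆ G.T (X.prod Y) p := by
  constructor
  · intro h p c hc
    exact (h ((p : ℤ) - X.dim) _ (Fam.Op.gen (by ring) hc)).mem (by ring)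
  · rintro h e φ (⟨p, hp, c, hc, rfl⟩ | ⟨h0, rfl⟩)
    · exact Or.inl ⟨p, hp, c, h p hc, rfl⟩
    · exact Or.inr ⟨h0, rfl⟩

/-- **The conjecture D on the product with a hyperplane section.** -/
theorem homEqNum_XY (hdim : X.dim = Y.dim + 1) (hD : X.IsCyc 1 D)
    (hY : W.cl X (ops.push i Y.V.fundCycle) = W.cl X D) (hHL : HardLefschetz W X D)
    (hWL : WeakLefschetz W i) (h : HomEqNumIn W (X.prod Y) X.dim) (q : ℕ) :
    HomEqNumIn W (X.prod Y) q := by
  have hB := lefschetzB_of_homEqNumXY hdim hD hY hHL hWL h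
  rw [homEqNumIn_iff]
  refine Fam.op_iff.1 (fun e φ hφ => Fam.transfer hdim hD hY hHL hWL hB ?_ hφ) q
  rintro ψ hψ
  obtain ⟨c, hc, rfl⟩ := hψ.exists_class (p := X.dim) (by simp)
  exact Fam.Op.gen (p := X.dim) (by simp) ((homEqNumIn_iff _ _).1 h hc)

/-- The conjecture D on the factors. -/
theorem homEqNum_factors (hdim : X.dim = Y.dim + 1) (hD : X.IsCyc 1 D)
    (hY : W.cl X (ops.push i Y.V.fundCycle) = W.cl X D) (hHL : HardLefschetz W X D)
    (hWL : WeakLefschetz W i) (h : HomEqNumIn W (X.prod Y) X.dim) (q : ℕ) :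
    HomEqNumIn W X q ∧ HomEqNumIn W Y q := by
  rw [homEqNumIn_iff, homEqNumIn_iff]
  exact Fam.factors hdim hD hY hHL hWL (Fam.op_iff.2 fun p =>
    (homEqNumIn_iff _ _).1 (homEqNum_XY hdim hD hY hHL hWL h p)) q

/-- The numerically trivial cycles on the square. -/
theorem homEqNum_square (hdim : X.dim = Y.dim + 1) (hD : X.IsCyc 1 D)
    (hY : W.cl X (ops.push i Y.V.fundCycle) = W.cl X D) (hHL : HardLefschetz W X D)
    (hWL : WeakLefschetz W i) (h : HomEqNumIn W (X.prod Y) X.dim) {q : ℕ}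
    {z : (X.prod X).Cycles} (hz : (X.prod X).IsCyc q z)
    (h0 : ∀ w, (X.prod X).IsCyc ((X.prod X).dim - q) w →
      (X.prod X).V.degCycle (ops.mul z w) = 0) :
    MiddlePrimitive W X D (W.corr (W.cl _ z)) := by
  have hB := lefschetzB_of_homEqNumXY hdim hD hY hHL hWL h
  have h1 : (numFam W).Op X X ((q : ℤ) - X.dim) (W.corr (W.cl _ z)) := by
    by_cases hq : q ≤ (X.prod X).dim
    · refine Fam.Op.gen (by ring) ⟨z, hz, rfl, fun w hw => ?_⟩
      rw [tr_mul_cl hz hw (by omega), h0 w hw, Rat.cast_zero]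
    · rw [eq_zero_of_gr_large (by omega) (W.cl_mem hz), corr_zero]
      exact Fam.Op.zero _ _ _ _
  obtain ⟨ψ, hψ, hm⟩ := Fam.square hdim hD hY hHL hB (Fam.op_iff.2 fun p =>
    (homEqNumIn_iff _ _).1 (homEqNum_XY hdim hD hY hHL hWL h p)) h1
  have h2 : ψ = 0 := by
    rcases hψ with ⟨p, hp, c, hc, rfl⟩ | ⟨_, rfl⟩
    · have : c = 0 := hc
      rw [this, corr_zero]
    · rfl
  rwa [h2, sub_zero] at hm

/-- The numerically trivial cycles on the square of the hyperplane section. -/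
theorem homEqNum_section (hdim : X.dim = Y.dim + 1) (hD : X.IsCyc 1 D)
    (hY : W.cl X (ops.push i Y.V.fundCycle) = W.cl X D) (hHL : HardLefschetz W X D)
    (hWL : WeakLefschetz W i) (h : HomEqNumIn W (X.prod Y) X.dim) {q : ℕ}
    {z : (Y.prod Y).Cycles} (hz : (Y.prod Y).IsCyc q z)
    (h0 : ∀ w, (Y.prod Y).IsCyc ((Y.prod Y).dim - q) w →
      (Y.prod Y).V.degCycle (ops.mul z w) = 0) :
    (∀ a, W.corr (W.cl _ z) (W.map i a) = 0) ∧ ∀ b, W.push i (W.corr (W.cl _ z) b) = 0 := by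
  have h1 : (numFam W).Op Y Y ((q : ℤ) - Y.dim) (W.corr (W.cl _ z)) := by
    by_cases hq : q ≤ (Y.prod Y).dim
    · refine Fam.Op.gen (by ring) ⟨z, hz, rfl, fun w hw => ?_⟩
      rw [tr_mul_cl hz hw (by omega), h0 w hw, Rat.cast_zero]
    · rw [eq_zero_of_gr_large (by omega) (W.cl_mem hz), corr_zero]
      exact Fam.Op.zero _ _ _ _
  have hXY : ∀ (e : ℤ) (φ : W.H X →ₗ[W.K] W.H Y), (numFam W).Op X Y e φ →
      (zeroFam W).Op X Y e φ := Fam.op_iff.2 fun p =>
    (homEqNumIn_iff _ _).1 (homEqNum_XY hdim hD hY hHL hWL h p)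
  have hz0 : ∀ {Z Z' : 𝒱.Obj} {e : ℤ} {φ : W.H Z →ₗ[W.K] W.H Z'}, (zeroFam W).Op Z Z' e φ →
      φ = 0 := by
    rintro Z Z' e φ (⟨p, hp, c, hc, rfl⟩ | ⟨_, rfl⟩)
    · have : c = 0 := hc
      rw [this, corr_zero]
    · rfl
  have h2 := hz0 (hXY _ _ (h1.comp_right (qop_pull i)))
  have h3 := hz0 (Fam.op_swap hXY _ _ (h1.comp_left (qop_push i)))
  exact ⟨fun a => congrArg (fun F => F a) h2, fun b => congrArg (fun F => F b) h3⟩

theorem numTrivialOnSquares (hdim : X.dim = Y.dim + 1) (hD : X.IsCyc 1 D)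
    (hY : W.cl X (ops.push i Y.V.fundCycle) = W.cl X D) (hHL : HardLefschetz W X D)
    (hWL : WeakLefschetz W i) (h : HomEqNumIn W (X.prod Y) X.dim) (q : ℕ) :
    NumTrivialOnSquares W i D q := by
  constructor
  · rintro z ⟨hz, h0⟩
    obtain ⟨h1, h2, h3⟩ := homEqNum_square hdim hD hY hHL hWL h hz h0
    exact ⟨⟨h1, h2⟩, h3⟩
  · rintro z ⟨hz, h0⟩
    exact homEqNum_section hdim hD hY hHL hWL h hz h0

/-- **Homological and numerical equivalence on the product of a variety and a hyperplane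
section.** -/
theorem d_hyperplane (hdim : X.dim = Y.dim + 1) (hD : X.IsCyc 1 D)
    (hY : W.cl X (ops.push i Y.V.fundCycle) = W.cl X D) (hHL : HardLefschetz W X D)
    (hWL : WeakLefschetz W i) :
    List.TFAE [
      HomEqNumIn W (X.prod Y) X.dim,
      ∀ q, HomEqNumIn W (X.prod Y) q,
      LefschetzB W X D ∧ HomEqNumIn W (X.prod Y) Y.dim] := by
  tfae_have 1 → 2 := fun h => homEqNum_XY hdim hD hY hHL hWL h
  tfae_have 2 → 3 := fun h =>
    ⟨lefschetzB_of_homEqNumXY hdim hD hY hHL hWL (h X.dim), h Y.dim⟩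
  tfae_have 3 → 1 := by
    rintro ⟨hB, h⟩
    rw [homEqNumIn_iff] at h ⊢
    refine Fam.op_iff.1 (fun e φ hφ => Fam.transfer' hdim hD hY hHL hWL hB ?_ hφ) X.dim
    rintro ψ hψ
    obtain ⟨c, hc, rfl⟩ := hψ.exists_class (p := Y.dim) (by omega)
    exact Fam.Op.gen (p := Y.dim) (by omega) (h hc)
  tfae_finish

end Pool.Agent.W534
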