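import Pool.Agent.W534.HDefs

/-!
# Systems of classes stable under algebraic correspondences: definitions
-/

open CategoryTheory AlgebraicGeometry

universe u v

namespace Pool.Agent.W534

open Pool.Agent.H914 VarClass Obj WeilCohomology

variable {k : Type u} [Field k] {𝒱 : VarClass k} {ops : CycleOps 𝒱}

/-- A system of classes `T X p` of degree `2 p` on all varieties, stable under sums, rational
multiples, products with classes of cycles, pull-backs and push-forwards. -/
structure Fam (W : WeilCohomology.{u, v} ops) where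
  T : ∀ X : 𝒱.Obj, ℕ → Set (W.H X)
  mem_gr : ∀ {X p} {c : W.H X}, c ∈ T X p → c ∈ W.gr X (2 * p)
  zero : ∀ X p, (0 : W.H X) ∈ T X p
  add : ∀ {X p} {c d : W.H X}, c ∈ T X p → d ∈ T X p → c + d ∈ T X p
  smul : ∀ {X p} (q : ℚ) {c : W.H X}, c ∈ T X p → (q : W.K) • c ∈ T X p
  cl_mul : ∀ {X : 𝒱.Obj} {p q : ℕ} {z : X.Cycles} {c : W.H X}, X.IsCyc q z → c ∈ T X p →
    W.cl X z * c ∈ T X (q + p)
  map : ∀ {X Y : 𝒱.Obj} (f : X ⟶ Y) {p : ℕ} {c : W.H Y}, c ∈ T Y p → W.map f c ∈ T X p
  push : ∀ {X Y : 𝒱.Obj} (f : X ⟶ Y) {p q : ℕ} {c : W.H X}, c ∈ T X p →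
    p + Y.dim = q + X.dim → W.push f c ∈ T Y q

/-- The operators of degree `d` given by classes in the system `F`. -/
def Fam.Op {W : WeilCohomology.{u, v} ops} (F : Fam W) (X Y : 𝒱.Obj) (d : ℤ)
    (φ : W.H X →ₗ[W.K] W.H Y) : Prop :=
  (∃ p : ℕ, (p : ℤ) = X.dim + d ∧ ∃ c ∈ F.T (X.prod Y) p, W.corr c = φ) ∨
    ((X.dim : ℤ) + d < 0 ∧ φ = 0)

/-- The operator `φ` on the cohomology of `X` (of dimension `n`) vanishes outside degree `n`,
vanishes on the multiples of the class of `D`, and its values are primitive classes of degree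
`n`. -/
def MiddlePrimitive (W : WeilCohomology.{u, v} ops) (X : 𝒱.Obj) (D : X.Cycles)
    (φ : W.H X →ₗ[W.K] W.H X) : Prop :=
  (∀ j, j ≠ X.dim → ∀ a ∈ W.gr X j, φ a = 0) ∧ (∀ a, φ (W.cl X D * a) = 0) ∧
    ∀ a, φ a ∈ W.gr X X.dim ∧ W.cl X D * φ a = 0

/-- `z` is a cycle of codimension `q` on `Z`, with rational coefficients, and all its intersection
numbers with cycles of codimension `dim Z - q` vanish. -/
def NumTrivial (ops : CycleOps 𝒱) (Z : 𝒱.Obj) (q : ℕ) (z : Z.Cycles) : Prop :=
  Z.IsCyc q z ∧ ∀ w, Z.IsCyc (Z.dim - q) w → Z.V.degCycle (ops.mul z w) = 0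

/-- The action of the correspondence `z`, a cycle on `X × Y`, on the cohomology of `X`. -/
noncomputable def act (W : WeilCohomology.{u, v} ops) {X Y : 𝒱.Obj} (z : (X.prod Y).Cycles)
    (a : W.H X) : W.H Y :=
  W.corr (W.cl (X.prod Y) z) a

/-- The correspondence `z` acts on `H^j(X)` as zero for `j ≠ dim X`, and it acts as zero on the
multiples of the class of `D`. -/
def KillsNonprimitive (W : WeilCohomology.{u, v} ops) (X : 𝒱.Obj) (D : X.Cycles)
    (z : (X.prod X).Cycles) : Prop :=
  (∀ j, j ≠ X.dim → ∀ a ∈ W.gr X j, act W z a = 0) ∧ ∀ a, act W z (W.cl X D * a) = 0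

/-- The values of the action of the correspondence `z` on `H(X)` have degree `dim X`, and their
product with the class of `D` is zero. -/
def HasPrimitiveValues (W : WeilCohomology.{u, v} ops) (X : 𝒱.Obj) (D : X.Cycles)
    (z : (X.prod X).Cycles) : Prop :=
  ∀ a, act W z a ∈ W.gr X X.dim ∧ W.cl X D * act W z a = 0

/-- The action of the correspondence `z` on `H(Y)` is zero on the image of the pull-back `i^*`, and
its values are in the kernel of the push-forward `i_*`. -/
def OnlyVanishing (W : WeilCohomology.{u, v} ops) {X Y : 𝒱.Obj} (i : Y ⟶ X)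
    (z : (Y.prod Y).Cycles) : Prop :=
  (∀ a, act W z (W.map i a) = 0) ∧ ∀ b, W.push i (act W z b) = 0

/-- The numerically trivial cycles of codimension `q` on `X × X` act on the cohomology of `X` as
zero on the classes of degree different from `dim X` and on the multiples of the class of `D`, with
values primitive classes of degree `dim X`, and those on `Y × Y` act on the cohomology of `Y` as
zero on the image of `i^*`, with values in the kernel of `i_*`. -/
def NumTrivialOnSquares (W : WeilCohomology.{u, v} ops) {X Y : 𝒱.Obj} (i : Y ⟶ X)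
    (D : X.Cycles) (q : ℕ) : Prop :=
  (∀ z, NumTrivial ops (X.prod X) q z → KillsNonprimitive W X D z ∧ HasPrimitiveValues W X D z) ∧
    ∀ z, NumTrivial ops (Y.prod Y) q z → OnlyVanishing W i z

end Pool.Agent.W534
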