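import Pool.Agent.W534.Hyp

/-!
# The conjecture A for the product of a variety and a hyperplane section: proofs
-/

open CategoryTheory AlgebraicGeometry Finset

universe u v

namespace Pool.Agent.W534

open Pool.Agent.H914 Pool.Agent.H447 VarClass Obj WeilCohomology

variable {k : Type u} [Field k] {𝒱 : VarClass k} {ops : CycleOps 𝒱}
  {W : WeilCohomology.{u, v} ops} {X Y Z : 𝒱.Obj} {i : Y ⟶ X} {D : X.Cycles}

/-- The conjecture B from an operator `T` with `T L - M T = i^*`. -/
theorem lefschetzB_of_T (hdim : X.dim = Y.dim + 1) (hD : X.IsCyc 1 D)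
    (hY : W.cl X (ops.push i Y.V.fundCycle) = W.cl X D) (hHL : HardLefschetz W X D)
    {T : W.H X →ₗ[W.K] W.H Y} (hT : T ∈ KOp W X Y (-1))
    (hTι : ∀ a, T (LinearMap.mulLeft W.K (W.cl X D) a) -
      LinearMap.mulLeft W.K (W.cl Y (ops.pull i D)) (T a) = W.map i a) :
    LefschetzB W X D := by
  set L := LinearMap.mulLeft W.K (W.cl X D) with hL
  set M := LinearMap.mulLeft W.K (W.cl Y (ops.pull i D)) with hM
  obtain ⟨S, hS, hTS⟩ := KOp.exists_adjoint hT
  have hS0 : S ∈ KOp W Y X 0 := KOp.cast hS (by rw [hdim]; push_cast; ring)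
  have hγι : ∀ a, W.push i (W.map i a) = L a := by
    intro a
    have h1 := W.push_mul i 1 a
    rw [one_mul, ← W.cl_fund Y, ← W.cl_push, hY] at h1
    exact h1
  have hιL : ∀ a, W.map i (L a) = M (W.map i a) := by
    intro a
    simp only [hL, hM, LinearMap.mulLeft_apply]
    rw [map_mul (W.map i), ← W.cl_pull]
  have hLγ : ∀ b, L (W.push i b) = W.push i (M b) := by
    intro b
    rw [hL, hM, LinearMap.mulLeft_apply, LinearMap.mulLeft_apply, W.mul_push i (W.cl_mem hD),
      ← W.cl_pull]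
  -- the operators `L` and `M` are self-adjoint
  have hLs : ∀ a b, W.tr X (L a * b) = W.tr X (a * L b) := by
    intro a b
    rw [hL, LinearMap.mulLeft_apply, LinearMap.mulLeft_apply, W.even_comm (W.cl_mem hD) a,
      mul_assoc]
  have hMs : ∀ a b, W.tr Y (M a * b) = W.tr Y (a * M b) := by
    intro a b
    rw [hM, LinearMap.mulLeft_apply, LinearMap.mulLeft_apply,
      W.even_comm (W.cl_mem (pull_mem_one hD)) a, mul_assoc]
  have hSγ : ∀ b, L (S b) - S (M b) = W.push i b := by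
    intro b
    rw [← sub_eq_zero]
    apply nondeg_right
    intro a
    rw [mul_sub, mul_sub, map_sub, map_sub, tr_mul_push, ← hTι, ← hLs, ← hTS, ← hTS, sub_mul,
      map_sub, hMs, sub_self]
  have hf2 := double_comm (M := M) (ι := (W.map i).toLinearMap) (γ := W.push i) (T := T) (S := S)
    hγι hιL hLγ hTι hSγ
  have hLh : IsHom (W.gr X) 2 L := isHom_mulLeft W hD
  obtain ⟨f, t, hf, hfv⟩ := exists_sl2 (W.isInternal X) hLh W_hbd hHL
  have hST : S ∘ₗ T ∈ KOp W X X (-1) := KOp.cast (KOp.comp hS0 hT) (by ring)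
  have hSTh : IsHom (W.gr X) (-2) (S ∘ₗ T) := by
    have := (rop_opAlg (W := W) (X := X)).kspan.hom (mem_KS_iff.2 hST)
    simpa using this
  have hfe : f = S ∘ₗ T := by
    have h1 := of_ad_two (x := ((-1 / 2 : ℚ) : W.K) • (S ∘ₗ T)) (W.isInternal X) hLh W_hbd hHL t hf
      (hSTh.smul _) (by
        have h2 : (((-1 / 2 : ℚ) : W.K) • (S ∘ₗ T) * L - L * ((-1 / 2 : ℚ) : W.K) • (S ∘ₗ T)) * L -
            L * (((-1 / 2 : ℚ) : W.K) • (S ∘ₗ T) * L - L * ((-1 / 2 : ℚ) : W.K) • (S ∘ₗ T)) =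
            ((-1 / 2 : ℚ) : W.K) • (((S ∘ₗ T) * L - L * (S ∘ₗ T)) * L -
              L * ((S ∘ₗ T) * L - L * (S ∘ₗ T))) := by
          simp only [smul_sub, mul_sub, sub_mul, smul_mul_assoc, mul_smul_comm]
        rw [h2, hf2, smul_neg, smul_smul, ← neg_smul]
        have h3 : -(((-1 / 2 : ℚ) : W.K) * 2) = 1 := by push_cast; norm_num
        rw [h3, one_smul])
    rw [h1, smul_smul, ← Rat.cast_mul]
    norm_num
  have hOA := (rop_opAlg (W := W) (X := X)).kspan
  apply lefschetzB_of_inj hD hHL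
  intro c _
  refine ⟨f ^ c, ?_, ?_⟩
  · rw [← mem_KS_iff]
    refine hOA.cast (hOA.pow (d := -1) ?_ c) (by ring)
    rw [hfe]
    exact mem_KS_iff.2 hST
  · intro a ha h0
    apply f_pow_inj t _ h0
    rw [wt, scal_apply _ _ ha]
    congr 1
    rw [node]
    push_cast; ring

lemma kop_inj (hs : HSec (W.gr X) (W.gr Y) Y.dim (LinearMap.mulLeft W.K (W.cl X D))
      (LinearMap.mulLeft W.K (W.cl Y (ops.pull i D))) (W.map i).toLinearMap (W.push i))
    {ε : W.K} (hε : ε ≠ 0) {φ : W.H X →ₗ[W.K] W.H Y} (hφ : φ ∈ KOp W X Y (-1))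
    (h0 : mixOp (LinearMap.mulLeft W.K (W.cl X D))
      (LinearMap.mulLeft W.K (W.cl Y (ops.pull i D))) ε φ = 0) : φ = 0 := by
  apply hs.eq_zero_of_comm (ε := -ε) (neg_ne_zero.2 hε) (KOp.isHom hφ)
  intro a
  have h1 := congrArg (fun F => F a) h0
  rw [mixOp_apply] at h1
  simp only [LinearMap.add_apply, LinearMap.comp_apply, LinearMap.smul_apply,
    LinearMap.zero_apply] at h1
  rw [neg_smul]
  exact eq_neg_of_add_eq_zero_left h1

/-- The equality of the two ranks implies the conjecture B. -/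
theorem lefschetzB_of_rankXY (hdim : X.dim = Y.dim + 1) (hD : X.IsCyc 1 D)
    (hY : W.cl X (ops.push i Y.V.fundCycle) = W.cl X D) (hHL : HardLefschetz W X D)
    (hWL : WeakLefschetz W i)
    (hr : cycleRank W (X.prod Y) Y.dim = cycleRank W (X.prod Y) X.dim) :
    LefschetzB W X D := by
  have hs := hsec hdim hD hY hHL hWL
  obtain ⟨T, hT, hT2⟩ := surj_of_finrank_eq (A := KOp W X Y (-1)) (B := KOp W X Y 0)
    (T := mixOp (LinearMap.mulLeft W.K (W.cl X D))
      (LinearMap.mulLeft W.K (W.cl Y (ops.pull i D))) (-1))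
    (fun x hx => KOp.cast (mixOp_mem hD _ hx) (by ring))
    (fun x hx h0 => kop_inj hs (by norm_num) hx h0)
    (by
      rw [finrank_KOp, finrank_KOp, add_zero, show (X.dim : ℤ) + -1 = Y.dim by omega]
      exact hr) _ (qop_pull i).kop
  apply lefschetzB_of_T hdim hD hY hHL hT
  intro a
  have h1 := congrArg (fun F => F a) hT2
  rw [mixOp_apply] at h1
  simp only [LinearMap.add_apply, LinearMap.comp_apply, LinearMap.smul_apply, neg_smul,
    one_smul, ← sub_eq_add_neg] at h1
  exact h1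

lemma mixOp_one_pow (hD : X.IsCyc 1 D) (r : ℕ) (c : W.H (X.prod Y)) :
    W.corr ((LinearMap.mulLeft W.K (W.cl _ (mixSum ops i D)) ^ r) c) =
      (mixOp (LinearMap.mulLeft W.K (W.cl X D))
        (LinearMap.mulLeft W.K (W.cl Y (ops.pull i D))) 1 ^ r) (W.corr c) := by
  induction r with
  | zero => rfl
  | succ r ih =>
    rw [pow_succ', Module.End.mul_apply, LinearMap.mulLeft_apply, corr_mixSum hD, ih, pow_succ',
      Module.End.mul_apply, mixOp_apply, one_smul]

/-- The conjecture A in the middle codimension implies the equality of the two ranks. -/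
theorem rank_of_middle (hdim : X.dim = Y.dim + 1) (hD : X.IsCyc 1 D)
    (hY : W.cl X (ops.push i Y.V.fundCycle) = W.cl X D) (hHL : HardLefschetz W X D)
    (hWL : WeakLefschetz W i) (hA : LefschetzAIn W (X.prod Y) (mixSum ops i D) Y.dim) :
    cycleRank W (X.prod Y) Y.dim = cycleRank W (X.prod Y) X.dim := by
  have hs := hsec hdim hD hY hHL hWL
  have h1 := finrank_eq_of_surj (A := KOp W X Y (-1)) (B := KOp W X Y 0)
    (T := mixOp (LinearMap.mulLeft W.K (W.cl X D))
      (LinearMap.mulLeft W.K (W.cl Y (ops.pull i D))) 1)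
    (fun x hx => KOp.cast (mixOp_mem hD _ hx) (by ring))
    (fun x hx h0 => kop_inj hs one_ne_zero hx h0) ?_
  · rw [finrank_KOp, finrank_KOp, add_zero, show (X.dim : ℤ) + -1 = Y.dim by omega] at h1
    exact h1
  · intro y hy
    induction hy using Submodule.span_induction with
    | mem x hx =>
      obtain ⟨p, hp, z, hz, rfl⟩ := hx
      obtain rfl : p = X.dim := by omega
      obtain ⟨z', hz', h2⟩ := hA z (by
        rwa [dim_prod, show X.dim + Y.dim - Y.dim = X.dim by omega])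
      refine ⟨_, KOp.gen (p := Y.dim) (by omega) hz', ?_⟩
      rw [← h2, cl_divPow, mixOp_one_pow hD, dim_prod,
        show X.dim + Y.dim - 2 * Y.dim = 1 by omega, pow_one]
    | zero => exact ⟨0, Submodule.zero_mem _, map_zero _⟩
    | add x y _ _ hx hy =>
      obtain ⟨a, ha, rfl⟩ := hx
      obtain ⟨b, hb, rfl⟩ := hy
      exact ⟨a + b, Submodule.add_mem _ ha hb, map_add _ _ _⟩
    | smul c x _ hx =>
      obtain ⟨a, ha, rfl⟩ := hx
      exact ⟨c • a, Submodule.smul_mem _ _ ha, map_smul _ _ _⟩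

/-- The divisibility of the graph implies the conjecture B. -/
theorem lefschetzB_of_graph (hdim : X.dim = Y.dim + 1) (hD : X.IsCyc 1 D)
    (hY : W.cl X (ops.push i Y.V.fundCycle) = W.cl X D) (hHL : HardLefschetz W X D)
    (hG : GraphDivisible W i D) : LefschetzB W X D := by
  obtain ⟨z, hz, h1⟩ := hG
  apply lefschetzB_of_T hdim hD hY hHL (KOp.gen (p := Y.dim) (by omega) hz)
  intro a
  have h2 : W.corr (W.cl _ (ops.mul (mixDiff ops i D) z)) =
      W.corr (W.cl _ (ops.push (Obj.lift i (𝟙 Y)) Y.V.fundCycle)) := by rw [h1]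
  rw [W.cl_mul, corr_mixDiff hD, corr_graph] at h2
  exact congrArg (fun F => F a) h2

/-- The conjecture B implies the divisibility of the graph. -/
theorem graph_of_lefschetzB (hdim : X.dim = Y.dim + 1) (hD : X.IsCyc 1 D)
    (hY : W.cl X (ops.push i Y.V.fundCycle) = W.cl X D) (hHL : HardLefschetz W X D)
    (hWL : WeakLefschetz W i) (hB : LefschetzB W X D) : GraphDivisible W i D := by
  have hs := hsec hdim hD hY hHL hWL
  have hOA := rop_opAlg (W := W) (X := X)
  obtain ⟨Φ, hΦ, hLam⟩ := lefschetzB_iff_rop.1 hB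
  have hLR := rop_mulLeft (W := W) hD
  have hT0 : ROp W X (-1) (stepOp (Y.dim + 1) (LinearMap.mulLeft W.K (W.cl X D)) Φ) := by
    refine hOA.cast (hOA.mul hΦ (hOA.sum (d := 0) (fun r _ => ?_))) (by ring)
    exact hOA.cast (hOA.mul (hOA.pow hLR (r + 1)) (hOA.pow hΦ (r + 1))) (by push_cast; ring)
  obtain ⟨z, hz, hzT⟩ := ((qop_pull i).comp (rop_iff.1 hT0)).exists_cyc (p := Y.dim) (by
    rw [hdim]; push_cast; ring)
  refine ⟨z, hz, ?_⟩
  rw [← sub_eq_zero]
  apply corr_inj
  rw [corr_sub'', W.cl_mul, corr_mixDiff hD, hzT, corr_graph, sub_eq_zero]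
  apply LinearMap.ext
  intro a
  rw [hdim] at hLam
  exact hs.ι_step hLam a

end Pool.Agent.W534
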