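import Pool.Agent.W534.Low

/-!
# Linear algebra of a hyperplane section
-/

open Finset

namespace Pool.Agent.W534

open Pool.Agent.H914 Pool.Agent.H447

variable {K : Type*} [Field K] {V U : Type*} [AddCommGroup V] [Module K V] [AddCommGroup U]
  [Module K U] {gr : ℕ → Submodule K V} {gr' : ℕ → Submodule K U} {m : ℕ}
  {L : Module.End K V} {M : Module.End K U} {ι : V →ₗ[K] U} {γ : U →ₗ[K] V}

/-- The linear algebra of a hyperplane section. -/
structure HSec (gr : ℕ → Submodule K V) (gr' : ℕ → Submodule K U) (m : ℕ)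
    (L : Module.End K V) (M : Module.End K U) (ι : V →ₗ[K] U) (γ : U →ₗ[K] V) : Prop where
  int : DirectSum.IsInternal gr
  int' : DirectSum.IsInternal gr'
  bd : ∀ i, 2 * (m + 1) + 1 ≤ i → gr i = ⊥
  bd' : ∀ i, 2 * m + 1 ≤ i → gr' i = ⊥
  hL : IsHom gr 2 L
  hM : IsHom gr' 2 M
  hι : ∀ i, ∀ a ∈ gr i, ι a ∈ gr' i
  hγ : ∀ i, ∀ b ∈ gr' i, γ b ∈ gr (i + 2)
  γι : ∀ a, γ (ι a) = L a
  ιL : ∀ a, ι (L a) = M (ι a)
  Lγ : ∀ b, L (γ b) = γ (M b)
  hl : HardLef gr (m + 1) L
  surj : ∀ j < m, ∀ b ∈ gr' j, ∃ a ∈ gr j, ι a = b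
  inj : ∀ j, m < j → ∀ b ∈ gr' j, γ b = 0 → b = 0

namespace HSec

variable (h : HSec gr gr' m L M ι γ)

include h

lemma ιL_pow (r : ℕ) (a : V) : ι ((L ^ r) a) = (M ^ r) (ι a) := by
  induction r with
  | zero => rfl
  | succ r ih => rw [pow_succ', Module.End.mul_apply, h.ιL, ih, pow_succ', Module.End.mul_apply]

lemma Lγ_pow (r : ℕ) (b : U) : (L ^ r) (γ b) = γ ((M ^ r) b) := by
  induction r with
  | zero => rfl
  | succ r ih => rw [pow_succ', Module.End.mul_apply, ih, h.Lγ, pow_succ', Module.End.mul_apply]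

/-- Injectivity of the restriction. -/
lemma ι_inj {j : ℕ} (hj : j ≤ m) {a : V} (ha : a ∈ gr j) (h0 : ι a = 0) : a = 0 := by
  apply (h.hl j (by omega)).1 a ha
  rw [show m + 1 - j = (m - j) + 1 by omega, pow_succ, Module.End.mul_apply, ← h.γι, h0, map_zero,
    map_zero]

/-- Hard Lefschetz for the hyperplane section. -/
lemma hl' : HardLef gr' m M := by
  intro j hj
  rcases hj.lt_or_eq with hj | rfl
  · constructor
    · intro b hb h0
      obtain ⟨a, ha, rfl⟩ := h.surj j hj b hb
      rw [← h.ιL_pow] at h0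
      have h1 : (L ^ (m + 1 - j)) a = 0 := by
        rw [show m + 1 - j = (m - j) + 1 by omega, pow_succ', Module.End.mul_apply, ← h.γι, h0,
          map_zero]
      rw [(h.hl j (by omega)).1 a ha h1, map_zero]
    · intro b hb
      obtain ⟨a, ha, hab⟩ := (h.hl j (by omega)).2 (γ b) (by
        have := h.hγ _ b hb
        rwa [show 2 * m - j + 2 = 2 * (m + 1) - j by omega] at this)
      refine ⟨ι a, h.hι j a ha, ?_⟩
      rw [← sub_eq_zero]
      apply h.inj (2 * m - j) (by omega)
      · apply Submodule.sub_mem _ _ hb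
        have := pow_L_mem h.hM (h.hι j a ha) (m - j)
        rwa [show j + 2 * (m - j) = 2 * m - j by omega] at this
      · rw [map_sub, ← h.ιL_pow, h.γι, ← Module.End.mul_apply, ← pow_succ',
          show m - j + 1 = m + 1 - j by omega, hab, sub_self]
  · constructor
    · intro b _ h0
      simpa using h0
    · intro b hb
      refine ⟨b, ?_, ?_⟩
      · rwa [show 2 * j - j = j by omega] at hb
      · simp

/-- Operators of degree `-2` which commute or anticommute with the Lefschetz operators vanish. -/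
lemma eq_zero_of_comm {φ : V →ₗ[K] U} {ε : K} (hε : ε ≠ 0)
    (hφ : ∀ i : ℤ, ∀ a ∈ grZ gr i, φ a ∈ grZ gr' (i + 2 * (-1)))
    (hc : ∀ a, φ (L a) = ε • M (φ a)) : φ = 0 := by
  have hcp : ∀ (r : ℕ) (a : V), φ ((L ^ r) a) = ε ^ r • (M ^ r) (φ a) := by
    intro r
    induction r with
    | zero => intro a; simp
    | succ r ih =>
      intro a
      rw [pow_succ', Module.End.mul_apply, hc, ih, map_smul, smul_smul, ← pow_succ', pow_succ' M,
        Module.End.mul_apply]
  apply LinearMap.ext
  intro x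
  refine lef_induction' h.int h.hL h.bd h.hl (p := fun x => φ x = (0 : V →ₗ[K] U) x) ?_ ?_ x
  · intro a b ha hb; rw [map_add, map_add, ha, hb]
  · intro i hi a ha hp j
    rw [LinearMap.zero_apply]
    have h1 : φ a = 0 := by
      have h2 := hφ i a (by rw [grZ_natCast]; exact ha)
      by_cases h3 : 2 ≤ i
      · rw [show (i : ℤ) + 2 * (-1) = ((i - 2 : ℕ) : ℤ) by omega, grZ_natCast] at h2
        apply (h.hl' (i - 2) (by omega)).1 _ h2
        have h4 := hcp (m + 1 - i + 1) a
        rw [hp, map_zero] at h4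
        rcases smul_eq_zero.1 h4.symm with h5 | h5
        · exact absurd h5 (pow_ne_zero _ hε)
        · rwa [show m - (i - 2) = m + 1 - i + 1 by omega]
      · rw [grZ_of_neg (by omega)] at h2
        exact (Submodule.mem_bot _).1 h2
    rw [hcp, h1, map_zero, smul_zero]

end HSec

/-- The operator `L ^ j a ↦ j L ^ (j - 1) a` on the strings. -/
noncomputable def stepOp (n : ℕ) (L Lam : Module.End K V) : Module.End K V :=
  Lam * ∑ r ∈ range n, L ^ (r + 1) * Lam ^ (r + 1)

lemma stepOp_apply {n : ℕ} {Lam : Module.End K V} (hLam : IsLam gr n L Lam) {i : ℕ} (hi : i ≤ n)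
    {a : V} (ha : a ∈ gr i) (hp : (L ^ (n - i + 1)) a = 0) {j : ℕ} (hj : j ≤ n - i) :
    stepOp n L Lam ((L ^ j) a) = (j : K) • (L ^ (j - 1)) a := by
  have e1 : ∀ m, (L ^ (m + 1)) ((Lam ^ (m + 1)) ((L ^ j) a)) =
      (if m < j then (1 : K) else 0) • (L ^ j) a := by
    intro m
    by_cases hm : m < j
    · rw [lam_pow hLam hi ha hp hj (m + 1) hm, if_pos hm, one_smul, ← Module.End.mul_apply,
        ← pow_add, show m + 1 + (j - (m + 1)) = j by omega]
    · rw [lam_pow_gt hLam hi ha hp hj (by omega), map_zero, if_neg hm, zero_smul]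
  have c1 : ((range n).filter (fun m => m < j)).card = j := by
    rw [show (range n).filter (fun m => m < j) = range j by
      ext m; simp only [mem_filter, mem_range]; omega]
    exact card_range j
  rw [stepOp, Module.End.mul_apply, LinearMap.sum_apply]
  simp only [Module.End.mul_apply, e1]
  rw [← Finset.sum_smul, Finset.sum_boole, c1, map_smul]
  rcases Nat.eq_zero_or_pos j with rfl | h0
  · simp
  · have := (hLam i hi a ha hp).2 (j - 1) (by omega)
    rw [show j - 1 + 1 = j by omega] at this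
    rw [this]

/-- The restriction of the commutator of `L` and the step operator. -/
lemma HSec.ι_step (h : HSec gr gr' m L M ι γ) {Lam : Module.End K V}
    (hLam : IsLam gr (m + 1) L Lam) (x : V) :
    ι (stepOp (m + 1) L Lam (L x)) - M (ι (stepOp (m + 1) L Lam x)) = ι x := by
  refine lef_induction' h.int h.hL h.bd h.hl (p := fun x =>
    ι (stepOp (m + 1) L Lam (L x)) - M (ι (stepOp (m + 1) L Lam x)) = ι x) ?_ ?_ x
  · intro a b ha hb
    rw [map_add ι a b, ← ha, ← hb]
    simp only [map_add]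
    abel
  · intro i hi a ha hp j
    rw [← h.ιL, ← map_sub]
    by_cases hj : j ≤ m + 1 - i
    · have h1 : L ((stepOp (m + 1) L Lam) ((L ^ j) a)) = (j : K) • (L ^ j) a := by
        rw [stepOp_apply hLam hi ha hp hj, map_smul]
        rcases Nat.eq_zero_or_pos j with rfl | h0
        · simp
        · rw [← Module.End.mul_apply L, ← pow_succ', show j - 1 + 1 = j by omega]
      rw [h1]
      by_cases hj' : j + 1 ≤ m + 1 - i
      · rw [← Module.End.mul_apply L, ← pow_succ', stepOp_apply hLam hi ha hp hj',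
          Nat.add_sub_cancel, ← sub_smul]
        congr 1
        push_cast
        rw [add_sub_cancel_left, one_smul]
      · have h2 : L ((L ^ j) a) = 0 := by
          rw [← Module.End.mul_apply L, ← pow_succ']
          exact L_pow_gt hp (by omega)
        have h3 : ι ((L ^ j) a) = 0 := by
          apply h.inj (i + 2 * j) (by omega) _ (h.hι _ _ (pow_L_mem h.hL ha j))
          rw [h.γι, h2]
        rw [h2, map_zero, zero_sub, map_neg, map_smul, h3, smul_zero, neg_zero]
    · rw [L_pow_gt hp (by omega)]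
      simp

/-- The double commutator. -/
lemma double_comm {T : V →ₗ[K] U} {S : U →ₗ[K] V} (hγι : ∀ a, γ (ι a) = L a)
    (hιL : ∀ a, ι (L a) = M (ι a)) (hLγ : ∀ b, L (γ b) = γ (M b))
    (hT : ∀ a, T (L a) - M (T a) = ι a) (hS : ∀ b, L (S b) - S (M b) = γ b) :
    ((S ∘ₗ T) * L - L * (S ∘ₗ T)) * L - L * ((S ∘ₗ T) * L - L * (S ∘ₗ T)) =
      -((2 : K) • L) := by
  have hT' : ∀ a, T (L a) = M (T a) + ι a := fun a => by rw [← hT a]; abel
  have hS' : ∀ b, L (S b) = S (M b) + γ b := fun b => by rw [← hS b]; abel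
  apply LinearMap.ext
  intro a
  simp only [LinearMap.sub_apply, Module.End.mul_apply, LinearMap.comp_apply, LinearMap.neg_apply,
    LinearMap.smul_apply, map_sub, hT', hS', map_add, hιL, hLγ, hγι]
  rw [two_smul]
  abel

end Pool.Agent.W534
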