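import Pool.Agent.W534.Sl2U
import Pool.Agent.W534.Rank

/-!
# The lowering operator by a universal expression, and uniform solutions
-/

open CategoryTheory AlgebraicGeometry Finset

universe u v

namespace Pool.Agent.W534

open Pool.Agent.H914 Pool.Agent.H447

section Ops

variable {K : Type*} [Field K] [CharZero K] {V : Type*} [AddCommGroup V] [Module K V]
variable {gr : ℕ → Submodule K V} {n : ℕ} {L Lam : Module.End K V}

/-- The lowering operator in terms of the operators `L` and `Λ`. -/
noncomputable def lowOp (n : ℕ) (L Lam : Module.End K V) : Module.End K V :=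
  Lam * ((∑ m ∈ range n, L ^ (m + 1) * Lam ^ (m + 1)) *
    (1 + ∑ m ∈ range n, Lam ^ (m + 1) * L ^ (m + 1)))

lemma lowOp_eq (h : DirectSum.IsInternal gr) (hL : IsHom gr 2 L)
    (hbd : ∀ i, 2 * n + 1 ≤ i → gr i = ⊥) (hHL : HardLef gr n L) (hLam : IsLam gr n L Lam)
    {f : Module.End K V}
    (hfv : ∀ i ≤ n, ∀ a ∈ gr i, (L ^ (n - i + 1)) a = 0 → ∀ j ≤ n - i,
      f ((L ^ j) a) = ((j : K) * (((n - i : ℕ) : K) - j + 1)) • (L ^ (j - 1)) a) :
    lowOp n L Lam = f := by
  apply LinearMap.ext
  intro a
  refine lef_induction' h hL hbd hHL (p := fun a => lowOp n L Lam a = f a) ?_ ?_ a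
  · intro a b ha hb
    rw [map_add, map_add, ha, hb]
  · intro i hi a ha hp j
    by_cases hj : j ≤ n - i
    · have e1 : ∀ m, (L ^ (m + 1)) ((Lam ^ (m + 1)) ((L ^ j) a)) =
          (if m < j then (1 : K) else 0) • (L ^ j) a := by
        intro m
        by_cases hm : m < j
        · rw [lam_pow hLam hi ha hp hj (m + 1) hm, if_pos hm, one_smul, ← Module.End.mul_apply,
            ← pow_add, show m + 1 + (j - (m + 1)) = j by omega]
        · rw [lam_pow_gt hLam hi ha hp hj (by omega), map_zero, if_neg hm, zero_smul]
      have e2 : ∀ m, (Lam ^ (m + 1)) ((L ^ (m + 1)) ((L ^ j) a)) =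
          (if m < n - i - j then (1 : K) else 0) • (L ^ j) a := by
        intro m
        rw [← Module.End.mul_apply (L ^ (m + 1)), ← pow_add]
        by_cases hm : m < n - i - j
        · rw [lam_pow hLam hi ha hp (by omega) (m + 1) (by omega), if_pos hm, one_smul,
            show m + 1 + j - (m + 1) = j by omega]
        · rw [L_pow_gt hp (by omega), map_zero, if_neg hm, zero_smul]
      have c1 : ((range n).filter (fun m => m < j)).card = j := by
        rw [show (range n).filter (fun m => m < j) = range j by
          ext m; simp only [mem_filter, mem_range]; omega]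
        exact card_range j
      have c2 : ((range n).filter (fun m => m < n - i - j)).card = n - i - j := by
        rw [show (range n).filter (fun m => m < n - i - j) = range (n - i - j) by
          ext m; simp only [mem_filter, mem_range]; omega]
        exact card_range _
      have s1 : (∑ m ∈ range n, L ^ (m + 1) * Lam ^ (m + 1)) ((L ^ j) a) =
          (j : K) • (L ^ j) a := by
        rw [LinearMap.sum_apply]
        simp only [Module.End.mul_apply, e1]
        rw [← Finset.sum_smul, Finset.sum_boole, c1]
      have s2 : (1 + ∑ m ∈ range n, Lam ^ (m + 1) * L ^ (m + 1)) ((L ^ j) a) =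
          (((n - i : ℕ) : K) - j + 1) • (L ^ j) a := by
        rw [LinearMap.add_apply, Module.End.one_apply, LinearMap.sum_apply]
        simp only [Module.End.mul_apply, e2]
        rw [← Finset.sum_smul, Finset.sum_boole, c2, Nat.cast_sub hj]
        module
      rw [hfv i hi a ha hp j hj, lowOp, Module.End.mul_apply, Module.End.mul_apply, s2, map_smul,
        s1, map_smul, map_smul, smul_smul, mul_comm]
      rcases Nat.eq_zero_or_pos j with rfl | h0
      · simp
      · have := (hLam i hi a ha hp).2 (j - 1) (by omega)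
        rw [show j - 1 + 1 = j by omega] at this
        rw [this]
    · rw [L_pow_gt hp (by omega), map_zero, map_zero]

omit [CharZero K] in
/-- Operators of very positive degree vanish. -/
lemma eq_zero_of_isHom_pos (h : DirectSum.IsInternal gr)
    (hbd : ∀ i, 2 * n + 1 ≤ i → gr i = ⊥) {d : ℤ} (hd : (2 * n : ℤ) < d) {y : Module.End K V}
    (hy : IsHom gr d y) : y = 0 := by
  apply gr_ext h
  intro i a ha
  rw [LinearMap.zero_apply]
  have := hy i a (by rw [grZ_natCast]; exact ha)
  rw [show (i : ℤ) + d = ((i + d.toNat : ℕ) : ℤ) by omega, grZ_natCast, hbd _ (by omega)] at this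
  exact (Submodule.mem_bot _).1 this

end Ops

open VarClass Obj WeilCohomology

variable {k : Type u} [Field k] {𝒱 : VarClass k} {ops : CycleOps 𝒱} {X : 𝒱.Obj}

lemma realized_L {D : X.Cycles} (hD : X.IsCyc 1 D) :
    Realized.{u, v} ops X 1 (fun W => LinearMap.mulLeft W.K (W.cl X D)) := by
  simpa using Realized.mulLeft (ops := ops) hD

/-- The family of lowering operators is realised by an algebraic correspondence. -/
lemma realized_lowOp {D : X.Cycles} (hD : X.IsCyc 1 D)
    {Lam : ∀ W : WeilCohomology.{u, v} ops, Module.End W.K (W.H X)}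
    (hz : Realized.{u, v} ops X (-1) Lam) (n : ℕ) :
    Realized.{u, v} ops X (-1) (fun W => lowOp n (LinearMap.mulLeft W.K (W.cl X D)) (Lam W)) := by
  have hL := realized_L.{u, v} (ops := ops) hD
  have h1 : Realized.{u, v} ops X 0 (fun W => ∑ m ∈ range n,
      LinearMap.mulLeft W.K (W.cl X D) ^ (m + 1) * Lam W ^ (m + 1)) :=
    Realized.sum (fun m _ => ((hL.pow (m + 1)).mul (hz.pow (m + 1))).cast (by push_cast; ring))
  have h2 : Realized.{u, v} ops X 0 (fun W => ∑ m ∈ range n,
      Lam W ^ (m + 1) * LinearMap.mulLeft W.K (W.cl X D) ^ (m + 1)) :=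
    Realized.sum (fun m _ => ((hz.pow (m + 1)).mul (hL.pow (m + 1))).cast (by push_cast; ring))
  exact (hz.mul (h1.mul (Realized.one.add h2))).cast (by ring)

lemma realized_dbl {d e : ℤ} {A Y : ∀ W : WeilCohomology.{u, v} ops, Module.End W.K (W.H X)}
    (hA : Realized.{u, v} ops X d A) (hY : Realized.{u, v} ops X e Y) :
    Realized.{u, v} ops X (d + e) (fun W => dbl (A W) (Y W)) :=
  ((hA.mul hY).add ((hY.mul hA).cast (by ring))).congr (fun _ => rfl)

lemma realized_dbl_pow {d e : ℤ} {A Y : ∀ W : WeilCohomology.{u, v} ops, Module.End W.K (W.H X)}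
    (hA : Realized.{u, v} ops X d A) (hY : Realized.{u, v} ops X e Y) (m : ℕ) :
    Realized.{u, v} ops X (m * d + e) (fun W => (dbl (A W) ^ m) (Y W)) := by
  induction m with
  | zero => exact (hY.cast (by simp)).congr (fun _ => rfl)
  | succ m ih =>
    refine ((realized_dbl hA ih).cast (by push_cast; ring)).congr (fun W => ?_)
    rw [pow_succ', Module.End.mul_apply]

end Pool.Agent.W534
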