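import Pool.Agent.W534.PoleD

/-!
# Systems of classes on the squares, outside the middle degree
-/

open CategoryTheory AlgebraicGeometry Finset

universe u v

namespace Pool.Agent.W534

open Pool.Agent.H914 Pool.Agent.H447 VarClass Obj WeilCohomology

lemma gr_disj {K V : Type*} [Field K] [AddCommGroup V] [Module K V] {gr : ℕ → Submodule K V}
    (hint : DirectSum.IsInternal gr) {i j : ℕ} (h : i ≠ j) {a : V} (hi : a ∈ gr i)
    (hj : a ∈ gr j) : a = 0 :=
  Submodule.disjoint_def.1 (hint.submodule_iSupIndep.pairwiseDisjoint h) a hi hj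

lemma gr_disjZ {K V : Type*} [Field K] [AddCommGroup V] [Module K V] {gr : ℕ → Submodule K V}
    (hint : DirectSum.IsInternal gr) {i : ℕ} {e : ℤ} (h : (i : ℤ) ≠ e) {a : V} (hi : a ∈ gr i)
    (hj : a ∈ grZ gr e) : a = 0 := by
  by_cases he : 0 ≤ e
  · lift e to ℕ using he
    rw [grZ_natCast] at hj
    exact gr_disj hint (by exact_mod_cast h) hi hj
  · rw [grZ_of_neg (by omega)] at hj
    exact (Submodule.mem_bot _).1 hj

variable {k : Type u} [Field k] {𝒱 : VarClass k} {ops : CycleOps 𝒱}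
  {W : WeilCohomology.{u, v} ops} {X Y Z : 𝒱.Obj} {p : ℕ} {d : ℤ} {F G : Fam W}
  {i : Y ⟶ X} {D : X.Cycles}

/-- **Systems of classes on the square, outside the middle degree.** -/
theorem Fam.off_middle (hdim : X.dim = Y.dim + 1)
    (hD : X.IsCyc 1 D) (hY : W.cl X (ops.push i Y.V.fundCycle) = W.cl X D)
    (hHL : HardLefschetz W X D) (hB : LefschetzB W X D)
    (h : ∀ (e : ℤ) (φ : W.H X →ₗ[W.K] W.H Y), F.Op X Y e φ → G.Op X Y e φ) {j : ℕ}
    (hj : j ≠ X.dim) : F.T (X.prod X) j ⊆ G.T (X.prod X) j := by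
  intro c hc
  have hd : ((j : ℤ) - X.dim) ≠ 0 := by omega
  obtain ⟨ψ, hψ, h1, h2, h3⟩ := Fam.square hdim hD hY hHL hB h
    (Fam.Op.gen (F := F) (d := (j : ℤ) - X.dim) (by ring) hc)
  have hdeg : ∀ i : ℤ, ∀ a ∈ grZ (W.gr X) i, (W.corr c - ψ) a ∈
      grZ (W.gr X) (i + 2 * ((j : ℤ) - X.dim)) := fun i a ha =>
    Submodule.sub_mem _ (Fam.Op.deg (Fam.Op.gen (F := F) (by ring) hc) i a ha) (hψ.deg i a ha)
  have h4 : W.corr c - ψ = 0 := by
    apply gr_ext (W.isInternal X)
    intro m a ha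
    rw [LinearMap.zero_apply]
    by_cases hm : m = X.dim
    · subst hm
      exact gr_disjZ (W.isInternal X) (e := (X.dim : ℤ) + 2 * ((j : ℤ) - X.dim)) (by omega) (h3 a).1
        (hdeg _ a (by rw [grZ_natCast]; exact ha))
    · exact h1 m hm a ha
  rw [sub_eq_zero] at h4
  rw [← h4] at hψ
  exact hψ.mem (by ring)

/-- **Systems of classes on the square of the hyperplane section, outside the middle degree.** -/
theorem Fam.off_middleY (hdim : X.dim = Y.dim + 1)
    (hD : X.IsCyc 1 D) (hY : W.cl X (ops.push i Y.V.fundCycle) = W.cl X D)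
    (hHL : HardLefschetz W X D) (hWL : WeakLefschetz W i) (hB : LefschetzB W X D)
    (h : ∀ (e : ℤ) (φ : W.H X →ₗ[W.K] W.H Y), F.Op X Y e φ → G.Op X Y e φ) {j : ℕ}
    (hj : j ≠ Y.dim) : F.T (Y.prod Y) j ⊆ G.T (Y.prod Y) j := by
  have hs := hsec hdim hD hY hHL hWL
  intro c hc
  have hd : ((j : ℤ) - Y.dim) ≠ 0 := by omega
  obtain ⟨ψ, hψ, h1, h2⟩ := Fam.squareY hdim hD hY hHL hWL hB h
    (Fam.Op.gen (F := F) (d := (j : ℤ) - Y.dim) (by ring) hc)
  have hdeg : ∀ i : ℤ, ∀ a ∈ grZ (W.gr Y) i, (W.corr c - ψ) a ∈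
      grZ (W.gr Y) (i + 2 * ((j : ℤ) - Y.dim)) := fun i a ha =>
    Submodule.sub_mem _ (Fam.Op.deg (Fam.Op.gen (F := F) (by ring) hc) i a ha) (hψ.deg i a ha)
  -- outside the middle degree the push-forward is injective
  have hinj : ∀ (m : ℕ), m ≠ Y.dim → ∀ b ∈ W.gr Y m, W.push i b = 0 → b = 0 := by
    intro m hm b hb h0
    rcases lt_or_gt_of_ne hm with hm | hm
    · obtain ⟨a, ha, rfl⟩ := hs.surj m hm b hb
      have h5 : LinearMap.mulLeft W.K (W.cl X D) a = 0 := by
        rw [← hs.γι]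
        exact h0
      have h6 : a = 0 := by
        apply (hs.hl m (by omega)).1 a ha
        rw [show Y.dim + 1 - m = (Y.dim - m) + 1 by omega, pow_succ, Module.End.mul_apply, h5,
          map_zero]
      rw [h6, map_zero]
    · exact hs.inj m hm b hb h0
  have hinjZ : ∀ (e : ℤ), e ≠ Y.dim → ∀ b ∈ grZ (W.gr Y) e, W.push i b = 0 → b = 0 := by
    intro e he b hb h0
    by_cases he0 : 0 ≤ e
    · lift e to ℕ using he0
      rw [grZ_natCast] at hb
      exact hinj e (by exact_mod_cast he) b hb h0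
    · rw [grZ_of_neg (by omega)] at hb
      exact (Submodule.mem_bot _).1 hb
  have h4 : W.corr c - ψ = 0 := by
    apply gr_ext (W.isInternal Y)
    intro m a ha
    rw [LinearMap.zero_apply]
    by_cases hm : m = Y.dim
    · subst hm
      exact hinjZ ((Y.dim : ℤ) + 2 * ((j : ℤ) - Y.dim)) (by omega) _ (hdeg _ a (by rw [grZ_natCast]; exact ha)) (h2 a)
    · -- outside the middle degree the classes are restrictions
      have h5 : ∃ a', W.map i a' = a := by
        rcases lt_or_gt_of_ne hm with hm | hm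
        · obtain ⟨a', _, h⟩ := hs.surj m hm a ha
          exact ⟨a', h⟩
        · by_cases hm2 : m ≤ 2 * Y.dim
          · obtain ⟨b, hb, hab⟩ := (hs.hl' (2 * Y.dim - m) (by omega)).2 a (by
              rwa [show 2 * Y.dim - (2 * Y.dim - m) = m by omega])
            obtain ⟨b', _, rfl⟩ := hs.surj _ (by omega) b hb
            rw [← hs.ιL_pow] at hab
            exact ⟨_, hab⟩
          · rw [W.gr_eq_bot Y m (by omega)] at ha
            exact ⟨0, by rw [map_zero, (Submodule.mem_bot _).1 ha]⟩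
      obtain ⟨a', rfl⟩ := h5
      exact h1 a'
  rw [sub_eq_zero] at h4
  rw [← h4] at hψ
  exact hψ.mem (by ring)

variable {Φ : FrobSystem W p} {σ : W.K →+* ℂ}

/-- The consequences for the squares. -/
theorem pole_squares (hp : 1 < p) (hRH : ∀ Z, RiemannHyp Φ σ Z) (hdim : X.dim = Y.dim + 1)
    (hD : X.IsCyc 1 D)
    (hY : W.cl X (ops.push i Y.V.fundCycle) = W.cl X D) (hHL : HardLefschetz W X D)
    (hWL : WeakLefschetz W i) (h : PoleFormula Φ σ (X.prod Y) Y.dim) :
    (∀ j ≤ (X.prod X).dim, j ≠ X.dim → PoleFormula Φ σ (X.prod X) j) ∧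
      ∀ j ≤ (Y.prod Y).dim, j ≠ Y.dim → PoleFormula Φ σ (Y.prod Y) j := by
  have hdimZ : Y.dim + X.dim = (X.prod Y).dim := by rw [dim_prod, add_comm]
  have h1 := (pole_iff_tate hp (hRH _) (by omega)).1 h
  have h2 := (pole_iff_tate hp (hRH _) (by omega)).1 ((pole_symm hp (hRH _) hdimZ).1 h)
  have hB := lefschetzB_of_tate hdim hD hY hHL hWL h1.1
  have h3 : ∀ j, TateIn Φ (X.prod Y) j := ((tate_hyperplane hdim hD hY hHL hWL).out 0 1).1 h1.1
  have h4 : ∀ j, HomEqNumIn W (X.prod Y) j :=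
    ((d_hyperplane hdim hD hY hHL hWL).out 0 1).1 h2.2
  have hT := Fam.op_iff (F := tateFam Φ) (G := spanFam W).2 h3
  have hN := Fam.op_iff (F := numFam W) (G := zeroFam W).2
    (fun p => (homEqNumIn_iff (X.prod Y) p).1 (h4 p))
  constructor
  · intro j hj hjX
    refine (pole_iff_tate hp (hRH _) hj).2 ⟨?_, ?_⟩
    · exact fun c hc => Fam.off_middle hdim hD hY hHL hB hT hjX hc
    · rw [homEqNumIn_iff]
      exact Fam.off_middle hdim hD hY hHL hB hN hjX
  · intro j hj hjY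
    refine (pole_iff_tate hp (hRH _) hj).2 ⟨?_, ?_⟩
    · exact fun c hc => Fam.off_middleY hdim hD hY hHL hWL hB hT hjY hc
    · rw [homEqNumIn_iff]
      exact Fam.off_middleY hdim hD hY hHL hWL hB hN hjY

end Pool.Agent.W534
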