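import Pool.Agent.W534.TateDefs

/-!
# Orders of poles of zeta functions: definitions
-/

open CategoryTheory AlgebraicGeometry

universe u v

namespace Pool.Agent.W534

open Pool.Agent.H914 VarClass Obj WeilCohomology

variable {k : Type u} [Field k] {𝒱 : VarClass k} {ops : CycleOps 𝒱}

/-- The number of elements of the finite field over which the `s`-th iterate of the endomorphism
`Fr X` is the Frobenius endomorphism of a model of `X`. -/
def card {W : WeilCohomology.{u, v} ops} {p : ℕ} (Φ : FrobSystem W p) (X : 𝒱.Obj) (s : ℕ) : ℕ :=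
  p ^ (Φ.e X * s)

/-- The characteristic polynomial of the restriction of `f` to the invariant subspace `S` (and the
constant `1` if `S` is not invariant). -/
noncomputable def charpolyOn {K V : Type*} [Field K] [AddCommGroup V] [Module K V]
    [Module.Finite K V] (f : V →ₗ[K] V) (S : Submodule K V) : Polynomial K :=
  open Classical in if h : ∀ x ∈ S, f x ∈ S then (f.restrict h).charpoly else 1

/-- The characteristic polynomial of the Frobenius endomorphism `F` of the model of `X` over the
field with `card Φ X s` elements, on `H^i(X)`, with its coefficients mapped to the complex numbers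
by `σ`. (Its reverse is the polynomial `det (1 - T F | H^i(X))`.) -/
noncomputable def frobPoly {W : WeilCohomology.{u, v} ops} {p : ℕ} (Φ : FrobSystem W p)
    (σ : W.K →+* ℂ) (X : 𝒱.Obj) (s i : ℕ) : Polynomial ℂ :=
  (charpolyOn (W.map (iter (Φ.Fr X) s)).toLinearMap (W.gr X i)).map σ

/-- The zeta function of the model of `X` over the field with `q = card Φ X s` elements, as a
function of the complex variable `z`: the product of the `det (1 - q ^ (-z) F | H^i(X))` for the odd
`i`, divided by the product for the even `i`. -/
noncomputable def zetaFn {W : WeilCohomology.{u, v} ops} {p : ℕ} (Φ : FrobSystem W p)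
    (σ : W.K →+* ℂ) (X : 𝒱.Obj) (s : ℕ) (z : ℂ) : ℂ :=
  ∏ i ∈ Finset.range (2 * X.dim + 1),
    ((frobPoly Φ σ X s i).reverse.eval ((card Φ X s : ℂ) ^ (-z))) ^ ((-1 : ℤ) ^ (i + 1))

/-- The Riemann hypothesis for the variety `X` over finite fields: the eigenvalues of the Frobenius
endomorphism over the field with `q` elements on `H^i(X)` have absolute value `q ^ (i / 2)`. -/
def RiemannHyp {W : WeilCohomology.{u, v} ops} {p : ℕ} (Φ : FrobSystem W p)
    (σ : W.K →+* ℂ) (X : 𝒱.Obj) : Prop :=
  ∀ s, 0 < s → ∀ i (μ : ℂ), (frobPoly Φ σ X s i).IsRoot μ → ‖μ‖ ^ 2 = (card Φ X s : ℝ) ^ i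

/-- The intersection numbers of a cycle of codimension `j` with the cycles of complementary
codimension. -/
noncomputable def interNumbers (ops : CycleOps 𝒱) (X : 𝒱.Obj) (j : ℕ)
    (z : {z : X.Cycles // X.IsCyc j z}) (w : {w : X.Cycles // X.IsCyc (X.dim - j) w}) : ℚ :=
  X.V.degCycle (ops.mul z.1 w.1)

/-- The dimension of the space of the cycles of codimension `j` on `X` with rational coefficients
modulo numerical equivalence. -/
noncomputable def numRank (ops : CycleOps 𝒱) (X : 𝒱.Obj) (j : ℕ) : ℕ :=
  Module.finrank ℚ (Submodule.span ℚ (Set.range (interNumbers ops X j)))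

/-- The formula for the order at `j` of the zeta function of `X`: over all sufficiently large
finite fields the order is the negative of the rank of the group of the cycles of codimension `j`
modulo numerical equivalence. -/
def PoleFormula {W : WeilCohomology.{u, v} ops} {p : ℕ} (Φ : FrobSystem W p) (σ : W.K →+* ℂ)
    (X : 𝒱.Obj) (j : ℕ) : Prop :=
  ∃ t, 0 < t ∧ ∀ s, 0 < s → t ∣ s →
    meromorphicOrderAt (zetaFn Φ σ X s) (j : ℂ) = ((-(numRank ops X j : ℤ) : ℤ) : WithTop ℤ)

/-- The generalised eigenspace in `H^(2 j)(X)` for the eigenvalue `q ^ j` of the Frobenius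
endomorphism over the field with `q = card Φ X s` elements. -/
noncomputable def genTate {W : WeilCohomology.{u, v} ops} {p : ℕ} (Φ : FrobSystem W p)
    (X : 𝒱.Obj) (s j : ℕ) : Submodule W.K (W.H X) :=
  Module.End.maxGenEigenspace (W.map (iter (Φ.Fr X) s)).toLinearMap ((card Φ X s : W.K) ^ j) ⊓
    W.gr X (2 * j)

/-- The Tate conjecture and semisimplicity in codimension `j`: the generalised eigenspaces of the
Frobenius endomorphisms in `H^(2 j)(X)` for the eigenvalue `q ^ j` are spanned by classes of
cycles. -/
def SemisimpleTateIn {W : WeilCohomology.{u, v} ops} {p : ℕ} (Φ : FrobSystem W p) (X : 𝒱.Obj)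
    (j : ℕ) : Prop :=
  ∀ s, 0 < s → genTate Φ X s j ≤ spanCycles W X j

end Pool.Agent.W534
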