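import Pool.Agent.W534.Tate
import Pool.Agent.W534.PoleDefs

/-!
# Numerical ranks and generalised Tate classes
-/

open CategoryTheory AlgebraicGeometry Finset

universe u v

namespace Pool.Agent.W534

open Pool.Agent.H914 Pool.Agent.H447 VarClass Obj WeilCohomology

section Lin

variable {K : Type*} [Field K] [CharZero K]

/-- Rational independent functions are independent over larger fields. -/
lemma lin_ext {S ι : Type*} [Fintype ι] {φ : ι → S → ℚ} (h : LinearIndependent ℚ φ) {c : ι → K}
    (h0 : ∀ w, ∑ i, c i * (φ i w : K) = 0) : c = 0 := by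
  have h1 : ∀ ret : K →ₗ[ℚ] ℚ, ∀ i, ret (c i) = 0 := by
    intro ret
    have h2 : ∑ i, ret (c i) • φ i = 0 := by
      funext w
      rw [Finset.sum_apply]
      have h3 := congrArg ret (h0 w)
      rw [map_sum, map_zero] at h3
      rw [Pi.zero_apply, ← h3]
      apply Finset.sum_congr rfl
      intro i _
      rw [Pi.smul_apply, smul_eq_mul, ret_mul]
    exact Fintype.linearIndependent_iff.1 h _ h2
  funext i
  by_contra hi
  obtain ⟨g, hg⟩ := exists_retract K
  have h4 : g ((c i)⁻¹ * c i) = 0 := by
    have := h1 (g ∘ₗ (LinearMap.mulLeft ℚ ((c i)⁻¹))) i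
    exact this
  rw [inv_mul_cancel₀ hi, hg] at h4
  exact one_ne_zero h4

end Lin

variable {k : Type u} [Field k] {𝒱 : VarClass k} {ops : CycleOps 𝒱}
  {W : WeilCohomology.{u, v} ops} {X Y Z : 𝒱.Obj} {p : ℕ}

/-- The intersection pairing on the spans of the algebraic classes. -/
noncomputable def pair (W : WeilCohomology.{u, v} ops) (Z : 𝒱.Obj) (j l : ℕ) :
    spanCycles W Z j →ₗ[W.K] Module.Dual W.K (spanCycles W Z l) where
  toFun a := W.tr Z ∘ₗ LinearMap.mulLeft W.K (a : W.H Z) ∘ₗ (spanCycles W Z l).subtype
  map_add' := by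
    intro a b
    ext c
    simp [add_mul]
  map_smul' := by
    intro a b
    ext c
    simp

lemma pair_apply (j l : ℕ) (a : spanCycles W Z j) (b : spanCycles W Z l) :
    pair W Z j l a b = W.tr Z ((a : W.H Z) * (b : W.H Z)) := rfl

/-- The rank of the pairing. -/
noncomputable def kRank (W : WeilCohomology.{u, v} ops) (Z : 𝒱.Obj) (j l : ℕ) : ℕ :=
  Module.finrank W.K (LinearMap.range (pair W Z j l))

lemma kRank_le (j l : ℕ) : kRank W Z j l ≤ Module.finrank W.K (spanCycles W Z j) :=
  LinearMap.finrank_range_le _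

lemma kRank_symm (j l : ℕ) : kRank W Z j l = kRank W Z l j := by
  have key : ∀ j l : ℕ, kRank W Z j l ≤ kRank W Z l j := by
    intro j l
    have h1 := LinearMap.finrank_range_dualMap_eq_finrank_range (pair W Z l j)
    rw [kRank, kRank, ← h1]
    have h2 : LinearMap.range (pair W Z j l) ≤ LinearMap.range (pair W Z l j).dualMap := by
      rintro _ ⟨a, rfl⟩
      refine ⟨Module.Dual.eval W.K _ a, ?_⟩
      ext b
      rw [LinearMap.dualMap_apply, Module.Dual.eval_apply, pair_apply, pair_apply,
        W.even_comm (span_gr b.2)]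
    exact Submodule.finrank_mono h2
  exact le_antisymm (key _ _) (key _ _)

lemma tr_mul_cl' {j l : ℕ} {z w : Z.Cycles} (hz : Z.IsCyc j z) (hw : Z.IsCyc l w)
    (hjl : j + l = Z.dim) :
    W.tr Z (W.cl Z z * W.cl Z w) = (Z.V.degCycle (ops.mul z w) : W.K) := tr_mul_cl hz hw hjl

/-- A functional which vanishes on the classes of cycles vanishes. -/
lemma dual_ext {l : ℕ} {f g : Module.Dual W.K (spanCycles W Z l)}
    (h : ∀ w : {w : Z.Cycles // Z.IsCyc l w}, f ⟨_, mem_span_cl w.2⟩ = g ⟨_, mem_span_cl w.2⟩) :
    f = g := by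
  apply LinearMap.ext
  rintro ⟨x, hx⟩
  have hx' := hx
  induction hx' using Submodule.span_induction with
  | mem x hx' =>
    obtain ⟨r, hr, w, hw, rfl⟩ := hx'
    obtain rfl : r = l := by exact_mod_cast hr
    exact h ⟨w, hw⟩
  | zero => exact (map_zero f).trans (map_zero g).symm
  | add x y hx1 hy1 h1 h2 =>
    have e1 : (⟨x + y, hx⟩ : spanCycles W Z l) = ⟨x, hx1⟩ + ⟨y, hy1⟩ := rfl
    rw [e1, map_add, map_add, h1 hx1, h2 hy1]
  | smul a x hx1 h1 =>
    have e1 : (⟨a • x, hx⟩ : spanCycles W Z l) = a • ⟨x, hx1⟩ := rfl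
    rw [e1, map_smul, map_smul, h1 hx1]

lemma numRank_eq {j : ℕ} (hj : j ≤ Z.dim) : numRank ops Z j = kRank W Z j (Z.dim - j) := by
  classical
  set l := Z.dim - j with hl
  -- the values of the pairing
  have hval : ∀ (z : {z : Z.Cycles // Z.IsCyc j z}) (w : {w : Z.Cycles // Z.IsCyc l w}),
      pair W Z j l ⟨_, mem_span_cl z.2⟩ ⟨_, mem_span_cl w.2⟩ =
        (interNumbers ops Z j z w : W.K) := by
    intro z w
    rw [pair_apply]
    exact tr_mul_cl z.2 w.2 (by omega)
  -- independent functions give independent functionals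
  have h1 : ∀ {ι : Type u} [Fintype ι] (z : ι → {z : Z.Cycles // Z.IsCyc j z}),
      LinearIndependent ℚ (fun i => interNumbers ops Z j (z i)) →
      Fintype.card ι ≤ kRank W Z j l := by
    intro ι _ z h
    have h2 : LinearIndependent W.K (fun i => pair W Z j l ⟨_, mem_span_cl (z i).2⟩) := by
      rw [Fintype.linearIndependent_iff]
      intro c hc
      have := lin_ext (K := W.K) h (c := c) (by
        intro w
        have h2 := congrArg (fun F => F ⟨_, mem_span_cl w.2⟩) hc
        simp only [LinearMap.sum_apply, LinearMap.smul_apply, smul_eq_mul,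
          LinearMap.zero_apply] at h2
        rw [← h2]
        apply Finset.sum_congr rfl
        intro i _
        rw [← hval])
      intro i
      rw [this]; rfl
    rw [← finrank_span_eq_card h2, kRank]
    apply Submodule.finrank_mono
    rw [Submodule.span_le]
    rintro _ ⟨i, rfl⟩
    exact ⟨_, rfl⟩
  obtain ⟨b, hb, hspan, hlin⟩ := exists_linearIndependent ℚ (Set.range (interNumbers ops Z j))
  choose zf hzf using fun x : b => hb x.2
  have hfin : b.Finite := by
    by_contra hinf
    obtain ⟨t, ht, hcard⟩ := Set.Infinite.exists_subset_card_eq hinf (kRank W Z j l + 1)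
    have h2 := h1 (ι := t) (fun x => zf ⟨x, ht x.2⟩) (by
      have e : (fun x : t => interNumbers ops Z j (zf ⟨x, ht x.2⟩)) =
          (fun x : b => (x : {w : Z.Cycles // Z.IsCyc (Z.dim - j) w} → ℚ)) ∘
            (fun x : t => (⟨x, ht x.2⟩ : b)) := funext fun x => hzf _
      rw [e]
      exact hlin.comp _ (by
        intro x y hxy
        have := congrArg Subtype.val hxy
        exact Subtype.ext this))
    rw [Fintype.card_coe, hcard] at h2
    omega
  have : Fintype b := hfin.fintype
  have hn : numRank ops Z j = Fintype.card b := by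
    rw [numRank, ← hspan, finrank_span_set_eq_card hlin, Set.toFinset_card]
  apply le_antisymm
  · rw [hn]
    apply h1 zf
    have e : (fun x : b => interNumbers ops Z j (zf x)) =
        (fun x : b => (x : {w : Z.Cycles // Z.IsCyc (Z.dim - j) w} → ℚ)) := funext hzf
    rw [e]
    exact hlin
  · obtain ⟨b', hb', hspan', hlin'⟩ := exists_linearIndependent W.K
      (Set.range fun z : {z : Z.Cycles // Z.IsCyc j z} => pair W Z j l ⟨_, mem_span_cl z.2⟩)
    choose zg hzg using fun x : b' => hb' x.2
    have : Fintype b' := hlin'.setFinite.fintype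
    have hr : LinearMap.range (pair W Z j l) ≤ Submodule.span W.K b' := by
      rw [hspan']
      rintro _ ⟨⟨x, hx⟩, rfl⟩
      have hx' := hx
      induction hx' using Submodule.span_induction with
      | mem x hx' =>
        obtain ⟨r, hr, w, hw, rfl⟩ := hx'
        obtain rfl : r = j := by exact_mod_cast hr
        exact Submodule.subset_span ⟨⟨w, hw⟩, rfl⟩
      | zero =>
        have e1 : (⟨0, hx⟩ : spanCycles W Z j) = 0 := rfl
        rw [e1, map_zero]
        exact Submodule.zero_mem _
      | add x y hx1 hy1 h1 h2 =>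
        have e1 : (⟨x + y, hx⟩ : spanCycles W Z j) = ⟨x, hx1⟩ + ⟨y, hy1⟩ := rfl
        rw [e1, map_add]
        exact Submodule.add_mem _ (h1 hx1) (h2 hy1)
      | smul a x hx1 h1 =>
        have e1 : (⟨a • x, hx⟩ : spanCycles W Z j) = a • ⟨x, hx1⟩ := rfl
        rw [e1, map_smul]
        exact Submodule.smul_mem _ _ (h1 hx1)
    have h2 : kRank W Z j l ≤ Fintype.card b' := by
      have h3 := Submodule.finrank_mono hr
      rwa [finrank_span_set_eq_card hlin', Set.toFinset_card] at h3
    refine h2.trans ?_
    have h4 : LinearIndependent ℚ (fun x => interNumbers ops Z j (zg x)) := by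
      rw [Fintype.linearIndependent_iff]
      intro c hc x
      have h5 : ∑ x, ((c x : ℚ) : W.K) • (x : Module.Dual W.K (spanCycles W Z l)) = 0 := by
        apply dual_ext
        intro w
        have h6 := congrFun hc w
        rw [Finset.sum_apply, Pi.zero_apply] at h6
        have h7 := congrArg (fun q : ℚ => (q : W.K)) h6
        simp only [Rat.cast_sum, Pi.smul_apply, smul_eq_mul, Rat.cast_mul, Rat.cast_zero] at h7
        rw [LinearMap.sum_apply, LinearMap.zero_apply, ← h7]
        apply Finset.sum_congr rfl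
        intro y _
        rw [LinearMap.smul_apply, smul_eq_mul, ← hval]
        exact congrArg (fun F : Module.Dual W.K (spanCycles W Z l) =>
          (c y : W.K) * F ⟨_, mem_span_cl w.2⟩) (hzg y).symm
      have h8 := Fintype.linearIndependent_iff.1 hlin' (fun x => ((c x : ℚ) : W.K)) h5 x
      exact_mod_cast h8
    rw [← finrank_span_eq_card h4, numRank]
    have : Module.Finite ℚ (Submodule.span ℚ (Set.range (interNumbers ops Z j))) := by
      rw [← hspan]
      exact Module.Finite.span_of_finite ℚ hfin
    apply Submodule.finrank_mono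
    rw [Submodule.span_le]
    rintro _ ⟨x, rfl⟩
    exact Submodule.subset_span ⟨_, rfl⟩

end Pool.Agent.W534
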