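import Pool.Agent.W534.PoleB

/-!
# The order of the zeta function
-/

open CategoryTheory AlgebraicGeometry Finset Polynomial

universe u v

namespace Pool.Agent.W534

open Pool.Agent.H914 Pool.Agent.H447 VarClass Obj WeilCohomology

section Fun

lemma order_fac (q : ℝ) (hq : 1 < q) (n : ℕ) (α : ℂ) :
    MeromorphicAt (fun s : ℂ => 1 - (q : ℂ) ^ (-s) * α) (n : ℂ) ∧
    meromorphicOrderAt (fun s : ℂ => 1 - (q : ℂ) ^ (-s) * α) (n : ℂ) =
      ((if (q : ℂ) ^ n = α then 1 else 0 : ℤ) : WithTop ℤ) := by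
  have hq0 : (q : ℂ) ≠ 0 := by exact_mod_cast (by linarith : q ≠ 0)
  have hd : ∀ s : ℂ, HasDerivAt (fun s : ℂ => 1 - (q : ℂ) ^ (-s) * α)
      (- ((q : ℂ) ^ (-s) * Complex.log q * (-1) * α)) s := by
    intro s
    have h1 : HasDerivAt (fun s : ℂ => (q : ℂ) ^ (-s)) ((q : ℂ) ^ (-s) * Complex.log q * (-1)) s :=
      HasDerivAt.const_cpow (hasDerivAt_neg s) (Or.inl hq0)
    exact (h1.mul_const α).const_sub 1
  have han : AnalyticAt ℂ (fun s : ℂ => 1 - (q : ℂ) ^ (-s) * α) (n : ℂ) :=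
    (Differentiable.analyticAt (fun s => (hd s).differentiableAt) _)
  refine ⟨han.meromorphicAt, ?_⟩
  have hpow : (q : ℂ) ^ (-(n : ℂ)) = ((q : ℂ) ^ n)⁻¹ := by
    rw [Complex.cpow_neg, Complex.cpow_natCast]
  rw [han.meromorphicOrderAt_eq]
  by_cases h : (q : ℂ) ^ n = α
  · rw [if_pos h]
    have h1 : (fun s : ℂ => 1 - (q : ℂ) ^ (-s) * α) (n : ℂ) = 0 := by
      simp only
      rw [hpow, ← h, inv_mul_cancel₀ (pow_ne_zero _ hq0), sub_self]
    have h2 : deriv (fun s : ℂ => 1 - (q : ℂ) ^ (-s) * α) (n : ℂ) ≠ 0 := by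
      rw [(hd n).deriv, hpow, ← h]
      have h3 : Complex.log q ≠ 0 := by
        rw [← Complex.ofReal_log (by linarith)]
        exact_mod_cast (Real.log_pos hq).ne'
      have h4 : -(((q : ℂ) ^ n)⁻¹ * Complex.log q * (-1) * (q : ℂ) ^ n) = Complex.log q := by
        have := pow_ne_zero n hq0
        field_simp
      rw [h4]
      exact h3
    rw [han.analyticOrderAt_eq_one_of_zero_deriv_ne_zero h1 h2]
    rfl
  · rw [if_neg h]
    have h1 : (fun s : ℂ => 1 - (q : ℂ) ^ (-s) * α) (n : ℂ) ≠ 0 := by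
      simp only
      rw [hpow]
      intro h2
      apply h
      have h3 := pow_ne_zero n hq0
      rw [sub_eq_zero] at h2
      have h4 : (q : ℂ) ^ n * 1 = (q : ℂ) ^ n * (((q : ℂ) ^ n)⁻¹ * α) := by rw [← h2]
      rw [mul_one, mul_inv_cancel_left₀ h3] at h4
      exact h4
    rw [han.analyticOrderAt_eq_zero.2 h1]
    rfl

lemma eval_reverse_X_sub_C (α t : ℂ) : (X - C α).reverse.eval t = 1 - t * α := by
  have h1 : (X - C α).reverse = 1 - C α * X := by
    rw [reverse, natDegree_X_sub_C, reflect_sub, reflect_C, reflect_one_X, pow_one]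
  rw [h1, eval_sub, eval_one, eval_mul, eval_C, eval_X, mul_comm]

lemma order_prod (q : ℝ) (hq : 1 < q) (n : ℕ) (S : Multiset ℂ) :
    MeromorphicAt (fun z : ℂ => ((S.map fun α => X - C α).prod).reverse.eval ((q : ℂ) ^ (-z)))
      (n : ℂ) ∧
    meromorphicOrderAt (fun z : ℂ =>
      ((S.map fun α => X - C α).prod).reverse.eval ((q : ℂ) ^ (-z))) (n : ℂ) =
      ((S.count ((q : ℂ) ^ n) : ℤ) : WithTop ℤ) := by
  induction S using Multiset.induction with
  | empty =>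
    have h1 : (fun z : ℂ => (((0 : Multiset ℂ).map fun α => X - C α).prod).reverse.eval
        ((q : ℂ) ^ (-z))) = fun _ => (1 : ℂ) := by
      funext z
      rw [Multiset.map_zero, Multiset.prod_zero, ← C_1, reverse_C, eval_C]
    rw [h1]
    refine ⟨MeromorphicAt.const _ _, ?_⟩
    have h2 : AnalyticAt ℂ (fun _ : ℂ => (1 : ℂ)) (n : ℂ) := analyticAt_const
    rw [h2.meromorphicOrderAt_eq, h2.analyticOrderAt_eq_zero.2 one_ne_zero, Multiset.count_zero]
    rfl
  | cons α S ih =>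
    have h1 : (fun z : ℂ => (((α ::ₘ S).map fun α => X - C α).prod).reverse.eval
        ((q : ℂ) ^ (-z))) = (fun z : ℂ => 1 - (q : ℂ) ^ (-z) * α) *
          fun z : ℂ => ((S.map fun α => X - C α).prod).reverse.eval ((q : ℂ) ^ (-z)) := by
      funext z
      rw [Multiset.map_cons, Multiset.prod_cons, reverse_mul_of_domain, eval_mul,
        eval_reverse_X_sub_C]
      rfl
    obtain ⟨h2, h3⟩ := order_fac q hq n α
    rw [h1]
    refine ⟨h2.mul ih.1, ?_⟩
    rw [meromorphicOrderAt_mul h2 ih.1, h3, ih.2, Multiset.count_cons, ← WithTop.coe_add]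
    congr 1
    push_cast
    split_ifs <;> ring

end Fun

variable {k : Type u} [Field k] {𝒱 : VarClass k} {ops : CycleOps 𝒱}
  {W : WeilCohomology.{u, v} ops} {X' Y Z : 𝒱.Obj} {p : ℕ} (Φ : FrobSystem W p)

instance grFinite (Z : 𝒱.Obj) (i : ℕ) : Module.Finite W.K (W.gr Z i) :=
  Module.Finite.of_injective (W.gr Z i).subtype Subtype.val_injective

/-- The Frobenius endomorphism of the model of `Z` over the field with `card Φ Z s` elements, on
`H^i(Z)`. -/
noncomputable def frobOn {W : WeilCohomology.{u, v} ops} {p : ℕ} (Φ : FrobSystem W p) (Z : 𝒱.Obj)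
    (s i : ℕ) : Module.End W.K (W.gr Z i) :=
  (W.map (iter (Φ.Fr Z) s)).toLinearMap.restrict (p := W.gr Z i) (q := W.gr Z i)
    (fun _ hx => W.map_mem _ hx)

lemma frobPoly_eq (σ : W.K →+* ℂ) (s i : ℕ) :
    frobPoly Φ σ Z s i = (frobOn Φ Z s i).charpoly.map σ := by
  have h : ∀ x ∈ W.gr Z i, (W.map (iter (Φ.Fr Z) s)).toLinearMap x ∈ W.gr Z i :=
    fun _ hx => W.map_mem _ hx
  rw [frobPoly, charpolyOn, dif_pos h]
  rfl

lemma order_frobPoly (hp : 1 < p) (σ : W.K →+* ℂ) {s : ℕ} (hs : 0 < s) (i j : ℕ) :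
    MeromorphicAt (fun z : ℂ => (frobPoly Φ σ Z s i).reverse.eval ((card Φ Z s : ℂ) ^ (-z)))
      (j : ℂ) ∧
    meromorphicOrderAt (fun z : ℂ => (frobPoly Φ σ Z s i).reverse.eval ((card Φ Z s : ℂ) ^ (-z)))
      (j : ℂ) = (((((frobOn Φ Z s i).charpoly.map σ).roots.count ((card Φ Z s : ℂ) ^ j) : ℕ) : ℤ) :
        WithTop ℤ) := by
  have hq : (1 : ℝ) < (card Φ Z s : ℝ) := by
    have : 1 < card Φ Z s := Nat.one_lt_pow (Nat.mul_pos (Φ.e_pos Z) hs).ne' hp
    exact_mod_cast this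
  have h1 := order_prod (card Φ Z s : ℝ) hq j ((frobOn Φ Z s i).charpoly.map σ).roots
  have hmon : ((frobOn Φ Z s i).charpoly.map σ).Monic := (LinearMap.charpoly_monic _).map σ
  have h2 : ((((frobOn Φ Z s i).charpoly.map σ).roots).map fun α => X - C α).prod =
      (frobOn Φ Z s i).charpoly.map σ := by
    rw [← (IsAlgClosed.splits _).eq_prod_roots_of_monic hmon]
  rw [h2] at h1
  simpa [frobPoly_eq] using h1

/-- **The order of the zeta function.** -/
lemma order_zetaFn (hp : 1 < p) (σ : W.K →+* ℂ) (hRH : RiemannHyp Φ σ Z) {s : ℕ} (hs : 0 < s)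
    {j : ℕ} (hj : j ≤ Z.dim) :
    meromorphicOrderAt (zetaFn Φ σ Z s) (j : ℂ) =
      ((-(Module.finrank W.K (genTate Φ Z s j) : ℤ) : ℤ) : WithTop ℤ) := by
  classical
  have hone : 1 < card Φ Z s := Nat.one_lt_pow (Nat.mul_pos (Φ.e_pos Z) hs).ne' hp
  have hmon : ∀ i, ((frobOn Φ Z s i).charpoly.map σ).Monic := fun i =>
    (LinearMap.charpoly_monic _).map σ
  have hzero : ∀ i, i ≠ 2 * j →
      ((frobOn Φ Z s i).charpoly.map σ).roots.count ((card Φ Z s : ℂ) ^ j) = 0 := by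
    intro i hi
    rw [Multiset.count_eq_zero]
    intro h
    rw [mem_roots (hmon i).ne_zero] at h
    have h1 := hRH s hs i _ (by rw [frobPoly_eq]; exact h)
    rw [norm_pow, Complex.norm_natCast, ← pow_mul] at h1
    have h2 : j * 2 = i := by
      have h3 : card Φ Z s ^ (j * 2) = card Φ Z s ^ i := by exact_mod_cast h1
      exact Nat.pow_right_injective hone h3
    omega
  have hmain : ((frobOn Φ Z s (2 * j)).charpoly.map σ).roots.count ((card Φ Z s : ℂ) ^ j) =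
      Module.finrank W.K (genTate Φ Z s j) := by
    have e1 : ((card Φ Z s : ℂ) ^ j) = σ ((card Φ Z s : W.K) ^ j) := by
      rw [map_pow, map_natCast]
    rw [count_roots, e1, ← eq_rootMultiplicity_map σ.injective,
      ← LinearMap.finrank_maxGenEigenspace_eq]
    have h1 := Submodule.inf_genEigenspace (W.map (iter (Φ.Fr Z) s)).toLinearMap
      (W.gr Z (2 * j)) (k := ⊤) (μ := (card Φ Z s : W.K) ^ j) (fun _ hx => W.map_mem _ hx)
    have h2 : genTate Φ Z s j = (Module.End.genEigenspace (frobOn Φ Z s (2 * j))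
        ((card Φ Z s : W.K) ^ j) ⊤).map (W.gr Z (2 * j)).subtype := by
      rw [genTate, inf_comm]
      exact h1
    rw [h2]
    exact LinearEquiv.finrank_eq (Submodule.equivMapOfInjective _
      (Submodule.subtype_injective _) _)
  have hdet : ∀ i : ℕ, MeromorphicAt (fun z : ℂ =>
      ((frobPoly Φ σ Z s i).reverse.eval ((card Φ Z s : ℂ) ^ (-z))) ^ ((-1 : ℤ) ^ (i + 1))) (j : ℂ) ∧
      meromorphicOrderAt (fun z : ℂ =>
      ((frobPoly Φ σ Z s i).reverse.eval ((card Φ Z s : ℂ) ^ (-z))) ^ ((-1 : ℤ) ^ (i + 1))) (j : ℂ) =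
      (((-1 : ℤ) ^ (i + 1) * (((frobOn Φ Z s i).charpoly.map σ).roots.count
        ((card Φ Z s : ℂ) ^ j) : ℕ) : ℤ) : WithTop ℤ) := by
    intro i
    obtain ⟨h1, h2⟩ := order_frobPoly Φ (Z := Z) hp σ hs i j
    refine ⟨h1.fun_zpow _, ?_⟩
    rw [fun_meromorphicOrderAt_zpow h1, h2]
    rfl
  change meromorphicOrderAt (fun z : ℂ => ∏ i ∈ Finset.range (2 * Z.dim + 1),
    ((frobPoly Φ σ Z s i).reverse.eval ((card Φ Z s : ℂ) ^ (-z))) ^ ((-1 : ℤ) ^ (i + 1))) (j : ℂ) = _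
  rw [meromorphicOrderAt_fun_prod (fun i _ => (hdet i).1),
    Finset.sum_congr rfl (fun i _ => (hdet i).2), ← WithTop.coe_sum]
  congr 1
  have hn : 2 * j ∈ Finset.range (2 * Z.dim + 1) := by
    rw [Finset.mem_range]
    omega
  rw [Finset.sum_eq_single_of_mem (2 * j) hn, hmain]
  · rw [pow_succ, pow_mul]
    simp
  · intro i _ hi
    rw [hzero i hi]
    simp

lemma poleFormula_iff (hp : 1 < p) (σ : W.K →+* ℂ) (hRH : RiemannHyp Φ σ Z) {j : ℕ}
    (hj : j ≤ Z.dim) : PoleFormula Φ σ Z j ↔ ∃ t, 0 < t ∧ ∀ s, 0 < s → t ∣ s →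
      kRank W Z j (Z.dim - j) = Module.finrank W.K (genTate Φ Z s j) := by
  constructor
  · rintro ⟨t, ht, h⟩
    refine ⟨t, ht, fun s hs hts => ?_⟩
    have h1 := h s hs hts
    rw [order_zetaFn Φ hp σ hRH hs hj, numRank_eq (W := W) hj] at h1
    have h2 := WithTop.coe_injective h1
    omega
  · rintro ⟨t, ht, h⟩
    refine ⟨t, ht, fun s hs hts => ?_⟩
    rw [order_zetaFn Φ hp σ hRH hs hj, numRank_eq (W := W) hj, h s hs hts]

end Pool.Agent.W534
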