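import Pool.Agent.H447R3.AoA
import Pool.Agent.H914R2.TStr

/-!
# A universal formula for the inverse of the powers of the raising operator
-/

open Finset

universe v

namespace Pool.Agent.W534

open Pool.Agent.H914 Pool.Agent.H447

/-- The coefficients of `e ^ r f ^ k` on a highest weight vector of weight `M`. -/
def kap (M k : ℕ) : ℕ → ℚ
  | 0 => 1
  | r + 1 => kap M k r * (((k - r : ℕ) : ℚ) * ((M - (k - r - 1) : ℕ) : ℚ))

lemma kap_ne_zero {M k : ℕ} (hk : k ≤ M) : ∀ r ≤ k, kap M k r ≠ 0 := by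
  intro r
  induction r with
  | zero => intro _; exact one_ne_zero
  | succ r ih =>
    intro hr
    rw [kap]
    apply mul_ne_zero (ih (by omega))
    apply mul_ne_zero
    · exact_mod_cast (by omega : k - r ≠ 0)
    · exact_mod_cast (by omega : M - (k - r - 1) ≠ 0)

section

variable {K : Type*} [Field K] [CharZero K] {V : Type*} [AddCommGroup V] [Module K V]

lemma e_pow_f_pow_kap {H e f : Module.End K V} (t : Sl2 H e f) {w : V} {M : ℕ}
    (hw : H w = (M : K) • w) (hew : e w = 0) {k : ℕ} (hk : k ≤ M) :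
    ∀ r ≤ k, (e ^ r) ((f ^ k) w) = (kap M k r : K) • (f ^ (k - r)) w := by
  have key : ∀ l : ℕ, e ((f ^ (l + 1)) w) = (((l : K) + 1) * ((M : K) - l)) • (f ^ l) w := by
    intro l
    have h1 := Sl2.f_e_pow t.neg_swap (v := w) (μ := (M : K)) (by
      rw [LinearMap.neg_apply, hew, neg_zero]) (by rw [LinearMap.neg_apply, hw, neg_smul]) l
    have e1 : ∀ p : ℕ, ((-f) ^ p) w = ((-1 : K) ^ p) • (f ^ p) w := by
      intro p
      induction p with
      | zero => simp
      | succ p ih =>
        rw [pow_succ', Module.End.mul_apply, ih, LinearMap.neg_apply, map_smul, pow_succ',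
          pow_succ' f, Module.End.mul_apply, neg_one_mul, neg_smul]
    rw [e1, e1, LinearMap.neg_apply, map_smul, pow_succ, mul_neg_one, neg_smul, neg_neg,
      smul_comm] at h1
    have h2 : ((-1 : K) ^ l) ≠ 0 := pow_ne_zero _ (by norm_num)
    exact smul_right_injective V h2 h1
  intro r
  induction r with
  | zero => intro _; simp [kap]
  | succ r ih =>
    intro hr
    obtain ⟨l, hl⟩ : ∃ l, k - r = l + 1 := ⟨k - r - 1, by omega⟩
    rw [pow_succ', Module.End.mul_apply, ih (by omega), map_smul, hl, key, smul_smul,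
      show k - (r + 1) = l by omega, kap, hl, Nat.add_sub_cancel]
    congr 1
    rw [Rat.cast_mul, Rat.cast_mul, Rat.cast_natCast, Rat.cast_natCast,
      Nat.cast_sub (show l ≤ M by omega)]
    push_cast
    ring

end

/-- **Universal inverse.** -/
theorem exists_coeffs (M T : ℕ) : ∃ c : ℕ → ℚ, ∀ (K V : Type v) [Field K] [CharZero K]
    [AddCommGroup V] [Module K V] (H e f : Module.End K V), Sl2 H e f →
    ∀ y : V, H y = (M : K) • y → (e ^ T) y = 0 →
      (e ^ M) (∑ s ∈ range T, (c s : K) • (f ^ (M + s)) ((e ^ s) y)) = y := by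
  induction T with
  | zero =>
    refine ⟨0, ?_⟩
    intro K V _ _ _ _ H e f t y _ h0
    rw [pow_zero, Module.End.one_apply] at h0
    rw [h0]
    simp
  | succ T ih =>
    obtain ⟨c, hc⟩ := ih
    set M' := M + 2 * T with hM'
    set c₁ := kap M' (M + T) M with hc₁
    set c₂ := kap M' T T with hc₂
    set μ := (∑ s ∈ range T, c s * kap M' T s) * c₁ with hμ
    have hc₁0 : c₁ ≠ 0 := kap_ne_zero (by omega) _ (by omega)
    have hc₂0 : c₂ ≠ 0 := kap_ne_zero (by omega) _ le_rfl
    refine ⟨fun s => if s < T then c s else c₂⁻¹ * (1 - μ) / c₁, ?_⟩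
    intro K V _ _ _ _ H e f t y hy h0
    set w := (e ^ T) y with hw
    have hew : e w = 0 := by rw [hw, ← Module.End.mul_apply, ← pow_succ']; exact h0
    have hHw : H w = (M' : K) • w := by
      rw [hw, t.h_e_pow' hy]
      congr 1
      rw [hM']; push_cast; ring
    have h1 := e_pow_f_pow_kap t hHw hew (k := M + T) (by omega) M (by omega)
    have h2 := e_pow_f_pow_kap t hHw hew (k := T) (by omega) T le_rfl
    rw [Nat.add_sub_cancel_left, ← hc₁] at h1
    rw [Nat.sub_self, pow_zero, Module.End.one_apply, ← hc₂] at h2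
    have hHf : H ((f ^ T) w) = (M : K) • (f ^ T) w := by
      rw [t.h_f_pow' hHw]
      congr 1
      rw [hM']; push_cast; ring
    -- the truncated vector
    set y' := y - ((c₂⁻¹ : ℚ) : K) • (f ^ T) w with hy'
    have hHy' : H y' = (M : K) • y' := by
      rw [hy', map_sub, map_smul, hy, hHf, smul_sub, smul_comm]
    have h0' : (e ^ T) y' = 0 := by
      rw [hy', map_sub, map_smul, h2, smul_smul, ← Rat.cast_mul, inv_mul_cancel₀ hc₂0,
        Rat.cast_one, one_smul, ← hw, sub_self]
    have h3 := hc K V H e f t y' hHy' h0'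
    have h4 : (e ^ M) (∑ s ∈ range T, (c s : K) • (f ^ (M + s)) ((e ^ s) ((f ^ T) w))) =
        (μ : K) • (f ^ T) w := by
      have h5 : ∀ s ∈ range T, (c s : K) • (f ^ (M + s)) ((e ^ s) ((f ^ T) w)) =
          ((c s * kap M' T s : ℚ) : K) • (f ^ (M + T)) w := by
        intro s hs
        rw [Finset.mem_range] at hs
        rw [e_pow_f_pow_kap t hHw hew (k := T) (by omega) s hs.le, map_smul, smul_smul,
          ← Module.End.mul_apply, ← pow_add, show M + s + (T - s) = M + T by omega]
        push_cast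
        rfl
      rw [Finset.sum_congr rfl h5, ← Finset.sum_smul, map_smul, h1, smul_smul, hμ]
      congr 1
      push_cast
      rfl
    have h6 : y = y' + ((c₂⁻¹ : ℚ) : K) • (f ^ T) w := by rw [hy', sub_add_cancel]
    have h7 : ∀ z : V, (e ^ M) (∑ s ∈ range (T + 1),
        (((if s < T then c s else c₂⁻¹ * (1 - μ) / c₁ : ℚ)) : K) • (f ^ (M + s)) ((e ^ s) z)) =
        (e ^ M) (∑ s ∈ range T, (c s : K) • (f ^ (M + s)) ((e ^ s) z)) +
          (((c₂⁻¹ * (1 - μ) / c₁ : ℚ)) : K) • (e ^ M) ((f ^ (M + T)) ((e ^ T) z)) := by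
      intro z
      rw [Finset.sum_range_succ, map_add, if_neg (lt_irrefl T), map_smul]
      congr 2
      apply Finset.sum_congr rfl
      intro s hs
      rw [if_pos (Finset.mem_range.1 hs)]
    beta_reduce
    rw [h7, ← hw, h1, smul_smul, ← Rat.cast_mul]
    have h8 : (e ^ M) (∑ s ∈ range T, (c s : K) • (f ^ (M + s)) ((e ^ s) y)) =
        y' + ((c₂⁻¹ * μ : ℚ) : K) • (f ^ T) w := by
      conv_lhs => rw [h6]
      simp only [map_add, map_smul, smul_add, Finset.sum_add_distrib]
      rw [h3]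
      congr 1
      have h9 : ∀ s ∈ range T, (c s : K) • ((c₂⁻¹ : ℚ) : K) •
          (f ^ (M + s)) ((e ^ s) ((f ^ T) w)) = ((c₂⁻¹ : ℚ) : K) •
          ((c s : K) • (f ^ (M + s)) ((e ^ s) ((f ^ T) w))) := fun s _ => smul_comm _ _ _
      rw [Finset.sum_congr rfl h9, ← Finset.smul_sum, map_smul, h4, smul_smul, ← Rat.cast_mul]
    rw [h8, add_assoc, ← add_smul, ← Rat.cast_add,
      show c₂⁻¹ * μ + c₂⁻¹ * (1 - μ) / c₁ * c₁ = c₂⁻¹ by field_simp; ring, ← h6]

end Pool.Agent.W534
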