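import Pool.Agent.W534.Fam

/-!
# Systems of classes on the square of a variety
-/

open CategoryTheory AlgebraicGeometry Finset

universe u v

namespace Pool.Agent.W534

open Pool.Agent.H914 Pool.Agent.H447

section Lin

variable {K : Type*} [Field K] [CharZero K] {V : Type*} [AddCommGroup V] [Module K V]

/-- The product of the operators `1 - M / l` for `1 ≤ l ≤ k`. -/
noncomputable def killOp (M : Module.End K V) : ℕ → Module.End K V
  | 0 => 1
  | k + 1 => (1 - ((1 / ((k : ℚ) + 1) : ℚ) : K) • M) * killOp M k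

/-- The product of the numbers `1 - μ / l` for `1 ≤ l ≤ k`. -/
def killVal (μ : ℕ) : ℕ → ℚ
  | 0 => 1
  | k + 1 => (1 - 1 / ((k : ℚ) + 1) * μ) * killVal μ k

lemma killOp_eigen {M : Module.End K V} {x : V} {μ : ℕ} (hx : M x = (μ : K) • x) (k : ℕ) :
    killOp M k x = (killVal μ k : K) • x := by
  induction k with
  | zero => simp [killOp, killVal]
  | succ k ih =>
    rw [killOp, Module.End.mul_apply, ih, map_smul, LinearMap.sub_apply, Module.End.one_apply,
      LinearMap.smul_apply, hx, killVal]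
    rw [smul_smul, smul_sub, smul_smul, ← sub_smul]
    congr 1
    push_cast
    ring

lemma killVal_zero (k : ℕ) : killVal 0 k = 1 := by
  induction k with
  | zero => rfl
  | succ k ih => rw [killVal, ih]; simp

lemma killVal_eq_zero {μ k : ℕ} (h1 : 1 ≤ μ) (h2 : μ ≤ k) : killVal μ k = 0 := by
  induction k with
  | zero => omega
  | succ k ih =>
    rw [killVal]
    rcases h2.lt_or_eq with h | h
    · rw [ih (by omega), mul_zero]
    · rw [h]
      have : ((k : ℚ) + 1) ≠ 0 := Nat.cast_add_one_ne_zero k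
      push_cast
      rw [one_div, inv_mul_cancel₀ this, sub_self, zero_mul]

variable {gr : ℕ → Submodule K V} {n : ℕ} {L f : Module.End K V}

lemma string_eigen {i : ℕ} {a : V} (hp : (L ^ (n - i + 1)) a = 0)
    (hfv : ∀ j ≤ n - i,
      f ((L ^ j) a) = ((j : K) * (((n - i : ℕ) : K) - j + 1)) • (L ^ (j - 1)) a)
    {j : ℕ} (hj : j ≤ n - i) :
    (L * f + f * L) ((L ^ j) a) =
      ((j * (n - i - j + 1) + (j + 1) * (n - i - j) : ℕ) : K) • (L ^ j) a := by
  have e1 : L (f ((L ^ j) a)) = ((j : K) * (((n - i : ℕ) : K) - j + 1)) • (L ^ j) a := by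
    rw [hfv j hj, map_smul]
    rcases Nat.eq_zero_or_pos j with rfl | h0
    · simp
    · rw [← Module.End.mul_apply L, ← pow_succ', show j - 1 + 1 = j by omega]
  have e2 : f (L ((L ^ j) a)) = (((j : K) + 1) * (((n - i : ℕ) : K) - j)) • (L ^ j) a := by
    rw [← Module.End.mul_apply L, ← pow_succ']
    rcases hj.lt_or_eq with h | h
    · rw [hfv (j + 1) (by omega), Nat.add_sub_cancel]
      congr 1
      push_cast
      ring
    · rw [L_pow_gt hp (by omega), map_zero, ← h]
      simp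
  rw [LinearMap.add_apply, Module.End.mul_apply, Module.End.mul_apply, e1, e2, ← add_smul]
  congr 1
  push_cast [Nat.cast_sub hj]
  ring

/-- The projector to the primitive classes of the middle degree. -/
lemma killOp_string {i : ℕ} (hi : i ≤ n) {a : V} (hp : (L ^ (n - i + 1)) a = 0)
    (hfv : ∀ j ≤ n - i,
      f ((L ^ j) a) = ((j : K) * (((n - i : ℕ) : K) - j + 1)) • (L ^ (j - 1)) a) (j : ℕ) :
    killOp (L * f + f * L) (2 * n * n + n) ((L ^ j) a) = if i = n then (L ^ j) a else 0 := by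
  by_cases hj : j ≤ n - i
  · rw [killOp_eigen (string_eigen hp hfv hj)]
    split_ifs with h
    · subst h
      have : j = 0 := by omega
      subst this
      simp [killVal_zero]
    · rw [killVal_eq_zero, Rat.cast_zero, zero_smul]
      · rcases Nat.eq_zero_or_pos j with rfl | h0
        · have : 0 < n - i := by omega
          simp; omega
        · have : 0 < j * (n - i - j + 1) := Nat.mul_pos h0 (by omega)
          omega
      · have h1 : j * (n - i - j + 1) ≤ n * n := by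
          rcases Nat.eq_zero_or_pos j with rfl | h0
          · simp
          · exact Nat.mul_le_mul (by omega) (by omega)
        have h2 : (j + 1) * (n - i - j) ≤ n * n + n := by
          have : (j + 1) * (n - i - j) ≤ (n + 1) * n := Nat.mul_le_mul (by omega) (by omega)
          nlinarith
        nlinarith
  · rw [L_pow_gt hp (by omega), map_zero, ite_self]

end Lin

open VarClass Obj WeilCohomology

variable {k : Type u} [Field k] {𝒱 : VarClass k} {ops : CycleOps 𝒱}
  {W : WeilCohomology.{u, v} ops} {X Y Z : 𝒱.Obj} {d e : ℤ}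

lemma map_swap_swap' (c : W.H (X.prod Y)) :
    W.map (swap X Y) (W.map (swap Y X) c) = c := by
  refine W.kunneth_induction (p := fun c => W.map (swap X Y) (W.map (swap Y X) c) = c) ?_ ?_ c
  · intro a b ha hb
    rw [map_add, map_add, ha, hb]
  · intro i j a _ b _
    simp only [map_mul, ← W.map_comp, swap_fst, swap_snd]

variable {F G : Fam W}

/-- Inclusions are preserved by the exchange of the factors. -/
lemma Fam.op_swap (h : ∀ (e : ℤ) (φ : W.H X →ₗ[W.K] W.H Y), F.Op X Y e φ → G.Op X Y e φ) (e : ℤ)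
    (φ : W.H Y →ₗ[W.K] W.H X) (hφ : F.Op Y X e φ) : G.Op Y X e φ := by
  rcases hφ with ⟨p, hp, c, hc, rfl⟩ | ⟨h0, rfl⟩
  · refine Or.inl ⟨p, hp, c, ?_, rfl⟩
    have h1 := h ((p : ℤ) - X.dim) _ (Fam.Op.gen (by ring) (F.map (swap X Y) hc))
    have h2 := h1.mem (p := p) (by ring)
    rw [← map_swap_swap' c]
    exact G.map (swap Y X) h2
  · exact Or.inr ⟨h0, rfl⟩

lemma qop_kill {M : Module.End W.K (W.H X)} (hM : QOp W X X 0 M) (k : ℕ) :
    QOp W X X 0 (killOp M k) := by
  induction k with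
  | zero => exact rop_iff.1 rop_opAlg.one
  | succ k ih =>
    have e1 : killOp M (k + 1) = killOp M k -
        ((1 / ((k : ℚ) + 1) : ℚ) : W.K) • (M ∘ₗ killOp M k) := by
      apply LinearMap.ext
      intro a
      simp only [killOp, LinearMap.comp_apply, Module.End.mul_apply, LinearMap.sub_apply,
        Module.End.one_apply, LinearMap.smul_apply]
    rw [e1]
    exact ih.sub (((hM.comp ih).cast (by ring)).smul _)

lemma Fam.kill_left {M : Module.End W.K (W.H X)} (hM : QOp W X X 0 M)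
    (h : ∀ ψ : W.H X →ₗ[W.K] W.H X, F.Op X X d ψ → G.Op X X d (M ∘ₗ ψ))
    {φ : W.H X →ₗ[W.K] W.H X} (hφ : F.Op X X d φ) (k : ℕ) :
    F.Op X X d (killOp M k ∘ₗ φ) ∧ G.Op X X d (φ - killOp M k ∘ₗ φ) := by
  induction k with
  | zero =>
    have : killOp M 0 ∘ₗ φ = φ := by rw [killOp]; rfl
    rw [this, sub_self]
    exact ⟨hφ, Fam.Op.zero _ _ _ _⟩
  | succ k ih =>
    have e1 : killOp M (k + 1) ∘ₗ φ = killOp M k ∘ₗ φ -
        ((1 / ((k : ℚ) + 1) : ℚ) : W.K) • (M ∘ₗ (killOp M k ∘ₗ φ)) := by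
      apply LinearMap.ext
      intro a
      simp only [killOp, LinearMap.comp_apply, Module.End.mul_apply, LinearMap.sub_apply,
        Module.End.one_apply, LinearMap.smul_apply]
    rw [e1]
    refine ⟨ih.1.sub ((ih.1.comp_left hM).cast (by ring) |>.smul _), ?_⟩
    have e2 : φ - (killOp M k ∘ₗ φ - ((1 / ((k : ℚ) + 1) : ℚ) : W.K) •
        (M ∘ₗ (killOp M k ∘ₗ φ))) = (φ - killOp M k ∘ₗ φ) +
        ((1 / ((k : ℚ) + 1) : ℚ) : W.K) • (M ∘ₗ (killOp M k ∘ₗ φ)) := by abel
    rw [e2]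
    exact ih.2.add ((h _ ih.1).smul _)

lemma Fam.kill_right {M : Module.End W.K (W.H X)} (hM : QOp W X X 0 M)
    (h : ∀ ψ : W.H X →ₗ[W.K] W.H X, F.Op X X d ψ → G.Op X X d (ψ ∘ₗ M)) (k : ℕ) :
    ∀ {φ : W.H X →ₗ[W.K] W.H X}, F.Op X X d φ →
    F.Op X X d (φ ∘ₗ killOp M k) ∧ G.Op X X d (φ - φ ∘ₗ killOp M k) := by
  induction k with
  | zero =>
    intro φ hφ
    have : φ ∘ₗ killOp M 0 = φ := by rw [killOp]; rfl
    rw [this, sub_self]
    exact ⟨hφ, Fam.Op.zero _ _ _ _⟩
  | succ k ih =>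
    intro φ hφ
    set φ' : W.H X →ₗ[W.K] W.H X := φ - ((1 / ((k : ℚ) + 1) : ℚ) : W.K) • (φ ∘ₗ M) with hφ'
    have e1 : φ ∘ₗ killOp M (k + 1) = φ' ∘ₗ killOp M k := by
      apply LinearMap.ext
      intro a
      simp only [hφ', killOp, LinearMap.comp_apply, Module.End.mul_apply, LinearMap.sub_apply,
        Module.End.one_apply, LinearMap.smul_apply, map_sub, map_smul]
    have h1 : F.Op X X d φ' := hφ.sub (((hφ.comp_right hM).cast (by ring)).smul _)
    rw [e1]
    refine ⟨(ih h1).1, ?_⟩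
    have e2 : φ - φ' ∘ₗ killOp M k = (φ' - φ' ∘ₗ killOp M k) +
        ((1 / ((k : ℚ) + 1) : ℚ) : W.K) • (φ ∘ₗ M) := by
      rw [hφ']; abel
    rw [e2]
    exact (ih h1).2.add ((h _ hφ).smul _)

/-- **Systems of classes on the square.** -/
theorem Fam.square {i : Y ⟶ X} {D : X.Cycles} (hdim : X.dim = Y.dim + 1)
    (hD : X.IsCyc 1 D) (hY : W.cl X (ops.push i Y.V.fundCycle) = W.cl X D)
    (hHL : HardLefschetz W X D) (hB : LefschetzB W X D)
    (h : ∀ (e : ℤ) (φ : W.H X →ₗ[W.K] W.H Y), F.Op X Y e φ → G.Op X Y e φ)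
    {φ : W.H X →ₗ[W.K] W.H X} (hφ : F.Op X X d φ) :
    ∃ ψ, G.Op X X d ψ ∧ MiddlePrimitive W X D (φ - ψ) := by
  have hLh : IsHom (W.gr X) 2 (LinearMap.mulLeft W.K (W.cl X D)) := isHom_mulLeft W hD
  obtain ⟨f, t, hf, hfv⟩ := exists_sl2 (W.isInternal X) hLh W_hbd hHL
  set L := LinearMap.mulLeft W.K (W.cl X D) with hL
  have hfR := rop_iff.1 (rop_lower hD hHL hB hfv)
  have hLR : QOp W X X 1 L := rop_iff.1 (rop_mulLeft hD)
  have hγι : ∀ a, W.push i (W.map i a) = L a := by
    intro a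
    have h1 := W.push_mul i 1 a
    rw [one_mul, ← W.cl_fund Y, ← W.cl_push, hY] at h1
    exact h1
  have hpush : QOp W Y X 1 (W.push i) := (qop_push i).cast (by rw [hdim]; push_cast; ring)
  have hleft : ∀ (e : ℤ) (ψ : W.H X →ₗ[W.K] W.H X), F.Op X X e ψ → G.Op X X (e + 1) (L ∘ₗ ψ) := by
    intro e ψ hψ
    have h1 := (h _ _ (hψ.comp_left (qop_pull i))).comp_left hpush
    have h2 : W.push i ∘ₗ ((W.map i).toLinearMap ∘ₗ ψ) = L ∘ₗ ψ :=
      LinearMap.ext fun a => hγι _
    rw [h2] at h1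
    exact h1.cast (by ring)
  have hright : ∀ (e : ℤ) (ψ : W.H X →ₗ[W.K] W.H X), F.Op X X e ψ →
      G.Op X X (e + 1) (ψ ∘ₗ L) := by
    intro e ψ hψ
    have h1 := (Fam.op_swap h _ _ (hψ.comp_right hpush)).comp_right (qop_pull i)
    have h2 : (ψ ∘ₗ W.push i) ∘ₗ (W.map i).toLinearMap = ψ ∘ₗ L :=
      LinearMap.ext fun a => congrArg ψ (hγι _)
    rw [h2] at h1
    exact h1.cast (by ring)
  set M := L * f + f * L with hM
  have hMQ : QOp W X X 0 M := by
    have a1 : QOp W X X 0 (L ∘ₗ f) := (hLR.comp hfR).cast (by ring)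
    have a2 : QOp W X X 0 (f ∘ₗ L) := (hfR.comp hLR).cast (by ring)
    exact a1.add a2
  have hMl : ∀ ψ : W.H X →ₗ[W.K] W.H X, F.Op X X d ψ → G.Op X X d (M ∘ₗ ψ) := by
    intro ψ hψ
    have h1 : G.Op X X d (L ∘ₗ (f ∘ₗ ψ)) := (hleft _ _ (hψ.comp_left hfR)).cast (by ring)
    have h2 : G.Op X X d (f ∘ₗ (L ∘ₗ ψ)) := ((hleft _ _ hψ).comp_left hfR).cast (by ring)
    exact h1.add h2
  have hMr : ∀ ψ : W.H X →ₗ[W.K] W.H X, F.Op X X d ψ → G.Op X X d (ψ ∘ₗ M) := by
    intro ψ hψ
    have h1 : G.Op X X d ((ψ ∘ₗ L) ∘ₗ f) := ((hright _ _ hψ).comp_right hfR).cast (by ring)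
    have h2 : G.Op X X d ((ψ ∘ₗ f) ∘ₗ L) := (hright _ _ (hψ.comp_right hfR)).cast (by ring)
    have h3 := h1.add h2
    have e1 : (ψ ∘ₗ L) ∘ₗ f + (ψ ∘ₗ f) ∘ₗ L = ψ ∘ₗ M := by
      apply LinearMap.ext
      intro a
      simp only [hM, LinearMap.add_apply, LinearMap.comp_apply, Module.End.mul_apply, map_add]
    rwa [e1] at h3
  set π := killOp M (2 * X.dim * X.dim + X.dim) with hπ
  obtain ⟨h1, h2⟩ := Fam.kill_left hMQ hMl hφ (2 * X.dim * X.dim + X.dim)
  obtain ⟨h3, h4⟩ := Fam.kill_right hMQ hMr (2 * X.dim * X.dim + X.dim) h1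
  refine ⟨φ - (π ∘ₗ φ) ∘ₗ π, ?_, ?_⟩
  · have e1 : φ - (π ∘ₗ φ) ∘ₗ π = (φ - π ∘ₗ φ) + (π ∘ₗ φ - (π ∘ₗ φ) ∘ₗ π) := by abel
    rw [e1]
    exact h2.add h4
  · rw [sub_sub_cancel]
    -- the values of the projector
    have hstr : ∀ i ≤ X.dim, ∀ a ∈ W.gr X i, (L ^ (X.dim - i + 1)) a = 0 → ∀ j,
        π ((L ^ j) a) = if i = X.dim then (L ^ j) a else 0 := fun i hi a ha hp j =>
      killOp_string hi hp (hfv i hi a ha hp) j
    have hA : ∀ x, π x ∈ W.gr X X.dim ∧ L (π x) = 0 := by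
      intro x
      refine lef_induction' (W.isInternal X) hLh W_hbd hHL
        (p := fun x => π x ∈ W.gr X X.dim ∧ L (π x) = 0) ?_ ?_ x
      · intro a b ha hb
        rw [map_add, map_add]
        exact ⟨Submodule.add_mem _ ha.1 hb.1, by rw [ha.2, hb.2, add_zero]⟩
      · intro i hi a ha hp j
        rw [hstr i hi a ha hp j]
        split_ifs with h5
        · subst h5
          rcases Nat.eq_zero_or_pos j with rfl | h0
          · refine ⟨ha, ?_⟩
            simpa using hp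
          · rw [L_pow_gt hp (by omega)]
            exact ⟨Submodule.zero_mem _, map_zero _⟩
        · exact ⟨Submodule.zero_mem _, map_zero _⟩
    have hB : ∀ x, π (L x) = 0 := by
      intro x
      refine lef_induction' (W.isInternal X) hLh W_hbd hHL
        (p := fun x => π (L x) = 0) ?_ ?_ x
      · intro a b ha hb
        rw [map_add, map_add, ha, hb, add_zero]
      · intro i hi a ha hp j
        rw [← Module.End.mul_apply L, ← pow_succ', hstr i hi a ha hp (j + 1)]
        split_ifs with h5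
        · exact L_pow_gt hp (by omega)
        · rfl
    have hC : ∀ j, j ≠ X.dim → ∀ x ∈ W.gr X j, π x = 0 := by
      intro j hj x hx
      have h6 := KOp.isHom (qop_kill hMQ (2 * X.dim * X.dim + X.dim)).kop j x
        (by rw [grZ_natCast]; exact hx)
      rw [mul_zero, add_zero, grZ_natCast] at h6
      have h7 := proj_same (W.isInternal X) (hA x).1
      rw [proj_ne (W.isInternal X) h6 hj] at h7
      exact h7.symm
    refine ⟨?_, ?_, ?_⟩
    · intro j hj a ha
      rw [LinearMap.comp_apply, hC j hj a ha, map_zero]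
    · intro a
      rw [LinearMap.comp_apply]
      have := hB a
      rw [hL, LinearMap.mulLeft_apply] at this
      rw [this, map_zero]
    · intro a
      exact hA _

end Pool.Agent.W534
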