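import Pool.Agent.W534.FamDefs

/-!
# Frobenius endomorphisms and Tate classes: definitions
-/

open CategoryTheory AlgebraicGeometry

universe u v

namespace Pool.Agent.W534

open Pool.Agent.H914 VarClass Obj WeilCohomology

variable {k : Type u} [Field k] {𝒱 : VarClass k} {ops : CycleOps 𝒱}

/-- The iterates of an endomorphism. -/
noncomputable def iter {X : 𝒱.Obj} (f : X ⟶ X) : ℕ → (X ⟶ X)
  | 0 => 𝟙 X
  | s + 1 => iter f s ≫ f

/-- A system of Frobenius endomorphisms for varieties over an algebraic closure of the field with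
`p` elements: each variety `X` has an endomorphism `Fr X`, the Frobenius endomorphism of a model
of `X` over the field with `p ^ e X` elements. Each morphism `f` from `X` to `Y` is defined over a
finite field, hence it commutes with suitable powers of the Frobenius endomorphisms of `X` and `Y`,
relative to the same finite field. Each cycle of codimension `j` is defined over a finite field,
with `q` elements say, and then the Frobenius endomorphism multiplies its class by `q ^ j`. The
Frobenius endomorphism relative to the field with `q` elements has degree `q ^ dim X`. -/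
structure FrobSystem (W : WeilCohomology.{u, v} ops) (p : ℕ) where
  Fr : ∀ X : 𝒱.Obj, X ⟶ X
  e : 𝒱.Obj → ℕ
  p_pos : 0 < p
  e_pos : ∀ X, 0 < e X
  comm : ∀ {X Y : 𝒱.Obj} (f : X ⟶ Y), ∃ a b, 0 < a ∧ a * e X = b * e Y ∧
    iter (Fr X) a ≫ f = f ≫ iter (Fr Y) b
  cyc : ∀ {X : 𝒱.Obj} {j : ℕ} {z : X.Cycles}, X.IsCyc j z → ∃ s, 0 < s ∧
    W.map (iter (Fr X) s) (W.cl X z) = ((p : W.K) ^ (e X * s * j)) • W.cl X z
  deg : ∀ {X : 𝒱.Obj} {c : W.H X}, c ∈ W.gr X (2 * X.dim) →
    W.map (Fr X) c = ((p : W.K) ^ (e X * X.dim)) • c

/-- The Tate classes of degree `2 j`: the classes on which the Frobenius endomorphism relative to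
some finite field, with `q` elements, acts as multiplication by `q ^ j`. -/
def IsTate {W : WeilCohomology.{u, v} ops} {p : ℕ} (Φ : FrobSystem W p) (X : 𝒱.Obj) (j : ℕ)
    (c : W.H X) : Prop :=
  c ∈ W.gr X (2 * j) ∧ ∃ s, 0 < s ∧
    W.map (iter (Φ.Fr X) s) c = ((p : W.K) ^ (Φ.e X * s * j)) • c

/-- The Tate conjecture for `X` in codimension `j`: the Tate classes of degree `2 j` are linear
combinations of classes of algebraic cycles of codimension `j`, with coefficients in `K`. -/
def TateIn {W : WeilCohomology.{u, v} ops} {p : ℕ} (Φ : FrobSystem W p) (X : 𝒱.Obj) (j : ℕ) :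
    Prop :=
  ∀ c, IsTate Φ X j c → c ∈ spanCycles W X j

/-- The action of a class on `X × Y` on the cohomology of `X`. -/
noncomputable def actC (W : WeilCohomology.{u, v} ops) {X Y : 𝒱.Obj} (c : W.H (X.prod Y))
    (a : W.H X) : W.H Y :=
  W.corr c a

/-- The class `c` on `X × X` acts as zero on `H^j(X)` for `j ≠ dim X`, and on the multiples of the
class of `D`. -/
def ClassKillsNonprimitive (W : WeilCohomology.{u, v} ops) (X : 𝒱.Obj) (D : X.Cycles)
    (c : W.H (X.prod X)) : Prop :=
  (∀ j, j ≠ X.dim → ∀ a ∈ W.gr X j, actC W c a = 0) ∧ ∀ a, actC W c (W.cl X D * a) = 0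

/-- The values of the action of the class `c` on `H(X)` have degree `dim X`, and their product with
the class of `D` is zero. -/
def ClassHasPrimitiveValues (W : WeilCohomology.{u, v} ops) (X : 𝒱.Obj) (D : X.Cycles)
    (c : W.H (X.prod X)) : Prop :=
  ∀ a, actC W c a ∈ W.gr X X.dim ∧ W.cl X D * actC W c a = 0

/-- The action of the class `c` on `H(Y)` is zero on the image of the pull-back `i^*`, and its
values are in the kernel of the push-forward `i_*`. -/
def ClassOnlyVanishing (W : WeilCohomology.{u, v} ops) {X Y : 𝒱.Obj} (i : Y ⟶ X)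
    (c : W.H (Y.prod Y)) : Prop :=
  (∀ a, actC W c (W.map i a) = 0) ∧ ∀ b, W.push i (actC W c b) = 0

/-- Every Tate class of degree `2 j` on `X × X` is the sum of a `K`-linear combination of classes of
cycles and of a class which acts as zero on the cohomology of `X` in the degrees different from
`dim X` and on the multiples of the class of `D`, with values primitive classes of degree `dim X`.
Every Tate class of degree `2 j` on `Y × Y` is the sum of a `K`-linear combination of classes of
cycles and of a class which acts as zero on the image of `i^*`, with values in the kernel of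
`i_*`. -/
def TateOnSquares {W : WeilCohomology.{u, v} ops} {p : ℕ} (Φ : FrobSystem W p) {X Y : 𝒱.Obj}
    (i : Y ⟶ X) (D : X.Cycles) (j : ℕ) : Prop :=
  (∀ c, IsTate Φ (X.prod X) j c → ∃ s ∈ spanCycles W (X.prod X) j,
    ClassKillsNonprimitive W X D (c - s) ∧ ClassHasPrimitiveValues W X D (c - s)) ∧
  ∀ c, IsTate Φ (Y.prod Y) j c → ∃ s ∈ spanCycles W (Y.prod Y) j,
    ClassOnlyVanishing W i (c - s)

end Pool.Agent.W534
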