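import Pool.Agent.W534.FamB
import Pool.Agent.W534.TateDefs

/-!
# Tate classes on the product of a variety and a hyperplane section
-/

open CategoryTheory AlgebraicGeometry Finset

universe u v

namespace Pool.Agent.W534

open Pool.Agent.H914 Pool.Agent.H447 VarClass Obj WeilCohomology

variable {k : Type u} [Field k] {𝒱 : VarClass k} {ops : CycleOps 𝒱}
  {W : WeilCohomology.{u, v} ops} {X Y Z : 𝒱.Obj} {p : ℕ}

lemma map_iter (f : X ⟶ X) (s : ℕ) (c : W.H X) : W.map (iter f s) c = (W.map f)^[s] c := by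
  induction s generalizing c with
  | zero => rw [iter, W.map_id]; rfl
  | succ s ih => rw [iter, W.map_comp, ih, Function.iterate_succ, Function.comp_apply]

lemma map_iter_mul (f : X ⟶ X) (s t : ℕ) (c : W.H X) :
    W.map (iter f (s * t)) c = (W.map (iter f s))^[t] c := by
  have : (⇑(W.map (iter f s)) : W.H X → W.H X) = (W.map f)^[s] := funext (map_iter f s)
  rw [map_iter, this, Function.iterate_mul]

lemma iterate_eig {V : Type*} {K : Type*} [Field K] [AddCommGroup V] [Module K V]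
    {g : V → V} (hg : ∀ (a : K) x, g (a • x) = a • g x) {μ : K} {c : V} (hc : g c = μ • c)
    (t : ℕ) : g^[t] c = μ ^ t • c := by
  induction t with
  | zero => simp
  | succ t ih => rw [Function.iterate_succ_apply', ih, hg, hc, smul_smul, pow_succ]

variable (Φ : FrobSystem W p)

lemma frob_mul {s : ℕ} {j : ℕ} {c : W.H X}
    (h : W.map (iter (Φ.Fr X) s) c = ((p : W.K) ^ (Φ.e X * s * j)) • c) (t : ℕ) :
    W.map (iter (Φ.Fr X) (s * t)) c = ((p : W.K) ^ (Φ.e X * (s * t) * j)) • c := by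
  rw [map_iter_mul, iterate_eig (fun a x => map_smul _ a x) h, ← pow_mul]
  congr 2
  ring

lemma frob_mul' {s : ℕ} {j : ℕ} {c : W.H X}
    (h : W.map (iter (Φ.Fr X) s) c = ((p : W.K) ^ (Φ.e X * s * j)) • c) (t : ℕ) :
    W.map (iter (Φ.Fr X) (t * s)) c = ((p : W.K) ^ (Φ.e X * (t * s) * j)) • c := by
  rw [mul_comm t s]
  exact frob_mul Φ h t

include Φ in
lemma cast_p_ne : ((p : ℕ) : W.K) ≠ 0 := Nat.cast_ne_zero.2 Φ.p_pos.ne'

lemma tr_iter (s : ℕ) (x : W.H X) :
    W.tr X (W.map (iter (Φ.Fr X) s) x) = (p : W.K) ^ (Φ.e X * s * X.dim) * W.tr X x := by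
  refine gr_induction (W.isInternal X) (p := fun x =>
    W.tr X (W.map (iter (Φ.Fr X) s) x) = (p : W.K) ^ (Φ.e X * s * X.dim) * W.tr X x) ?_ ?_ x
  · intro i x hx
    by_cases hi : i = 2 * X.dim
    · subst hi
      have h1 : W.map (iter (Φ.Fr X) 1) x = ((p : W.K) ^ (Φ.e X * 1 * X.dim)) • x := by
        rw [map_iter, Function.iterate_one, Φ.deg hx, mul_one]
      have h2 := frob_mul Φ h1 s
      rw [one_mul] at h2
      rw [h2, map_smul, smul_eq_mul]
    · rw [W.tr_eq_zero (W.map_mem _ hx) hi, W.tr_eq_zero hx hi, mul_zero]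
  · intro x y hx hy
    rw [map_add, map_add, map_add, hx, hy, mul_add]

lemma map_iter_injective (s : ℕ) : Function.Injective (W.map (iter (Φ.Fr X) s)) := by
  rw [injective_iff_map_eq_zero]
  intro x h0
  apply W.nondeg
  intro y
  have h1 := tr_iter Φ s (x * y)
  rw [map_mul, h0, zero_mul, map_zero] at h1
  rcases mul_eq_zero.1 h1.symm with h2 | h2
  · exact absurd h2 (pow_ne_zero _ (cast_p_ne Φ))
  · exact h2

lemma map_iter_surjective (s : ℕ) : Function.Surjective (W.map (iter (Φ.Fr X) s)) := by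
  have h1 : Function.Injective (W.map (iter (Φ.Fr X) s)).toLinearMap := map_iter_injective Φ s
  exact LinearMap.injective_iff_surjective.1 h1

/-- Compatibility with morphisms for multiples. -/
lemma frob_comm (f : X ⟶ Y) : ∃ a b, 0 < a ∧ 0 < b ∧ a * Φ.e X = b * Φ.e Y ∧
    ∀ (t : ℕ) (y : W.H Y), W.map (iter (Φ.Fr X) (a * t)) (W.map f y) =
      W.map f (W.map (iter (Φ.Fr Y) (b * t)) y) := by
  obtain ⟨a, b, ha, hab, h⟩ := Φ.comm f
  refine ⟨a, b, ha, ?_, hab, ?_⟩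
  · rcases Nat.eq_zero_or_pos b with h0 | h0
    · rw [h0, zero_mul] at hab
      have := Nat.mul_pos ha (Φ.e_pos X)
      omega
    · exact h0
  · intro t y
    have h1 : ∀ y : W.H Y, W.map (iter (Φ.Fr X) a) (W.map f y) =
        W.map f (W.map (iter (Φ.Fr Y) b) y) := by
      intro y
      rw [← W.map_comp, ← W.map_comp, h]
    rw [map_iter_mul, map_iter_mul]
    induction t generalizing y with
    | zero => rfl
    | succ t ih =>
      rw [Function.iterate_succ_apply, Function.iterate_succ_apply, h1, ih]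

/-- The system of the Tate classes. -/
noncomputable def tateFam : Fam W where
  T Z j := {c | IsTate Φ Z j c}
  mem_gr := fun hc => hc.1
  zero Z j := ⟨Submodule.zero_mem _, 1, one_pos, by rw [map_zero, smul_zero]⟩
  add := by
    rintro Z j c d ⟨hc, s, hs, h1⟩ ⟨hd, t, ht, h2⟩
    refine ⟨Submodule.add_mem _ hc hd, s * t, Nat.mul_pos hs ht, ?_⟩
    rw [map_add, frob_mul Φ h1 t, frob_mul' Φ h2 s, smul_add]
  smul := by
    rintro Z j q c ⟨hc, s, hs, h1⟩
    refine ⟨Submodule.smul_mem _ _ hc, s, hs, ?_⟩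
    rw [map_smul, h1, smul_comm]
  cl_mul := by
    rintro Z j q z c hz ⟨hc, s, hs, h1⟩
    obtain ⟨t, ht, h2⟩ := Φ.cyc hz
    refine ⟨?_, s * t, Nat.mul_pos hs ht, ?_⟩
    · have := W.mul_mem (W.cl_mem hz) hc
      rwa [show 2 * q + 2 * j = 2 * (q + j) by ring] at this
    · rw [map_mul, frob_mul Φ h1 t, frob_mul' Φ h2 s, smul_mul_smul_comm, ← pow_add, ← mul_add]
  map := by
    rintro Z Z' f j c ⟨hc, s, hs, h1⟩
    obtain ⟨a, b, ha, hb, hab, h⟩ := frob_comm Φ f
    refine ⟨W.map_mem f hc, a * s, Nat.mul_pos ha hs, ?_⟩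
    rw [h, frob_mul' Φ h1 b, map_smul]
    congr 2
    calc Φ.e Z' * (b * s) * j = (b * Φ.e Z') * s * j := by ring
      _ = Φ.e Z * (a * s) * j := by rw [← hab]; ring
  push := by
    rintro Z Z' f j q c ⟨hc, s, hs, h1⟩ hjq
    obtain ⟨a, b, ha, hb, hab, h⟩ := frob_comm Φ f
    refine ⟨?_, b * s, Nat.mul_pos hb hs, ?_⟩
    · have := W.push_mem f hc
      rwa [show ((2 * j : ℕ) : ℤ) + 2 * ((Z'.dim : ℤ) - Z.dim) = ((2 * q : ℕ) : ℤ) by
        push_cast; omega, grZ_natCast] at this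
    · have hE : Φ.e Z' * (b * s) = Φ.e Z * (a * s) := by
        calc Φ.e Z' * (b * s) = (b * Φ.e Z') * s := by ring
          _ = Φ.e Z * (a * s) := by rw [← hab]; ring
      apply W.tr_ext
      intro y'
      obtain ⟨y, rfl⟩ := map_iter_surjective Φ (b * s) y'
      have h3 := tr_iter Φ (b * s) (W.push f c * y)
      have h4 := tr_iter Φ (a * s) (c * W.map f y)
      rw [map_mul, W.tr_push] at h3
      rw [map_mul, frob_mul' Φ h1 a, h, smul_mul_assoc, map_smul, ← W.tr_push, smul_eq_mul] at h4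
      apply mul_left_cancel₀ (pow_ne_zero (Φ.e Z * (a * s) * Z.dim) (cast_p_ne Φ))
      rw [h3, smul_mul_assoc, map_smul, smul_eq_mul, hE]
      calc (p : W.K) ^ (Φ.e Z * (a * s) * Z.dim) * ((p : W.K) ^ (Φ.e Z * (a * s) * Z'.dim) *
            W.tr Z (c * W.map f y))
          = (p : W.K) ^ (Φ.e Z * (a * s) * Z'.dim) * ((p : W.K) ^ (Φ.e Z * (a * s) * Z.dim) *
            W.tr Z (c * W.map f y)) := by ring
        _ = (p : W.K) ^ (Φ.e Z * (a * s) * Z'.dim) * ((p : W.K) ^ (Φ.e Z * (a * s) * j) *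
            W.tr Z' (W.push f c * W.map (iter (Φ.Fr Z') (b * s)) y)) := by rw [← h4]
        _ = (p : W.K) ^ (Φ.e Z * (a * s) * (Z'.dim + j)) *
            W.tr Z' (W.push f c * W.map (iter (Φ.Fr Z') (b * s)) y) := by
          rw [← mul_assoc, ← pow_add, ← mul_add]
        _ = (p : W.K) ^ (Φ.e Z * (a * s) * (q + Z.dim)) *
            W.tr Z' (W.push f c * W.map (iter (Φ.Fr Z') (b * s)) y) := by
          rw [show Z'.dim + j = q + Z.dim by omega]
        _ = _ := by rw [mul_add, pow_add]; ring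

lemma span_le_tate (Z : 𝒱.Obj) (j : ℕ) : (spanFam W).T Z j ⊆ (tateFam Φ).T Z j := by
  intro c hc
  have hc' : c ∈ spanCycles W Z j := hc
  induction hc' using Submodule.span_induction with
  | mem x hx =>
    obtain ⟨r, hr, w, hw, rfl⟩ := hx
    obtain rfl : r = j := by exact_mod_cast hr
    obtain ⟨s, hs, h⟩ := Φ.cyc hw
    exact ⟨W.cl_mem hw, s, hs, h⟩
  | zero => exact (tateFam Φ).zero _ _
  | add x y hx' hy' hx hy => exact (tateFam Φ).add (hx hx') (hy hy')
  | smul a x hx' hx =>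
    obtain ⟨hc, s, hs, h1⟩ := hx hx'
    exact ⟨Submodule.smul_mem _ _ hc, s, hs, by rw [map_smul, h1, smul_comm]⟩

variable {Φ} {i : Y ⟶ X} {D : X.Cycles}

/-- Saturation of the Tate classes. -/
lemma tate_sat (hdim : X.dim = Y.dim + 1) (hD : X.IsCyc 1 D)
    (hY : W.cl X (ops.push i Y.V.fundCycle) = W.cl X D) (hHL : HardLefschetz W X D)
    (hWL : WeakLefschetz W i) {c : W.H (X.prod Y)} (hc : c ∈ W.gr (X.prod Y) (2 * Y.dim))
    (h : W.cl _ (mixSum ops i D) * c ∈ spanCycles W (X.prod Y) X.dim) :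
    c ∈ (tateFam Φ).T (X.prod Y) Y.dim := by
  have hE := isCyc_mixSum (Y := Y) (i := i) (ops := ops) hD
  obtain ⟨-, s, hs, h1⟩ := span_le_tate Φ _ _ h
  obtain ⟨t, ht, h2⟩ := Φ.cyc hE
  refine ⟨hc, s * t, Nat.mul_pos hs ht, ?_⟩
  have h3 := frob_mul Φ h1 t
  have h4 := frob_mul' Φ h2 s
  have h5 : ((p : W.K) ^ (Φ.e (X.prod Y) * (s * t))) •
      (W.cl _ (mixSum ops i D) * W.map (iter (Φ.Fr (X.prod Y)) (s * t)) c) =
      ((p : W.K) ^ (Φ.e (X.prod Y) * (s * t))) • (W.cl _ (mixSum ops i D) *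
        (((p : W.K) ^ (Φ.e (X.prod Y) * (s * t) * Y.dim)) • c)) := by
    rw [map_mul, h4, smul_mul_assoc, mul_one, hdim, mul_add, mul_one, pow_add,
      mul_comm (_ ^ _) (_ ^ _), mul_smul] at h3
    rw [h3, mul_smul_comm]
  have h6 := smul_right_injective _ (pow_ne_zero (Φ.e (X.prod Y) * (s * t)) (cast_p_ne Φ)) h5
  rw [← sub_eq_zero, ← mul_sub] at h6
  rw [← sub_eq_zero]
  apply mixSum_inj hdim hD hY hHL hWL _ h6
  exact Submodule.sub_mem _ (W.map_mem _ hc) (Submodule.smul_mem _ _ hc)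

lemma tateIn_iff (Z : 𝒱.Obj) (j : ℕ) :
    TateIn Φ Z j ↔ (tateFam Φ).T Z j ⊆ (spanFam W).T Z j := Iff.rfl

theorem lefschetzB_of_tate (hdim : X.dim = Y.dim + 1) (hD : X.IsCyc 1 D)
    (hY : W.cl X (ops.push i Y.V.fundCycle) = W.cl X D) (hHL : HardLefschetz W X D)
    (hWL : WeakLefschetz W i) (h : TateIn Φ (X.prod Y) Y.dim) : LefschetzB W X D :=
  lefschetzB_of_fam hdim hD hY hHL hWL (F := tateFam Φ)
    (fun _ hc h1 => tate_sat hdim hD hY hHL hWL hc h1) h

theorem tate_hyperplane (hdim : X.dim = Y.dim + 1) (hD : X.IsCyc 1 D)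
    (hY : W.cl X (ops.push i Y.V.fundCycle) = W.cl X D) (hHL : HardLefschetz W X D)
    (hWL : WeakLefschetz W i) :
    List.TFAE [
      TateIn Φ (X.prod Y) Y.dim,
      ∀ j, TateIn Φ (X.prod Y) j,
      LefschetzB W X D ∧ TateIn Φ (X.prod Y) X.dim] := by
  tfae_have 1 → 2 := by
    intro h
    have hB := lefschetzB_of_tate hdim hD hY hHL hWL h
    refine fun j => (tateIn_iff _ j).2 (Fam.op_iff.1
      (fun e φ hφ => Fam.transfer' hdim hD hY hHL hWL hB ?_ hφ) j)
    rintro ψ hψ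
    obtain ⟨c, hc, rfl⟩ := hψ.exists_class (p := Y.dim) (by omega)
    exact Fam.Op.gen (p := Y.dim) (by omega) (h c hc)
  tfae_have 2 → 3 := fun h => ⟨lefschetzB_of_tate hdim hD hY hHL hWL (h Y.dim), h X.dim⟩
  tfae_have 3 → 1 := by
    rintro ⟨hB, h⟩
    refine (tateIn_iff _ _).2 (Fam.op_iff.1
      (fun e φ hφ => Fam.transfer hdim hD hY hHL hWL hB ?_ hφ) Y.dim)
    rintro ψ hψ
    obtain ⟨c, hc, rfl⟩ := hψ.exists_class (p := X.dim) (by omega)
    exact Fam.Op.gen (p := X.dim) (by omega) (h c hc)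
  tfae_finish

theorem tate_factors (hdim : X.dim = Y.dim + 1) (hD : X.IsCyc 1 D)
    (hY : W.cl X (ops.push i Y.V.fundCycle) = W.cl X D) (hHL : HardLefschetz W X D)
    (hWL : WeakLefschetz W i) (h : TateIn Φ (X.prod Y) Y.dim) (j : ℕ) :
    TateIn Φ X j ∧ TateIn Φ Y j := by
  have h1 : ∀ j, TateIn Φ (X.prod Y) j := ((tate_hyperplane hdim hD hY hHL hWL).out 0 1).1 h
  exact Fam.factors (F := tateFam Φ) (G := spanFam W) hdim hD hY hHL hWL (Fam.op_iff.2 h1) j

theorem tate_squares (hdim : X.dim = Y.dim + 1) (hD : X.IsCyc 1 D)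
    (hY : W.cl X (ops.push i Y.V.fundCycle) = W.cl X D) (hHL : HardLefschetz W X D)
    (hWL : WeakLefschetz W i) (h : TateIn Φ (X.prod Y) Y.dim) (j : ℕ) :
    TateOnSquares Φ i D j := by
  have hB := lefschetzB_of_tate hdim hD hY hHL hWL h
  have h1 : ∀ j, TateIn Φ (X.prod Y) j := ((tate_hyperplane hdim hD hY hHL hWL).out 0 1).1 h
  have hXY := Fam.op_iff (F := tateFam Φ) (G := spanFam W).2 h1
  constructor
  · intro c hc
    obtain ⟨ψ, hψ, h1, h2, h3⟩ := Fam.square hdim hD hY hHL hB hXY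
      (Fam.Op.gen (F := tateFam Φ) (d := (j : ℤ) - X.dim) (by ring) hc)
    obtain ⟨s, hs, rfl⟩ := hψ.exists_class (p := j) (by ring)
    rw [← corr_sub''] at h1 h2 h3
    exact ⟨s, hs, ⟨h1, h2⟩, h3⟩
  · intro c hc
    obtain ⟨ψ, hψ, h1, h2⟩ := Fam.squareY hdim hD hY hHL hWL hB hXY
      (Fam.Op.gen (F := tateFam Φ) (d := (j : ℤ) - Y.dim) (by ring) hc)
    obtain ⟨s, hs, rfl⟩ := hψ.exists_class (p := j) (by ring)
    rw [← corr_sub''] at h1 h2
    exact ⟨s, hs, h1, h2⟩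

end Pool.Agent.W534
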