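import Pool.Agent.W534.Sq

/-!
# From a product to its factors
-/

open CategoryTheory AlgebraicGeometry Finset

universe u v

namespace Pool.Agent.W534

open Pool.Agent.H914 Pool.Agent.H447 VarClass Obj WeilCohomology

variable {k : Type u} [Field k] {𝒱 : VarClass k} {ops : CycleOps 𝒱}
  {W : WeilCohomology.{u, v} ops} {X Y Z : 𝒱.Obj} {d e : ℤ} {F G : Fam W}

/-- From a product to a factor. -/
lemma Fam.of_prod (h : ∀ p, F.T (Z.prod Y) p ⊆ G.T (Z.prod Y) p) {η : Z.Cycles}
    (hη : Z.IsCyc Z.dim η) (h0 : Z.V.degCycle η ≠ 0) {p : ℕ} {c : W.H Y} (hc : c ∈ F.T Y p) :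
    c ∈ G.T Y p := by
  have h1 := G.cl_mul (ops.pull_mem (fst Z Y) hη) (h p (F.map (snd Z Y) hc))
  have h2 := G.push (snd Z Y) (q := p) h1 (by rw [dim_prod]; ring)
  rw [W.cl_pull, W.push_snd, W.tr_cl hη] at h2
  have h3 := G.smul (Z.V.degCycle η)⁻¹ h2
  rw [smul_smul, ← Rat.cast_mul, inv_mul_cancel₀ h0, Rat.cast_one, one_smul] at h3
  exact h3

/-- A zero-cycle of nonzero degree. -/
lemma exists_top {E : Z.Cycles} (hE : Z.IsCyc 1 E) (hHL : HardLefschetz W Z E) :
    (∃ η, Z.IsCyc Z.dim η ∧ Z.V.degCycle η ≠ 0) ∨ (1 : W.H Z) = 0 := by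
  by_cases h0 : W.tr Z ((LinearMap.mulLeft W.K (W.cl Z E) ^ Z.dim) 1) = 0
  · right
    apply W.nondeg
    intro b
    rw [one_mul]
    refine gr_induction (W.isInternal Z) (p := fun b => W.tr Z b = 0) ?_ ?_ b
    · intro j b hb
      by_cases hj : j = 2 * Z.dim
      · subst hj
        obtain ⟨a, ha, rfl⟩ := (hHL 0 (by omega)).2 b (by simpa using hb)
        rw [W.gr_zero] at ha
        obtain ⟨q, rfl⟩ := Submodule.mem_span_singleton.1 ha
        rw [map_smul, map_smul, Nat.sub_zero, h0, smul_zero]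
      · exact W.tr_eq_zero hb hj
    · intro a b ha hb
      rw [map_add, ha, hb, add_zero]
  · left
    have hcyc : ∀ r : ℕ, Z.IsCyc r (divPow ops E r Z.V.fundCycle) := by
      intro r
      induction r with
      | zero => exact Z.V.fundCycle_mem
      | succ r ih =>
        have h1 := ops.mul_mem hE ih
        rw [divPow, Function.iterate_succ_apply']
        rwa [add_comm] at h1
    refine ⟨divPow ops E Z.dim Z.V.fundCycle, hcyc _, ?_⟩
    intro h1
    apply h0
    have h2 := W.tr_cl (hcyc Z.dim)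
    rw [h1, cl_divPow, W.cl_fund] at h2
    rw [h2, Rat.cast_zero]

/-- From the product of a variety and a hyperplane section to the factors. -/
theorem Fam.factors {i : Y ⟶ X} {D : X.Cycles} (hdim : X.dim = Y.dim + 1)
    (hD : X.IsCyc 1 D) (hY : W.cl X (ops.push i Y.V.fundCycle) = W.cl X D)
    (hHL : HardLefschetz W X D) (hWL : WeakLefschetz W i)
    (h : ∀ (e : ℤ) (φ : W.H X →ₗ[W.K] W.H Y), F.Op X Y e φ → G.Op X Y e φ) (p : ℕ) :
    F.T X p ⊆ G.T X p ∧ F.T Y p ⊆ G.T Y p := by
  have hs := hsec hdim hD hY hHL hWL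
  have hE := pull_mem_one (i := i) (ops := ops) hD
  have hXY : ∀ p, F.T (X.prod Y) p ⊆ G.T (X.prod Y) p := by
    intro p c hc
    exact (h ((p : ℤ) - X.dim) _ (Fam.Op.gen (by ring) hc)).mem (by ring)
  have hYX : ∀ p, F.T (Y.prod X) p ⊆ G.T (Y.prod X) p := by
    intro p c hc
    exact (Fam.op_swap h ((p : ℤ) - Y.dim) _ (Fam.Op.gen (by ring) hc)).mem (by ring)
  constructor
  · intro c hc
    rcases exists_top hE hs.hl' with ⟨η, hη, h0⟩ | h0
    · exact Fam.of_prod hYX hη h0 hc
    · have h1 : (1 : W.H X) = 0 := by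
        apply (hHL 0 (by omega)).1 1 (W.one_mem X)
        rw [show X.dim - 0 = Y.dim + 1 by omega, pow_succ, Module.End.mul_apply]
        have h2 := hs.γι 1
        rw [← h2]
        have h3 : (W.map i).toLinearMap (1 : W.H X) = 0 := by
          rw [AlgHom.toLinearMap_apply, map_one, h0]
        rw [h3, map_zero, map_zero]
      have h2 : c = 0 := by rw [← mul_one c, h1, mul_zero]
      rw [h2]
      exact G.zero _ _
  · intro c hc
    rcases exists_top hD hHL with ⟨η, hη, h0⟩ | h0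
    · exact Fam.of_prod hXY hη h0 hc
    · have h1 : (1 : W.H Y) = 0 := by
        rw [← map_one (W.map i), h0, map_zero]
      have h2 : c = 0 := by rw [← mul_one c, h1, mul_zero]
      rw [h2]
      exact G.zero _ _

end Pool.Agent.W534
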